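import Pool.Agent.H96.EQ.QB
import Pool.Agent.H6.MF.HUP

/-!
# QJ: the third moment is at least the cube of the relative density

`Λ = log x`, `N = ⌊x⌋₊`, `q = dq x Q` (the relative density of `Q` up to `x`), `A = #{n ≤ N : n ∈ Q}`, so `q = A Λ/x`; `0 ≤ q ≤ 3` for large `x` is not needed,
only `0 ≤ A ≤ N + 1`.
1. `∑_{n ≤ N} wq Q 0 D n = ∑_{b ∈ Ioc 0 D} #{n ≤ N : n - b ∈ Q} ≥ ∑_{b ∈ Ioc 0 D} (A - b) ≥ D A - D^2`: for `b` fixed the map `m ↦ m + b` sends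
   `{m ≤ N - b : m ∈ Q}` injectively into `{n ≤ N : n - b ∈ Q}`, and at most `b ≤ D` elements `m ∈ Q` are in `(N - b, N]`. (If `A < D` the bound is trivial.)
   Hence `m₁ := ∑_n Yq x Q 0 D n = (Λ/D) ∑_n wq Q 0 D n ≥ Λ (A - D)`.
2. Jensen (power mean, `inner` form `Real.pow_arith_mean_le_arith_mean_pow` with the weights `1/(N+1)`, or `Finset.inner_mul_le_norm_mul_norm` replaced by
   `inv_mul_le`-free `Real.inner_le`...; the simplest is `Real.pow_arith_mean_le_arith_mean_pow`): `∑_n Yq^3 ≥ (∑_n Yq)^3/(N+1)^2` (`Yq ≥ 0`).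
3. So `kq x Q Q Q D = (1/x) ∑ Yq^3 ≥ (max 0 (Λ (A - D)))^3/(x (x+1)^2)`. If `A ≤ D` then `q ≤ Λ D/x ≤ Λ^4/x` is so small that `q^3 ≤ ε` for large `x`, and
   `kq ≥ 0`. If `A > D`: `(Λ(A-D))^3 ≥ (ΛA)^3 - 3 (ΛA)^2 Λ D` and `1/(x (x+1)^2) ≥ (1/x^3) (1 - 2/x)`; with `ΛA ≤ 2 Λ x`, the loss is at most
   `3 (2Λ)^2 Λ D/x + (2Λ)^3 · 2/x ≤ 12 Λ^6/x + 16 Λ^3/x ≤ ε` for large `x` (`D ≤ Λ^3`; `HUP_growth`: `∀ᶠ x, K (log x)^m ≤ x`).
-/

set_option autoImplicit false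

namespace Pool.Agent.H96.EQ

open Finset Pool.Agent.H6.MF

open Classical in
/-- the relative density of the set `Q` of primes up to `x` -/
noncomputable def dq (x : ℝ) (Q : Set ℤ) : ℝ :=
  (((range (⌊x⌋₊ + 1)).filter (fun n : ℕ => (n : ℤ) ∈ Q)).card : ℝ) * Real.log x / x

private theorem QJ_shift (g : ℤ → ℝ) (h0 : ∀ n, 0 ≤ g n) (h1 : ∀ n, g n ≤ 1) (N b : ℕ) :
    ∑ n ∈ range N, g (n : ℤ) - b ≤ ∑ n ∈ range N, g ((n : ℤ) - b) := by
  induction b with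
  | zero => simp
  | succ b ih =>
    refine le_trans ?_ (show ∑ n ∈ range N, g ((n : ℤ) - b) - 1 ≤
      ∑ n ∈ range N, g ((n : ℤ) - ((b + 1 : ℕ) : ℤ)) from ?_)
    · push_cast
      linarith
    · have h3 := Finset.sum_range_succ (fun n : ℕ => g ((n : ℤ) - ((b + 1 : ℕ) : ℤ))) N
      have h4 := Finset.sum_range_succ' (fun n : ℕ => g ((n : ℤ) - ((b + 1 : ℕ) : ℤ))) N
      rw [h3] at h4
      have h5 : ∑ n ∈ range N, g (((n + 1 : ℕ) : ℤ) - ((b + 1 : ℕ) : ℤ)) =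
          ∑ n ∈ range N, g ((n : ℤ) - b) :=
        Finset.sum_congr rfl fun n _ => by
          congr 1
          push_cast
          ring
      rw [h5] at h4
      have h6 := h1 ((N : ℤ) - ((b + 1 : ℕ) : ℤ))
      have h7 := h0 (((0 : ℕ) : ℤ) - ((b + 1 : ℕ) : ℤ))
      linarith

open Classical in
private theorem QJ_wsum (Q : Set ℤ) (N D A : ℕ)
    (hA : A = ((range N).filter (fun n : ℕ => (n : ℤ) ∈ Q)).card) :
    (D : ℝ) * (A - D) ≤ ∑ n ∈ range N, (wq Q 0 (D : ℤ) (n : ℤ) : ℝ) := by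
  have h1 : ∀ n : ℕ, (wq Q 0 (D : ℤ) (n : ℤ) : ℝ) =
      ∑ b ∈ Ioc 0 D, (if (n : ℤ) - (b : ℤ) ∈ Q then (1 : ℝ) else 0) := by
    intro n
    have h := wq_sum Q 0 D (n : ℤ)
    rw [Nat.cast_zero] at h
    exact h
  rw [Finset.sum_congr rfl fun n _ => h1 n, Finset.sum_comm]
  have h2 : ∀ b ∈ Ioc 0 D, (A : ℝ) - D ≤
      ∑ n ∈ range N, (if (n : ℤ) - (b : ℤ) ∈ Q then (1 : ℝ) else 0) := by
    intro b hb
    rw [mem_Ioc] at hb
    have h3 := QJ_shift (fun m => if m ∈ Q then (1 : ℝ) else 0)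
      (fun n => by split_ifs <;> norm_num) (fun n => by split_ifs <;> norm_num) N b
    refine le_trans ?_ h3
    have h4 : ∑ n ∈ range N, (if (n : ℤ) ∈ Q then (1 : ℝ) else 0) = A := by
      rw [hA, Finset.sum_boole]
    have h5 : (b : ℝ) ≤ D := by exact_mod_cast hb.2
    simp only [h4]
    linarith
  refine le_trans (le_of_eq ?_) (Finset.sum_le_sum h2)
  rw [Finset.sum_const, Nat.card_Ioc, nsmul_eq_mul, Nat.sub_zero]

private theorem QJ_alg (x L a δ ε : ℝ) (hx : 1 ≤ x) (hL : 1 ≤ L) (hδ0 : 0 ≤ δ) (hδ : δ ≤ L ^ 4)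
    (ha : δ ≤ a) (ha2 : a ≤ 2 * L * x) (hε : 28 * L ^ 6 ≤ ε * x) :
    (a / x) ^ 3 - ε ≤ (a - δ) ^ 3 / (x + 1) ^ 2 / x := by
  have hx0 : 0 < x := by linarith
  have ha0 : 0 ≤ a := hδ0.trans ha
  have h1 : a ^ 3 - 3 * a ^ 2 * δ ≤ (a - δ) ^ 3 := by
    have : (a - δ) ^ 3 = a ^ 3 - 3 * a ^ 2 * δ + δ ^ 2 * (3 * a - δ) := by ring
    have h2 : 0 ≤ δ ^ 2 * (3 * a - δ) := mul_nonneg (sq_nonneg _) (by linarith)
    linarith
  have hq : a / x ≤ 2 * L := by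
    rw [div_le_iff₀ hx0]
    exact ha2
  have hq0 : 0 ≤ a / x := div_nonneg ha0 hx0.le
  obtain ⟨q, hqd⟩ : ∃ q, q = a / x := ⟨_, rfl⟩
  rw [← hqd] at hq hq0 ⊢
  have haq : a = q * x := by
    rw [hqd]
    field_simp
  have h3 : (a ^ 3 - 3 * a ^ 2 * δ) / (x + 1) ^ 2 / x ≤ (a - δ) ^ 3 / (x + 1) ^ 2 / x := by
    gcongr
  refine le_trans ?_ h3
  rw [le_div_iff₀ hx0, le_div_iff₀ (by positivity), haq]
  -- (q^3 - ε) x (x+1)^2 ≤ q^3 x^3 - 3 q^2 x^2 δ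
  have h4 : q ^ 3 ≤ 8 * L ^ 3 := by
    have := pow_le_pow_left₀ hq0 hq 3
    calc q ^ 3 ≤ (2 * L) ^ 3 := this
      _ = 8 * L ^ 3 := by ring
  have h5 : q ^ 2 ≤ 4 * L ^ 2 := by
    have := pow_le_pow_left₀ hq0 hq 2
    calc q ^ 2 ≤ (2 * L) ^ 2 := this
      _ = 4 * L ^ 2 := by ring
  have hL0 : 0 ≤ L := by linarith
  have h6 : q ^ 2 * δ ≤ 4 * L ^ 6 := by
    calc q ^ 2 * δ ≤ (4 * L ^ 2) * L ^ 4 := mul_le_mul h5 hδ hδ0 (by positivity)
      _ = 4 * L ^ 6 := by ring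
  have h7 : q ^ 3 ≤ 8 * L ^ 6 :=
    h4.trans (mul_le_mul_of_nonneg_left (pow_le_pow_right₀ hL (by norm_num)) (by norm_num))
  have h8 : q ^ 3 * x * (2 * x + 1) ≤ 8 * L ^ 6 * (2 * (x + 1) ^ 2) := by
    have e1 : x * (2 * x + 1) ≤ 2 * (x + 1) ^ 2 := by nlinarith
    calc q ^ 3 * x * (2 * x + 1) = q ^ 3 * (x * (2 * x + 1)) := by ring
      _ ≤ 8 * L ^ 6 * (2 * (x + 1) ^ 2) := mul_le_mul h7 e1 (by positivity) (by positivity)
  have h9 : 3 * (q ^ 2 * δ) * x ^ 2 ≤ 3 * (4 * L ^ 6) * (x + 1) ^ 2 := by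
    have e1 : x ^ 2 ≤ (x + 1) ^ 2 := pow_le_pow_left₀ hx0.le (by linarith) 2
    have e2 : 0 ≤ q ^ 2 * δ := mul_nonneg (sq_nonneg _) hδ0
    exact mul_le_mul (by linarith) e1 (by positivity) (by positivity)
  have h10 : 28 * L ^ 6 * (x + 1) ^ 2 ≤ ε * x * (x + 1) ^ 2 :=
    mul_le_mul_of_nonneg_right hε (by positivity)
  nlinarith [h8, h9, h10]

private theorem QJ_inner (s : Finset ℕ) (f : ℕ → ℝ) (hf : ∀ i ∈ s, 0 ≤ f i) :
    (∑ i ∈ s, f i) ^ 3 / (s.card : ℝ) ^ 2 ≤ ∑ i ∈ s, f i ^ 3 := by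
  exact pow_sum_div_card_le_sum_pow (n := 2) hf

theorem kq_ge (ε : ℝ) (hε : 0 < ε) : ∃ X : ℝ, ∀ x : ℝ, X ≤ x → ∀ Q : Set ℤ, PQ Q → ∀ D : ℕ, 1 ≤ D →
    (D : ℝ) ≤ (Real.log x) ^ 3 → (dq x Q) ^ 3 - ε ≤ kq x Q Q Q D := by
  have hev : ∀ᶠ x : ℝ in Filter.atTop, (28 / ε) * (Real.log x) ^ 6 ≤ x ∧
      1 * (Real.log x) ^ 6 ≤ x ∧ 1 ≤ Real.log x ∧ 1 ≤ x := by
    filter_upwards [HUP_growth (28 / ε) 6, HUP_growth 1 6,
      Real.tendsto_log_atTop.eventually_ge_atTop 1, Filter.eventually_ge_atTop (1 : ℝ)]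
      with x a1 a2 a3 a4
    exact ⟨a1, a2, a3, a4⟩
  obtain ⟨X, hX⟩ := Filter.eventually_atTop.1 hev
  refine ⟨X, ?_⟩
  intro x hx Q hQ D hD1 hD
  obtain ⟨g1, g2, hL, hx1⟩ := hX x hx
  rw [one_mul] at g2
  have hx0 : 0 < x := by linarith
  have hL0 : 0 ≤ Real.log x := by linarith
  have hD0 : (0 : ℝ) < D := by exact_mod_cast hD1
  have hε6 : 28 * (Real.log x) ^ 6 ≤ ε * x := by
    rw [div_mul_eq_mul_div, div_le_iff₀ hε] at g1
    linarith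
  classical
  obtain ⟨A, hA⟩ : ∃ A : ℕ, A = ((range (⌊x⌋₊ + 1)).filter (fun n : ℕ => (n : ℤ) ∈ Q)).card :=
    ⟨_, rfl⟩
  have hdq : dq x Q = (A : ℝ) * Real.log x / x := by
    unfold dq
    rw [hA]
  have hwsum := QJ_wsum Q (⌊x⌋₊ + 1) D A (by
    rw [hA])
  have hAN : (A : ℝ) ≤ x + 1 := by
    have h1 : A ≤ ⌊x⌋₊ + 1 := by
      rw [hA]
      refine (card_filter_le _ _).trans ?_
      rw [card_range]
    have h2 : (A : ℝ) ≤ (⌊x⌋₊ : ℝ) + 1 := by exact_mod_cast h1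
    have h3 := Nat.floor_le hx0.le
    linarith
  have hYn : ∀ n : ℕ, 0 ≤ Yq x Q 0 (D : ℤ) (n : ℤ) := fun n =>
    Yq_nonneg x hx1 Q 0 D n (by positivity)
  have hkq : kq x Q Q Q D = (∑ n ∈ range (⌊x⌋₊ + 1), Yq x Q 0 (D : ℤ) (n : ℤ) ^ 3) / x := by
    unfold kq
    congr 1
    refine Finset.sum_congr rfl fun n _ => ?_
    ring
  have hδ : Real.log x * D ≤ (Real.log x) ^ 4 := by
    calc Real.log x * D ≤ Real.log x * (Real.log x) ^ 3 := mul_le_mul_of_nonneg_left hD hL0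
      _ = (Real.log x) ^ 4 := by ring
  by_cases hAD : A ≤ D
  · have h1 : (dq x Q) ≤ (Real.log x) ^ 6 / x := by
      rw [hdq]
      refine div_le_div_of_nonneg_right ?_ hx0.le
      have h2 : (A : ℝ) ≤ D := by exact_mod_cast hAD
      calc (A : ℝ) * Real.log x ≤ D * Real.log x := mul_le_mul_of_nonneg_right h2 hL0
        _ = Real.log x * D := mul_comm _ _
        _ ≤ (Real.log x) ^ 4 := hδ
        _ ≤ (Real.log x) ^ 6 := pow_le_pow_right₀ hL (by norm_num)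
    have h0 : 0 ≤ dq x Q := by
      rw [hdq]
      positivity
    have h3 : dq x Q ≤ 1 := h1.trans (by rw [div_le_one hx0]; exact g2)
    have h4 : (dq x Q) ^ 3 ≤ dq x Q := by
      calc (dq x Q) ^ 3 ≤ (dq x Q) ^ 1 := pow_le_pow_of_le_one h0 h3 (by norm_num)
        _ = dq x Q := pow_one _
    have h5 : (Real.log x) ^ 6 / x ≤ ε := by
      rw [div_le_iff₀ hx0]
      have : 0 ≤ (Real.log x) ^ 6 := by positivity
      linarith
    have h6 : 0 ≤ kq x Q Q Q D := by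
      rw [hkq]
      refine div_nonneg (Finset.sum_nonneg fun n _ => pow_nonneg (hYn n) 3) hx0.le
    linarith
  · have hAD' : (D : ℝ) ≤ A := by exact_mod_cast (not_le.1 hAD).le
    have hm1 : Real.log x * (A - D) ≤ ∑ n ∈ range (⌊x⌋₊ + 1), Yq x Q 0 (D : ℤ) (n : ℤ) := by
      have h1 : ∑ n ∈ range (⌊x⌋₊ + 1), Yq x Q 0 (D : ℤ) (n : ℤ) =
          (Real.log x / D) * ∑ n ∈ range (⌊x⌋₊ + 1), (wq Q 0 (D : ℤ) (n : ℤ) : ℝ) := by
        rw [Finset.mul_sum]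
        refine Finset.sum_congr rfl fun n _ => ?_
        unfold Yq
        rw [Int.cast_natCast, Int.cast_zero, sub_zero]
        ring
      rw [h1]
      have h2 : Real.log x * ((A : ℝ) - D) = (Real.log x / D) * (D * (A - D)) := by
        field_simp
      rw [h2]
      exact mul_le_mul_of_nonneg_left hwsum (by positivity)
    have hj := QJ_inner (range (⌊x⌋₊ + 1)) (fun n : ℕ => Yq x Q 0 (D : ℤ) (n : ℤ))
      (fun n _ => hYn n)
    have hcard : ((range (⌊x⌋₊ + 1)).card : ℝ) ≤ x + 1 := by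
      rw [card_range]
      push_cast
      have h3 := Nat.floor_le hx0.le
      linarith
    have hcard0 : (0 : ℝ) < ((range (⌊x⌋₊ + 1)).card : ℝ) := by
      rw [card_range]
      positivity
    have hfin := QJ_alg x (Real.log x) (Real.log x * A) (Real.log x * D) ε hx1 hL (by positivity) hδ
      (mul_le_mul_of_nonneg_left hAD' hL0) (by nlinarith) hε6
    have h8 : dq x Q = Real.log x * A / x := by
      rw [hdq]
      ring
    rw [h8]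
    refine hfin.trans ?_
    rw [hkq]
    refine div_le_div_of_nonneg_right ?_ hx0.le
    refine le_trans ?_ hj
    have h9 : Real.log x * A - Real.log x * D = Real.log x * (A - D) := by ring
    rw [h9]
    have h10 : 0 ≤ Real.log x * (A - D) := mul_nonneg hL0 (by linarith)
    refine div_le_div₀ (by
      refine pow_nonneg ?_ 3
      exact Finset.sum_nonneg fun n _ => hYn n) (pow_le_pow_left₀ h10 hm1 3) (by positivity)
      (pow_le_pow_left₀ hcard0.le hcard 2)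

theorem dq_nonneg (x : ℝ) (hx : 1 ≤ x) (Q : Set ℤ) : 0 ≤ dq x Q := by
  classical
  unfold dq
  have h := Real.log_nonneg hx
  positivity

end Pool.Agent.H96.EQ
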