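import Mathlib

/-!
# SHF: shifting a sum over `0 ≤ n ≤ N` (Mathlib only)

* `shift_le`: the terms with `n < b` are `f (n - b)` with `n - b < 0`, hence `0`. The other terms are the
  `f m`, `m = n - b ∈ [0, N - b] ⊆ [0, N]`, each once. In Lean: write `b = (c : ℤ)` with `c : ℕ`
  (`Int.eq_ofNat_of_zero_le`), prove by cases `c ≤ N + 1`: `range (N+1)` splits into `range c` (terms zero) and the
  image of `range (N + 1 - c)` under `+ c` (`Finset.sum_range_add`-type lemma: for `N + 1 = c + M`,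
  `Finset.sum_range_add`/`Finset.sum_range_add_sum...`: `∑ n ∈ range (c + M), g n = ∑ n ∈ range c, g n +
  ∑ n ∈ range M, g (c + n)`), and `∑ n ∈ range M, f n ≤ ∑ n ∈ range (N+1), f n`
  (`Finset.sum_le_sum_of_subset_of_nonneg`). If `c > N + 1` all terms vanish and the right-hand side is `≥ 0`.
* `shift_eq`: the same with equality: `f m = 0` for `m > N - s`, in particular for `m ∈ (N - c, N]` as `c ≤ s`.
  (If `c > N + 1` all terms on both sides are zero: on the right `m ≥ 0 > N - s`.)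
-/

set_option autoImplicit false

namespace Pool.Agent.H96.EQ

open Finset

theorem SHF_split (c M : ℕ) (f : ℤ → ℝ) (h0 : ∀ n : ℤ, n < 0 → f n = 0) :
    ∑ n ∈ range (c + M), f ((n : ℤ) - (c : ℤ)) = ∑ n ∈ range M, f (n : ℤ) := by
  rw [Finset.sum_range_add]
  have h1 : ∑ n ∈ range c, f ((n : ℤ) - (c : ℤ)) = 0 := by
    apply Finset.sum_eq_zero
    intro n hn
    apply h0
    have := Finset.mem_range.1 hn
    omega
  rw [h1, zero_add]
  apply Finset.sum_congr rfl
  intro n _
  congr 1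
  push_cast
  ring

theorem shift_le (N : ℕ) (f : ℤ → ℝ) (h0 : ∀ n : ℤ, n < 0 → f n = 0) (hf : ∀ n : ℤ, 0 ≤ f n) (b : ℤ) (hb : 0 ≤ b) :
    ∑ n ∈ range (N + 1), f ((n : ℤ) - b) ≤ ∑ n ∈ range (N + 1), f (n : ℤ) := by
  obtain ⟨c, rfl⟩ := Int.eq_ofNat_of_zero_le hb
  by_cases hc : c ≤ N + 1
  · obtain ⟨M, hM⟩ := Nat.exists_eq_add_of_le hc
    rw [hM, SHF_split c M f h0]
    apply Finset.sum_le_sum_of_subset_of_nonneg
    · apply Finset.range_subset_range.2
      omega
    · intro i _ _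
      exact hf _
  · have h1 : ∑ n ∈ range (N + 1), f ((n : ℤ) - (c : ℤ)) = 0 := by
      apply Finset.sum_eq_zero
      intro n hn
      apply h0
      have := Finset.mem_range.1 hn
      omega
    rw [h1]
    exact Finset.sum_nonneg (fun i _ => hf _)

theorem shift_eq (N : ℕ) (s : ℤ) (f : ℤ → ℝ) (h0 : ∀ n : ℤ, n < 0 → f n = 0)
    (h1 : ∀ n : ℤ, (N : ℤ) - s < n → f n = 0) (b : ℤ) (hb : 0 ≤ b) (hbs : b ≤ s) :
    ∑ n ∈ range (N + 1), f ((n : ℤ) - b) = ∑ n ∈ range (N + 1), f (n : ℤ) := by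
  obtain ⟨c, rfl⟩ := Int.eq_ofNat_of_zero_le hb
  by_cases hc : c ≤ N + 1
  · obtain ⟨M, hM⟩ := Nat.exists_eq_add_of_le hc
    rw [hM, SHF_split c M f h0, Nat.add_comm c M, Finset.sum_range_add]
    have h2 : ∑ n ∈ range c, f (((M + n : ℕ) : ℤ)) = 0 := by
      apply Finset.sum_eq_zero
      intro n hn
      apply h1
      push_cast
      omega
    rw [h2, add_zero]
  · have h2 : ∑ n ∈ range (N + 1), f ((n : ℤ) - (c : ℤ)) = 0 := by
      apply Finset.sum_eq_zero
      intro n hn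
      apply h0
      have := Finset.mem_range.1 hn
      omega
    have h3 : ∑ n ∈ range (N + 1), f (n : ℤ) = 0 := by
      apply Finset.sum_eq_zero
      intro n hn
      apply h1
      omega
    rw [h2, h3]

end Pool.Agent.H96.EQ
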