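import Pool.Agent.H96.EQ.Defs
import Pool.Agent.H96.EQ.SHF

/-!
# AVE: averaging over a shift

`F m = 0` for `m < 0` because `isP m` is false (`m.toNat = 0`). For `b ∈ (0, s]`:
* `isP (n - b)` gives `|F (n - b)| ≤ win 0 D (n - b) = win b (D + b) n ≤ win 0 (D + s) n` (`win_shift`, `win_mono`); without
  `isP (n - b)` `F (n - b) = 0`. `∑_{b ∈ Ioc 0 s} (if isP (n - b) then 1 else 0) = win 0 s n` (definition,
  `Finset.card_filter`). So `∑_b |F (n - b)| ≤ win 0 s n · win 0 (D + s) n`: this is `AVE_abs`; `AVE_bd` follows.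
* `AVE`: for each `b ∈ Ioc 0 s`, `shift_eq` (with `f m = F m * win u v m`) gives
  `∑_n F n win u v n = ∑_n F (n - b) win u v (n - b) = ∑_n F (n - b) win (u + b) (v + b) n` (`win_shift`). Sum over
  `b` (`#(Ioc 0 s) = s`) and interchange: the difference in question is
  `∑_n ∑_b F (n - b) (win (u + b) (v + b) n - win u v n)`. For `0 ≤ b ≤ s`, `u ≤ v`:
  `win (u+b) (v+b) n ≤ win u (v + b) n = win u v n + win v (v + b) n ≤ win u v n + win v (v + s) n` and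
  `win u v n ≤ win u (v + b) n = win u (u + b) n + win (u + b) (v + b) n ≤ win u (u + s) n + win (u + b) (v + b) n`
  (`win_mono`, `win_add`). So the absolute value of the bracket is `≤ win u (u + s) n + win v (v + s) n`; use
  `AVE_abs`.
* `TRL`: `∑_{b ∈ Ioc 0 s} ∑_n g (n - b) ≤ s ∑_n g n` (`shift_le`) for `g m = if isP m then (win 0 D m)^2 else 0`; the
  left-hand side is `∑_n ∑_b (if isP (n - b) then (win b (D + b) n)^2 else 0) ≥ ∑_n win 0 s n (win s D n)^2`, because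
  `(s, D] ⊆ (b, D + b]` for `0 ≤ b ≤ s`.
-/

set_option autoImplicit false

namespace Pool.Agent.H96.EQ

open Finset Pool.Agent.H6.MF

theorem AVE_win (s : ℕ) (n : ℤ) :
    (win 0 (s : ℤ) n : ℝ) = ∑ b ∈ Ioc (0 : ℤ) (s : ℤ), (if isP (n - b) then (1 : ℝ) else 0) := by
  rw [win, Finset.card_filter]
  push_cast
  rfl

theorem AVE_sh (D : ℕ) (n b : ℤ) : win 0 (D : ℤ) (n - b) = win b ((D : ℤ) + b) n := by
  have h := win_shift 0 (D : ℤ) (n - b) b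
  rw [← h, zero_add, sub_add_cancel]

theorem AVE_sh2 (u v n b : ℤ) : win u v (n - b) = win (u + b) (v + b) n := by
  have h := win_shift u v (n - b) b
  rw [← h, sub_add_cancel]

theorem AVE_one (s D : ℕ) (F : ℤ → ℝ)
    (hF : ∀ n : ℤ, |F n| ≤ if isP n then (win 0 (D : ℤ) n : ℝ) else 0) (n b : ℤ)
    (hb : b ∈ Ioc (0 : ℤ) (s : ℤ)) :
    |F (n - b)| ≤ (if isP (n - b) then (1 : ℝ) else 0) * (win 0 ((D + s : ℕ) : ℤ) n : ℝ) := by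
  rw [Finset.mem_Ioc] at hb
  have h := hF (n - b)
  by_cases hp : isP (n - b)
  · rw [if_pos hp] at h ⊢
    rw [one_mul]
    refine h.trans ?_
    rw [AVE_sh]
    have h2 : win b ((D : ℤ) + b) n ≤ win 0 ((D + s : ℕ) : ℤ) n := by
      apply win_mono
      · omega
      · push_cast; omega
    exact_mod_cast h2
  · rw [if_neg hp] at h ⊢
    rw [zero_mul]
    exact h

theorem AVE_abs (s D : ℕ) (F : ℤ → ℝ) (hF : ∀ n : ℤ, |F n| ≤ if isP n then (win 0 (D : ℤ) n : ℝ) else 0) (n : ℤ) :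
    ∑ b ∈ Ioc (0 : ℤ) (s : ℤ), |F (n - b)| ≤ (win 0 (s : ℤ) n : ℝ) * (win 0 ((D + s : ℕ) : ℤ) n : ℝ) := by
  rw [AVE_win, Finset.sum_mul]
  exact Finset.sum_le_sum fun b hb => AVE_one s D F hF n b hb

theorem AVE_bd (s D : ℕ) (F : ℤ → ℝ) (hF : ∀ n : ℤ, |F n| ≤ if isP n then (win 0 (D : ℤ) n : ℝ) else 0) (n : ℤ) :
    |∑ b ∈ Ioc (0 : ℤ) (s : ℤ), F (n - b)| ≤ (win 0 (s : ℤ) n : ℝ) * (win 0 ((D + s : ℕ) : ℤ) n : ℝ) :=
  (Finset.abs_sum_le_sum_abs _ _).trans (AVE_abs s D F hF n)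

theorem AVE_notP {n : ℤ} (hn : n < 0) : ¬ isP n := by
  intro h
  have h1 : n.toNat = 0 := Int.toNat_of_nonpos hn.le
  unfold isP at h
  rw [h1] at h
  exact Nat.not_prime_zero h

theorem AVE_diff {u v s : ℕ} (huv : u ≤ v) (n b : ℤ) (hb : b ∈ Ioc (0 : ℤ) (s : ℤ)) :
    |(win ((u : ℤ) + b) ((v : ℤ) + b) n : ℝ) - (win (u : ℤ) (v : ℤ) n : ℝ)| ≤
      (win (u : ℤ) ((u + s : ℕ) : ℤ) n : ℝ) + (win (v : ℤ) ((v + s : ℕ) : ℤ) n : ℝ) := by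
  rw [Finset.mem_Ioc] at hb
  have huv' : (u : ℤ) ≤ (v : ℤ) := by exact_mod_cast huv
  have a1 : win ((u : ℤ) + b) ((v : ℤ) + b) n ≤ win (u : ℤ) ((v : ℤ) + b) n :=
    win_mono (by omega) le_rfl
  have a2 : win (u : ℤ) ((v : ℤ) + b) n = win (u : ℤ) (v : ℤ) n + win (v : ℤ) ((v : ℤ) + b) n :=
    win_add huv' (by omega) n
  have a3 : win (v : ℤ) ((v : ℤ) + b) n ≤ win (v : ℤ) ((v + s : ℕ) : ℤ) n :=
    win_mono le_rfl (by push_cast; omega)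
  have b1 : win (u : ℤ) (v : ℤ) n ≤ win (u : ℤ) ((v : ℤ) + b) n := win_mono le_rfl (by omega)
  have b2 : win (u : ℤ) ((v : ℤ) + b) n = win (u : ℤ) ((u : ℤ) + b) n +
      win ((u : ℤ) + b) ((v : ℤ) + b) n := win_add (by omega) (by omega) n
  have b3 : win (u : ℤ) ((u : ℤ) + b) n ≤ win (u : ℤ) ((u + s : ℕ) : ℤ) n :=
    win_mono le_rfl (by push_cast; omega)
  have c1 : win ((u : ℤ) + b) ((v : ℤ) + b) n ≤
      win (u : ℤ) (v : ℤ) n + win (v : ℤ) ((v + s : ℕ) : ℤ) n := by omega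
  have c2 : win (u : ℤ) (v : ℤ) n ≤
      win (u : ℤ) ((u + s : ℕ) : ℤ) n + win ((u : ℤ) + b) ((v : ℤ) + b) n := by omega
  have d1 : (win ((u : ℤ) + b) ((v : ℤ) + b) n : ℝ) ≤
      (win (u : ℤ) (v : ℤ) n : ℝ) + (win (v : ℤ) ((v + s : ℕ) : ℤ) n : ℝ) := by exact_mod_cast c1
  have d2 : (win (u : ℤ) (v : ℤ) n : ℝ) ≤
      (win (u : ℤ) ((u + s : ℕ) : ℤ) n : ℝ) + (win ((u : ℤ) + b) ((v : ℤ) + b) n : ℝ) := by
    exact_mod_cast c2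
  have e1 : (0 : ℝ) ≤ (win (u : ℤ) ((u + s : ℕ) : ℤ) n : ℝ) := Nat.cast_nonneg _
  have e2 : (0 : ℝ) ≤ (win (v : ℤ) ((v + s : ℕ) : ℤ) n : ℝ) := Nat.cast_nonneg _
  rw [abs_le]
  constructor <;> linarith

theorem AVE (x : ℝ) (s D u v : ℕ) (F : ℤ → ℝ)
    (hF : ∀ n : ℤ, |F n| ≤ if isP n then (win 0 (D : ℤ) n : ℝ) else 0)
    (hs : ∀ n : ℤ, (⌊x⌋₊ : ℤ) - (s : ℤ) < n → F n = 0) (huv : u ≤ v) :
    |(s : ℝ) * ∑ n ∈ range (⌊x⌋₊ + 1), F (n : ℤ) * (win (u : ℤ) (v : ℤ) (n : ℤ) : ℝ)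
        - ∑ n ∈ range (⌊x⌋₊ + 1), (∑ b ∈ Ioc (0 : ℤ) (s : ℤ), F ((n : ℤ) - b)) * (win (u : ℤ) (v : ℤ) (n : ℤ) : ℝ)|
      ≤ ∑ n ∈ range (⌊x⌋₊ + 1), (win 0 (s : ℤ) (n : ℤ) : ℝ) * (win 0 ((D + s : ℕ) : ℤ) (n : ℤ) : ℝ)
          * ((win (u : ℤ) ((u + s : ℕ) : ℤ) (n : ℤ) : ℝ) + (win (v : ℤ) ((v + s : ℕ) : ℤ) (n : ℤ) : ℝ)) := by
  have hF0 : ∀ n : ℤ, n < 0 → F n = 0 := by
    intro n hn
    have h := hF n
    rw [if_neg (AVE_notP hn)] at h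
    exact abs_eq_zero.1 (le_antisymm h (abs_nonneg _))
  have h1 : ∀ b ∈ Ioc (0 : ℤ) (s : ℤ),
      ∑ n ∈ range (⌊x⌋₊ + 1), F (n : ℤ) * (win (u : ℤ) (v : ℤ) (n : ℤ) : ℝ) =
      ∑ n ∈ range (⌊x⌋₊ + 1), F ((n : ℤ) - b) *
        (win ((u : ℤ) + b) ((v : ℤ) + b) (n : ℤ) : ℝ) := by
    intro b hb
    rw [Finset.mem_Ioc] at hb
    have h2 := shift_eq ⌊x⌋₊ (s : ℤ) (fun m : ℤ => F m * (win (u : ℤ) (v : ℤ) m : ℝ))
      (fun n hn => by simp only [hF0 n hn, zero_mul])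
      (fun n hn => by simp only [hs n hn, zero_mul]) b hb.1.le hb.2
    rw [← h2]
    refine Finset.sum_congr rfl fun n _ => ?_
    rw [AVE_sh2]
  have h3 : (s : ℝ) * ∑ n ∈ range (⌊x⌋₊ + 1), F (n : ℤ) * (win (u : ℤ) (v : ℤ) (n : ℤ) : ℝ) =
      ∑ n ∈ range (⌊x⌋₊ + 1), ∑ b ∈ Ioc (0 : ℤ) (s : ℤ), F ((n : ℤ) - b) *
        (win ((u : ℤ) + b) ((v : ℤ) + b) (n : ℤ) : ℝ) := by
    rw [Finset.sum_comm, ← Finset.sum_congr rfl h1, Finset.sum_const, Int.card_Ioc, nsmul_eq_mul]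
    congr 1
  rw [h3, ← Finset.sum_sub_distrib]
  refine (Finset.abs_sum_le_sum_abs _ _).trans (Finset.sum_le_sum fun n _ => ?_)
  rw [Finset.sum_mul, ← Finset.sum_sub_distrib]
  refine (Finset.abs_sum_le_sum_abs _ _).trans ?_
  refine le_trans (Finset.sum_le_sum (g := fun b : ℤ => |F ((n : ℤ) - b)| *
    ((win (u : ℤ) ((u + s : ℕ) : ℤ) (n : ℤ) : ℝ) + (win (v : ℤ) ((v + s : ℕ) : ℤ) (n : ℤ) : ℝ)))
    fun b hb => ?_) ?_
  · rw [← mul_sub, abs_mul]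
    exact mul_le_mul_of_nonneg_left (AVE_diff huv _ b hb) (abs_nonneg _)
  · rw [← Finset.sum_mul]
    exact mul_le_mul_of_nonneg_right (AVE_abs s D F hF n) (by positivity)

theorem TRL (x : ℝ) (s D : ℕ) :
    ∑ n ∈ range (⌊x⌋₊ + 1), (win 0 (s : ℤ) (n : ℤ) : ℝ) * (win (s : ℤ) (D : ℤ) (n : ℤ) : ℝ) ^ 2
      ≤ (s : ℝ) * S3 x 0 (D : ℤ) 0 (D : ℤ) := by
  set g : ℤ → ℝ := fun m => if isP m then (win 0 (D : ℤ) m : ℝ) * (win 0 (D : ℤ) m : ℝ) else 0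
    with hg
  have hg0 : ∀ m, 0 ≤ g m := by
    intro m
    rw [hg]
    simp only
    split_ifs
    · positivity
    · exact le_rfl
  have hgn : ∀ m : ℤ, m < 0 → g m = 0 := by
    intro m hm
    rw [hg]
    simp only [if_neg (AVE_notP hm)]
  have h1 : ∀ b ∈ Ioc (0 : ℤ) (s : ℤ), ∑ n ∈ range (⌊x⌋₊ + 1), g ((n : ℤ) - b) ≤
      S3 x 0 (D : ℤ) 0 (D : ℤ) := by
    intro b hb
    rw [Finset.mem_Ioc] at hb
    exact shift_le ⌊x⌋₊ g hgn hg0 b hb.1.le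
  have h2 : ∑ b ∈ Ioc (0 : ℤ) (s : ℤ), ∑ n ∈ range (⌊x⌋₊ + 1), g ((n : ℤ) - b) ≤
      (s : ℝ) * S3 x 0 (D : ℤ) 0 (D : ℤ) := by
    refine (Finset.sum_le_sum h1).trans (le_of_eq ?_)
    rw [Finset.sum_const, Int.card_Ioc, nsmul_eq_mul]
    congr 1
  refine le_trans ?_ h2
  rw [Finset.sum_comm]
  refine Finset.sum_le_sum fun n _ => ?_
  rw [AVE_win, Finset.sum_mul]
  refine Finset.sum_le_sum fun b hb => ?_
  rw [Finset.mem_Ioc] at hb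
  by_cases hp : isP ((n : ℤ) - b)
  · have e1 : g ((n : ℤ) - b) = (win 0 (D : ℤ) ((n : ℤ) - b) : ℝ) *
        (win 0 (D : ℤ) ((n : ℤ) - b) : ℝ) := by
      rw [hg]
      simp only [if_pos hp]
    rw [if_pos hp, one_mul, e1, AVE_sh, ← sq]
    have h3 : win (s : ℤ) (D : ℤ) (n : ℤ) ≤ win b ((D : ℤ) + b) (n : ℤ) :=
      win_mono hb.2 (by omega)
    have h4 : (win (s : ℤ) (D : ℤ) (n : ℤ) : ℝ) ≤ (win b ((D : ℤ) + b) (n : ℤ) : ℝ) := by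
      exact_mod_cast h3
    exact pow_le_pow_left₀ (Nat.cast_nonneg _) h4 2
  · rw [if_neg hp, zero_mul]
    exact hg0 _

end Pool.Agent.H96.EQ
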