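import Mathlib

/-!
# DYA: decompositions of intervals (Mathlib only)

* `dya_blocks`: induction on `q` (from `q = p`, `Nat.le_induction`): `Ioc (p h) ((q+1) h)` is the disjoint union of `Ioc (p h) (q h)` and
  `Ioc (q h) ((q+1) h)` (`Finset.sum_Ioc_consecutive`), `Finset.sum_Ico_succ_top`.
* `dya_dec`: induction on `I` with `Finset.sum_Ioc_consecutive` (`p ≤ g ≤ 2^I g ≤ Q`; `2^I g ≤ 2^(I+1) g`) and
  `Finset.sum_range_succ`.
-/

set_option autoImplicit false

namespace Pool.Agent.H96.EQ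

open Finset

theorem dya_blocks (w : ℕ → ℝ) (h p q : ℕ) (hpq : p ≤ q) :
    ∑ d ∈ Ioc (p * h) (q * h), w d = ∑ j ∈ Ico p q, ∑ d ∈ Ioc (j * h) ((j + 1) * h), w d := by
  induction q, hpq using Nat.le_induction with
  | base => simp
  | succ q hpq ih =>
    rw [Finset.sum_Ico_succ_top hpq, ← ih]
    exact (Finset.sum_Ioc_consecutive w (Nat.mul_le_mul_right h hpq)
      (Nat.mul_le_mul_right h (Nat.le_succ q))).symm

theorem dya_dec (w : ℕ → ℝ) (p g Q I : ℕ) (hp : p ≤ g) (hQ : 2 ^ I * g ≤ Q) :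
    ∑ d ∈ Ioc p Q, w d = ∑ d ∈ Ioc p g, w d + ∑ i ∈ range I, ∑ d ∈ Ioc (2 ^ i * g) (2 ^ (i + 1) * g), w d
      + ∑ d ∈ Ioc (2 ^ I * g) Q, w d := by
  induction I with
  | zero =>
    rw [pow_zero, one_mul] at hQ
    rw [Finset.sum_range_zero, add_zero, pow_zero, one_mul]
    exact (Finset.sum_Ioc_consecutive w hp hQ).symm
  | succ I ih =>
    have h1 : 2 ^ I * g ≤ 2 ^ (I + 1) * g :=
      Nat.mul_le_mul_right g (Nat.pow_le_pow_right (by norm_num) (Nat.le_succ I))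
    rw [ih (h1.trans hQ), Finset.sum_range_succ,
      ← Finset.sum_Ioc_consecutive w h1 hQ]
    ring

end Pool.Agent.H96.EQ
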