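import Pool.Agent.H96.EQ.NUM
import Pool.Agent.H96.EQ.DYA

/-!
# BLL: lower bound for the sector sum over a dyadic block, from the rectangle estimates

`D = 2^t h`. By `dya_blocks` (`p = 2^(t-1)`, `q = 2^t`) the sum is `∑_{j ∈ Ico (2^(t-1)) (2^t)} ∑_{d ∈ Ioc (j h) ((j+1) h)} sec f α β d`.
Fix `j` (`2^(t-1) ≤ j < 2^t`, `(j+1) h ≤ D`, `D ≤ 2 j h ≤ 2 (j+1) h`), `J₂ = Ioc (j h) ((j+1) h)`, `a₀ = ⌊α (j+1) h⌋₊`,
`a₁ = ⌊β j h⌋₊ ≤ j h ≤ D`. Claim: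
`∑_{d ∈ J₂} sec f α β d ≥ (1/((j+1) h)^2) (κ (β j h - 1 - α (j+1) h) h - ε D^2) Z`.
* If `a₀ ≤ a₁`: for `d ∈ J₂`, `a ∈ Ioc a₀ a₁`: `a > a₀` gives `a ≥ a₀ + 1 > α (j+1) h ≥ α d` (`Nat.lt_floor_add_one`),
  `a ≤ a₁ ≤ β j h ≤ β d`, and `a ≤ j h < d`; so `a` belongs to the index set of `sec`. `1/d^2 ≥ 1/((j+1) h)^2`, `f ≥ 0`. So the
  sum is `≥ (1/((j+1) h)^2) ∑_{a ∈ Ioc a₀ a₁} ∑_{d ∈ J₂} f a d` and `hbox` applies with `a₁ - a₀ ≥ β j h - 1 - α (j+1) h`, `κ ≥ 0`.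
* If `a₁ < a₀`: `β j h < a₁ + 1 ≤ a₀ ≤ α (j+1) h`, so the claimed lower bound is `≤ 0`, and the sum is `≥ 0`.
Now `β j/(j+1)^2 ≥ β (1/j - 2/j^2)` (`1/j - j/(j+1)^2 = (2j+1)/(j (j+1)^2) ≤ 2/j^2`), `α (j+1) h · h/((j+1)h)^2 = α/(j+1) ≤ α/j`,
`h/((j+1) h)^2 ≤ 1/j^2` (`h ≥ 1`), `D^2/((j+1) h)^2 ≤ 4`. So the term of `j` is `≥ (κ ((β - α)/j - 3/j^2) - 4 ε) Z`. Sum over
the `2^(t-1)` values of `j`: `≥ κ (β - α) Hs t Z - 3 κ (2/2^t) Z - 4 ε 2^(t-1) Z` (`Hs_sq`).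
-/

set_option autoImplicit false

namespace Pool.Agent.H96.EQ

open Finset

private lemma BLL_sec_nonneg (f : ℕ → ℕ → ℝ) (hf : ∀ a b, 0 ≤ f a b) (α β : ℝ) (d : ℕ) :
    0 ≤ sec f α β d := by
  unfold sec
  exact mul_nonneg (by positivity) (Finset.sum_nonneg fun a _ => hf a d)

private lemma BLL_one (f : ℕ → ℕ → ℝ) (hf : ∀ a b, 0 ≤ f a b) (h t j : ℕ) (hh : 1 ≤ h)
    (κ ε Z : ℝ) (hκ : 0 ≤ κ) (hε : 0 ≤ ε) (hZ : 0 ≤ Z)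
    (hbox : ∀ u1 v1 u2 v2 : ℕ, u1 ≤ v1 → v1 ≤ 2 ^ t * h → u2 ≤ v2 → v2 ≤ 2 ^ t * h →
      |∑ a ∈ Ioc u1 v1, ∑ b ∈ Ioc u2 v2, f a b - κ * ((v1 : ℝ) - u1) * ((v2 : ℝ) - u2) * Z|
        ≤ ε * ((2 ^ t * h : ℕ) : ℝ) ^ 2 * Z)
    (α β : ℝ) (h0 : 0 ≤ α) (h1 : α ≤ β) (h2 : β ≤ 1) (hj1 : 1 ≤ j) (hj2 : j + 1 ≤ 2 ^ t) :
    1 / (((j : ℝ) + 1) * h) ^ 2 * (κ * (β * (j * h) - 1 - α * ((j + 1) * h)) * h
      - ε * ((2 ^ t * h : ℕ) : ℝ) ^ 2) * Z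
      ≤ ∑ d ∈ Ioc (j * h) ((j + 1) * h), sec f α β d := by
  have hh' : (1 : ℝ) ≤ h := by exact_mod_cast hh
  have hj' : (1 : ℝ) ≤ j := by exact_mod_cast hj1
  have hP : (0 : ℝ) < (((j : ℝ) + 1) * h) ^ 2 := by positivity
  have hβ : 0 ≤ β := h0.trans h1
  set a0 := ⌊α * ((j + 1) * h)⌋₊ with ha0
  set a1 := ⌊β * (j * h)⌋₊ with ha1
  have hA0 : (a0 : ℝ) ≤ α * ((j + 1) * h) := Nat.floor_le (by positivity)
  have hA0' : α * ((j + 1) * h) < a0 + 1 := Nat.lt_floor_add_one _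
  have hA1 : (a1 : ℝ) ≤ β * (j * h) := Nat.floor_le (by positivity)
  have hA1' : β * (j * h) < a1 + 1 := Nat.lt_floor_add_one _
  by_cases hcase : a0 ≤ a1
  · have ha1jh : a1 ≤ j * h := by
      have : (a1 : ℝ) ≤ ((j * h : ℕ) : ℝ) := by
        push_cast
        refine hA1.trans ?_
        have : 0 ≤ (j : ℝ) * h := by positivity
        nlinarith
      exact_mod_cast this
    have hjh : j * h ≤ 2 ^ t * h := Nat.mul_le_mul_right h (by omega)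
    have hjh1 : (j + 1) * h ≤ 2 ^ t * h := Nat.mul_le_mul_right h hj2
    have hb := hbox a0 a1 (j * h) ((j + 1) * h) hcase (ha1jh.trans hjh)
      (Nat.mul_le_mul_right h (Nat.le_succ j)) hjh1
    have hb' := (abs_le.mp hb).1
    have hd : ∀ d ∈ Ioc (j * h) ((j + 1) * h),
        1 / (((j : ℝ) + 1) * h) ^ 2 * ∑ a ∈ Ioc a0 a1, f a d ≤ sec f α β d := by
      intro d hd
      obtain ⟨hd1, hd2⟩ := Finset.mem_Ioc.mp hd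
      have hd1' : ((j : ℝ) * h) < d := by exact_mod_cast hd1
      have hd2' : (d : ℝ) ≤ ((j : ℝ) + 1) * h := by exact_mod_cast hd2
      have hdpos : (0 : ℝ) < d := lt_of_le_of_lt (by positivity) hd1'
      unfold sec
      refine mul_le_mul ?_ ?_ (Finset.sum_nonneg fun a _ => hf a d) (by positivity)
      · refine one_div_le_one_div_of_le (by positivity) ?_
        exact pow_le_pow_left₀ hdpos.le hd2' 2
      · refine Finset.sum_le_sum_of_subset_of_nonneg ?_ (fun a _ _ => hf a d)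
        intro a ha
        obtain ⟨hb1, hb2⟩ := Finset.mem_Ioc.mp ha
        have hb1' : (a0 : ℝ) + 1 ≤ a := by exact_mod_cast hb1
        have hb2' : (a : ℝ) ≤ a1 := by exact_mod_cast hb2
        rw [Finset.mem_filter, Finset.mem_range]
        refine ⟨?_, ?_, ?_⟩
        · omega
        · have : α * d ≤ α * ((j + 1) * h) := mul_le_mul_of_nonneg_left hd2' h0
          linarith
        · have : β * (j * h) ≤ β * d := mul_le_mul_of_nonneg_left hd1'.le hβ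
          linarith
    refine le_trans ?_ (Finset.sum_le_sum hd)
    rw [← Finset.mul_sum, Finset.sum_comm, mul_assoc]
    refine mul_le_mul_of_nonneg_left ?_ (by positivity)
    have e1 : (((j + 1) * h : ℕ) : ℝ) - ((j * h : ℕ) : ℝ) = h := by push_cast; ring
    rw [e1] at hb'
    have e2 : κ * (β * (j * h) - 1 - α * ((j + 1) * h)) * h * Z
        ≤ κ * ((a1 : ℝ) - a0) * h * Z := by
      refine mul_le_mul_of_nonneg_right ?_ hZ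
      refine mul_le_mul_of_nonneg_right ?_ (by positivity)
      refine mul_le_mul_of_nonneg_left ?_ hκ
      linarith
    calc (κ * (β * (j * h) - 1 - α * ((j + 1) * h)) * h - ε * ((2 ^ t * h : ℕ) : ℝ) ^ 2) * Z
        = κ * (β * (j * h) - 1 - α * ((j + 1) * h)) * h * Z
          - ε * ((2 ^ t * h : ℕ) : ℝ) ^ 2 * Z := by ring
      _ ≤ κ * ((a1 : ℝ) - a0) * h * Z - ε * ((2 ^ t * h : ℕ) : ℝ) ^ 2 * Z := by linarith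
      _ ≤ _ := by linarith
  · push Not at hcase
    have hc : (a1 : ℝ) + 1 ≤ a0 := by exact_mod_cast hcase
    have hneg : β * (j * h) - 1 - α * ((j + 1) * h) ≤ 0 := by linarith
    refine le_trans ?_ (Finset.sum_nonneg fun d _ => BLL_sec_nonneg f hf α β d)
    have e1 : κ * (β * (j * h) - 1 - α * ((j + 1) * h)) * h ≤ 0 :=
      mul_nonpos_of_nonpos_of_nonneg (mul_nonpos_of_nonneg_of_nonpos hκ hneg) (by positivity)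
    have e2 : 0 ≤ ε * ((2 ^ t * h : ℕ) : ℝ) ^ 2 := by positivity
    refine mul_nonpos_of_nonpos_of_nonneg ?_ hZ
    exact mul_nonpos_of_nonneg_of_nonpos (by positivity) (by linarith)

private lemma BLL_two (h t j : ℕ) (hh : 1 ≤ h)
    (κ ε Z : ℝ) (hκ : 0 ≤ κ) (hε : 0 ≤ ε) (hZ : 0 ≤ Z)
    (α β : ℝ) (h0 : 0 ≤ α) (h1 : α ≤ β) (h2 : β ≤ 1) (hj1 : 1 ≤ j) (hj3 : 2 ^ t ≤ 2 * j) :
    (κ * ((β - α) * (1 / j) - 3 * (1 / (j : ℝ) ^ 2)) - 4 * ε) * Z ≤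
    1 / (((j : ℝ) + 1) * h) ^ 2 * (κ * (β * (j * h) - 1 - α * ((j + 1) * h)) * h
      - ε * ((2 ^ t * h : ℕ) : ℝ) ^ 2) * Z := by
  have hh' : (1 : ℝ) ≤ h := by exact_mod_cast hh
  have hj' : (1 : ℝ) ≤ j := by exact_mod_cast hj1
  have hj3' : (2 : ℝ) ^ t ≤ 2 * j := by exact_mod_cast hj3
  have hβ : 0 ≤ β := h0.trans h1
  refine mul_le_mul_of_nonneg_right ?_ hZ
  have hP : (0 : ℝ) < (((j : ℝ) + 1) * h) ^ 2 := by positivity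
  have e1 : 1 / (((j : ℝ) + 1) * h) ^ 2 * (κ * (β * (j * h) - 1 - α * ((j + 1) * h)) * h
      - ε * ((2 ^ t * h : ℕ) : ℝ) ^ 2)
      = κ * (β * (j / ((j : ℝ) + 1) ^ 2) - 1 / (((j : ℝ) + 1) ^ 2 * h) - α * (1 / ((j : ℝ) + 1)))
        - ε * (((2 : ℝ) ^ t) ^ 2 / ((j : ℝ) + 1) ^ 2) := by
    push_cast
    field_simp
  rw [e1]
  have f1 : (1 : ℝ) / j - 2 * (1 / (j : ℝ) ^ 2) ≤ j / ((j : ℝ) + 1) ^ 2 := by
    have : (0 : ℝ) ≤ j / ((j : ℝ) + 1) ^ 2 - (1 / j - 2 * (1 / (j : ℝ) ^ 2)) := by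
      have : (j : ℝ) / ((j : ℝ) + 1) ^ 2 - (1 / j - 2 * (1 / (j : ℝ) ^ 2))
          = (3 * j + 2) / ((j : ℝ) ^ 2 * ((j : ℝ) + 1) ^ 2) := by
        field_simp
        ring
      rw [this]
      positivity
    linarith
  have f2 : (1 : ℝ) / (((j : ℝ) + 1) ^ 2 * h) ≤ 1 / (j : ℝ) ^ 2 := by
    refine one_div_le_one_div_of_le (by positivity) ?_
    nlinarith [sq_nonneg ((j : ℝ))]
  have f3 : (1 : ℝ) / ((j : ℝ) + 1) ≤ 1 / j :=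
    one_div_le_one_div_of_le (by positivity) (by linarith)
  have f4 : ((2 : ℝ) ^ t) ^ 2 / ((j : ℝ) + 1) ^ 2 ≤ 4 := by
    rw [div_le_iff₀ (by positivity)]
    have : ((2 : ℝ) ^ t) ^ 2 ≤ (2 * j) ^ 2 := pow_le_pow_left₀ (by positivity) hj3' 2
    nlinarith
  have g1 : β * (1 / (j : ℝ)) - 2 * (1 / (j : ℝ) ^ 2) ≤ β * (j / ((j : ℝ) + 1) ^ 2) := by
    have k1 := mul_le_mul_of_nonneg_left f1 hβ
    have k2 : β * (2 * (1 / (j : ℝ) ^ 2)) ≤ 1 * (2 * (1 / (j : ℝ) ^ 2)) :=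
      mul_le_mul_of_nonneg_right h2 (by positivity)
    linarith [mul_sub β (1 / (j : ℝ)) (2 * (1 / (j : ℝ) ^ 2))]
  have g2 : α * (1 / ((j : ℝ) + 1)) ≤ α * (1 / j) := mul_le_mul_of_nonneg_left f3 h0
  have g3 : (β - α) * (1 / j) - 3 * (1 / (j : ℝ) ^ 2)
      ≤ β * (j / ((j : ℝ) + 1) ^ 2) - 1 / (((j : ℝ) + 1) ^ 2 * h) - α * (1 / ((j : ℝ) + 1)) := by
    linarith
  have g4 := mul_le_mul_of_nonneg_left g3 hκ
  have g5 := mul_le_mul_of_nonneg_left f4 hε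
  linarith

theorem BLL (f : ℕ → ℕ → ℝ) (hf : ∀ a b, 0 ≤ f a b) (h t : ℕ) (hh : 1 ≤ h) (ht : 1 ≤ t) (κ ε Z : ℝ) (hκ : 0 ≤ κ)
    (hε : 0 ≤ ε) (hZ : 0 ≤ Z)
    (hbox : ∀ u1 v1 u2 v2 : ℕ, u1 ≤ v1 → v1 ≤ 2 ^ t * h → u2 ≤ v2 → v2 ≤ 2 ^ t * h →
      |∑ a ∈ Ioc u1 v1, ∑ b ∈ Ioc u2 v2, f a b - κ * ((v1 : ℝ) - u1) * ((v2 : ℝ) - u2) * Z|
        ≤ ε * ((2 ^ t * h : ℕ) : ℝ) ^ 2 * Z)
    (α β : ℝ) (h0 : 0 ≤ α) (h1 : α ≤ β) (h2 : β ≤ 1) :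
    κ * (β - α) * Hs t * Z - (6 * κ / 2 ^ t + 2 * 2 ^ t * ε) * Z
      ≤ ∑ d ∈ Ioc (2 ^ (t - 1) * h) (2 ^ t * h), sec f α β d := by
  have hpq : 2 ^ (t - 1) ≤ 2 ^ t := Nat.pow_le_pow_right (by norm_num) (Nat.sub_le t 1)
  have h2p : 2 ^ t = 2 * 2 ^ (t - 1) := by
    obtain ⟨k, rfl⟩ : ∃ k, t = k + 1 := ⟨t - 1, by omega⟩
    simp [pow_succ]; ring
  rw [dya_blocks _ h _ _ hpq]
  have hterm : ∀ j ∈ Ico ((2 : ℕ) ^ (t - 1)) ((2 : ℕ) ^ t),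
      (κ * ((β - α) * (1 / (j : ℝ)) - 3 * (1 / (j : ℝ) ^ 2)) - 4 * ε) * Z
        ≤ ∑ d ∈ Ioc (j * h) ((j + 1) * h), sec f α β d := by
    intro j hj
    obtain ⟨hj1, hj2⟩ := Finset.mem_Ico.mp hj
    have hp1 : 1 ≤ 2 ^ (t - 1) := Nat.one_le_two_pow
    exact (BLL_two h t j hh κ ε Z hκ hε hZ α β h0 h1 h2 (hp1.trans hj1) (by omega)).trans
      (BLL_one f hf h t j hh κ ε Z hκ hε hZ hbox α β h0 h1 h2 (hp1.trans hj1) (by omega))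
  refine le_trans ?_ (Finset.sum_le_sum hterm)
  have hsq := Hs_sq t ht
  have hcard : ((Ico ((2 : ℕ) ^ (t - 1)) (2 ^ t)).card : ℝ) * 2 = 2 ^ t := by
    rw [Nat.card_Ico]
    have : (2 ^ t - 2 ^ (t - 1)) * 2 = 2 ^ t := by omega
    exact_mod_cast this
  rw [← Finset.sum_mul, Finset.sum_sub_distrib, ← Finset.mul_sum, Finset.sum_sub_distrib,
    ← Finset.mul_sum, ← Finset.mul_sum, Finset.sum_const, nsmul_eq_mul]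
  have hH : ∑ j ∈ Ico ((2 : ℕ) ^ (t - 1)) ((2 : ℕ) ^ t), (1 : ℝ) / (j : ℝ) = Hs t := rfl
  rw [hH]
  have e1 : κ * (3 * ∑ j ∈ Ico ((2 : ℕ) ^ (t - 1)) ((2 : ℕ) ^ t), 1 / (j : ℝ) ^ 2)
      ≤ κ * (3 * (2 / 2 ^ t)) :=
    mul_le_mul_of_nonneg_left (by linarith) hκ
  have e2 : (κ * (β - α) * Hs t - (6 * κ / 2 ^ t + 2 * 2 ^ t * ε)) ≤
      κ * ((β - α) * Hs t - 3 * ∑ j ∈ Ico ((2 : ℕ) ^ (t - 1)) ((2 : ℕ) ^ t), 1 / (j : ℝ) ^ 2)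
        - ((Ico ((2 : ℕ) ^ (t - 1)) (2 ^ t)).card : ℝ) * (4 * ε) := by
    have e3 : ((Ico ((2 : ℕ) ^ (t - 1)) (2 ^ t)).card : ℝ) * (4 * ε) = 2 * 2 ^ t * ε := by
      rw [← hcard]; ring
    have e4 : 6 * κ / 2 ^ t = κ * (3 * (2 / 2 ^ t)) := by ring
    rw [e3, e4]
    linarith [mul_sub κ ((β - α) * Hs t)
      (3 * ∑ j ∈ Ico ((2 : ℕ) ^ (t - 1)) ((2 : ℕ) ^ t), 1 / (j : ℝ) ^ 2)]
  have e5 := mul_le_mul_of_nonneg_right e2 hZ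
  linarith [sub_mul (κ * (β - α) * Hs t) (6 * κ / 2 ^ t + 2 * 2 ^ t * ε) Z]

end Pool.Agent.H96.EQ
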