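import Pool.Agent.H96.EQ.NUM
import Pool.Agent.H96.EQ.DYA

/-!
# BLU: upper bound for the sector sum over a dyadic block, from the rectangle estimates

`D = 2^t h`. By `dya_blocks` (`p = 2^(t-1)`, `q = 2^t`) the sum is `∑_{j ∈ Ico (2^(t-1)) (2^t)} ∑_{d ∈ Ioc (j h) ((j+1) h)} sec f α β d`.
Fix `j` (`2^(t-1) ≤ j < 2^t`, `(j+1) h ≤ D`, `D ≤ 2 j h`), `J₂ = Ioc (j h) ((j+1) h)`,
`J₁ = Ioc ⌊α j h⌋₊ ⌊β (j+1) h⌋₊` (`⌊α j h⌋₊ ≤ ⌊β (j+1) h⌋₊ ≤ (j+1) h ≤ D`).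
For `d ∈ J₂` and `a` in the index set of `sec`: `a > α d ≥ α j h ≥ ⌊α j h⌋₊` and `a ≤ β d ≤ β (j+1) h`, so `a ∈ J₁`
(`Nat.le_floor`); and `1/d^2 ≤ 1/(j h)^2`. Since `f ≥ 0`:
`∑_{d ∈ J₂} sec f α β d ≤ (1/(j h)^2) ∑_{a ∈ J₁} ∑_{d ∈ J₂} f a d ≤ (1/(j h)^2) (κ |J₁| h Z + ε D^2 Z)` (`hbox`, `sum_comm`), with
`|J₁| = ⌊β(j+1)h⌋₊ - ⌊α j h⌋₊ ≤ β (j+1) h - α j h + 1`. Hence it is at most
`(κ (β-α)/j + κ β/j^2 + κ/(h j^2) + 4 ε) Z ≤ (κ (β - α)/j + 2 κ/j^2 + 4 ε) Z` (`h ≥ 1`, `D^2/(j h)^2 ≤ 4`).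
Sum over the `2^(t-1)` values of `j`: `κ (β-α) Hs t Z + 2 κ (2/2^t) Z + 4 ε 2^(t-1) Z` (`Hs_sq`), and
`4 ε 2^(t-1) = 2 · 2^t ε`.
-/

set_option autoImplicit false

namespace Pool.Agent.H96.EQ

open Finset

theorem BLU_j (f : ℕ → ℕ → ℝ) (hf : ∀ a b, 0 ≤ f a b) (h j D : ℕ) (hh : 1 ≤ h) (hj : 1 ≤ j)
    (hD1 : (j + 1) * h ≤ D) (hD2 : D ≤ 2 * (j * h)) (κ ε Z : ℝ) (hκ : 0 ≤ κ)
    (hε : 0 ≤ ε) (hZ : 0 ≤ Z)
    (hbox : ∀ u1 v1 u2 v2 : ℕ, u1 ≤ v1 → v1 ≤ D → u2 ≤ v2 → v2 ≤ D →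
      |∑ a ∈ Ioc u1 v1, ∑ b ∈ Ioc u2 v2, f a b - κ * ((v1 : ℝ) - u1) * ((v2 : ℝ) - u2) * Z|
        ≤ ε * ((D : ℕ) : ℝ) ^ 2 * Z)
    (α β : ℝ) (h0 : 0 ≤ α) (h1 : α ≤ β) (h2 : β ≤ 1) :
    ∑ d ∈ Ioc (j * h) ((j + 1) * h), sec f α β d
      ≤ (κ * (β - α)) * Z * (1 / (j : ℝ)) + 2 * κ * Z * (1 / (j : ℝ) ^ 2) + 4 * ε * Z := by
  have hhR : (1 : ℝ) ≤ h := by exact_mod_cast hh
  have hjR : (1 : ℝ) ≤ j := by exact_mod_cast hj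
  have hN : 0 < (j : ℝ) * h := by positivity
  have hβ0 : 0 ≤ β := h0.trans h1
  set U : ℕ := ⌊α * ((j : ℝ) * h)⌋₊ with hU
  set V : ℕ := ⌊β * (((j : ℝ) + 1) * h)⌋₊ with hV
  have hUV : U ≤ V := by
    apply Nat.floor_le_floor
    have e1 : α * ((j : ℝ) * h) ≤ β * ((j : ℝ) * h) := mul_le_mul_of_nonneg_right h1 hN.le
    have e2 : β * ((j : ℝ) * h) ≤ β * (((j : ℝ) + 1) * h) :=
      mul_le_mul_of_nonneg_left (by nlinarith) hβ0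
    exact e1.trans e2
  have hVM : V ≤ (j + 1) * h := by
    have e1 : (V : ℝ) ≤ β * (((j : ℝ) + 1) * h) := Nat.floor_le (by positivity)
    have e2 : β * (((j : ℝ) + 1) * h) ≤ 1 * (((j : ℝ) + 1) * h) :=
      mul_le_mul_of_nonneg_right h2 (by positivity)
    have e3 : (V : ℝ) ≤ (((j + 1) * h : ℕ) : ℝ) := by push_cast; linarith
    exact_mod_cast e3
  have hU1 : α * ((j : ℝ) * h) < (U : ℝ) + 1 := Nat.lt_floor_add_one _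
  have hV1 : (V : ℝ) ≤ β * (((j : ℝ) + 1) * h) := Nat.floor_le (by positivity)
  have hstep : ∀ d ∈ Ioc (j * h) ((j + 1) * h), sec f α β d ≤
      1 / ((j : ℝ) * h) ^ 2 * ∑ a ∈ Ioc U V, f a d := by
    intro d hd
    rw [mem_Ioc] at hd
    have hd1 : (j : ℝ) * h ≤ d := by
      have : j * h ≤ d := hd.1.le
      exact_mod_cast this
    have hd2 : (d : ℝ) ≤ ((j : ℝ) + 1) * h := by exact_mod_cast hd.2
    have hsub : (range d).filter (fun a : ℕ => α * d < (a : ℝ) ∧ (a : ℝ) ≤ β * d) ⊆ Ioc U V := by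
      intro a ha
      rw [mem_filter] at ha
      rw [mem_Ioc]
      constructor
      · have e1 : α * ((j : ℝ) * h) ≤ α * d := mul_le_mul_of_nonneg_left hd1 h0
        have e2 : (U : ℝ) ≤ α * ((j : ℝ) * h) := Nat.floor_le (by positivity)
        have e3 : (U : ℝ) < a := by linarith [ha.2.1]
        exact_mod_cast e3
      · apply Nat.le_floor
        have e1 : β * d ≤ β * (((j : ℝ) + 1) * h) := mul_le_mul_of_nonneg_left hd2 hβ0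
        linarith [ha.2.2]
    have hs1 : ∑ a ∈ (range d).filter (fun a : ℕ => α * d < (a : ℝ) ∧ (a : ℝ) ≤ β * d), f a d ≤
        ∑ a ∈ Ioc U V, f a d :=
      sum_le_sum_of_subset_of_nonneg hsub (fun i _ _ => hf i d)
    have hs0 : 0 ≤ ∑ a ∈ (range d).filter (fun a : ℕ => α * d < (a : ℝ) ∧ (a : ℝ) ≤ β * d), f a d :=
      sum_nonneg (fun i _ => hf i d)
    have hinv : 1 / (d : ℝ) ^ 2 ≤ 1 / ((j : ℝ) * h) ^ 2 :=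
      one_div_le_one_div_of_le (by positivity) (pow_le_pow_left₀ hN.le hd1 2)
    unfold sec
    exact mul_le_mul hinv hs1 hs0 (by positivity)
  have hb := hbox U V (j * h) ((j + 1) * h) hUV (hVM.trans hD1)
    (Nat.mul_le_mul_right h (Nat.le_succ j)) hD1
  have hb2 := (abs_le.1 hb).2
  have hlen : (((j + 1) * h : ℕ) : ℝ) - ((j * h : ℕ) : ℝ) = h := by push_cast; ring
  rw [hlen] at hb2
  have hD3 : (D : ℝ) ^ 2 ≤ 4 * ((j : ℝ) * h) ^ 2 := by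
    have e1 : (D : ℝ) ≤ 2 * ((j : ℝ) * h) := by exact_mod_cast hD2
    have e2 : (D : ℝ) ^ 2 ≤ (2 * ((j : ℝ) * h)) ^ 2 := pow_le_pow_left₀ (Nat.cast_nonneg _) e1 2
    nlinarith
  have hVU : ((V : ℝ) - U) ≤ (β - α) * (j * h) + β * h + 1 := by linarith
  have hmain : ∑ a ∈ Ioc U V, ∑ b ∈ Ioc (j * h) ((j + 1) * h), f a b ≤
      κ * ((β - α) * (j * h) + β * h + 1) * h * Z + ε * (4 * ((j : ℝ) * h) ^ 2) * Z := by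
    have e1 : κ * ((V : ℝ) - U) * h * Z ≤ κ * ((β - α) * (j * h) + β * h + 1) * h * Z := by
      refine mul_le_mul_of_nonneg_right (mul_le_mul_of_nonneg_right
        (mul_le_mul_of_nonneg_left hVU hκ) (by linarith)) hZ
    have e2 : ε * (D : ℝ) ^ 2 * Z ≤ ε * (4 * ((j : ℝ) * h) ^ 2) * Z :=
      mul_le_mul_of_nonneg_right (mul_le_mul_of_nonneg_left hD3 hε) hZ
    linarith
  calc ∑ d ∈ Ioc (j * h) ((j + 1) * h), sec f α β d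
      ≤ ∑ d ∈ Ioc (j * h) ((j + 1) * h), 1 / ((j : ℝ) * h) ^ 2 * ∑ a ∈ Ioc U V, f a d :=
        sum_le_sum hstep
    _ = 1 / ((j : ℝ) * h) ^ 2 * ∑ a ∈ Ioc U V, ∑ b ∈ Ioc (j * h) ((j + 1) * h), f a b := by
        rw [← mul_sum, sum_comm]
    _ ≤ 1 / ((j : ℝ) * h) ^ 2 * (κ * ((β - α) * (j * h) + β * h + 1) * h * Z +
          ε * (4 * ((j : ℝ) * h) ^ 2) * Z) := mul_le_mul_of_nonneg_left hmain (by positivity)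
    _ = (κ * (β - α)) * Z * (1 / (j : ℝ)) + κ * Z * (β + 1 / h) * (1 / (j : ℝ) ^ 2) +
          4 * ε * Z := by
        have hj0 : (j : ℝ) ≠ 0 := by positivity
        have hh0 : (h : ℝ) ≠ 0 := by positivity
        field_simp
        ring
    _ ≤ _ := by
        have e1 : 1 / (h : ℝ) ≤ 1 := by
          rw [div_le_one (by positivity)]
          exact hhR
        have e2 : β + 1 / (h : ℝ) ≤ 2 := by linarith
        have e3 : κ * Z * (β + 1 / (h : ℝ)) * (1 / (j : ℝ) ^ 2) ≤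
            κ * Z * 2 * (1 / (j : ℝ) ^ 2) :=
          mul_le_mul_of_nonneg_right (mul_le_mul_of_nonneg_left e2 (mul_nonneg hκ hZ))
            (by positivity)
        linarith

theorem BLU (f : ℕ → ℕ → ℝ) (hf : ∀ a b, 0 ≤ f a b) (h t : ℕ) (hh : 1 ≤ h) (ht : 1 ≤ t) (κ ε Z : ℝ) (hκ : 0 ≤ κ)
    (hε : 0 ≤ ε) (hZ : 0 ≤ Z)
    (hbox : ∀ u1 v1 u2 v2 : ℕ, u1 ≤ v1 → v1 ≤ 2 ^ t * h → u2 ≤ v2 → v2 ≤ 2 ^ t * h →
      |∑ a ∈ Ioc u1 v1, ∑ b ∈ Ioc u2 v2, f a b - κ * ((v1 : ℝ) - u1) * ((v2 : ℝ) - u2) * Z|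
        ≤ ε * ((2 ^ t * h : ℕ) : ℝ) ^ 2 * Z)
    (α β : ℝ) (h0 : 0 ≤ α) (h1 : α ≤ β) (h2 : β ≤ 1) :
    ∑ d ∈ Ioc (2 ^ (t - 1) * h) (2 ^ t * h), sec f α β d
      ≤ κ * (β - α) * Hs t * Z + (6 * κ / 2 ^ t + 2 * 2 ^ t * ε) * Z := by
  have hpow : 2 ^ t = 2 * 2 ^ (t - 1) := by
    rw [← pow_succ', Nat.sub_add_cancel ht]
  rw [dya_blocks (sec f α β) h (2 ^ (t - 1)) (2 ^ t) (by omega)]
  have hj : ∀ j ∈ Ico ((2 : ℕ) ^ (t - 1)) ((2 : ℕ) ^ t),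
      ∑ d ∈ Ioc (j * h) ((j + 1) * h), sec f α β d
        ≤ (κ * (β - α)) * Z * (1 / (j : ℝ)) + 2 * κ * Z * (1 / (j : ℝ) ^ 2) + 4 * ε * Z := by
    intro j hj
    rw [mem_Ico] at hj
    have hp : 1 ≤ 2 ^ (t - 1) := Nat.one_le_two_pow
    refine BLU_j f hf h j (2 ^ t * h) hh (hp.trans hj.1) (Nat.mul_le_mul_right h hj.2) ?_
      κ ε Z hκ hε hZ hbox α β h0 h1 h2
    rw [hpow, mul_assoc]
    exact Nat.mul_le_mul_left 2 (Nat.mul_le_mul_right h hj.1)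
  refine (sum_le_sum hj).trans ?_
  rw [sum_add_distrib, sum_add_distrib, ← mul_sum, ← mul_sum, sum_const, Nat.card_Ico,
    nsmul_eq_mul]
  have e1 : ((2 ^ t - 2 ^ (t - 1) : ℕ) : ℝ) = 2 ^ t / 2 := by
    have e2 : 2 ^ t - 2 ^ (t - 1) = 2 ^ (t - 1) := by omega
    have e3 : ((2 : ℝ) ^ t) = 2 * 2 ^ (t - 1) := by exact_mod_cast hpow
    rw [e2, e3]
    push_cast
    ring
  rw [e1]
  have e4 := Hs_sq t ht
  have e5 : 2 * κ * Z * ∑ j ∈ Ico ((2 : ℕ) ^ (t - 1)) ((2 : ℕ) ^ t), 1 / (j : ℝ) ^ 2 ≤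
      2 * κ * Z * (2 / 2 ^ t) :=
    mul_le_mul_of_nonneg_left e4 (mul_nonneg (mul_nonneg (by norm_num) hκ) hZ)
  have e6 : 0 ≤ κ * Z * (1 / 2 ^ t) := mul_nonneg (mul_nonneg hκ hZ) (by positivity)
  have e7 : (κ * (β - α)) * Z * ∑ j ∈ Ico ((2 : ℕ) ^ (t - 1)) ((2 : ℕ) ^ t), 1 / (j : ℝ) =
      κ * (β - α) * Hs t * Z := by
    unfold Hs
    ring
  rw [e7]
  have e8 : (6 * κ / 2 ^ t + 2 * 2 ^ t * ε) * Z = 6 * (κ * Z * (1 / 2 ^ t)) + 2 ^ t / 2 * (4 * ε * Z) := by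
    ring
  rw [e8]
  have e9 : 2 * κ * Z * (2 / 2 ^ t) = 4 * (κ * Z * (1 / 2 ^ t)) := by ring
  linarith

end Pool.Agent.H96.EQ
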