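import Pool.Agent.H96.EQ.Defs

/-!
# BRS: the sums over `n` and the numbers of prime triples

`p3 x a b = ∑_{n ∈ range (⌊x⌋₊+1)} (if n.Prime ∧ (n - b).Prime ∧ (n - a).Prime then 1 else 0)` (natural subtraction;
definition of `primeTriples`, `Finset.card_filter`). `isP (n : ℤ) ↔ n.Prime` and `isP ((n:ℤ) - (a:ℤ)) ↔ (n - a).Prime`
(`Int.toNat_sub`, `Int.toNat_natCast`; see `cnt_triple` in H6/MF/BRG). For naturals `u, v`:
`win u v n = ∑_{b ∈ Ioc u v} (if isP (n - b) then 1 else 0)`, the sum over natural `b` (the cast is a bijection from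
`Ioc u v` in `ℕ` onto `Ioc (u:ℤ) (v:ℤ)`; `Finset.card_filter`, `Finset.sum_nbij'` or `Nat.image_cast_int_Ioc`).
All three statements: insert, multiply out (`Finset.sum_mul_sum`), `Finset.sum_comm`.
`p3_comm`: reorder the conjunction.
-/

set_option autoImplicit false

namespace Pool.Agent.H96.EQ

open Finset Pool.Agent.H6.MF

theorem BRS_isP (n m : ℕ) : isP ((n : ℤ) - (m : ℤ)) ↔ (n - m).Prime := by
  unfold isP
  rw [Int.toNat_sub]

theorem BRS_isP0 (n : ℕ) : isP (n : ℤ) ↔ n.Prime := by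
  unfold isP
  rw [Int.toNat_natCast]

theorem BRS_p3 (x : ℝ) (a b : ℕ) : p3 x a b = ∑ n ∈ range (⌊x⌋₊ + 1),
    (if isP (n : ℤ) then (if isP ((n : ℤ) - (a : ℤ)) then (1 : ℝ) else 0)
      * (if isP ((n : ℤ) - (b : ℤ)) then (1 : ℝ) else 0) else 0) := by
  unfold p3 Pool.Agent.H17.Triple.primeTriples
  rw [Finset.card_filter, Nat.cast_sum]
  refine Finset.sum_congr rfl fun n _ => ?_
  by_cases h0 : n.Prime <;> by_cases h1 : (n - a).Prime <;> by_cases h2 : (n - b).Prime <;>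
    simp [BRS_isP, BRS_isP0, h0, h1, h2]

theorem BRS_win (u v : ℕ) (n : ℤ) :
    (win (u : ℤ) (v : ℤ) n : ℝ) = ∑ b ∈ Ioc u v, (if isP (n - (b : ℤ)) then (1 : ℝ) else 0) := by
  unfold win
  rw [Finset.card_filter, Nat.cast_sum]
  symm
  refine Finset.sum_nbij' (fun b : ℕ => (b : ℤ)) (fun b : ℤ => b.toNat) ?_ ?_ ?_ ?_ ?_
  · intro b hb
    rw [Finset.mem_Ioc] at hb ⊢
    constructor
    · exact_mod_cast hb.1
    · exact_mod_cast hb.2
  · intro b hb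
    rw [Finset.mem_Ioc] at hb ⊢
    omega
  · intro b _
    simp
  · intro b hb
    rw [Finset.mem_Ioc] at hb
    have h : (0 : ℤ) ≤ b := by omega
    exact Int.toNat_of_nonneg h
  · intro b _
    by_cases h : isP (n - (b : ℤ)) <;> simp [h]

theorem p3_comm (x : ℝ) (a b : ℕ) : p3 x a b = p3 x b a := by
  rw [BRS_p3, BRS_p3]
  refine Finset.sum_congr rfl fun n _ => ?_
  by_cases h : isP (n : ℤ)
  · rw [if_pos h, if_pos h, mul_comm]
  · rw [if_neg h, if_neg h]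

theorem p3_nonneg (x : ℝ) (a b : ℕ) : 0 ≤ p3 x a b := by
  unfold p3
  exact Nat.cast_nonneg _

theorem S3_eq (x : ℝ) (u1 v1 u2 v2 : ℕ) :
    S3 x (u1 : ℤ) (v1 : ℤ) (u2 : ℤ) (v2 : ℤ) = ∑ a ∈ Ioc u1 v1, ∑ b ∈ Ioc u2 v2, p3 x a b := by
  have h1 : ∑ a ∈ Ioc u1 v1, ∑ b ∈ Ioc u2 v2, p3 x a b = ∑ n ∈ range (⌊x⌋₊ + 1), ∑ a ∈ Ioc u1 v1,
      ∑ b ∈ Ioc u2 v2, (if isP (n : ℤ) then (if isP ((n : ℤ) - (a : ℤ)) then (1 : ℝ) else 0)
      * (if isP ((n : ℤ) - (b : ℤ)) then (1 : ℝ) else 0) else 0) := by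
    refine Eq.trans (Finset.sum_congr rfl fun a _ => ?_) Finset.sum_comm
    refine Eq.trans (Finset.sum_congr rfl fun b _ => ?_) Finset.sum_comm
    exact BRS_p3 x a b
  rw [h1]
  unfold S3
  refine Finset.sum_congr rfl fun n _ => ?_
  by_cases h : isP (n : ℤ)
  · simp only [if_pos h]
    rw [BRS_win, BRS_win, Finset.sum_mul_sum]
  · simp only [if_neg h, Finset.sum_const_zero]

theorem SF_eq (x : ℝ) (D u v : ℕ) (c : ℕ → ℝ) :
    ∑ n ∈ range (⌊x⌋₊ + 1), (if isP (n : ℤ) then ∑ a ∈ Ioc 0 D, (if isP ((n : ℤ) - (a : ℤ)) then c a else 0) else 0)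
        * (win (u : ℤ) (v : ℤ) (n : ℤ) : ℝ)
      = ∑ a ∈ Ioc 0 D, c a * ∑ b ∈ Ioc u v, p3 x a b := by
  have h1 : ∑ a ∈ Ioc 0 D, c a * ∑ b ∈ Ioc u v, p3 x a b = ∑ n ∈ range (⌊x⌋₊ + 1), ∑ a ∈ Ioc 0 D,
      c a * ∑ b ∈ Ioc u v, (if isP (n : ℤ) then (if isP ((n : ℤ) - (a : ℤ)) then (1 : ℝ) else 0)
      * (if isP ((n : ℤ) - (b : ℤ)) then (1 : ℝ) else 0) else 0) := by
    refine Eq.trans (Finset.sum_congr rfl fun a _ => ?_) Finset.sum_comm
    rw [← Finset.mul_sum]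
    congr 1
    refine Eq.trans (Finset.sum_congr rfl fun b _ => ?_) Finset.sum_comm
    exact BRS_p3 x a b
  rw [h1]
  refine Finset.sum_congr rfl fun n _ => ?_
  by_cases h : isP (n : ℤ)
  · simp only [if_pos h]
    rw [BRS_win, Finset.sum_mul]
    refine Finset.sum_congr rfl fun a _ => ?_
    rw [← Finset.mul_sum]
    by_cases h2 : isP ((n : ℤ) - (a : ℤ))
    · rw [if_pos h2, if_pos h2, one_mul]
    · rw [if_neg h2, if_neg h2]
      ring
  · simp only [if_neg h, Finset.sum_const_zero, mul_zero, zero_mul]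

theorem F_le (D : ℕ) (c : ℕ → ℝ) (hc : ∀ a, |c a| ≤ 1) (n : ℤ) :
    |if isP n then ∑ a ∈ Ioc 0 D, (if isP (n - (a : ℤ)) then c a else 0) else 0|
      ≤ if isP n then (win 0 (D : ℤ) n : ℝ) else 0 := by
  by_cases h : isP n
  · rw [if_pos h, if_pos h]
    have hw := BRS_win 0 D n
    rw [Nat.cast_zero] at hw
    rw [hw]
    refine le_trans (Finset.abs_sum_le_sum_abs _ _) (Finset.sum_le_sum fun a _ => ?_)
    by_cases h2 : isP (n - (a : ℤ))
    · rw [if_pos h2, if_pos h2]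
      exact hc a
    · rw [if_neg h2, if_neg h2, abs_zero]
  · rw [if_neg h, if_neg h, abs_zero]

theorem dia_eq (x : ℝ) (D : ℕ) :
    ∑ n ∈ range (⌊x⌋₊ + 1), (if isP (n : ℤ) then (win 0 (D : ℤ) (n : ℤ) : ℝ) else 0) = ∑ a ∈ Ioc 0 D, p3 x a a := by
  have h1 : ∑ a ∈ Ioc 0 D, p3 x a a = ∑ n ∈ range (⌊x⌋₊ + 1), ∑ a ∈ Ioc 0 D,
      (if isP (n : ℤ) then (if isP ((n : ℤ) - (a : ℤ)) then (1 : ℝ) else 0)
      * (if isP ((n : ℤ) - (a : ℤ)) then (1 : ℝ) else 0) else 0) := by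
    refine Eq.trans (Finset.sum_congr rfl fun a _ => ?_) Finset.sum_comm
    exact BRS_p3 x a a
  rw [h1]
  refine Finset.sum_congr rfl fun n _ => ?_
  by_cases h : isP (n : ℤ)
  · simp only [if_pos h]
    have hw := BRS_win 0 D (n : ℤ)
    rw [Nat.cast_zero] at hw
    rw [hw]
    refine Finset.sum_congr rfl fun a _ => ?_
    by_cases h2 : isP ((n : ℤ) - (a : ℤ))
    · rw [if_pos h2, one_mul]
    · rw [if_neg h2, zero_mul]
  · simp only [if_neg h, Finset.sum_const_zero]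

end Pool.Agent.H96.EQ
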