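import Pool.Agent.H6.MF.BAS

/-!
# CHO: `k`-element subsets of a window

`(win u v n).choose k` is the number of `H ∈ powersetCard k ((Ioc u v).filter (fun b => isP (n - b)))`
(`Finset.card_powersetCard`), and these are exactly the `H ∈ powersetCard k (Ioc u v)` with `∀ h ∈ H, isP (n - h)`
(`mem_powersetCard`, `subset_iff`, `mem_filter`). So the left-hand side is
`∑_n ∑_{H ∈ powersetCard k (Ioc u v)} (if ∀ h ∈ H, isP (n - h) then 1 else 0)`; interchange (`Finset.sum_comm`), and the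
inner sum over `n ∈ range (⌊x⌋₊ + 1)` is `cnt x H` (`Finset.card_filter`, definition of `cnt`).
-/

set_option autoImplicit false

namespace Pool.Agent.H96.EQ

open Finset Pool.Agent.H6.MF

open Classical in
theorem CHO_choose (k : ℕ) (u v n : ℤ) :
    (win u v n).choose k = ((powersetCard k (Ioc u v)).filter (fun H => ∀ h ∈ H, isP (n - h))).card := by
  unfold win
  rw [← card_powersetCard]
  congr 1
  ext H
  rw [mem_powersetCard, mem_filter, mem_powersetCard, subset_iff]
  constructor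
  · rintro ⟨h1, h2⟩
    refine ⟨⟨fun a ha => ?_, h2⟩, fun a ha => ?_⟩
    · have := h1 ha
      rw [mem_filter] at this
      exact this.1
    · have := h1 ha
      rw [mem_filter] at this
      exact this.2
  · rintro ⟨⟨h1, h2⟩, h3⟩
    refine ⟨fun a ha => ?_, h2⟩
    rw [mem_filter]
    exact ⟨h1 ha, h3 a ha⟩

theorem CHO (x : ℝ) (k : ℕ) (u v : ℤ) :
    ∑ n ∈ range (⌊x⌋₊ + 1), ((win u v (n : ℤ)).choose k : ℝ) = ∑ H ∈ powersetCard k (Ioc u v), (cnt x H : ℝ) := by
  classical
  have h1 : ∀ n : ℕ, ((win u v (n : ℤ)).choose k : ℝ) =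
      ∑ H ∈ powersetCard k (Ioc u v), (if ∀ h ∈ H, isP ((n : ℤ) - h) then (1 : ℝ) else 0) := by
    intro n
    rw [CHO_choose, ← sum_filter, sum_const, nsmul_eq_mul, mul_one]
  have h2 : ∀ H : Finset ℤ, (cnt x H : ℝ) =
      ∑ n ∈ range (⌊x⌋₊ + 1), (if ∀ h ∈ H, isP ((n : ℤ) - h) then (1 : ℝ) else 0) := by
    intro H
    unfold cnt
    rw [← sum_filter, sum_const, nsmul_eq_mul, mul_one]
  rw [sum_congr rfl (fun n _ => h1 n), sum_congr rfl (fun H _ => h2 H), sum_comm]

end Pool.Agent.H96.EQ
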