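import Pool.Agent.H96.EQ.VAR

/-!
# CLO: at a regular scale all not too short windows agree in mean square

Let `L = log x` (only its occurrence in `Y` matters), `w = v - u ≥ s`, `σ = s/w ≤ 1`, `V = Y x 0 (m s) n`,
`Y_j = Y x (j s) ((j+1) s) n`. Put `j₁ = (u + s - 1) / s`, `j₂ = v / s` (natural division), so
`u ≤ j₁ s ≤ u + s - 1 < v`, `(j₁ - 1) s ≤ u` if `j₁ ≥ 1`, `j₂ s ≤ v < (j₂ + 1) s`, `j₁ ≤ j₂ ≤ m`.
* `win u v n = win u (j₁ s) n + ∑_{j ∈ Ico j₁ j₂} win (j s) ((j+1) s) n + win (j₂ s) v n` (`win_add` twice; the middle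
  by induction on `j₂`, as in `win_blocks`). Hence `Y x u v n - V = A + B + M + E` with
  * `A = win u (j₁ s) n L/w`. If `j₁ = 0` then `u = 0` and `A = 0`. Otherwise `(u, j₁ s] ⊆ ((j₁-1) s, j₁ s]`, so
    `0 ≤ A ≤ σ Y x ((j₁-1) s) (j₁ s) n` (`win_mono`) and `∑_n A^2 ≤ σ^2 En x s` (`Y_shift`, `Y_neg`, `shift_le`).
    (If `L < 0` use absolute values: `A^2 ≤ σ^2 Y^2` holds in any case since `win^2 ≤ win^2`.)
  * `B = win (j₂ s) v n L/w`, `(j₂ s, v] ⊆ (j₂ s, (j₂+1) s]`: `∑_n B^2 ≤ σ^2 En x s` in the same way.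
  * `M = σ ∑_{j ∈ Ico j₁ j₂} (Y_j - V)`: Cauchy-Schwarz (`sq_sum_le_card_mul_sum_sq`):
    `M^2 ≤ σ^2 (j₂ - j₁) ∑_{j ∈ Ico j₁ j₂} (Y_j - V)^2 ≤ σ ∑_{j < m} (Y_j - V)^2`, because `(j₂ - j₁) s ≤ w`. So by `VAR`
    `∑_n M^2 ≤ σ m (En x s - En x (m s)) ≤ m δ x` (`σ ≤ 1`, `En_anti`).
  * `E = V ((j₂ - j₁) σ - 1)` with `|(j₂ - j₁) s - w| ≤ 2 s`: `∑_n E^2 ≤ 4 σ^2 En x (m s) ≤ 4 σ^2 En x s`.
* `(A + B + M + E)^2 ≤ 4 (A^2 + B^2 + M^2 + E^2)`; total `≤ 4 (C σ^2 + C σ^2 + m δ + 4 C σ^2) x`.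
-/

set_option autoImplicit false

namespace Pool.Agent.H96.EQ

open Finset Pool.Agent.H6.MF

/-- the energy of a shifted block -/
private lemma CLO_block (x : ℝ) (s j : ℕ) :
    ∑ n ∈ range (⌊x⌋₊ + 1), (Y x ((j * s : ℕ) : ℤ) (((j + 1) * s : ℕ) : ℤ) (n : ℤ)) ^ 2 ≤ En x s := by
  have h5 : ∀ n ∈ range (⌊x⌋₊ + 1), (Y x ((j * s : ℕ) : ℤ) (((j + 1) * s : ℕ) : ℤ) (n : ℤ)) ^ 2
      = (fun z : ℤ => (Y x 0 (s : ℤ) z) ^ 2) ((n : ℤ) - ((j * s : ℕ) : ℤ)) := by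
    intro n _
    have h6 := Y_shift x 0 (s : ℤ) (n : ℤ) ((j * s : ℕ) : ℤ)
    have h7 : (s : ℤ) + ((j * s : ℕ) : ℤ) = (((j + 1) * s : ℕ) : ℤ) := by push_cast; ring
    rw [zero_add, h7] at h6
    rw [h6]
  rw [Finset.sum_congr rfl h5]
  refine shift_le _ (fun z : ℤ => (Y x 0 (s : ℤ) z) ^ 2) ?_ ?_ _ ?_
  · intro z hz
    show (Y x 0 (s : ℤ) z) ^ 2 = 0
    rw [Y_neg x 0 s z le_rfl hz.le]
    ring
  · intro z
    exact sq_nonneg _
  · exact_mod_cast Nat.zero_le _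

/-- a window inside a block -/
private lemma CLO_sub (x : ℝ) (s j : ℕ) (hs : 1 ≤ s) (p q : ℤ) (w : ℝ) (hw : 0 < w)
    (hp : ((j * s : ℕ) : ℤ) ≤ p) (hq : q ≤ (((j + 1) * s : ℕ) : ℤ)) (n : ℤ) :
    ((win p q n : ℝ) * Real.log x / w) ^ 2
      ≤ ((s : ℝ) / w) ^ 2 * (Y x ((j * s : ℕ) : ℤ) (((j + 1) * s : ℕ) : ℤ) n) ^ 2 := by
  have h1 : (win p q n : ℝ) ≤ win ((j * s : ℕ) : ℤ) (((j + 1) * s : ℕ) : ℤ) n := by
    exact_mod_cast win_mono hp hq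
  have h0 : (0 : ℝ) ≤ win p q n := Nat.cast_nonneg _
  have hs' : (0 : ℝ) < s := by exact_mod_cast hs
  have h2 : ((s : ℝ) / w) ^ 2 * (Y x ((j * s : ℕ) : ℤ) (((j + 1) * s : ℕ) : ℤ) n) ^ 2
      = ((win ((j * s : ℕ) : ℤ) (((j + 1) * s : ℕ) : ℤ) n : ℝ)) ^ 2 * (Real.log x / w) ^ 2 := by
    unfold Y
    have h3 : (((((j + 1) * s : ℕ) : ℤ) : ℝ) - (((j * s : ℕ) : ℤ) : ℝ)) = s := by push_cast; ring
    rw [h3]
    field_simp
  rw [h2]
  have h3 : ((win p q n : ℝ) * Real.log x / w) ^ 2 = (win p q n : ℝ) ^ 2 * (Real.log x / w) ^ 2 := by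
    ring
  rw [h3]
  exact mul_le_mul_of_nonneg_right (pow_le_pow_left₀ h0 h1 2) (sq_nonneg _)

/-- the blocks between `a` and `b` -/
private lemma CLO_mid (s a b : ℕ) (hab : a ≤ b) (n : ℤ) :
    win ((a * s : ℕ) : ℤ) ((b * s : ℕ) : ℤ) n
      = ∑ j ∈ Ico a b, win ((j * s : ℕ) : ℤ) (((j + 1) * s : ℕ) : ℤ) n := by
  have h1 := win_blocks s a n
  have h2 := win_blocks s b n
  have h3 : win 0 ((b * s : ℕ) : ℤ) n = win 0 ((a * s : ℕ) : ℤ) n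
      + win ((a * s : ℕ) : ℤ) ((b * s : ℕ) : ℤ) n := by
    refine win_add ?_ ?_ n
    · exact_mod_cast Nat.zero_le _
    · exact_mod_cast Nat.mul_le_mul_right s hab
  have h4 := Finset.sum_Ico_consecutive
    (fun j : ℕ => win ((j * s : ℕ) : ℤ) (((j + 1) * s : ℕ) : ℤ) n) (Nat.zero_le a) hab
  rw [← Finset.range_eq_Ico, ← Finset.range_eq_Ico, ← h1, ← h2, h3] at h4
  exact (Nat.add_left_cancel h4).symm

/-- the pointwise bound -/
private lemma CLO_pt (x : ℝ) (s m u v a b : ℕ) (hs : 1 ≤ s) (hsw : u + s ≤ v) (ha : u ≤ a * s)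
    (ha' : a * s ≤ u + s) (hb : b * s ≤ v) (hb' : v ≤ (b + 1) * s) (hab : a ≤ b) (hbm : b ≤ m)
    (n : ℤ) :
    (Y x (u : ℤ) (v : ℤ) n - Y x 0 ((m * s : ℕ) : ℤ) n) ^ 2
      ≤ 4 * (((win (u : ℤ) ((a * s : ℕ) : ℤ) n : ℝ) * Real.log x / ((v : ℝ) - u)) ^ 2
        + ((win ((b * s : ℕ) : ℤ) (v : ℤ) n : ℝ) * Real.log x / ((v : ℝ) - u)) ^ 2
        + ∑ j ∈ range m, (Y x ((j * s : ℕ) : ℤ) (((j + 1) * s : ℕ) : ℤ) n
            - Y x 0 ((m * s : ℕ) : ℤ) n) ^ 2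
        + 4 * ((s : ℝ) / ((v : ℝ) - u)) ^ 2 * (Y x 0 ((m * s : ℕ) : ℤ) n) ^ 2) := by
  have hs' : (0 : ℝ) < s := by exact_mod_cast hs
  have hsw' : (u : ℝ) + s ≤ v := by exact_mod_cast hsw
  have ha1 : (u : ℝ) ≤ a * s := by exact_mod_cast ha
  have ha2 : (a : ℝ) * s ≤ u + s := by exact_mod_cast ha'
  have hb1 : (b : ℝ) * s ≤ v := by exact_mod_cast hb
  have hb2 : (v : ℝ) ≤ (b + 1) * s := by exact_mod_cast hb'
  have hab' : (a : ℝ) ≤ b := by exact_mod_cast hab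
  set w : ℝ := (v : ℝ) - u with hw
  have hw0 : 0 < w := by rw [hw]; linarith
  have hw1 : (s : ℝ) ≤ w := by rw [hw]; linarith
  set V : ℝ := Y x 0 ((m * s : ℕ) : ℤ) n with hV
  set f : ℕ → ℝ := fun j => Y x ((j * s : ℕ) : ℤ) (((j + 1) * s : ℕ) : ℤ) n with hf
  set A : ℝ := (win (u : ℤ) ((a * s : ℕ) : ℤ) n : ℝ) * Real.log x / w with hA
  set B : ℝ := (win ((b * s : ℕ) : ℤ) (v : ℤ) n : ℝ) * Real.log x / w with hB
  set σ : ℝ := (s : ℝ) / w with hσ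
  have hσ0 : 0 ≤ σ := by positivity
  have hσ1 : σ ≤ 1 := by rw [hσ, div_le_one hw0]; exact hw1
  -- splitting of the window
  have hsplit : win (u : ℤ) (v : ℤ) n = win (u : ℤ) ((a * s : ℕ) : ℤ) n
      + ∑ j ∈ Ico a b, win ((j * s : ℕ) : ℤ) (((j + 1) * s : ℕ) : ℤ) n
      + win ((b * s : ℕ) : ℤ) (v : ℤ) n := by
    rw [← CLO_mid s a b hab n]
    have h1 : (u : ℤ) ≤ ((a * s : ℕ) : ℤ) := by exact_mod_cast ha
    have h2 : ((a * s : ℕ) : ℤ) ≤ ((b * s : ℕ) : ℤ) := by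
      exact_mod_cast Nat.mul_le_mul_right s hab
    have h3 : ((b * s : ℕ) : ℤ) ≤ (v : ℤ) := by exact_mod_cast hb
    rw [win_add h1 (h2.trans h3) n, win_add h2 h3 n]
    ring
  have hYf : ∀ j : ℕ, (win ((j * s : ℕ) : ℤ) (((j + 1) * s : ℕ) : ℤ) n : ℝ) * Real.log x / w
      = σ * f j := by
    intro j
    rw [hf, hσ]
    simp only
    unfold Y
    have h3 : (((((j + 1) * s : ℕ) : ℤ) : ℝ) - (((j * s : ℕ) : ℤ) : ℝ)) = s := by push_cast; ring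
    rw [h3]
    field_simp
  have hY : Y x (u : ℤ) (v : ℤ) n = A + ∑ j ∈ Ico a b, σ * f j + B := by
    have h1 : Y x (u : ℤ) (v : ℤ) n = (win (u : ℤ) (v : ℤ) n : ℝ) * Real.log x / w := by
      unfold Y
      rw [hw]
      push_cast
      rfl
    rw [h1, hsplit]
    push_cast
    rw [add_mul, add_mul, add_div, add_div, Finset.sum_mul, Finset.sum_div]
    congr 1
    congr 1
    refine Finset.sum_congr rfl fun j _ => ?_
    have := hYf j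
    push_cast at this
    exact this
  set M : ℝ := σ * ∑ j ∈ Ico a b, (f j - V) with hM
  set E : ℝ := V * (((b : ℝ) - a) * σ - 1) with hE
  have hcard : ((Ico a b).card : ℝ) = (b : ℝ) - a := by
    rw [Nat.card_Ico, Nat.cast_sub hab]
  have hsum : Y x (u : ℤ) (v : ℤ) n - V = A + B + M + E := by
    rw [hY, hM, hE, Finset.sum_sub_distrib, Finset.sum_const, nsmul_eq_mul, hcard, ← Finset.mul_sum]
    ring
  rw [hsum]
  have h4 : (A + B + M + E) ^ 2 ≤ 4 * (A ^ 2 + B ^ 2 + M ^ 2 + E ^ 2) := by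
    nlinarith [sq_nonneg (A - B), sq_nonneg (A - M), sq_nonneg (A - E), sq_nonneg (B - M),
      sq_nonneg (B - E), sq_nonneg (M - E)]
  -- the middle term
  have hba : ((b : ℝ) - a) * σ ≤ 1 := by
    rw [hσ, ← mul_div_assoc, div_le_one hw0, hw]
    nlinarith
  have hM2 : M ^ 2 ≤ ∑ j ∈ range m, (f j - V) ^ 2 := by
    have h5 : (∑ j ∈ Ico a b, (f j - V)) ^ 2 ≤ ((b : ℝ) - a) * ∑ j ∈ Ico a b, (f j - V) ^ 2 := by
      have := sq_sum_le_card_mul_sum_sq (s := Ico a b) (f := fun j => f j - V)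
      rw [hcard] at this
      exact this
    have h6 : ∑ j ∈ Ico a b, (f j - V) ^ 2 ≤ ∑ j ∈ range m, (f j - V) ^ 2 := by
      refine Finset.sum_le_sum_of_subset_of_nonneg ?_ fun i _ _ => sq_nonneg _
      intro j hj
      rw [Finset.mem_Ico] at hj
      rw [Finset.mem_range]
      omega
    have h7 : (0 : ℝ) ≤ ∑ j ∈ Ico a b, (f j - V) ^ 2 := Finset.sum_nonneg fun i _ => sq_nonneg _
    have h8 : M ^ 2 = σ ^ 2 * (∑ j ∈ Ico a b, (f j - V)) ^ 2 := by rw [hM]; ring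
    rw [h8]
    calc σ ^ 2 * (∑ j ∈ Ico a b, (f j - V)) ^ 2
        ≤ σ ^ 2 * (((b : ℝ) - a) * ∑ j ∈ Ico a b, (f j - V) ^ 2) :=
          mul_le_mul_of_nonneg_left h5 (sq_nonneg _)
      _ = σ * ((((b : ℝ) - a) * σ) * ∑ j ∈ Ico a b, (f j - V) ^ 2) := by ring
      _ ≤ σ * (1 * ∑ j ∈ Ico a b, (f j - V) ^ 2) :=
          mul_le_mul_of_nonneg_left (mul_le_mul_of_nonneg_right hba h7) hσ0
      _ ≤ 1 * (1 * ∑ j ∈ Ico a b, (f j - V) ^ 2) :=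
          mul_le_mul_of_nonneg_right hσ1 (by rw [one_mul]; exact h7)
      _ = ∑ j ∈ Ico a b, (f j - V) ^ 2 := by ring
      _ ≤ _ := h6
  have hE2 : E ^ 2 ≤ 4 * σ ^ 2 * V ^ 2 := by
    have h5 : 1 - ((b : ℝ) - a) * σ ≤ 2 * σ := by
      have h6 : w - ((b : ℝ) - a) * s ≤ 2 * s := by rw [hw]; nlinarith
      have h7 : 1 - ((b : ℝ) - a) * σ = (w - ((b : ℝ) - a) * s) / w := by
        rw [hσ]; field_simp
      have h8 : 2 * σ = (2 * s) / w := by rw [hσ]; ring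
      rw [h7, h8]
      exact div_le_div_of_nonneg_right h6 hw0.le
    have h6 : (((b : ℝ) - a) * σ - 1) ^ 2 ≤ (2 * σ) ^ 2 := by
      rw [← sq_abs (((b : ℝ) - a) * σ - 1)]
      refine pow_le_pow_left₀ (abs_nonneg _) ?_ 2
      rw [abs_le]
      constructor <;> linarith
    have h7 : E ^ 2 = V ^ 2 * (((b : ℝ) - a) * σ - 1) ^ 2 := by rw [hE]; ring
    rw [h7]
    calc V ^ 2 * (((b : ℝ) - a) * σ - 1) ^ 2 ≤ V ^ 2 * (2 * σ) ^ 2 :=
          mul_le_mul_of_nonneg_left h6 (sq_nonneg _)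
      _ = 4 * σ ^ 2 * V ^ 2 := by ring
  linarith

theorem CLO (x C δ : ℝ) (s m u v : ℕ) (hx : 0 ≤ x) (hs : 1 ≤ s) (hm : 1 ≤ m) (hC0 : 0 ≤ C) (hC : En x s ≤ C * x)
    (hδ : En x s - En x (m * s) ≤ δ * x) (huv : u + s ≤ v) (hv : v ≤ m * s) :
    ∑ n ∈ range (⌊x⌋₊ + 1), (Y x (u : ℤ) (v : ℤ) (n : ℤ) - Y x 0 ((m * s : ℕ) : ℤ) (n : ℤ)) ^ 2
      ≤ (4 * m * δ + 24 * C * ((s : ℝ) / ((v : ℝ) - u)) ^ 2) * x := by
  have hspos : 0 < s := hs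
  -- the two indices
  set a : ℕ := (u + s - 1) / s with ha
  set b : ℕ := v / s with hb
  have ha0 : s * a + (u + s - 1) % s = u + s - 1 := Nat.div_add_mod _ _
  have ha1 : (u + s - 1) % s < s := Nat.mod_lt _ hspos
  have hb0 : s * b + v % s = v := Nat.div_add_mod _ _
  have hb1 : v % s < s := Nat.mod_lt _ hspos
  have hau : u ≤ a * s := by rw [mul_comm a s]; omega
  have hau' : a * s ≤ u + s - 1 := by rw [mul_comm a s]; omega
  have hbv : b * s ≤ v := by rw [mul_comm b s]; omega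
  have hbv' : v ≤ (b + 1) * s := by rw [add_mul, mul_comm b s]; omega
  have hab : a ≤ b := by
    rw [hb, Nat.le_div_iff_mul_le hspos]
    omega
  have hbm : b ≤ m := by
    rw [hb]
    exact Nat.div_le_of_le_mul (by rw [mul_comm s m]; exact hv)
  have hsw' : (u : ℝ) + s ≤ v := by exact_mod_cast huv
  have hs' : (0 : ℝ) < s := by exact_mod_cast hs
  have hw0 : (0 : ℝ) < (v : ℝ) - u := by linarith
  have hpt := fun n : ℕ => CLO_pt x s m u v a b hs huv hau (by omega) hbv hbv' hab hbm (n : ℤ)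
  have hsumle := Finset.sum_le_sum (s := range (⌊x⌋₊ + 1)) fun n _ => hpt n
  refine hsumle.trans ?_
  rw [← Finset.mul_sum, Finset.sum_add_distrib, Finset.sum_add_distrib, Finset.sum_add_distrib,
    ← Finset.mul_sum]
  set σ : ℝ := (s : ℝ) / ((v : ℝ) - u) with hσ
  have hσ2 : 0 ≤ σ ^ 2 := sq_nonneg _
  -- the first term
  have hA : ∑ n ∈ range (⌊x⌋₊ + 1),
      ((win (u : ℤ) ((a * s : ℕ) : ℤ) (n : ℤ) : ℝ) * Real.log x / ((v : ℝ) - u)) ^ 2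
      ≤ σ ^ 2 * (C * x) := by
    rcases Nat.eq_zero_or_pos a with h0 | h0
    · have h1 : ∀ n ∈ range (⌊x⌋₊ + 1),
          ((win (u : ℤ) ((a * s : ℕ) : ℤ) ((n : ℕ) : ℤ) : ℝ) * Real.log x / ((v : ℝ) - u)) ^ 2
            = 0 := by
        intro n _
        have h2 : win (u : ℤ) ((a * s : ℕ) : ℤ) (n : ℤ) = 0 := by
          have h3 := win_le (u : ℤ) ((a * s : ℕ) : ℤ) (n : ℤ)
          rw [h0] at h3 ⊢
          have h4 : ((((0 * s : ℕ) : ℤ) - (u : ℤ)).toNat) = 0 := by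
            rw [Int.toNat_eq_zero]
            push_cast
            omega
          omega
        rw [h2]
        simp
      rw [Finset.sum_eq_zero h1]
      positivity
    · obtain ⟨c, hc⟩ : ∃ c, a = c + 1 := ⟨a - 1, by omega⟩
      rw [hc]
      have hcu : c * s ≤ u := by
        have h1 : (c + 1) * s = c * s + s := by ring
        have h2 : (c + 1) * s ≤ u + s - 1 := by rw [← hc]; exact hau'
        omega
      have h1 := Finset.sum_le_sum (s := range (⌊x⌋₊ + 1)) fun n _ =>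
        CLO_sub x s c hs (u : ℤ) (((c + 1) * s : ℕ) : ℤ) ((v : ℝ) - u) hw0
          (by exact_mod_cast hcu) le_rfl ((n : ℕ) : ℤ)
      refine h1.trans ?_
      rw [← Finset.mul_sum]
      exact mul_le_mul_of_nonneg_left ((CLO_block x s c).trans hC) hσ2
  have hB : ∑ n ∈ range (⌊x⌋₊ + 1),
      ((win ((b * s : ℕ) : ℤ) (v : ℤ) (n : ℤ) : ℝ) * Real.log x / ((v : ℝ) - u)) ^ 2
      ≤ σ ^ 2 * (C * x) := by
    have h1 := Finset.sum_le_sum (s := range (⌊x⌋₊ + 1)) fun n _ =>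
      CLO_sub x s b hs ((b * s : ℕ) : ℤ) (v : ℤ) ((v : ℝ) - u) hw0
        le_rfl (by exact_mod_cast hbv') ((n : ℕ) : ℤ)
    refine h1.trans ?_
    rw [← Finset.mul_sum]
    exact mul_le_mul_of_nonneg_left ((CLO_block x s b).trans hC) hσ2
  have hM : ∑ n ∈ range (⌊x⌋₊ + 1), ∑ j ∈ range m,
      (Y x ((j * s : ℕ) : ℤ) (((j + 1) * s : ℕ) : ℤ) (n : ℤ)
        - Y x 0 ((m * s : ℕ) : ℤ) (n : ℤ)) ^ 2 ≤ m * (δ * x) := by
    rw [Finset.sum_comm]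
    refine (VAR x s m hs hm).trans ?_
    exact mul_le_mul_of_nonneg_left hδ (Nat.cast_nonneg _)
  have hE : ∑ n ∈ range (⌊x⌋₊ + 1), (Y x 0 ((m * s : ℕ) : ℤ) (n : ℤ)) ^ 2 ≤ C * x :=
    (En_anti x s m hs hm).trans hC
  have hE' := mul_le_mul_of_nonneg_left hE (by positivity : (0 : ℝ) ≤ 4 * σ ^ 2)
  nlinarith

end Pool.Agent.H96.EQ
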