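import Mathlib

/-!
# CNB: adding one element to a `k`-element set (Mathlib only)

`sum_powersetCard_succ_le`: choose an element `b` of each `H ∈ powersetCard (k+1) S` (for instance `b = H.max'`, or
any choice function) and map `H ↦ (H.erase b, b)`. This map is injective (`insert b (H.erase b) = H`), it maps into the
index set on the right (`H.erase b ∈ powersetCard k S`, `b ∈ S \ H.erase b`), and the terms agree; the other terms on
the right are nonnegative. In Lean: write the right-hand side as a sum over
`(powersetCard k S).sigma (fun H => S \ H)` (`Finset.sum_sigma'`) and use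
`Finset.sum_le_sum_of_ne_zero`-free argument: left side = sum over the image of the injection
(`Finset.sum_image` or `Finset.sum_nbij`-type lemma), then `Finset.sum_le_sum_of_subset_of_nonneg`.
(Alternative: `(k+1) * LHS = RHS` by double counting, from `∑_{H} ∑_{b ∈ H} f H = (k+1) ∑ f H` and the bijection
`(H, b) ↦ (H.erase b, b)` with `Finset.sum_bij'`; then `LHS ≤ (k+1) LHS` because `LHS ≥ 0`.)
-/

set_option autoImplicit false

namespace Pool.Agent.H96.EQ

open Finset

theorem sum_powersetCard_succ_le (S : Finset ℤ) (k : ℕ) (f : Finset ℤ → ℝ) (hf : ∀ H, 0 ≤ f H) :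
    ∑ H ∈ powersetCard (k + 1) S, f H ≤ ∑ H ∈ powersetCard k S, ∑ b ∈ S \ H, f (insert b H) := by
  classical
  have hne : ∀ H ∈ powersetCard (k + 1) S, H.Nonempty := by
    intro H hH
    rw [mem_powersetCard] at hH
    rw [← Finset.card_pos]
    omega
  set g : Finset ℤ → ℤ := fun H => if h : H.Nonempty then H.max' h else 0 with hg
  have hgm : ∀ H ∈ powersetCard (k + 1) S, g H ∈ H := by
    intro H hH
    rw [hg]
    simp only [dif_pos (hne H hH)]
    exact H.max'_mem _
  rw [Finset.sum_sigma']
  set i : Finset ℤ → (Σ _ : Finset ℤ, ℤ) := fun H => ⟨H.erase (g H), g H⟩ with hi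
  have hinj : ∀ H ∈ powersetCard (k + 1) S, ∀ H' ∈ powersetCard (k + 1) S, i H = i H' → H = H' := by
    intro H hH H' hH' he
    have h1 : (i H).1 = (i H').1 := by rw [he]
    have h2 : (i H).2 = (i H').2 := by rw [he]
    have h3 : H.erase (g H) = H'.erase (g H') := h1
    have h4 : g H = g H' := h2
    rw [← Finset.insert_erase (hgm H hH), ← Finset.insert_erase (hgm H' hH'), h3, h4]
  have hsub : (powersetCard (k + 1) S).image i ⊆
      (powersetCard k S).sigma (fun H => S \ H) := by
    intro x hx
    rw [Finset.mem_image] at hx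
    obtain ⟨H, hH, rfl⟩ := hx
    have h1 := hgm H hH
    have hH' := hH
    rw [mem_powersetCard] at hH'
    rw [Finset.mem_sigma]
    refine ⟨?_, ?_⟩
    · change H.erase (g H) ∈ powersetCard k S
      rw [mem_powersetCard]
      refine ⟨(Finset.erase_subset _ _).trans hH'.1, ?_⟩
      rw [Finset.card_erase_of_mem h1, hH'.2]
      rfl
    · change g H ∈ S \ H.erase (g H)
      rw [Finset.mem_sdiff]
      exact ⟨hH'.1 h1, Finset.notMem_erase _ _⟩
  calc ∑ H ∈ powersetCard (k + 1) S, f H
      = ∑ H ∈ powersetCard (k + 1) S, f (insert (i H).2 (i H).1) := by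
        refine Finset.sum_congr rfl fun H hH => ?_
        change f H = f (insert (g H) (H.erase (g H)))
        rw [Finset.insert_erase (hgm H hH)]
    _ = ∑ x ∈ (powersetCard (k + 1) S).image i, f (insert x.2 x.1) :=
        (Finset.sum_image (f := fun x : (Σ _ : Finset ℤ, ℤ) => f (insert x.2 x.1))
          (fun H hH H' hH' => hinj H hH H' hH')).symm
    _ ≤ ∑ x ∈ (powersetCard k S).sigma (fun H => S \ H), f (insert x.2 x.1) :=
        Finset.sum_le_sum_of_subset_of_nonneg hsub fun _ _ _ => hf _

end Pool.Agent.H96.EQ
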