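import Pool.Agent.H96.EQ.CRU
import Pool.Agent.H96.EQ.BRS

/-!
# CRB: crude bound for a block of the logarithmic sum

`sec_nonneg`: all terms are nonnegative (`p3_nonneg`).
`CRB`: `C = 4 C₃`, `C₃` the constant of `CRU3`. For `P < d ≤ Q`: `1/d^2 ≤ 1/P^2`, and the index set of the inner sum of
`sec` is contained in `Ioc 0 Q` (`a < d ≤ Q`; `0 ≤ α d < a` gives `a ≥ 1`), so `sec (p3 x) α β d ≤ (1/P^2) ∑_{a ∈ Ioc 0 Q} p3 x a d`.
Summing over `d ∈ Ioc P Q ⊆ Ioc 0 Q` and interchanging the sums: `≤ (1/P^2) S3 x 0 Q 0 Q` (`S3_eq` with `u1 = u2 = 0`)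
`≤ (1/P^2) C₃ Q^2 Z ≤ 4 C₃ Z` (`CRU3` with `D = Q`; `Q ≤ 2 P`).
-/

set_option autoImplicit false

namespace Pool.Agent.H96.EQ

open Finset Pool.Agent.H6.MF

theorem sec_nonneg (x α β : ℝ) (d : ℕ) : 0 ≤ sec (p3 x) α β d := by
  unfold sec
  apply mul_nonneg (by positivity)
  exact Finset.sum_nonneg (fun a _ => p3_nonneg x a d)

theorem CRB : ∃ C X : ℝ, 0 < C ∧ ∀ x : ℝ, X ≤ x → ∀ P Q : ℕ, 1 ≤ P → Q ≤ 2 * P → Real.log x ≤ Q →
    2 * (Q : ℝ) ≤ (Real.log x) ^ 3 → ∀ α β : ℝ, 0 ≤ α →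
    ∑ d ∈ Ioc P Q, sec (p3 x) α β d ≤ C * (x / (Real.log x) ^ 3) := by
  obtain ⟨C3, X3, hC3, h3⟩ := CRU3
  refine ⟨4 * C3, max X3 1, by positivity, ?_⟩
  intro x hx P Q hP hPQ hlQ hQ3 α β hα
  have hx3 : X3 ≤ x := le_trans (le_max_left _ _) hx
  have hx1 : 1 ≤ x := le_trans (le_max_right _ _) hx
  have hlog : 0 ≤ Real.log x := Real.log_nonneg hx1
  have hZ : 0 ≤ x / (Real.log x) ^ 3 := by positivity
  have hP0 : (0 : ℝ) < (P : ℝ) := by exact_mod_cast hP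
  have hcr := h3 x hx3 Q hlQ hQ3
  have hS : S3 x 0 (Q : ℤ) 0 (Q : ℤ) = ∑ a ∈ Ioc 0 Q, ∑ b ∈ Ioc 0 Q, p3 x a b := by
    have := S3_eq x 0 Q 0 Q
    simpa using this
  have hterm : ∀ d ∈ Ioc P Q, sec (p3 x) α β d ≤ 1 / (P : ℝ) ^ 2 * ∑ a ∈ Ioc 0 Q, p3 x a d := by
    intro d hd
    rw [Finset.mem_Ioc] at hd
    unfold sec
    have hdP : (P : ℝ) ≤ (d : ℝ) := by exact_mod_cast hd.1.le
    have h1 : 1 / (d : ℝ) ^ 2 ≤ 1 / (P : ℝ) ^ 2 := by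
      apply one_div_le_one_div_of_le (by positivity)
      exact pow_le_pow_left₀ hP0.le hdP 2
    have h2 : ∑ a ∈ (range d).filter (fun a : ℕ => α * d < (a : ℝ) ∧ (a : ℝ) ≤ β * d), p3 x a d
        ≤ ∑ a ∈ Ioc 0 Q, p3 x a d := by
      apply Finset.sum_le_sum_of_subset_of_nonneg
      · intro a ha
        rw [Finset.mem_filter, Finset.mem_range] at ha
        rw [Finset.mem_Ioc]
        constructor
        · have h0 : (0 : ℝ) ≤ α * (d : ℝ) := by positivity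
          have h00 : (0 : ℝ) < (a : ℝ) := lt_of_le_of_lt h0 ha.2.1
          exact_mod_cast h00
        · omega
      · intro a _ _
        exact p3_nonneg x a d
    exact mul_le_mul h1 h2 (Finset.sum_nonneg (fun a _ => p3_nonneg x a d)) (by positivity)
  have hsum : ∑ d ∈ Ioc P Q, ∑ a ∈ Ioc 0 Q, p3 x a d ≤ ∑ a ∈ Ioc 0 Q, ∑ b ∈ Ioc 0 Q, p3 x a b := by
    rw [Finset.sum_comm]
    apply Finset.sum_le_sum
    intro a _
    apply Finset.sum_le_sum_of_subset_of_nonneg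
    · intro d hd
      rw [Finset.mem_Ioc] at hd ⊢
      omega
    · intro b _ _
      exact p3_nonneg x a b
  calc ∑ d ∈ Ioc P Q, sec (p3 x) α β d
      ≤ ∑ d ∈ Ioc P Q, 1 / (P : ℝ) ^ 2 * ∑ a ∈ Ioc 0 Q, p3 x a d := Finset.sum_le_sum hterm
    _ = 1 / (P : ℝ) ^ 2 * ∑ d ∈ Ioc P Q, ∑ a ∈ Ioc 0 Q, p3 x a d := by rw [Finset.mul_sum]
    _ ≤ 1 / (P : ℝ) ^ 2 * (C3 * (Q : ℝ) ^ 2 * (x / (Real.log x) ^ 3)) := by
        apply mul_le_mul_of_nonneg_left _ (by positivity)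
        calc _ ≤ _ := hsum
          _ = S3 x 0 (Q : ℤ) 0 (Q : ℤ) := hS.symm
          _ ≤ _ := hcr
    _ ≤ 1 / (P : ℝ) ^ 2 * (C3 * (2 * (P : ℝ)) ^ 2 * (x / (Real.log x) ^ 3)) := by
        apply mul_le_mul_of_nonneg_left _ (by positivity)
        apply mul_le_mul_of_nonneg_right _ hZ
        apply mul_le_mul_of_nonneg_left _ hC3.le
        apply pow_le_pow_left₀ (by positivity)
        exact_mod_cast hPQ
    _ = 4 * C3 * (x / (Real.log x) ^ 3) := by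
        field_simp
        ring

end Pool.Agent.H96.EQ
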