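import Mathlib

/-!
# HOL: two Hölder type inequalities for finite sums (Mathlib only)

* `hol`: `∑ |f g h| = ∑ |f| |g h|`, so by Cauchy-Schwarz (`Finset.sum_mul_sq_le_sq_mul_sq`)
  `(∑ |f g h|)^2 ≤ (∑ f^2) (∑ (g h)^2)`, and `(∑ g^2 h^2)^2 ≤ (∑ g^4) (∑ h^4) ≤ (B^2 D^2 x)^2`, so
  `∑ g^2 h^2 ≤ B^2 D^2 x` (`abs_le_of_sq_le_sq`/`pow_le_pow_left₀` inverse, both sides `≥ 0`). Hence
  `(∑ |f g h|)^2 ≤ A^2 x · B^2 D^2 x = (A B D x)^2`.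
* `hol3`: `(∑ f^2)^2 ≤ #s · ∑ f^4 ≤ (4 x) (A^4 x) = (2 A^2 x)^2` (Cauchy-Schwarz with the constant `1`;
  `sq_sum_le_card_mul_sum_sq` applied to `f^2`), so `∑ f^2 ≤ 2 A^2 x ≤ (2 A)^2 x`; now `hol` with `2 A`.
-/

set_option autoImplicit false

namespace Pool.Agent.H96.EQ

open Finset

theorem hol_le_of_sq_le_sq {a b : ℝ} (h : a ^ 2 ≤ b ^ 2) (hb : 0 ≤ b) : a ≤ b :=
  (abs_le.1 (abs_le_of_sq_le_sq h hb)).2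

theorem hol {ι : Type*} (s : Finset ι) (f g h : ι → ℝ) (x A B D : ℝ) (hx : 0 ≤ x) (hA : 0 ≤ A) (hB : 0 ≤ B)
    (hD : 0 ≤ D) (h1 : ∑ i ∈ s, f i ^ 2 ≤ A ^ 2 * x) (h2 : ∑ i ∈ s, g i ^ 4 ≤ B ^ 4 * x)
    (h3 : ∑ i ∈ s, h i ^ 4 ≤ D ^ 4 * x) : ∑ i ∈ s, |f i * g i * h i| ≤ A * B * D * x := by
  have hgh : ∑ i ∈ s, (g i * h i) ^ 2 ≤ B ^ 2 * D ^ 2 * x := by
    have hcs := Finset.sum_mul_sq_le_sq_mul_sq s (fun i => g i ^ 2) (fun i => h i ^ 2)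
    have e1 : ∑ i ∈ s, (g i ^ 2) ^ 2 = ∑ i ∈ s, g i ^ 4 :=
      Finset.sum_congr rfl (fun i _ => by ring)
    have e2 : ∑ i ∈ s, (h i ^ 2) ^ 2 = ∑ i ∈ s, h i ^ 4 :=
      Finset.sum_congr rfl (fun i _ => by ring)
    have e3 : ∑ i ∈ s, g i ^ 2 * h i ^ 2 = ∑ i ∈ s, (g i * h i) ^ 2 :=
      Finset.sum_congr rfl (fun i _ => by ring)
    rw [e1, e2, e3] at hcs
    have hb : (∑ i ∈ s, g i ^ 4) * (∑ i ∈ s, h i ^ 4) ≤ (B ^ 4 * x) * (D ^ 4 * x) :=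
      mul_le_mul h2 h3 (Finset.sum_nonneg (fun i _ => by positivity)) (by positivity)
    have hsq : (∑ i ∈ s, (g i * h i) ^ 2) ^ 2 ≤ (B ^ 2 * D ^ 2 * x) ^ 2 := by
      calc (∑ i ∈ s, (g i * h i) ^ 2) ^ 2 ≤ (B ^ 4 * x) * (D ^ 4 * x) := hcs.trans hb
        _ = (B ^ 2 * D ^ 2 * x) ^ 2 := by ring
    exact hol_le_of_sq_le_sq hsq (by positivity)
  have hcs := Finset.sum_mul_sq_le_sq_mul_sq s (fun i => |f i|) (fun i => |g i * h i|)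
  have e1 : ∑ i ∈ s, |f i| ^ 2 = ∑ i ∈ s, f i ^ 2 :=
    Finset.sum_congr rfl (fun i _ => sq_abs _)
  have e2 : ∑ i ∈ s, |g i * h i| ^ 2 = ∑ i ∈ s, (g i * h i) ^ 2 :=
    Finset.sum_congr rfl (fun i _ => sq_abs _)
  have e3 : ∑ i ∈ s, |f i| * |g i * h i| = ∑ i ∈ s, |f i * g i * h i| :=
    Finset.sum_congr rfl (fun i _ => by rw [← abs_mul, mul_assoc])
  rw [e1, e2, e3] at hcs
  have hb : (∑ i ∈ s, f i ^ 2) * (∑ i ∈ s, (g i * h i) ^ 2) ≤ (A ^ 2 * x) * (B ^ 2 * D ^ 2 * x) :=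
    mul_le_mul h1 hgh (Finset.sum_nonneg (fun i _ => by positivity)) (by positivity)
  have hsq : (∑ i ∈ s, |f i * g i * h i|) ^ 2 ≤ (A * B * D * x) ^ 2 := by
    calc (∑ i ∈ s, |f i * g i * h i|) ^ 2 ≤ (A ^ 2 * x) * (B ^ 2 * D ^ 2 * x) := hcs.trans hb
      _ = (A * B * D * x) ^ 2 := by ring
  exact hol_le_of_sq_le_sq hsq (by positivity)

theorem hol3 {ι : Type*} (s : Finset ι) (f g h : ι → ℝ) (x A B D : ℝ) (hx : 0 ≤ x) (hA : 0 ≤ A) (hB : 0 ≤ B)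
    (hD : 0 ≤ D) (hc : (s.card : ℝ) ≤ 4 * x) (h1 : ∑ i ∈ s, f i ^ 4 ≤ A ^ 4 * x) (h2 : ∑ i ∈ s, g i ^ 4 ≤ B ^ 4 * x)
    (h3 : ∑ i ∈ s, h i ^ 4 ≤ D ^ 4 * x) : ∑ i ∈ s, |f i * g i * h i| ≤ 2 * A * B * D * x := by
  have hf : ∑ i ∈ s, f i ^ 2 ≤ (2 * A) ^ 2 * x := by
    have hcs := sq_sum_le_card_mul_sum_sq (s := s) (f := fun i => f i ^ 2)
    have e1 : ∑ i ∈ s, (f i ^ 2) ^ 2 = ∑ i ∈ s, f i ^ 4 :=
      Finset.sum_congr rfl (fun i _ => by ring)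
    rw [e1] at hcs
    have hb : (s.card : ℝ) * (∑ i ∈ s, f i ^ 4) ≤ (4 * x) * (A ^ 4 * x) :=
      mul_le_mul hc h1 (Finset.sum_nonneg (fun i _ => by positivity)) (by positivity)
    have hsq : (∑ i ∈ s, f i ^ 2) ^ 2 ≤ (2 * A ^ 2 * x) ^ 2 := by
      calc (∑ i ∈ s, f i ^ 2) ^ 2 ≤ (4 * x) * (A ^ 4 * x) := hcs.trans hb
        _ = (2 * A ^ 2 * x) ^ 2 := by ring
    have h4 : ∑ i ∈ s, f i ^ 2 ≤ 2 * A ^ 2 * x := hol_le_of_sq_le_sq hsq (by positivity)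
    nlinarith [mul_nonneg (sq_nonneg A) hx]
  have := hol s f g h x (2 * A) B D hx (by positivity) hB hD hf h2 h3
  linarith

end Pool.Agent.H96.EQ
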