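import Pool.Agent.H96.EQ.MSG
import Pool.Agent.H96.EQ.CHO
import Pool.Agent.H6.MF.SIE
import Pool.Agent.H6.MF.HUP

/-!
# MOM: fourth moments of the number of primes in windows

Notation: `Λ = log x`, `w = v - u ≥ Λ`.
1. For every natural number `W`: `W^4 ≤ 256 C(W,4) + 81`. (`W ≤ 3`: `W^4 ≤ 81`, `interval_cases`. `W = m + 4`: from
   `Nat.descFactorial_eq_factorial_mul_choose`, `24 C(W,4) = (m+4)(m+3)(m+2)(m+1)`, and
   `W^4 ≤ (32/3) W (W-1)(W-2)(W-3)` for `W ≥ 4`, since `W - 1 ≥ 3W/4`, `W - 2 ≥ W/2`, `W - 3 ≥ W/4`; or expand in `m`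
   with nonnegative coefficients: `3 (m+4)^4 ≤ 32 (m+4)(m+3)(m+2)(m+1)` by `nlinarith`/`positivity` after
   `ring_nf`.) Compare `cube_le` in H6/MF/JEN.
2. `∑_n C(win, 4) = ∑_{H ∈ powersetCard 4 (Ioc u v)} cnt x H` (`CHO`).
   * `H` admissible: `SIE 4 3` (all `h ∈ H` satisfy `|h| ≤ Λ^3`): `cnt x H ≤ C₀ sing H x/Λ^4`.
   * `H` not admissible: `cnt x H ≤ 4` (`cnt_inadm`).
   Hence the sum is `≤ C₀ (x/Λ^4) ∑ sing H + 4 #(powersetCard 4 (Ioc u v)) ≤ C₀ (x/Λ^4) (2 w)^4 + 4 w^4`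
   (`MSG 4 3` with `Y = Λ`; `sing_nonneg`; `#powersetCard = C(w,4) ≤ w^4`, `Nat.choose_le_pow`-type lemma), and
   `4 w^4 ≤ 4 (w/Λ)^4 x` as soon as `Λ^4 ≤ x` (`HUP_growth 1 4`). So it is `≤ (16 C₀ + 4) (w/Λ)^4 x`.
3. `81 (⌊x⌋₊ + 1) ≤ 162 x ≤ 162 (w/Λ)^4 x` (`x ≥ 1`, `w ≥ Λ > 0`).
Total: `C = 256 (16 C₀ + 4) + 162`.
(`HUP_growth (K : ℝ) (m : ℕ) : ∀ᶠ x in atTop, K * (Real.log x) ^ m ≤ x`.)
-/

set_option autoImplicit false

namespace Pool.Agent.H96.EQ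

open Finset Pool.Agent.H6.MF

theorem MOM_four_le (W : ℕ) : (W : ℝ) ^ 4 ≤ 256 * (W.choose 4 : ℝ) + 81 := by
  rcases Nat.lt_or_ge W 4 with h | h
  · interval_cases W <;> norm_num [Nat.choose]
  · obtain ⟨m, rfl⟩ := Nat.exists_eq_add_of_le' h
    have h2 : (24 : ℝ) * ((m + 4).choose 4 : ℝ) = ((m : ℝ) + 4) * (m + 3) * (m + 2) * (m + 1) := by
      have h3 := Nat.descFactorial_eq_factorial_mul_choose (m + 4) 4
      have h4 : (m + 4).descFactorial 4 = (m + 4 - 3) * ((m + 4 - 2) * ((m + 4 - 1) * (m + 4))) := by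
        simp [Nat.descFactorial]
      have h5 : (m + 4 - 3) * ((m + 4 - 2) * ((m + 4 - 1) * (m + 4))) =
          (m + 1) * ((m + 2) * ((m + 3) * (m + 4))) := rfl
      rw [h4, h5, show Nat.factorial 4 = 24 from rfl] at h3
      have h6 : (((m + 1) * ((m + 2) * ((m + 3) * (m + 4))) : ℕ) : ℝ) = ((24 * (m + 4).choose 4 : ℕ) : ℝ) := by
        rw [h3]
      push_cast at h6
      linarith
    have hm : (0 : ℝ) ≤ m := Nat.cast_nonneg m
    have key : 0 ≤ ((m : ℝ) + 4) * (29 / 3 * (m : ℝ) ^ 3 + 52 * (m : ℝ) ^ 2 + 208 / 3 * m) := by positivity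
    push_cast
    nlinarith [key, h2]

theorem MOM_card {u v : ℤ} (h : 0 ≤ (v : ℝ) - u) :
    ((powersetCard 4 (Ioc u v)).card : ℝ) ≤ ((v : ℝ) - u) ^ 4 := by
  rw [Finset.card_powersetCard, Int.card_Ioc]
  have h1 : (((v - u).toNat : ℕ) : ℝ) = (v : ℝ) - u := by
    have h2 : 0 ≤ v - u := by
      have : (0 : ℝ) ≤ ((v - u : ℤ) : ℝ) := by push_cast; exact h
      exact_mod_cast this
    have h3 : (((v - u).toNat : ℤ) : ℝ) = ((v - u : ℤ) : ℝ) := by rw [Int.toNat_of_nonneg h2]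
    rw [← Int.cast_natCast, h3]
    push_cast
    ring
  rw [← h1]
  exact_mod_cast Nat.choose_le_pow _ _

theorem MOM : ∃ C X : ℝ, 0 < C ∧ ∀ x : ℝ, X ≤ x → ∀ u v : ℤ, |(u : ℝ)| ≤ (Real.log x) ^ 3 →
    |(v : ℝ)| ≤ (Real.log x) ^ 3 → Real.log x ≤ (v : ℝ) - u →
    ∑ n ∈ range (⌊x⌋₊ + 1), (win u v (n : ℤ) : ℝ) ^ 4 ≤ C * (((v : ℝ) - u) / Real.log x) ^ 4 * x := by
  obtain ⟨C0, X1, hC0, hSIE⟩ := SIE 4 3 (by norm_num)
  obtain ⟨Y0, hMSG⟩ := MSG 4 3
  obtain ⟨X2, hX2⟩ := Filter.eventually_atTop.mp (HUP_growth 1 4)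
  obtain ⟨X3, hX3⟩ := Filter.eventually_atTop.mp
    (Real.tendsto_log_atTop.eventually_ge_atTop (max Y0 1))
  refine ⟨256 * (16 * C0 + 4) + 162, max (max X1 X2) (max X3 1), by positivity,
    fun x hx u v hu hv hw => ?_⟩
  have hxX1 : X1 ≤ x := (le_max_left _ _).trans ((le_max_left _ _).trans hx)
  have hxX2 : X2 ≤ x := (le_max_right _ _).trans ((le_max_left _ _).trans hx)
  have hxX3 : X3 ≤ x := (le_max_left _ _).trans ((le_max_right _ _).trans hx)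
  have hx1 : 1 ≤ x := (le_max_right _ _).trans ((le_max_right _ _).trans hx)
  have hLx := hX2 x hxX2
  have hLY := hX3 x hxX3
  rw [one_mul] at hLx
  have hLY0 : Y0 ≤ Real.log x := (le_max_left _ _).trans hLY
  have hL1 : 1 ≤ Real.log x := (le_max_right _ _).trans hLY
  have hmsg := hMSG (Real.log x) hLY0 u v hu hv hw
  set L : ℝ := Real.log x with hL
  set w : ℝ := (v : ℝ) - u with hwdef
  have hL0 : 0 < L := by linarith
  have hw0 : 0 ≤ w := by linarith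
  have hr1 : 1 ≤ w / L := by rw [le_div_iff₀ hL0]; linarith
  have hcnt : ∀ H ∈ powersetCard 4 (Ioc u v), (cnt x H : ℝ) ≤ C0 * (sing H * x / L ^ 4) + 4 := by
    intro H hH
    obtain ⟨hsub, hcard⟩ := mem_powersetCard.1 hH
    have hs0 := sing_nonneg H
    by_cases ha : adm H
    · have h1 := hSIE x hxX1 H hcard ha (by
        intro h hh
        obtain ⟨h2, h3⟩ := mem_Ioc.1 (hsub hh)
        have h2' : (u : ℝ) < h := by exact_mod_cast h2
        have h3' : (h : ℝ) ≤ v := by exact_mod_cast h3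
        rw [abs_le] at hu hv ⊢
        constructor
        · linarith [hu.1]
        · linarith [hv.2])
      linarith
    · have h1 := cnt_inadm x ha
      rw [hcard] at h1
      have h2 : (cnt x H : ℝ) ≤ 4 := by exact_mod_cast h1
      have h3 : 0 ≤ C0 * (sing H * x / L ^ 4) := by positivity
      linarith
  have hsum4 : ∑ n ∈ range (⌊x⌋₊ + 1), ((win u v (n : ℤ)).choose 4 : ℝ) ≤
      (16 * C0 + 4) * (w / L) ^ 4 * x := by
    rw [CHO]
    have hL4 : (0 : ℝ) < L ^ 4 := by positivity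
    calc ∑ H ∈ powersetCard 4 (Ioc u v), (cnt x H : ℝ)
        ≤ ∑ H ∈ powersetCard 4 (Ioc u v), (C0 * (sing H * x / L ^ 4) + 4) := sum_le_sum hcnt
      _ = C0 * x / L ^ 4 * ∑ H ∈ powersetCard 4 (Ioc u v), sing H +
          4 * ((powersetCard 4 (Ioc u v)).card : ℝ) := by
          rw [sum_add_distrib, sum_const, nsmul_eq_mul, mul_sum]
          congr 1
          · refine sum_congr rfl fun H _ => ?_
            ring
          · ring
      _ ≤ C0 * x / L ^ 4 * (2 * w) ^ 4 + 4 * w ^ 4 := by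
          refine add_le_add (mul_le_mul_of_nonneg_left hmsg (by positivity)) ?_
          exact mul_le_mul_of_nonneg_left (MOM_card hw0) (by norm_num)
      _ ≤ (16 * C0 + 4) * (w / L) ^ 4 * x := by
          have e1 : C0 * x / L ^ 4 * (2 * w) ^ 4 = 16 * C0 * (w / L) ^ 4 * x := by
            rw [div_pow]
            field_simp
            ring
          have e2 : w ^ 4 = (w / L) ^ 4 * L ^ 4 := by
            rw [div_pow]
            field_simp
          have e3 : (w / L) ^ 4 * L ^ 4 ≤ (w / L) ^ 4 * x :=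
            mul_le_mul_of_nonneg_left hLx (by positivity)
          rw [e1, e2]
          nlinarith [e3]
  have hflo : (((⌊x⌋₊ + 1 : ℕ)) : ℝ) ≤ 2 * x := by
    have := Nat.floor_le (by linarith : (0 : ℝ) ≤ x)
    push_cast
    linarith
  have hr4 : (1 : ℝ) ≤ (w / L) ^ 4 := one_le_pow₀ hr1
  calc ∑ n ∈ range (⌊x⌋₊ + 1), (win u v (n : ℤ) : ℝ) ^ 4
      ≤ ∑ n ∈ range (⌊x⌋₊ + 1), (256 * ((win u v (n : ℤ)).choose 4 : ℝ) + 81) :=
        sum_le_sum fun n _ => MOM_four_le _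
    _ = 256 * ∑ n ∈ range (⌊x⌋₊ + 1), ((win u v (n : ℤ)).choose 4 : ℝ) + 81 * ((⌊x⌋₊ + 1 : ℕ) : ℝ) := by
        rw [sum_add_distrib, sum_const, card_range, nsmul_eq_mul, mul_sum]
        ring
    _ ≤ 256 * ((16 * C0 + 4) * (w / L) ^ 4 * x) + 81 * (2 * x) := by
        linarith
    _ ≤ (256 * (16 * C0 + 4) + 162) * (w / L) ^ 4 * x := by
        have h1 : x ≤ (w / L) ^ 4 * x := le_mul_of_one_le_left (by linarith) hr4
        nlinarith [h1]

end Pool.Agent.H96.EQ
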