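import Pool.Agent.H96.EQ.Defs
import Pool.Agent.H96.EQ.MOM
import Pool.Agent.H96.EQ.HOL

/-!
# MO4: consequences of the fourth moment bound

* `MO4`: `C, X` from `MOM`, `K = max 1 C`, so `C ≤ K ≤ K^4`. `⌊x⌋₊ + 1 ≤ x + 1 ≤ 2 x`. The second bound from the first one
  by dividing by `(w/Λ)^4` (`Y x u v n = win u v n · Λ/w`, `w = v - u ≥ Λ > 0`). `En x s ≤ 2 K^2 x`: Cauchy-Schwarz
  (`sq_sum_le_card_mul_sum_sq`): `(En x s)^2 ≤ (⌊x⌋₊ + 1) ∑ Y^4 ≤ 2 x K^4 x ≤ (2 K^2 x)^2`.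
* `TRP`: `hol3` with `A = K w₀/Λ` etc. (`card (range (⌊x⌋₊+1)) ≤ 2 x ≤ 4 x`), `C = 2 K^3`; all terms are `≥ 0`.
* `TRD`: `hol` with `f = Y_J - Y_{J'}` (`A = ρ`), `g = win u0 v0`, `h = win u1 v1`.
* `TRY`: `hol` with `f` and two normalised windows.
-/

set_option autoImplicit false

namespace Pool.Agent.H96.EQ

open Finset Pool.Agent.H6.MF

theorem MO4 : ∃ K X : ℝ, 1 ≤ K ∧ ∀ x : ℝ, X ≤ x → 1 ≤ x ∧ 1 ≤ Real.log x ∧ (⌊x⌋₊ : ℝ) + 1 ≤ 2 * x ∧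
    (∀ u v : ℕ, (v : ℝ) ≤ (Real.log x) ^ 3 → (u : ℝ) + Real.log x ≤ v →
      ∑ n ∈ range (⌊x⌋₊ + 1), (win (u : ℤ) (v : ℤ) (n : ℤ) : ℝ) ^ 4 ≤ (K * (((v : ℝ) - u) / Real.log x)) ^ 4 * x ∧
      ∑ n ∈ range (⌊x⌋₊ + 1), Y x (u : ℤ) (v : ℤ) (n : ℤ) ^ 4 ≤ K ^ 4 * x) ∧
    (∀ s : ℕ, Real.log x ≤ s → (s : ℝ) ≤ (Real.log x) ^ 3 → En x s ≤ 2 * K ^ 2 * x) := by
  obtain ⟨C, X0, hC, h⟩ := MOM
  refine ⟨max 1 C, max X0 (Real.exp 1), le_max_left _ _, ?_⟩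
  intro x hx
  have hx0 : X0 ≤ x := le_trans (le_max_left _ _) hx
  have hxe : Real.exp 1 ≤ x := le_trans (le_max_right _ _) hx
  have he : (1 : ℝ) + 1 ≤ Real.exp 1 := Real.add_one_le_exp 1
  have hx1 : 1 ≤ x := by linarith
  have hxpos : 0 < x := by linarith
  have hL : 1 ≤ Real.log x := (Real.le_log_iff_exp_le hxpos).mpr hxe
  have hLpos : 0 < Real.log x := by linarith
  have hfl : (⌊x⌋₊ : ℝ) + 1 ≤ 2 * x := by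
    have := Nat.floor_le hxpos.le
    linarith
  have hK1 : (1 : ℝ) ≤ max 1 C := le_max_left _ _
  have hKC : C ≤ (max 1 C) ^ 4 := by
    have h1 : C ≤ max 1 C := le_max_right _ _
    have h2 : (max 1 C) ^ 1 ≤ (max 1 C) ^ 4 := pow_le_pow_right₀ hK1 (by norm_num)
    rw [pow_one] at h2
    linarith
  have key : ∀ u v : ℕ, (v : ℝ) ≤ (Real.log x) ^ 3 → (u : ℝ) + Real.log x ≤ v →
      ∑ n ∈ range (⌊x⌋₊ + 1), (win (u : ℤ) (v : ℤ) (n : ℤ) : ℝ) ^ 4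
        ≤ (max 1 C * (((v : ℝ) - u) / Real.log x)) ^ 4 * x ∧
      ∑ n ∈ range (⌊x⌋₊ + 1), Y x (u : ℤ) (v : ℤ) (n : ℤ) ^ 4 ≤ (max 1 C) ^ 4 * x := by
    intro u v hv huv
    have hu0 : (0 : ℝ) ≤ u := Nat.cast_nonneg u
    have hv0 : (0 : ℝ) ≤ v := Nat.cast_nonneg v
    have hw : 0 < (v : ℝ) - u := by linarith
    have h1 := h x hx0 (u : ℤ) (v : ℤ)
      (by rw [Int.cast_natCast, abs_of_nonneg hu0]; linarith)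
      (by rw [Int.cast_natCast, abs_of_nonneg hv0]; exact hv)
      (by rw [Int.cast_natCast, Int.cast_natCast]; linarith)
    rw [Int.cast_natCast, Int.cast_natCast] at h1
    have h2 : ∑ n ∈ range (⌊x⌋₊ + 1), (win (u : ℤ) (v : ℤ) (n : ℤ) : ℝ) ^ 4
        ≤ (max 1 C * (((v : ℝ) - u) / Real.log x)) ^ 4 * x := by
      refine le_trans h1 ?_
      rw [mul_pow]
      have h3 : 0 ≤ (((v : ℝ) - u) / Real.log x) ^ 4 := by positivity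
      exact mul_le_mul_of_nonneg_right (mul_le_mul_of_nonneg_right hKC h3) hxpos.le
    refine ⟨h2, ?_⟩
    have h4 : ∀ n : ℕ, Y x (u : ℤ) (v : ℤ) (n : ℤ) ^ 4
        = (Real.log x / ((v : ℝ) - u)) ^ 4 * (win (u : ℤ) (v : ℤ) (n : ℤ) : ℝ) ^ 4 := by
      intro n
      unfold Y
      rw [Int.cast_natCast, Int.cast_natCast, mul_div_assoc, mul_pow, mul_comm]
    rw [sum_congr rfl (fun n _ => h4 n), ← mul_sum]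
    have h5 : 0 ≤ (Real.log x / ((v : ℝ) - u)) ^ 4 := by positivity
    refine le_trans (mul_le_mul_of_nonneg_left h2 h5) (le_of_eq ?_)
    have h6 : (Real.log x / ((v : ℝ) - u)) * (((v : ℝ) - u) / Real.log x) = 1 := by
      field_simp
    calc (Real.log x / ((v : ℝ) - u)) ^ 4 * ((max 1 C * (((v : ℝ) - u) / Real.log x)) ^ 4 * x)
        = ((Real.log x / ((v : ℝ) - u)) * (((v : ℝ) - u) / Real.log x)) ^ 4 * (max 1 C) ^ 4 * x := by ring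
      _ = (max 1 C) ^ 4 * x := by rw [h6]; ring
  refine ⟨hx1, hL, hfl, key, ?_⟩
  intro s hs1 hs2
  have h1 := (key 0 s hs2 (by rw [Nat.cast_zero, zero_add]; exact hs1)).2
  rw [Nat.cast_zero] at h1
  have h2 : (En x s) ^ 2 ≤ ((range (⌊x⌋₊ + 1)).card : ℝ) *
      ∑ n ∈ range (⌊x⌋₊ + 1), (Y x 0 (s : ℤ) (n : ℤ) ^ 2) ^ 2 := sq_sum_le_card_mul_sum_sq
  have h3 : ∑ n ∈ range (⌊x⌋₊ + 1), (Y x 0 (s : ℤ) (n : ℤ) ^ 2) ^ 2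
      = ∑ n ∈ range (⌊x⌋₊ + 1), Y x 0 (s : ℤ) (n : ℤ) ^ 4 :=
    sum_congr rfl (fun n _ => by ring)
  rw [h3, card_range, Nat.cast_add, Nat.cast_one] at h2
  have h4 : (0 : ℝ) ≤ (⌊x⌋₊ : ℝ) + 1 := by positivity
  have h5 : 0 ≤ (max 1 C) ^ 4 * x := by positivity
  have h6 : (En x s) ^ 2 ≤ (2 * (max 1 C) ^ 2 * x) ^ 2 := by
    calc (En x s) ^ 2 ≤ ((⌊x⌋₊ : ℝ) + 1) * ∑ n ∈ range (⌊x⌋₊ + 1), Y x 0 (s : ℤ) (n : ℤ) ^ 4 := h2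
      _ ≤ ((⌊x⌋₊ : ℝ) + 1) * ((max 1 C) ^ 4 * x) := mul_le_mul_of_nonneg_left h1 h4
      _ ≤ (2 * x) * ((max 1 C) ^ 4 * x) := mul_le_mul_of_nonneg_right hfl h5
      _ ≤ (2 * (max 1 C) ^ 2 * x) ^ 2 := by
        have h7 : 0 ≤ (max 1 C) ^ 4 * x ^ 2 := by positivity
        nlinarith [h7]
  have h8 : 0 ≤ 2 * (max 1 C) ^ 2 * x := by positivity
  exact le_trans (le_abs_self _) (abs_le_of_sq_le_sq h6 h8)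

theorem TRP : ∃ C X : ℝ, 0 < C ∧ ∀ x : ℝ, X ≤ x → ∀ u0 v0 u1 v1 u2 v2 : ℕ,
    (v0 : ℝ) ≤ (Real.log x) ^ 3 → (v1 : ℝ) ≤ (Real.log x) ^ 3 → (v2 : ℝ) ≤ (Real.log x) ^ 3 →
    (u0 : ℝ) + Real.log x ≤ v0 → (u1 : ℝ) + Real.log x ≤ v1 → (u2 : ℝ) + Real.log x ≤ v2 →
    ∑ n ∈ range (⌊x⌋₊ + 1), (win (u0 : ℤ) (v0 : ℤ) (n : ℤ) : ℝ) * (win (u1 : ℤ) (v1 : ℤ) (n : ℤ) : ℝ)
        * (win (u2 : ℤ) (v2 : ℤ) (n : ℤ) : ℝ)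
      ≤ C * (((v0 : ℝ) - u0) * ((v1 : ℝ) - u1) * ((v2 : ℝ) - u2)) * (x / (Real.log x) ^ 3) := by
  obtain ⟨K, X, hK, h⟩ := MO4
  refine ⟨2 * K ^ 3, X, by positivity, ?_⟩
  intro x hx u0 v0 u1 v1 u2 v2 h0 h1 h2 h3 h4 h5
  obtain ⟨hx1, hL, hfl, key, _⟩ := h x hx
  have hxpos : 0 < x := by linarith
  have hLpos : 0 < Real.log x := by linarith
  have hw0 : 0 < (v0 : ℝ) - u0 := by linarith
  have hw1 : 0 < (v1 : ℝ) - u1 := by linarith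
  have hw2 : 0 < (v2 : ℝ) - u2 := by linarith
  have hc : ((range (⌊x⌋₊ + 1)).card : ℝ) ≤ 4 * x := by
    rw [card_range, Nat.cast_add, Nat.cast_one]
    linarith
  have hmain := hol3 (range (⌊x⌋₊ + 1)) (fun n : ℕ => (win (u0 : ℤ) (v0 : ℤ) (n : ℤ) : ℝ))
    (fun n : ℕ => (win (u1 : ℤ) (v1 : ℤ) (n : ℤ) : ℝ)) (fun n : ℕ => (win (u2 : ℤ) (v2 : ℤ) (n : ℤ) : ℝ)) x
    (K * (((v0 : ℝ) - u0) / Real.log x)) (K * (((v1 : ℝ) - u1) / Real.log x))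
    (K * (((v2 : ℝ) - u2) / Real.log x)) hxpos.le (by positivity) (by positivity) (by positivity) hc
    (key u0 v0 h0 h3).1 (key u1 v1 h1 h4).1 (key u2 v2 h2 h5).1
  refine le_trans (sum_le_sum (fun n _ => le_abs_self _)) (le_trans hmain (le_of_eq ?_))
  field_simp

theorem TRD : ∃ C X : ℝ, 0 < C ∧ ∀ x : ℝ, X ≤ x → ∀ (f : ℕ → ℝ) (ρ : ℝ), 0 ≤ ρ →
    ∑ n ∈ range (⌊x⌋₊ + 1), f n ^ 2 ≤ ρ ^ 2 * x → ∀ u0 v0 u1 v1 : ℕ,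
    (v0 : ℝ) ≤ (Real.log x) ^ 3 → (v1 : ℝ) ≤ (Real.log x) ^ 3 →
    (u0 : ℝ) + Real.log x ≤ v0 → (u1 : ℝ) + Real.log x ≤ v1 →
    ∑ n ∈ range (⌊x⌋₊ + 1), |f n * (win (u0 : ℤ) (v0 : ℤ) (n : ℤ) : ℝ) * (win (u1 : ℤ) (v1 : ℤ) (n : ℤ) : ℝ)|
      ≤ C * ρ * (((v0 : ℝ) - u0) * ((v1 : ℝ) - u1)) * (x / (Real.log x) ^ 2) := by
  obtain ⟨K, X, hK, h⟩ := MO4
  refine ⟨K ^ 2, X, by positivity, ?_⟩
  intro x hx f ρ hρ hf u0 v0 u1 v1 h0 h1 h3 h4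
  obtain ⟨hx1, hL, hfl, key, _⟩ := h x hx
  have hxpos : 0 < x := by linarith
  have hLpos : 0 < Real.log x := by linarith
  have hw0 : 0 < (v0 : ℝ) - u0 := by linarith
  have hw1 : 0 < (v1 : ℝ) - u1 := by linarith
  have hmain := hol (range (⌊x⌋₊ + 1)) f (fun n : ℕ => (win (u0 : ℤ) (v0 : ℤ) (n : ℤ) : ℝ))
    (fun n : ℕ => (win (u1 : ℤ) (v1 : ℤ) (n : ℤ) : ℝ)) x ρ
    (K * (((v0 : ℝ) - u0) / Real.log x)) (K * (((v1 : ℝ) - u1) / Real.log x))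
    hxpos.le hρ (by positivity) (by positivity) hf (key u0 v0 h0 h3).1 (key u1 v1 h1 h4).1
  refine le_trans hmain (le_of_eq ?_)
  field_simp

theorem TRY : ∃ C X : ℝ, 0 < C ∧ ∀ x : ℝ, X ≤ x → ∀ (f : ℕ → ℝ) (ρ : ℝ), 0 ≤ ρ →
    ∑ n ∈ range (⌊x⌋₊ + 1), f n ^ 2 ≤ ρ ^ 2 * x → ∀ u0 v0 u1 v1 : ℕ,
    (v0 : ℝ) ≤ (Real.log x) ^ 3 → (v1 : ℝ) ≤ (Real.log x) ^ 3 →
    (u0 : ℝ) + Real.log x ≤ v0 → (u1 : ℝ) + Real.log x ≤ v1 →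
    ∑ n ∈ range (⌊x⌋₊ + 1), |f n * Y x (u0 : ℤ) (v0 : ℤ) (n : ℤ) * Y x (u1 : ℤ) (v1 : ℤ) (n : ℤ)| ≤ C * ρ * x := by
  obtain ⟨K, X, hK, h⟩ := MO4
  refine ⟨K ^ 2, X, by positivity, ?_⟩
  intro x hx f ρ hρ hf u0 v0 u1 v1 h0 h1 h3 h4
  obtain ⟨hx1, hL, hfl, key, _⟩ := h x hx
  have hxpos : 0 < x := by linarith
  have hK0 : 0 ≤ K := by linarith
  have hmain := hol (range (⌊x⌋₊ + 1)) f (fun n : ℕ => Y x (u0 : ℤ) (v0 : ℤ) (n : ℤ))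
    (fun n : ℕ => Y x (u1 : ℤ) (v1 : ℤ) (n : ℤ)) x ρ K K
    hxpos.le hρ hK0 hK0 hf (key u0 v0 h0 h3).2 (key u1 v1 h1 h4).2
  refine le_trans hmain (le_of_eq ?_)
  ring

end Pool.Agent.H96.EQ
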