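import Pool.Agent.H96.EQ.AVE
import Pool.Agent.H96.EQ.MO4
import Pool.Agent.H6.MF.FMO

/-!
# CRU: crude upper bounds of the right order

`Λ = log x`, `N = ⌊x⌋₊`.
* `CRU3`: let `F n = if isP n ∧ n ≤ N - D then win 0 D n else 0` (both hypotheses of `AVE` with `s = D` hold). `AVE` with
  `s = D`, `(u, v] = (0, D]`, and `|∑_b F (n - b)| ≤ win 0 D n win 0 (2D) n` (`AVE_bd`):
  `D ∑ F (win 0 D) ≤ ∑ win 0 D · win 0 (2D) · win 0 D + ∑ win 0 D · win 0 (2D) · (win 0 D + win D (2D)) ≤ 6 C₁ D^3 x/Λ^3`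
  by `TRP` three times (all windows have length `≥ D ≥ Λ` and ends `≤ 2 D ≤ Λ^3`). The `n ∈ (N - D, N]` contribute at most
  `D · D^2 ≤ D^2 Λ^3 ≤ D^2 x/Λ^3` to `S3 x 0 D 0 D` (`win_le`; `Λ^6 ≤ x` for large `x`). So `C = 6 C₁ + 1`.
* `CRU2`: Cauchy-Schwarz: `(∑ 1_P win 0 D)^2 ≤ (∑ 1_P) (∑ 1_P (win 0 D)^2)` and `∑ 1_P = ∑ win (-1) 0 n ≤ 2 x/Λ` (`FMO 1 1`
  with `u = -1`, `v = 0`; `Ioc (-1) 0 = {0}`, `isP (n - 0)`), so `≤ (2 x/Λ) C D^2 x/Λ^3`, and the square root is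
  `≤ (2 C + 2) D x/Λ^2`.
-/

set_option autoImplicit false

namespace Pool.Agent.H96.EQ

open Finset Pool.Agent.H6.MF

/-- the function to which `AVE` is applied -/
noncomputable def CRU_F (N D : ℕ) (n : ℤ) : ℝ :=
  if isP n ∧ n ≤ (N : ℤ) - (D : ℤ) then (win 0 (D : ℤ) n : ℝ) else 0

theorem CRU_F_nonneg (N D : ℕ) (n : ℤ) : 0 ≤ CRU_F N D n := by
  unfold CRU_F
  split_ifs
  · positivity
  · exact le_refl _

theorem CRU_F_le (N D : ℕ) (n : ℤ) : |CRU_F N D n| ≤ if isP n then (win 0 (D : ℤ) n : ℝ) else 0 := by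
  rw [abs_of_nonneg (CRU_F_nonneg N D n)]
  unfold CRU_F
  by_cases h1 : isP n
  · by_cases h2 : n ≤ (N : ℤ) - (D : ℤ)
    · rw [if_pos ⟨h1, h2⟩, if_pos h1]
    · rw [if_neg (fun h => h2 h.2), if_pos h1]
      positivity
  · rw [if_neg (fun h => h1 h.1), if_neg h1]

theorem CRU_F_zero (N D : ℕ) (n : ℤ) (h : (N : ℤ) - (D : ℤ) < n) : CRU_F N D n = 0 := by
  unfold CRU_F
  rw [if_neg]
  rintro ⟨_, h2⟩
  omega

/-- the pointwise splitting -/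
theorem CRU_split (N D : ℕ) (n : ℕ) :
    (if isP (n : ℤ) then (win 0 (D : ℤ) (n : ℤ) : ℝ) * (win 0 (D : ℤ) (n : ℤ) : ℝ) else 0)
      ≤ CRU_F N D (n : ℤ) * (win 0 (D : ℤ) (n : ℤ) : ℝ) + (if N < n + D then (D : ℝ) ^ 2 else 0) := by
  have hw : (win 0 (D : ℤ) (n : ℤ) : ℝ) ≤ (D : ℝ) := by
    have h := win_le 0 (D : ℤ) (n : ℤ)
    rw [sub_zero, Int.toNat_natCast] at h
    exact_mod_cast h
  have hw0 : (0 : ℝ) ≤ (win 0 (D : ℤ) (n : ℤ) : ℝ) := by positivity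
  by_cases h1 : isP (n : ℤ)
  · rw [if_pos h1]
    by_cases h2 : N < n + D
    · rw [if_pos h2]
      have h3 := mul_nonneg (CRU_F_nonneg N D (n : ℤ)) hw0
      nlinarith
    · rw [if_neg h2]
      unfold CRU_F
      rw [if_pos ⟨h1, by omega⟩, add_zero]
  · rw [if_neg h1]
    have h3 := mul_nonneg (CRU_F_nonneg N D (n : ℤ)) hw0
    have h4 : (0 : ℝ) ≤ (if N < n + D then (D : ℝ) ^ 2 else 0) := by
      split_ifs
      · positivity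
      · exact le_refl _
    linarith

theorem CRU_edge (N D : ℕ) : ∑ n ∈ range (N + 1), (if N < n + D then (D : ℝ) ^ 2 else 0) ≤ (D : ℝ) * (D : ℝ) ^ 2 := by
  rw [← Finset.sum_filter, Finset.sum_const, nsmul_eq_mul]
  apply mul_le_mul_of_nonneg_right _ (by positivity)
  have h1 : (range (N + 1)).filter (fun n => N < n + D) ⊆ Ioc (N - D) N ∪ (if N < D then {0} else ∅) := by
    intro n hn
    rw [mem_filter, mem_range] at hn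
    rw [mem_union, mem_Ioc]
    by_cases h : N - D < n
    · exact Or.inl ⟨h, by omega⟩
    · right
      have h2 : N < D := by omega
      have h3 : n = 0 := by omega
      rw [if_pos h2, h3]
      exact mem_singleton_self 0
  have h2 : ((range (N + 1)).filter (fun n => N < n + D)).card ≤ D := by
    refine (card_le_card h1).trans ((card_union_le _ _).trans ?_)
    rw [Nat.card_Ioc]
    split_ifs with h
    · rw [card_singleton]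
      omega
    · rw [card_empty]
      omega
  exact_mod_cast h2

theorem CRU3 : ∃ C X : ℝ, 0 < C ∧ ∀ x : ℝ, X ≤ x → ∀ D : ℕ, Real.log x ≤ D → 2 * (D : ℝ) ≤ (Real.log x) ^ 3 →
    S3 x 0 (D : ℤ) 0 (D : ℤ) ≤ C * (D : ℝ) ^ 2 * (x / (Real.log x) ^ 3) := by
  obtain ⟨C₁, X₁, hC₁, hT⟩ := TRP
  have e1 := (Real.isLittleO_pow_log_id_atTop (n := 6)).def (show (0 : ℝ) < 1 by norm_num)
  have e2 := Real.tendsto_log_atTop.eventually_ge_atTop 1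
  have e3 := Filter.eventually_ge_atTop (1 : ℝ)
  obtain ⟨X₂, hX₂⟩ := Filter.eventually_atTop.mp (e1.and (e2.and e3))
  refine ⟨6 * C₁ + 1, max X₁ X₂, by positivity, fun x hx D hD1 hD2 => ?_⟩
  have hx1 : X₁ ≤ x := le_trans (le_max_left _ _) hx
  obtain ⟨h6, hL, hx0⟩ := hX₂ x (le_trans (le_max_right _ _) hx)
  have hL0 : 0 < Real.log x := by linarith
  have hxpos : 0 < x := by linarith
  have h6' : (Real.log x) ^ 6 ≤ x := by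
    simpa [abs_of_pos hL0, abs_of_pos hxpos] using h6
  have hD0 : (0 : ℝ) < D := by linarith
  set L := Real.log x with hLdef
  have hDL : (D : ℝ) ≤ L ^ 3 := by linarith
  -- the averaging
  have hA := AVE x D D 0 D (CRU_F ⌊x⌋₊ D) (CRU_F_le _ D) (CRU_F_zero _ D) (Nat.zero_le D)
  have hA' := (abs_le.1 hA).2
  rw [sub_le_iff_le_add] at hA'
  have hB : ∑ n ∈ range (⌊x⌋₊ + 1), (∑ b ∈ Ioc (0 : ℤ) (D : ℤ), CRU_F ⌊x⌋₊ D ((n : ℤ) - b))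
        * (win ((0 : ℕ) : ℤ) (D : ℤ) (n : ℤ) : ℝ)
      ≤ ∑ n ∈ range (⌊x⌋₊ + 1), (win 0 (D : ℤ) (n : ℤ) : ℝ) * (win 0 ((D + D : ℕ) : ℤ) (n : ℤ) : ℝ)
        * (win ((0 : ℕ) : ℤ) (D : ℤ) (n : ℤ) : ℝ) := by
    apply sum_le_sum
    intro n _
    apply mul_le_mul_of_nonneg_right _ (by positivity)
    exact (le_abs_self _).trans (AVE_bd D D (CRU_F ⌊x⌋₊ D) (CRU_F_le _ D) (n : ℤ))
  have hc2 : ((D + D : ℕ) : ℝ) = 2 * (D : ℝ) := by push_cast; ring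
  have t1 := hT x hx1 0 D 0 (D + D) 0 D hDL (by rw [hc2]; exact hD2) hDL (by simpa using hD1)
    (by rw [hc2]; push_cast; linarith) (by simpa using hD1)
  have t2 := hT x hx1 0 D 0 (D + D) D (D + D) hDL (by rw [hc2]; exact hD2) (by rw [hc2]; exact hD2) (by simpa using hD1)
    (by rw [hc2]; push_cast; linarith) (by rw [hc2]; linarith)
  rw [hc2] at t1 t2
  have z : (((0 : ℕ) : ℕ) : ℝ) = 0 := Nat.cast_zero
  have hR : ∑ n ∈ range (⌊x⌋₊ + 1), (win 0 (D : ℤ) (n : ℤ) : ℝ) * (win 0 ((D + D : ℕ) : ℤ) (n : ℤ) : ℝ)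
          * ((win ((0 : ℕ) : ℤ) ((0 + D : ℕ) : ℤ) (n : ℤ) : ℝ) + (win (D : ℤ) ((D + D : ℕ) : ℤ) (n : ℤ) : ℝ))
      = ∑ n ∈ range (⌊x⌋₊ + 1), (win ((0 : ℕ) : ℤ) (D : ℤ) (n : ℤ) : ℝ) * (win ((0 : ℕ) : ℤ) ((D + D : ℕ) : ℤ) (n : ℤ) : ℝ)
          * (win ((0 : ℕ) : ℤ) (D : ℤ) (n : ℤ) : ℝ)
        + ∑ n ∈ range (⌊x⌋₊ + 1), (win ((0 : ℕ) : ℤ) (D : ℤ) (n : ℤ) : ℝ) * (win ((0 : ℕ) : ℤ) ((D + D : ℕ) : ℤ) (n : ℤ) : ℝ)
          * (win (D : ℤ) ((D + D : ℕ) : ℤ) (n : ℤ) : ℝ) := by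
    rw [← sum_add_distrib]
    apply sum_congr rfl
    intro n _
    rw [zero_add]
    push_cast
    ring
  rw [hR] at hA'
  have hB' : ∑ n ∈ range (⌊x⌋₊ + 1), (win 0 (D : ℤ) (n : ℤ) : ℝ) * (win 0 ((D + D : ℕ) : ℤ) (n : ℤ) : ℝ)
        * (win ((0 : ℕ) : ℤ) (D : ℤ) (n : ℤ) : ℝ)
      = ∑ n ∈ range (⌊x⌋₊ + 1), (win ((0 : ℕ) : ℤ) (D : ℤ) (n : ℤ) : ℝ) * (win ((0 : ℕ) : ℤ) ((D + D : ℕ) : ℤ) (n : ℤ) : ℝ)
          * (win ((0 : ℕ) : ℤ) (D : ℤ) (n : ℤ) : ℝ) := by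
    apply sum_congr rfl
    intro n _
    push_cast
    ring
  rw [hB'] at hB
  have hsum : (D : ℝ) * ∑ n ∈ range (⌊x⌋₊ + 1), CRU_F ⌊x⌋₊ D (n : ℤ) * (win ((0 : ℕ) : ℤ) (D : ℤ) (n : ℤ) : ℝ)
      ≤ (D : ℝ) * (6 * C₁ * (D : ℝ) ^ 2 * (x / L ^ 3)) := by
    have e1 : C₁ * (((D : ℝ) - ((0 : ℕ) : ℝ)) * (2 * (D : ℝ) - ((0 : ℕ) : ℝ)) * ((D : ℝ) - ((0 : ℕ) : ℝ))) * (x / L ^ 3)
        = (D : ℝ) * (2 * C₁ * (D : ℝ) ^ 2 * (x / L ^ 3)) := by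
      rw [Nat.cast_zero]; ring
    have e2 : C₁ * (((D : ℝ) - ((0 : ℕ) : ℝ)) * (2 * (D : ℝ) - ((0 : ℕ) : ℝ)) * (2 * (D : ℝ) - (D : ℝ))) * (x / L ^ 3)
        = (D : ℝ) * (2 * C₁ * (D : ℝ) ^ 2 * (x / L ^ 3)) := by
      rw [Nat.cast_zero]; ring
    rw [e1] at t1
    rw [e2] at t2
    calc _ ≤ _ := hA'
      _ ≤ ((D : ℝ) * (2 * C₁ * (D : ℝ) ^ 2 * (x / L ^ 3)) + (D : ℝ) * (2 * C₁ * (D : ℝ) ^ 2 * (x / L ^ 3)))
          + (D : ℝ) * (2 * C₁ * (D : ℝ) ^ 2 * (x / L ^ 3)) := add_le_add (add_le_add t1 t2) (hB.trans t1)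
      _ = _ := by ring
  have hsum' : ∑ n ∈ range (⌊x⌋₊ + 1), CRU_F ⌊x⌋₊ D (n : ℤ) * (win 0 (D : ℤ) (n : ℤ) : ℝ)
      ≤ 6 * C₁ * (D : ℝ) ^ 2 * (x / L ^ 3) := by
    have h := le_of_mul_le_mul_left hsum hD0
    simpa using h
  have hedge : (D : ℝ) * (D : ℝ) ^ 2 ≤ (D : ℝ) ^ 2 * (x / L ^ 3) := by
    rw [mul_comm]
    apply mul_le_mul_of_nonneg_left _ (by positivity)
    rw [le_div_iff₀ (by positivity)]
    calc (D : ℝ) * L ^ 3 ≤ L ^ 3 * L ^ 3 := mul_le_mul_of_nonneg_right hDL (by positivity)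
      _ = L ^ 6 := by ring
      _ ≤ x := h6'
  calc S3 x 0 (D : ℤ) 0 (D : ℤ)
      ≤ ∑ n ∈ range (⌊x⌋₊ + 1), (CRU_F ⌊x⌋₊ D (n : ℤ) * (win 0 (D : ℤ) (n : ℤ) : ℝ)
          + (if ⌊x⌋₊ < n + D then (D : ℝ) ^ 2 else 0)) := by
        unfold S3
        exact sum_le_sum (fun n _ => CRU_split ⌊x⌋₊ D n)
    _ = ∑ n ∈ range (⌊x⌋₊ + 1), CRU_F ⌊x⌋₊ D (n : ℤ) * (win 0 (D : ℤ) (n : ℤ) : ℝ)
          + ∑ n ∈ range (⌊x⌋₊ + 1), (if ⌊x⌋₊ < n + D then (D : ℝ) ^ 2 else 0) := sum_add_distrib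
    _ ≤ 6 * C₁ * (D : ℝ) ^ 2 * (x / L ^ 3) + (D : ℝ) * (D : ℝ) ^ 2 := add_le_add hsum' (CRU_edge _ D)
    _ ≤ 6 * C₁ * (D : ℝ) ^ 2 * (x / L ^ 3) + (D : ℝ) ^ 2 * (x / L ^ 3) := by linarith
    _ = (6 * C₁ + 1) * (D : ℝ) ^ 2 * (x / L ^ 3) := by ring

/-- `win (-1) 0` is the indicator function of the primes -/
theorem CRU_ind (n : ℤ) : (win (-1) 0 n : ℝ) = if isP n then 1 else 0 := by
  have h : Ioc (-1 : ℤ) 0 = {0} := by decide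
  unfold win
  rw [h, filter_singleton]
  by_cases h1 : isP n
  · rw [if_pos h1, if_pos (by simpa using h1)]
    simp
  · rw [if_neg h1, if_neg (by simpa using h1)]
    simp

theorem CRU2 : ∃ C X : ℝ, 0 < C ∧ ∀ x : ℝ, X ≤ x → ∀ D : ℕ, Real.log x ≤ D → 2 * (D : ℝ) ≤ (Real.log x) ^ 3 →
    ∑ n ∈ range (⌊x⌋₊ + 1), (if isP (n : ℤ) then (win 0 (D : ℤ) (n : ℤ) : ℝ) else 0)
      ≤ C * (D : ℝ) * (x / (Real.log x) ^ 2) := by
  obtain ⟨C, X₁, hC, h3⟩ := CRU3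
  obtain ⟨X₂, hF⟩ := FMO 1 1 one_pos
  have e2 := Real.tendsto_log_atTop.eventually_ge_atTop 1
  have e3 := Filter.eventually_ge_atTop (1 : ℝ)
  obtain ⟨X₃, hX₃⟩ := Filter.eventually_atTop.mp (e2.and e3)
  refine ⟨2 * C + 2, max X₁ (max X₂ X₃), by positivity, fun x hx D hD1 hD2 => ?_⟩
  have hx1 : X₁ ≤ x := le_trans (le_max_left _ _) hx
  have hx2 : X₂ ≤ x := le_trans (le_trans (le_max_left _ _) (le_max_right _ _)) hx
  obtain ⟨hL, hx0⟩ := hX₃ x (le_trans (le_trans (le_max_right _ _) (le_max_right _ _)) hx)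
  have hS := h3 x hx1 D hD1 hD2
  set L := Real.log x with hLdef
  have hL0 : 0 < L := by linarith
  have hxpos : 0 < x := by linarith
  have hD0 : (0 : ℝ) < D := by linarith
  have hP := hF x hx2 (-1) 0 (by push_cast; rw [pow_one, abs_neg, abs_one]; linarith)
    (by push_cast; rw [pow_one, abs_zero]; linarith) (by norm_num)
  have hP' : ∑ n ∈ range (⌊x⌋₊ + 1), (if isP (n : ℤ) then (1 : ℝ) else 0) ≤ 2 * (x / L) := by
    have h := (abs_le.1 hP).2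
    simp only [CRU_ind] at h
    push_cast at h
    have e : (0 - -1 : ℝ) * x / L = x / L := by ring
    rw [e] at h
    linarith
  have hCS := sum_mul_sq_le_sq_mul_sq (range (⌊x⌋₊ + 1)) (fun n : ℕ => if isP (n : ℤ) then (1 : ℝ) else 0)
    (fun n : ℕ => if isP (n : ℤ) then (win 0 (D : ℤ) (n : ℤ) : ℝ) else 0)
  have g1 : ∑ n ∈ range (⌊x⌋₊ + 1), (if isP (n : ℤ) then (1 : ℝ) else 0)
        * (if isP (n : ℤ) then (win 0 (D : ℤ) (n : ℤ) : ℝ) else 0)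
      = ∑ n ∈ range (⌊x⌋₊ + 1), (if isP (n : ℤ) then (win 0 (D : ℤ) (n : ℤ) : ℝ) else 0) := by
    apply sum_congr rfl
    intro n _
    split_ifs
    · rw [one_mul]
    · rw [mul_zero]
  have g2 : ∑ n ∈ range (⌊x⌋₊ + 1), (if isP (n : ℤ) then (1 : ℝ) else 0) ^ 2
      = ∑ n ∈ range (⌊x⌋₊ + 1), (if isP (n : ℤ) then (1 : ℝ) else 0) := by
    apply sum_congr rfl
    intro n _
    split_ifs
    · rw [one_pow]
    · norm_num
  have g3 : ∑ n ∈ range (⌊x⌋₊ + 1), (if isP (n : ℤ) then (win 0 (D : ℤ) (n : ℤ) : ℝ) else 0) ^ 2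
      = S3 x 0 (D : ℤ) 0 (D : ℤ) := by
    unfold S3
    apply sum_congr rfl
    intro n _
    split_ifs
    · rw [sq]
    · norm_num
  rw [g1, g2, g3] at hCS
  set A := ∑ n ∈ range (⌊x⌋₊ + 1), (if isP (n : ℤ) then (win 0 (D : ℤ) (n : ℤ) : ℝ) else 0) with hAdef
  have hA0 : 0 ≤ A := by
    apply sum_nonneg
    intro n _
    split_ifs
    · positivity
    · exact le_refl _
  have hP0 : 0 ≤ ∑ n ∈ range (⌊x⌋₊ + 1), (if isP (n : ℤ) then (1 : ℝ) else 0) := by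
    apply sum_nonneg
    intro n _
    split_ifs
    · exact zero_le_one
    · exact le_refl _
  have hS0 : 0 ≤ C * (D : ℝ) ^ 2 * (x / L ^ 3) := by positivity
  have key : A ^ 2 ≤ ((2 * C + 2) * (D : ℝ) * (x / L ^ 2)) ^ 2 := by
    calc A ^ 2 ≤ (2 * (x / L)) * (C * (D : ℝ) ^ 2 * (x / L ^ 3)) :=
          hCS.trans (mul_le_mul hP' hS (by
            unfold S3
            apply sum_nonneg
            intro n _
            split_ifs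
            · positivity
            · exact le_refl _) (by positivity))
      _ = (2 * C) * ((D : ℝ) * (x / L ^ 2)) ^ 2 := by
          field_simp
      _ ≤ (2 * C + 2) ^ 2 * ((D : ℝ) * (x / L ^ 2)) ^ 2 := by
          apply mul_le_mul_of_nonneg_right _ (by positivity)
          nlinarith
      _ = ((2 * C + 2) * (D : ℝ) * (x / L ^ 2)) ^ 2 := by ring
  exact (pow_le_pow_iff_left₀ hA0 (by positivity) two_ne_zero).1 key

end Pool.Agent.H96.EQ
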