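import Pool.Agent.H96.EQ.Defs

/-!
# EQ: the dyadic blocks of the logarithmic sum
-/

set_option autoImplicit false

namespace Pool.Agent.H96.EQ

open Finset Pool.Agent.H6.MF

/-- the `i`-th dyadic block of the sum `T x α β`: `2^i g < d ≤ 2^(i+1) g`, `g = ⌊log x⌋₊ + 1` -/
noncomputable def Blk (x : ℝ) (i : ℕ) (α β : ℝ) : ℝ :=
  ∑ d ∈ Ioc (2 ^ i * (⌊Real.log x⌋₊ + 1)) (2 ^ (i + 1) * (⌊Real.log x⌋₊ + 1)), sec (p3 x) α β d

end Pool.Agent.H96.EQ
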