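import Pool.Agent.H96.EQ.Defs

/-!
# EQ: the third moment of the normalised number of primes in windows
-/

set_option autoImplicit false

namespace Pool.Agent.H96.EQ

open Finset Pool.Agent.H6.MF

/-- the third moment of the normalised number of primes in the windows `[n - D, n)`, `n ≤ x` -/
noncomputable def kap (x : ℝ) (D : ℕ) : ℝ := (∑ n ∈ range (⌊x⌋₊ + 1), Y x 0 (D : ℤ) (n : ℤ) ^ 3) / x

end Pool.Agent.H96.EQ
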