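import Pool.Agent.H96.EQ.Def3

/-!
# EQ, general form: three arbitrary sets of primes
-/

set_option autoImplicit false

namespace Pool.Agent.H96.EQ

open Finset Pool.Agent.H6.MF

/-- all elements of `Q` are primes -/
def PQ (Q : Set ℤ) : Prop := ∀ n ∈ Q, isP n

open Classical in
/-- the number of `b ∈ (u, v]` with `n - b ∈ Q` -/
noncomputable def wq (Q : Set ℤ) (u v n : ℤ) : ℕ := ((Ioc u v).filter (fun b => n - b ∈ Q)).card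

/-- the normalised number of elements of `Q` in the window `[n - v, n - u)` -/
noncomputable def Yq (x : ℝ) (Q : Set ℤ) (u v n : ℤ) : ℝ := (wq Q u v n : ℝ) * Real.log x / ((v : ℝ) - u)

/-- the energy of `Q` at the scale `s` -/
noncomputable def Eq2 (x : ℝ) (Q : Set ℤ) (s : ℕ) : ℝ := ∑ n ∈ range (⌊x⌋₊ + 1), Yq x Q 0 (s : ℤ) (n : ℤ) ^ 2

open Classical in
/-- the number of `n ≤ x` with `n ∈ Q₀`, `n - a ∈ Q₁`, `n - b ∈ Q₂` -/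
noncomputable def q3 (x : ℝ) (Q0 Q1 Q2 : Set ℤ) (a b : ℕ) : ℝ :=
  (((range (⌊x⌋₊ + 1)).filter (fun n : ℕ => (n : ℤ) ∈ Q0 ∧ (n : ℤ) - a ∈ Q1 ∧ (n : ℤ) - b ∈ Q2)).card : ℝ)

/-- the mixed third moment of the normalised numbers of elements of `Q₀`, `Q₁`, `Q₂` in the window `[n - D, n)` -/
noncomputable def kq (x : ℝ) (Q0 Q1 Q2 : Set ℤ) (D : ℕ) : ℝ :=
  (∑ n ∈ range (⌊x⌋₊ + 1), Yq x Q0 0 (D : ℤ) (n : ℤ) * Yq x Q1 0 (D : ℤ) (n : ℤ) * Yq x Q2 0 (D : ℤ) (n : ℤ)) / x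

/-- all rectangles in `(0, D]²` have the expected mass for `f` up to the factor `κ` -/
def BoxF (f : ℕ → ℕ → ℝ) (x ε κ : ℝ) (D : ℕ) : Prop := ∀ u1 v1 u2 v2 : ℕ, u1 ≤ v1 → v1 ≤ D → u2 ≤ v2 → v2 ≤ D →
  |∑ a ∈ Ioc u1 v1, ∑ b ∈ Ioc u2 v2, f a b
      - κ * ((v1 : ℝ) - u1) * ((v2 : ℝ) - u2) * (x / (Real.log x) ^ 3)|
    ≤ ε * (D : ℝ) ^ 2 * (x / (Real.log x) ^ 3)

/-- for almost all `a ≤ D` the function `f a ·` is equidistributed in `(0, D]` -/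
def AlmF (f : ℕ → ℕ → ℝ) (x ε : ℝ) (D : ℕ) : Prop := ∀ u v : ℕ, u ≤ v → v ≤ D →
  ∑ a ∈ Ioc (0 : ℕ) D, |∑ b ∈ Ioc u v, f a b - ((v : ℝ) - u) / (D : ℝ) * ∑ b ∈ Ioc (0 : ℕ) D, f a b|
    ≤ ε * (D : ℝ) ^ 2 * (x / (Real.log x) ^ 3)

/-- the sum of `f d' d / d²` over `Λ < d ≤ Λ²`, `α d < d' ≤ β d`, `d' < d` -/
noncomputable def Tf (f : ℕ → ℕ → ℝ) (x α β : ℝ) : ℝ :=
  ∑ d ∈ Ioc ⌊Real.log x⌋₊ ⌊(Real.log x) ^ 2⌋₊, sec f α β d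

end Pool.Agent.H96.EQ
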