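import Pool.Agent.H96.EQ.Def4

/-!
# EQ: the lower half of the conjecture for single pairs, in rectangles
-/

set_option autoImplicit false

namespace Pool.Agent.H96.EQ

open Finset Pool.Agent.H6.MF Pool.Agent.H17.Triple

open Classical in
/-- in every rectangle in `(0, D]²` the pairs `a ≠ b` with `π₃(x, a, b) ≥ (1 - η) S(a, b) x / (log x)³` carry at least the proportion `η/48` of the
singular series -/
def LowF (x η ε : ℝ) (D : ℕ) : Prop := ∀ u1 v1 u2 v2 : ℕ, u1 ≤ v1 → v1 ≤ D → u2 ≤ v2 → v2 ≤ D →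
  η / 48 * (((v1 : ℝ) - u1) * ((v2 : ℝ) - u2)) - ε * (D : ℝ) ^ 2
    ≤ ∑ a ∈ Ioc u1 v1, ∑ b ∈ Ioc u2 v2,
        (if a ≠ b ∧ (1 - η) * (singularSeries a b * (x / (Real.log x) ^ 3)) ≤ p3 x a b then singularSeries a b else 0)

end Pool.Agent.H96.EQ
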