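import Pool.Agent.H6.MF.BAS
import Pool.Agent.H17.TripleDefs

/-!
# EQ: equidistribution of the shapes of close prime triples (MP_1039f5_nt). Definitions.

`Λ = Real.log x`, `N = ⌊x⌋₊`, all sums over `n` are over `range (⌊x⌋₊ + 1)`. `win u v n` (H6/MF) is the number of
`b ∈ (u, v]` with `n - b` prime.
-/

set_option autoImplicit false

namespace Pool.Agent.H96.EQ

open Finset Pool.Agent.H6.MF

/-- the normalised number of primes in the window `[n - v, n - u)` (its mean over `n ≤ x` is `1 + o(1)`) -/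
noncomputable def Y (x : ℝ) (u v : ℤ) (n : ℤ) : ℝ := (win u v n : ℝ) * Real.log x / ((v : ℝ) - u)

/-- the energy at the scale `s`: the sum over `n ≤ x` of the squares of the normalised windows `(0, s]` -/
noncomputable def En (x : ℝ) (s : ℕ) : ℝ := ∑ n ∈ range (⌊x⌋₊ + 1), Y x 0 (s : ℤ) (n : ℤ) ^ 2

/-- the number of triples `p, p - a, p - b` of primes with `p ≤ x` and `u₁ < a ≤ v₁`, `u₂ < b ≤ v₂` -/
noncomputable def S3 (x : ℝ) (u1 v1 u2 v2 : ℤ) : ℝ :=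
  ∑ n ∈ range (⌊x⌋₊ + 1), (if isP (n : ℤ) then (win u1 v1 (n : ℤ) : ℝ) * (win u2 v2 (n : ℤ) : ℝ) else 0)

/-- the number `π₃(x, a, b)` of prime triples, as a real number -/
noncomputable def p3 (x : ℝ) (a b : ℕ) : ℝ := (Pool.Agent.H17.Triple.primeTriples x a b : ℝ)

/-- all rectangles in `(0, D]²` contain the expected number of prime triples up to the factor `κ` -/
def Box (x ε κ : ℝ) (D : ℕ) : Prop := ∀ u1 v1 u2 v2 : ℕ, u1 ≤ v1 → v1 ≤ D → u2 ≤ v2 → v2 ≤ D →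
  |∑ a ∈ Ioc u1 v1, ∑ b ∈ Ioc u2 v2, p3 x a b
      - κ * ((v1 : ℝ) - u1) * ((v2 : ℝ) - u2) * (x / (Real.log x) ^ 3)|
    ≤ ε * (D : ℝ) ^ 2 * (x / (Real.log x) ^ 3)

/-- for almost all `a ≤ D` the third member of the prime triples `p, p - a, p - b` is equidistributed in `(0, D]` -/
def Alm (x ε : ℝ) (D : ℕ) : Prop := ∀ u v : ℕ, u ≤ v → v ≤ D →
  ∑ a ∈ Ioc (0 : ℕ) D, |∑ b ∈ (Ioc u v).erase a, p3 x a b
      - ((v : ℝ) - u) / (D : ℝ) * ∑ b ∈ (Ioc (0 : ℕ) D).erase a, p3 x a b|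
    ≤ ε * (D : ℝ) ^ 2 * (x / (Real.log x) ^ 3)

/-- the scale `D` is good -/
def Good (x ε C : ℝ) (D : ℕ) : Prop := (∃ κ : ℝ, 1 - ε ≤ κ ∧ κ ≤ C ∧ Box x ε κ D) ∧ Alm x ε D

/-- the sector sum at `d` -/
noncomputable def sec (f : ℕ → ℕ → ℝ) (α β : ℝ) (d : ℕ) : ℝ :=
  1 / (d : ℝ) ^ 2 * ∑ a ∈ (range d).filter (fun a : ℕ => α * d < (a : ℝ) ∧ (a : ℝ) ≤ β * d), f a d

/-- the prime triples with `Λ < d ≤ Λ²` and `α d < d' ≤ β d`, with the weights `1/d²` -/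
noncomputable def T (x α β : ℝ) : ℝ := ∑ d ∈ Ioc ⌊Real.log x⌋₊ ⌊(Real.log x) ^ 2⌋₊, sec (p3 x) α β d

/-- harmonic sum over a dyadic block -/
noncomputable def Hs (t : ℕ) : ℝ := ∑ j ∈ Ico ((2 : ℕ) ^ (t - 1)) ((2 : ℕ) ^ t), (1 : ℝ) / (j : ℝ)

end Pool.Agent.H96.EQ
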