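import Pool.Agent.H96.EQ.KEY

/-!
# FIN: equidistribution with logarithmic weights

`Λ = log x`, `Z = x/Λ^3 > 0`, `ℓ = log Λ → ∞`, `C` from `KEY`; `1/2 ≤ log 2 ≤ 1` (`Real.log_two_gt_d9`).
* `FIN1`: `KEY` with `η = ε/16`. `T(α,β) - (β-α) T(0,1) = ∑_{i < I} (Blk_i(α,β) - (β-α) Blk_i(0,1)) + (rest)`. For `i` not bad:
  `|Blk_i(α,β) - κ (β-α) H Z| ≤ η Z` and `|Blk_i(0,1) - κ (1 - 0) H Z| ≤ η Z`, so the term is `≤ 2 η Z` in absolute value
  (`0 ≤ β - α ≤ 1`). For `i` bad: both `Blk_i(α,β)` and `(β-α) Blk_i(0,1)` lie in `[0, C Z]`, so the term is `≤ C Z`. The rest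
  is the difference of two numbers in `[0, C Z]`. Total `≤ (2 η I + M C + C) Z ≤ (4 η ℓ + (M+1) C) Z`, as `I ≤ ℓ/log 2 ≤ 2 ℓ`. And
  `4 η ℓ = ε ℓ/4`, `(M + 1) C ≤ ε ℓ/2` for large `x`.
* `FIN2`: `ε ≤ 1` without loss of generality; `KEY` with `η = ε/8`. `T(0,1) ≥ ∑_{i ∉ bad} Blk_i(0,1) ≥ ∑_{i ∉ bad} (κ_i H - η) Z`, with
  `κ_i H - η ≥ (1 - η) log 2 - η ≥ log 2 - 2 η > 0` (`Hs_ge`). The number of terms is `≥ I - M ≥ ℓ/log 2 - 3 - M`. So
  `T(0,1) ≥ (ℓ/log 2 - 3 - M) (log 2 - 2η) Z ≥ (ℓ - 2 η ℓ/log 2 - 3 - M) Z ≥ (ℓ - 4 η ℓ - 3 - M) Z` (when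
  `ℓ/log 2 - 3 - M ≥ 0`) `≥ (1 - ε) ℓ Z` for large `x`.
* `FIN3`: `KEY` with `η = 1`: `T(0,1) ≤ I C Z + C Z ≤ (2 ℓ + 1) C Z ≤ 3 C ℓ Z` when `ℓ ≥ 1`.
-/

set_option autoImplicit false

namespace Pool.Agent.H96.EQ

open Finset Pool.Agent.H6.MF

theorem fin_aux_large (K : ℝ) : ∃ X : ℝ, ∀ x : ℝ, X ≤ x →
    0 ≤ x / (Real.log x) ^ 3 ∧ 1 ≤ Real.log (Real.log x) ∧ K ≤ Real.log (Real.log x) := by
  have h1 : Filter.Tendsto (fun x : ℝ => Real.log (Real.log x)) Filter.atTop Filter.atTop :=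
    Real.tendsto_log_atTop.comp Real.tendsto_log_atTop
  have h2 := ((Real.tendsto_log_atTop.eventually_ge_atTop 0).and
    (Filter.eventually_ge_atTop (0 : ℝ))).and
    ((h1.eventually_ge_atTop 1).and (h1.eventually_ge_atTop K))
  rcases Filter.eventually_atTop.mp h2 with ⟨X, hX⟩
  refine ⟨X, fun x hx => ?_⟩
  obtain ⟨⟨ha, hb⟩, hc, hd⟩ := hX x hx
  exact ⟨by positivity, hc, hd⟩

theorem fin_log2 : (1 : ℝ) / 2 ≤ Real.log 2 ∧ Real.log 2 ≤ 1 := by
  constructor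
  · have := Real.log_two_gt_d9; linarith
  · have := Real.log_two_lt_d9; linarith

theorem fin_I_le (I : ℕ) (l : ℝ) (hl : 1 ≤ l) (h : (I : ℝ) ≤ l / Real.log 2) : (I : ℝ) ≤ 2 * l := by
  have h2 := fin_log2
  refine h.trans ?_
  rw [div_le_iff₀ (by linarith [h2.1])]
  nlinarith [h2.1]

theorem FIN1 (ε : ℝ) (hε : 0 < ε) : ∃ X : ℝ, ∀ x : ℝ, X ≤ x → ∀ α β : ℝ, 0 ≤ α → α ≤ β → β ≤ 1 →
    |T x α β - (β - α) * T x 0 1| ≤ ε * (Real.log (Real.log x) * (x / (Real.log x) ^ 3)) := by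
  obtain ⟨C, hC, hK⟩ := KEY
  obtain ⟨t, M, X0, ht, hM, h⟩ := hK (ε / 16) (by positivity)
  obtain ⟨X1, hX1⟩ := fin_aux_large (2 * ((M + 1) * C) / ε)
  refine ⟨max X0 X1, fun x hx α β hα hαβ hβ => ?_⟩
  obtain ⟨hZ, hl1, hlK⟩ := hX1 x ((le_max_right _ _).trans hx)
  obtain ⟨I, bad, κ, hbad, hcard, hI1, hI2, hgood, hblk, hrest⟩ := h x ((le_max_left _ _).trans hx)
  set Z := x / (Real.log x) ^ 3 with hZdef
  set l := Real.log (Real.log x) with hl
  set η := ε / 16 with hη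
  have hηpos : 0 < η := by positivity
  have hI3 : (I : ℝ) ≤ 2 * l := fin_I_le I l hl1 hI1
  have hba0 : 0 ≤ β - α := by linarith
  have hba1 : β - α ≤ 1 := by linarith
  -- the decomposition
  have hdec : T x α β - (β - α) * T x 0 1
      = (∑ i ∈ range I, (Blk x i α β - (β - α) * Blk x i 0 1))
        + ((T x α β - ∑ i ∈ range I, Blk x i α β)
          - (β - α) * (T x 0 1 - ∑ i ∈ range I, Blk x i 0 1)) := by
    rw [Finset.sum_sub_distrib, ← Finset.mul_sum]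
    ring
  have hterm : ∀ i ∈ range I, |Blk x i α β - (β - α) * Blk x i 0 1|
      ≤ 2 * η * Z + (if i ∈ bad then C * Z else 0) := by
    intro i hi
    obtain ⟨b1, b2⟩ := hblk i hi α β hα
    obtain ⟨b3, b4⟩ := hblk i hi 0 1 le_rfl
    have hCZ : 0 ≤ C * Z := by positivity
    have hηZ : 0 ≤ η * Z := by positivity
    by_cases hb : i ∈ bad
    · rw [if_pos hb, abs_le]
      constructor
      · have : (β - α) * Blk x i 0 1 ≤ 1 * Blk x i 0 1 := mul_le_mul_of_nonneg_right hba1 b3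
        nlinarith
      · have : 0 ≤ (β - α) * Blk x i 0 1 := mul_nonneg hba0 b3
        nlinarith
    · rw [if_neg hb]
      obtain ⟨-, -, hg⟩ := hgood i hi hb
      have g1 := hg α β hα hαβ hβ
      have g2 := hg 0 1 le_rfl zero_le_one le_rfl
      rw [abs_le] at g1 g2 ⊢
      have e2a : (β - α) * (Blk x i 0 1 - κ i * (1 - 0) * Hs t * Z) ≤ η * Z := by
        by_cases hs : 0 ≤ Blk x i 0 1 - κ i * (1 - 0) * Hs t * Z
        · calc (β - α) * (Blk x i 0 1 - κ i * (1 - 0) * Hs t * Z)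
              ≤ 1 * (Blk x i 0 1 - κ i * (1 - 0) * Hs t * Z) := mul_le_mul_of_nonneg_right hba1 hs
            _ ≤ η * Z := by linarith [g2.2]
        · push Not at hs
          exact (mul_nonpos_of_nonneg_of_nonpos hba0 hs.le).trans hηZ
      have e2b : -(η * Z) ≤ (β - α) * (Blk x i 0 1 - κ i * (1 - 0) * Hs t * Z) := by
        by_cases hs : 0 ≤ Blk x i 0 1 - κ i * (1 - 0) * Hs t * Z
        · have := mul_nonneg hba0 hs
          linarith
        · push Not at hs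
          have : 1 * (Blk x i 0 1 - κ i * (1 - 0) * Hs t * Z)
              ≤ (β - α) * (Blk x i 0 1 - κ i * (1 - 0) * Hs t * Z) :=
            mul_le_mul_of_nonpos_right hba1 hs.le
          linarith [g2.1]
      have hid : Blk x i α β - (β - α) * Blk x i 0 1
          = (Blk x i α β - κ i * (β - α) * Hs t * Z)
            - (β - α) * (Blk x i 0 1 - κ i * (1 - 0) * Hs t * Z) := by ring
      rw [hid]
      constructor <;> linarith [g1.1, g1.2]
  have hsum : |∑ i ∈ range I, (Blk x i α β - (β - α) * Blk x i 0 1)|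
      ≤ (I : ℝ) * (2 * η * Z) + M * (C * Z) := by
    refine (Finset.abs_sum_le_sum_abs _ _).trans ?_
    refine (Finset.sum_le_sum hterm).trans ?_
    rw [Finset.sum_add_distrib, Finset.sum_const, card_range, nsmul_eq_mul, Finset.sum_ite_mem,
      Finset.sum_const, nsmul_eq_mul]
    have hc : (((range I ∩ bad).card : ℕ) : ℝ) ≤ M := by
      refine le_trans ?_ hcard
      exact_mod_cast Finset.card_le_card Finset.inter_subset_right
    have hCZ : 0 ≤ C * Z := by positivity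
    have := mul_le_mul_of_nonneg_right hc hCZ
    linarith
  have hR : |(T x α β - ∑ i ∈ range I, Blk x i α β)
          - (β - α) * (T x 0 1 - ∑ i ∈ range I, Blk x i 0 1)| ≤ C * Z := by
    obtain ⟨r1, r2⟩ := hrest α β hα
    obtain ⟨r3, r4⟩ := hrest 0 1 le_rfl
    have m1 : 0 ≤ (β - α) * (T x 0 1 - ∑ i ∈ range I, Blk x i 0 1) := mul_nonneg hba0 r3
    have m2 : (β - α) * (T x 0 1 - ∑ i ∈ range I, Blk x i 0 1)
        ≤ 1 * (T x 0 1 - ∑ i ∈ range I, Blk x i 0 1) := mul_le_mul_of_nonneg_right hba1 r3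
    rw [abs_le]
    constructor <;> linarith
  rw [hdec]
  refine (abs_add_le _ _).trans ?_
  have hKl : (M + 1) * C ≤ ε * l / 2 := by
    rw [div_le_iff₀ hε] at hlK
    linarith
  have e1 : (I : ℝ) * (2 * η * Z) ≤ (2 * l) * (2 * η * Z) :=
    mul_le_mul_of_nonneg_right hI3 (by positivity)
  have e2 : (M + 1) * C * Z ≤ ε * l / 2 * Z := mul_le_mul_of_nonneg_right hKl hZ
  have e3 : (2 * l) * (2 * η * Z) = ε * l / 4 * Z := by rw [hη]; ring
  have e4 : 0 ≤ ε * l * Z := by positivity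
  calc _ ≤ (I : ℝ) * (2 * η * Z) + M * (C * Z) + C * Z := add_le_add hsum hR
    _ ≤ ε * l / 4 * Z + ε * l / 2 * Z := by linarith
    _ ≤ ε * (l * Z) := by linarith

theorem FIN2 (ε : ℝ) (hε : 0 < ε) : ∃ X : ℝ, ∀ x : ℝ, X ≤ x →
    (1 - ε) * (Real.log (Real.log x) * (x / (Real.log x) ^ 3)) ≤ T x 0 1 := by
  obtain ⟨C, hC, hK⟩ := KEY
  set δ := min ε 1 with hδ
  have hδ0 : 0 < δ := lt_min hε one_pos
  have hδ1 : δ ≤ 1 := min_le_right _ _
  have hδε : δ ≤ ε := min_le_left _ _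
  obtain ⟨t, M, X0, ht, hM, h⟩ := hK (δ / 8) (by positivity)
  obtain ⟨X1, hX1⟩ := fin_aux_large (2 * (3 + M) / δ)
  refine ⟨max X0 X1, fun x hx => ?_⟩
  obtain ⟨hZ, hl1, hlK⟩ := hX1 x ((le_max_right _ _).trans hx)
  obtain ⟨I, bad, κ, hbad, hcard, hI1, hI2, hgood, hblk, hrest⟩ := h x ((le_max_left _ _).trans hx)
  set Z := x / (Real.log x) ^ 3 with hZdef
  set l := Real.log (Real.log x) with hl
  set η := δ / 8 with hη
  have hηpos : 0 < η := by positivity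
  have hη8 : η ≤ 1 / 8 := by rw [hη]; linarith
  obtain ⟨hL1, hL2⟩ := fin_log2
  have hHs := Hs_ge t ht
  have hT : ∑ i ∈ range I, Blk x i 0 1 ≤ T x 0 1 := by
    have := (hrest 0 1 le_rfl).1
    linarith
  have hterm : ∀ i ∈ range I \ bad, (Real.log 2 - 2 * η) * Z ≤ Blk x i 0 1 := by
    intro i hi
    rw [Finset.mem_sdiff] at hi
    obtain ⟨k1, -, hg⟩ := hgood i hi.1 hi.2
    have g2 := hg 0 1 le_rfl zero_le_one le_rfl
    rw [abs_le] at g2
    have hk : Real.log 2 - η ≤ κ i * (1 - 0) * Hs t := by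
      have h1 : (1 - η) * Real.log 2 ≤ κ i * Hs t := by
        apply mul_le_mul k1 hHs (by linarith) (by linarith)
      have h2 : η * Real.log 2 ≤ η * 1 := mul_le_mul_of_nonneg_left hL2 hηpos.le
      nlinarith
    have := mul_le_mul_of_nonneg_right hk hZ
    linarith [g2.1]
  have hsub : ∑ i ∈ range I \ bad, Blk x i 0 1 ≤ ∑ i ∈ range I, Blk x i 0 1 :=
    Finset.sum_le_sum_of_subset_of_nonneg Finset.sdiff_subset
      (fun i hi _ => (hblk i hi 0 1 le_rfl).1)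
  have hcs : ((range I \ bad).card : ℝ) * ((Real.log 2 - 2 * η) * Z)
      ≤ ∑ i ∈ range I \ bad, Blk x i 0 1 := by
    rw [← nsmul_eq_mul]
    exact Finset.card_nsmul_le_sum _ _ _ hterm
  have hcard2 : (I : ℝ) - M ≤ ((range I \ bad).card : ℝ) := by
    have h1 : (range I).card ≤ (range I \ bad).card + bad.card := by
      have := Finset.le_card_sdiff bad (range I)
      omega
    rw [card_range] at h1
    have h2 : (I : ℝ) ≤ ((range I \ bad).card : ℝ) + (bad.card : ℝ) := by exact_mod_cast h1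
    linarith
  have hcoef : 0 ≤ Real.log 2 - 2 * η := by linarith
  have hKl : 2 * (3 + M) ≤ δ * l := by
    rw [div_le_iff₀ hδ0] at hlK
    linarith
  have hlogpos : 0 < Real.log 2 := by linarith
  have hq : l / Real.log 2 * Real.log 2 = l := div_mul_cancel₀ _ hlogpos.ne'
  have hq2 : l / Real.log 2 ≤ 2 * l := by
    rw [div_le_iff₀ hlogpos]; nlinarith
  have hmain : (1 - δ) * l ≤ (l / Real.log 2 - 3 - M) * (Real.log 2 - 2 * η) := by
    have e1 : (l / Real.log 2 - 3 - M) * (Real.log 2 - 2 * η)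
        = l - 2 * η * (l / Real.log 2) - (3 + M) * (Real.log 2 - 2 * η) := by
      linear_combination hq
    rw [e1]
    have e2 : 2 * η * (l / Real.log 2) ≤ 2 * η * (2 * l) :=
      mul_le_mul_of_nonneg_left hq2 (by positivity)
    have e3 : (3 + M) * (Real.log 2 - 2 * η) ≤ (3 + M) * 1 :=
      mul_le_mul_of_nonneg_left (by linarith) (by linarith)
    have e4 : 2 * η * (2 * l) = δ * l / 2 := by rw [hη]; ring
    linarith
  have hfin : (l / Real.log 2 - 3 - M) * ((Real.log 2 - 2 * η) * Z)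
      ≤ ((range I \ bad).card : ℝ) * ((Real.log 2 - 2 * η) * Z) := by
    apply mul_le_mul_of_nonneg_right _ (by positivity)
    linarith
  have hm2 := mul_le_mul_of_nonneg_right hmain hZ
  have hlZ : 0 ≤ l * Z := by positivity
  have hm3 : (1 - ε) * (l * Z) ≤ (1 - δ) * (l * Z) :=
    mul_le_mul_of_nonneg_right (by linarith) hlZ
  calc (1 - ε) * (l * Z) ≤ (1 - δ) * (l * Z) := hm3
    _ = (1 - δ) * l * Z := by ring
    _ ≤ (l / Real.log 2 - 3 - M) * (Real.log 2 - 2 * η) * Z := hm2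
    _ = (l / Real.log 2 - 3 - M) * ((Real.log 2 - 2 * η) * Z) := by ring
    _ ≤ T x 0 1 := by linarith

theorem FIN3 : ∃ C X : ℝ, 0 < C ∧ ∀ x : ℝ, X ≤ x →
    T x 0 1 ≤ C * (Real.log (Real.log x) * (x / (Real.log x) ^ 3)) := by
  obtain ⟨C, hC, hK⟩ := KEY
  obtain ⟨t, M, X0, ht, hM, h⟩ := hK 1 one_pos
  obtain ⟨X1, hX1⟩ := fin_aux_large 1
  refine ⟨3 * C, max X0 X1, by positivity, fun x hx => ?_⟩
  obtain ⟨hZ, hl1, -⟩ := hX1 x ((le_max_right _ _).trans hx)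
  obtain ⟨I, bad, κ, hbad, hcard, hI1, hI2, hgood, hblk, hrest⟩ := h x ((le_max_left _ _).trans hx)
  set Z := x / (Real.log x) ^ 3 with hZdef
  set l := Real.log (Real.log x) with hl
  have hI3 : (I : ℝ) ≤ 2 * l := fin_I_le I l hl1 hI1
  have hCZ : 0 ≤ C * Z := by positivity
  have h1 := (hrest 0 1 le_rfl).2
  have h2 : ∑ i ∈ range I, Blk x i 0 1 ≤ (I : ℝ) * (C * Z) := by
    have := Finset.sum_le_card_nsmul (range I) (fun i => Blk x i 0 1) (C * Z)
      (fun i hi => (hblk i hi 0 1 le_rfl).2)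
    rwa [card_range, nsmul_eq_mul] at this
  have h3 : (I : ℝ) * (C * Z) ≤ 2 * l * (C * Z) := mul_le_mul_of_nonneg_right hI3 hCZ
  have h4 : 1 * (C * Z) ≤ l * (C * Z) := mul_le_mul_of_nonneg_right hl1 hCZ
  calc T x 0 1 ≤ (I : ℝ) * (C * Z) + C * Z := by linarith
    _ ≤ 2 * l * (C * Z) + l * (C * Z) := by linarith
    _ = 3 * C * (l * Z) := by ring

end Pool.Agent.H96.EQ
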