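import Pool.Agent.H96.EQ.CLO
import Pool.Agent.H96.EQ.AVE
import Pool.Agent.H96.EQ.MO4
import Pool.Agent.H6.MF.FMO

/-!
# KLO: the lower bound for the number of prime triples at a regular scale

We may assume `ε ≤ 1` (replace `ε` by `min ε 1`). Notation: `Λ = log x`, `D = 2^r s`, `B = 4^r s`, `Y₀ = Y_{(0,s]}`,
`Y₁ = Y_{(s,D]}`, `V = Y_{(0,B]}`; `K` from `MO4`, `C` from `TRY`; `r ≥ 2`.
1. `TRL`: `s S3 ≥ ∑ win 0 s · (win s D)^2 = (s/Λ) ((D-s)/Λ)^2 ∑ Y₀ Y₁^2`.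
2. `Y₀ Y₁^2 - V^3 = (Y₀ - V) Y₁ Y₁ + (Y₁ - V) V Y₁ + (Y₁ - V) V V`. Mean squares: `∑ (Y₀ - V)^2 ≤ 4^r δ x` (this is the
   term `j = 0` of `VAR` with `m = 4^r`; the other terms are `≥ 0`), and by `CLO` (with `C = 2 K^2`, `u = s`, `v = D`,
   `D - s ≥ D/2`, `s/(D-s) ≤ 2 · 2^(-r)`) `∑ (Y₁ - V)^2 ≤ (4 · 4^r δ + 192 K^2 4^(-r)) x`. With
   `ρ^2 = 4 · 4^r δ + 192 K^2 4^(-r)` `TRY` gives `∑ |Y₀ Y₁^2 - V^3| ≤ 3 C ρ x`.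
3. `V^3 ≥ 3 V - 2` (`V ≥ 0`, `(V - 1)^2 (V + 2) ≥ 0`). `FMO 3 η` (window `(0, B]`, `B ≤ Λ^3`): `∑ V = (Λ/B) ∑ win 0 B ≥ (1 - η) x`.
   `⌊x⌋₊ + 1 ≤ (1 + η) x` for `x ≥ 1/η`. So `∑ V^3 ≥ 3 (1 - η) x - 2 (1 + η) x = (1 - 5 η) x`.
4. `S3 ≥ ((D-s)^2/Λ^3) (1 - 5 η - 3 C ρ) x ≥ (1 - 2 · 2^(-r)) (1 - 5 η - 3 C ρ) D^2 x/Λ^3`
   (`(D - s)^2 ≥ D^2 - 2 s D`). Choose `η = ε/20`, `r₀ ≥ 2` with `2 · 2^(-r₀) ≤ ε/4` and `(3 C)^2 · 192 K^2 4^(-r₀) ≤ (ε/4)^2/2`,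
   then `δ` with `(3 C)^2 · 4 · 4^r δ ≤ (ε/4)^2/2`: `3 C ρ ≤ ε/4`. `(1 - ε/4)(1 - ε/2) ≥ 1 - ε`.
-/

set_option autoImplicit false

namespace Pool.Agent.H96.EQ

open Finset Pool.Agent.H6.MF

/-- the pointwise inequality `V^3 ≥ 3 V - 2` -/
private lemma KLO_cube (V : ℝ) (hV : 0 ≤ V) : 3 * V - 2 ≤ V ^ 3 := by
  nlinarith [mul_nonneg (sq_nonneg (V - 1)) (by linarith : (0 : ℝ) ≤ V + 2)]

/-- `ρ` and `r` -/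
private lemma KLO_r0 (c ρ e : ℝ) (hρ : 0 < ρ) (he : 0 < e) : ∃ r0 : ℕ, 2 ≤ r0 ∧ ∀ r : ℕ, r0 ≤ r →
    2 * (1 / (2 : ℝ) ^ r) ≤ e / 4 ∧ c * (1 / (4 : ℝ) ^ r) ≤ ρ ^ 2 / 2 := by
  have h1 : Filter.Tendsto (fun r : ℕ => 2 * (1 / (2 : ℝ) ^ r)) Filter.atTop (nhds (2 * 0)) := by
    refine Filter.Tendsto.const_mul 2 ?_
    have := tendsto_pow_atTop_nhds_zero_of_lt_one (r := (1 / 2 : ℝ)) (by norm_num) (by norm_num)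
    refine this.congr fun r => ?_
    rw [one_div_pow]
  have h2 : Filter.Tendsto (fun r : ℕ => c * (1 / (4 : ℝ) ^ r)) Filter.atTop (nhds (c * 0)) := by
    refine Filter.Tendsto.const_mul c ?_
    have := tendsto_pow_atTop_nhds_zero_of_lt_one (r := (1 / 4 : ℝ)) (by norm_num) (by norm_num)
    refine this.congr fun r => ?_
    rw [one_div_pow]
  rw [mul_zero] at h1 h2
  have h3 := h1.eventually_le_const (by positivity : (0 : ℝ) < e / 4)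
  have h4 := h2.eventually_le_const (by positivity : (0 : ℝ) < ρ ^ 2 / 2)
  obtain ⟨r1, hr1⟩ := Filter.eventually_atTop.1 (h3.and h4)
  exact ⟨max 2 r1, le_max_left _ _, fun r hr => hr1 r ((le_max_right _ _).trans hr)⟩

/-- the sum of the cubes of the long windows -/
private lemma KLO_V (x η : ℝ) (B : ℕ) (hx : 1 ≤ x) (hΛ : 1 ≤ Real.log x) (hη : 0 < η) (hxη : 1 / η ≤ x)
    (hB : Real.log x ≤ B)
    (hF : |∑ n ∈ range (⌊x⌋₊ + 1), (win 0 (B : ℤ) (n : ℤ) : ℝ) - (((B : ℤ) : ℝ) - ((0 : ℤ) : ℝ)) * x / Real.log x|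
      ≤ η * ((((B : ℤ) : ℝ) - ((0 : ℤ) : ℝ)) * x / Real.log x)) :
    (1 - 5 * η) * x ≤ ∑ n ∈ range (⌊x⌋₊ + 1), Y x 0 (B : ℤ) (n : ℤ) ^ 3 := by
  have hΛ0 : 0 < Real.log x := by linarith
  have hB0 : (0 : ℝ) < B := by linarith
  have h1 : ∀ n ∈ range (⌊x⌋₊ + 1), 3 * Y x 0 (B : ℤ) (n : ℤ) - 2 ≤ Y x 0 (B : ℤ) (n : ℤ) ^ 3 := by
    intro n _
    refine KLO_cube _ ?_
    unfold Y
    have : (0 : ℝ) ≤ ((B : ℤ) : ℝ) - ((0 : ℤ) : ℝ) := by push_cast; linarith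
    positivity
  refine le_trans ?_ (Finset.sum_le_sum h1)
  rw [Finset.sum_sub_distrib, ← Finset.mul_sum, Finset.sum_const, Finset.card_range, nsmul_eq_mul]
  have h2 : ∑ n ∈ range (⌊x⌋₊ + 1), Y x 0 (B : ℤ) (n : ℤ)
      = (Real.log x / B) * ∑ n ∈ range (⌊x⌋₊ + 1), (win 0 (B : ℤ) (n : ℤ) : ℝ) := by
    rw [Finset.mul_sum]
    refine Finset.sum_congr rfl fun n _ => ?_
    unfold Y
    push_cast
    rw [sub_zero]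
    ring
  have h3 := (abs_le.1 hF).1
  push_cast at h3
  rw [sub_zero] at h3
  have h4 : (1 - η) * ((B : ℝ) * x / Real.log x) ≤ ∑ n ∈ range (⌊x⌋₊ + 1), (win 0 (B : ℤ) (n : ℤ) : ℝ) := by
    linarith
  have h5 : (Real.log x / B) * ((1 - η) * ((B : ℝ) * x / Real.log x)) = (1 - η) * x := by
    field_simp
  have h6 : (1 - η) * x ≤ ∑ n ∈ range (⌊x⌋₊ + 1), Y x 0 (B : ℤ) (n : ℤ) := by
    rw [h2, ← h5]
    exact mul_le_mul_of_nonneg_left h4 (by positivity)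
  have h7 : ((⌊x⌋₊ + 1 : ℕ) : ℝ) ≤ (1 + η) * x := by
    push_cast
    have h8 : (⌊x⌋₊ : ℝ) ≤ x := Nat.floor_le (by linarith)
    have h9 : 1 ≤ η * x := by
      rw [div_le_iff₀ hη] at hxη
      linarith
    linarith
  nlinarith

/-- the main estimate at a single `x` -/
private lemma KLO_main (x e δ ρ C K : ℝ) (r s : ℕ) (hx : 1 ≤ x) (hΛ : 1 ≤ Real.log x) (he : 0 < e) (he1 : e ≤ 1)
    (hC : 0 < C) (hK : 1 ≤ K) (hρ : ρ = e / (12 * C)) (hδ : δ = ρ ^ 2 / (8 * 4 ^ r)) (hr : 2 ≤ r)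
    (hr1 : 2 * (1 / (2 : ℝ) ^ r) ≤ e / 4) (hr2 : 192 * K ^ 2 * (1 / (4 : ℝ) ^ r) ≤ ρ ^ 2 / 2)
    (hs : Real.log x ≤ s) (hB : (4 : ℝ) ^ r * s ≤ Real.log x ^ 3)
    (hE : En x s ≤ 2 * K ^ 2 * x) (hreg : En x s - En x (4 ^ r * s) ≤ δ * x)
    (hTRY : ∀ (f : ℕ → ℝ) (ρ : ℝ), 0 ≤ ρ →
      ∑ n ∈ range (⌊x⌋₊ + 1), f n ^ 2 ≤ ρ ^ 2 * x → ∀ u0 v0 u1 v1 : ℕ,
      (v0 : ℝ) ≤ (Real.log x) ^ 3 → (v1 : ℝ) ≤ (Real.log x) ^ 3 →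
      (u0 : ℝ) + Real.log x ≤ v0 → (u1 : ℝ) + Real.log x ≤ v1 →
      ∑ n ∈ range (⌊x⌋₊ + 1), |f n * Y x (u0 : ℤ) (v0 : ℤ) (n : ℤ) * Y x (u1 : ℤ) (v1 : ℤ) (n : ℤ)| ≤ C * ρ * x)
    (hV : (1 - e / 4) * x ≤ ∑ n ∈ range (⌊x⌋₊ + 1), Y x 0 ((4 ^ r * s : ℕ) : ℤ) (n : ℤ) ^ 3) :
    (1 - e) * ((2 ^ r * s : ℕ) : ℝ) ^ 2 * (x / (Real.log x) ^ 3)
      ≤ S3 x 0 ((2 ^ r * s : ℕ) : ℤ) 0 ((2 ^ r * s : ℕ) : ℤ) := by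
  have hΛ0 : 0 < Real.log x := by linarith
  have hs0 : (0 : ℝ) < s := by linarith
  have hs1 : 1 ≤ s := by
    have : (0 : ℝ) < (s : ℝ) := hs0
    exact_mod_cast this
  have hx0 : 0 < x := by linarith
  have hρ0 : 0 < ρ := by rw [hρ]; positivity
  have h4r : (0 : ℝ) < 4 ^ r := by positivity
  have h2r : (4 : ℝ) ≤ 2 ^ r := by
    calc (4 : ℝ) = 2 ^ 2 := by norm_num
      _ ≤ 2 ^ r := pow_le_pow_right₀ (by norm_num) hr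
  have h24 : (4 : ℝ) ^ r = 2 ^ r * 2 ^ r := by
    rw [← mul_pow]; norm_num
  set D : ℕ := 2 ^ r * s with hD
  set B : ℕ := 4 ^ r * s with hBd
  have hDr : (D : ℝ) = 2 ^ r * s := by rw [hD]; push_cast; ring
  have hBr : (B : ℝ) = 4 ^ r * s := by rw [hBd]; push_cast; ring
  have hDs : 4 * (s : ℝ) ≤ D := by rw [hDr]; nlinarith
  have hDB : (D : ℝ) ≤ B := by rw [hDr, hBr, h24]; nlinarith
  have hB3 : (B : ℝ) ≤ Real.log x ^ 3 := by rw [hBr]; exact hB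
  have hD3 : (D : ℝ) ≤ Real.log x ^ 3 := hDB.trans hB3
  have hsD : (s : ℝ) + Real.log x ≤ D := by linarith
  have h0B : ((0 : ℕ) : ℝ) + Real.log x ≤ B := by push_cast; linarith
  -- the mean squares
  have hm1 : 1 ≤ 4 ^ r := Nat.one_le_pow _ _ (by norm_num)
  have hm : (((4 ^ r : ℕ) : ℕ) : ℝ) = 4 ^ r := by push_cast; ring
  have hδ4 : (4 : ℝ) ^ r * δ = ρ ^ 2 / 8 := by
    rw [hδ]; field_simp
  have hsq0 : ∑ n ∈ range (⌊x⌋₊ + 1), (Y x 0 (s : ℤ) (n : ℤ) - Y x 0 (B : ℤ) (n : ℤ)) ^ 2 ≤ ρ ^ 2 * x := by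
    have h1 := VAR x s (4 ^ r) hs1 hm1
    have h2 : ∑ n ∈ range (⌊x⌋₊ + 1), (Y x ((0 * s : ℕ) : ℤ) (((0 + 1) * s : ℕ) : ℤ) (n : ℤ)
          - Y x 0 ((4 ^ r * s : ℕ) : ℤ) (n : ℤ)) ^ 2
        ≤ ∑ j ∈ range (4 ^ r), ∑ n ∈ range (⌊x⌋₊ + 1),
          (Y x ((j * s : ℕ) : ℤ) (((j + 1) * s : ℕ) : ℤ) (n : ℤ) - Y x 0 ((4 ^ r * s : ℕ) : ℤ) (n : ℤ)) ^ 2 :=
      Finset.single_le_sum (f := fun j : ℕ => ∑ n ∈ range (⌊x⌋₊ + 1),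
          (Y x ((j * s : ℕ) : ℤ) (((j + 1) * s : ℕ) : ℤ) (n : ℤ) - Y x 0 ((4 ^ r * s : ℕ) : ℤ) (n : ℤ)) ^ 2)
        (fun j _ => Finset.sum_nonneg fun n _ => sq_nonneg _) (Finset.mem_range.2 (by omega))
    have h3 : ∀ n : ℕ, Y x ((0 * s : ℕ) : ℤ) (((0 + 1) * s : ℕ) : ℤ) (n : ℤ) = Y x 0 (s : ℤ) (n : ℤ) := by
      intro n
      simp
    simp only [h3] at h2
    refine (h2.trans h1).trans ?_
    rw [hm]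
    have h4 : (4 : ℝ) ^ r * (En x s - En x (4 ^ r * s)) ≤ 4 ^ r * (δ * x) :=
      mul_le_mul_of_nonneg_left hreg h4r.le
    refine h4.trans ?_
    rw [← mul_assoc, hδ4]
    nlinarith [sq_nonneg ρ, mul_nonneg (sq_nonneg ρ) hx0.le]
  have hsq1 : ∑ n ∈ range (⌊x⌋₊ + 1), (Y x (s : ℤ) (D : ℤ) (n : ℤ) - Y x 0 (B : ℤ) (n : ℤ)) ^ 2 ≤ ρ ^ 2 * x := by
    have h1 := CLO x (2 * K ^ 2) δ s (4 ^ r) s D hx0.le hs1 hm1 (by positivity) hE hreg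
      (by
        have : (s : ℝ) + s ≤ D := by linarith
        exact_mod_cast this)
      (by exact_mod_cast hDB)
    refine h1.trans ?_
    refine mul_le_mul_of_nonneg_right ?_ hx0.le
    rw [hm]
    have h2 : (s : ℝ) / ((D : ℝ) - s) ≤ 2 * (1 / 2 ^ r) := by
      have h3 : (0 : ℝ) < (D : ℝ) - s := by linarith
      rw [div_le_iff₀ h3, hDr]
      have h5 : 2 * (1 / (2 : ℝ) ^ r) * (2 ^ r * s - s) = 2 * s - 2 * s / 2 ^ r := by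
        field_simp
      rw [h5]
      have h6 : 2 * (s : ℝ) / 2 ^ r ≤ s := by
        rw [div_le_iff₀ (by positivity)]
        nlinarith
      linarith
    have h3 : ((s : ℝ) / ((D : ℝ) - s)) ^ 2 ≤ 4 * (1 / 4 ^ r) := by
      have h4 : (0 : ℝ) ≤ (s : ℝ) / ((D : ℝ) - s) := div_nonneg hs0.le (by linarith)
      calc ((s : ℝ) / ((D : ℝ) - s)) ^ 2 ≤ (2 * (1 / 2 ^ r)) ^ 2 := pow_le_pow_left₀ h4 h2 2
        _ = 4 * (1 / 4 ^ r) := by rw [h24]; field_simp; norm_num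
    have h4 : 24 * (2 * K ^ 2) * ((s : ℝ) / ((D : ℝ) - s)) ^ 2 ≤ 24 * (2 * K ^ 2) * (4 * (1 / 4 ^ r)) :=
      mul_le_mul_of_nonneg_left h3 (by positivity)
    have h5 : 24 * (2 * K ^ 2) * (4 * (1 / (4 : ℝ) ^ r)) = 192 * K ^ 2 * (1 / 4 ^ r) := by ring
    have h6 : 4 * (4 : ℝ) ^ r * δ = ρ ^ 2 / 2 := by linarith
    linarith
  -- the products
  have hY0 : ∀ n : ℕ, Y x ((0 : ℕ) : ℤ) (B : ℤ) (n : ℤ) = Y x 0 (B : ℤ) (n : ℤ) := fun n => by simp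
  have t1 := hTRY (fun n => Y x 0 (s : ℤ) (n : ℤ) - Y x 0 (B : ℤ) (n : ℤ)) ρ hρ0.le hsq0 s D s D hD3 hD3 hsD hsD
  have t2 := hTRY (fun n => Y x (s : ℤ) (D : ℤ) (n : ℤ) - Y x 0 (B : ℤ) (n : ℤ)) ρ hρ0.le hsq1 0 B s D hB3 hD3 h0B hsD
  have t3 := hTRY (fun n => Y x (s : ℤ) (D : ℤ) (n : ℤ) - Y x 0 (B : ℤ) (n : ℤ)) ρ hρ0.le hsq1 0 B 0 B hB3 hB3 h0B h0B
  simp only [hY0] at t2 t3
  have hlow : (1 - e / 2) * x ≤ ∑ n ∈ range (⌊x⌋₊ + 1), Y x 0 (s : ℤ) (n : ℤ) * Y x (s : ℤ) (D : ℤ) (n : ℤ) ^ 2 := by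
    have h1 : ∀ n ∈ range (⌊x⌋₊ + 1), Y x 0 (B : ℤ) (n : ℤ) ^ 3
        - (|(Y x 0 (s : ℤ) (n : ℤ) - Y x 0 (B : ℤ) (n : ℤ)) * Y x (s : ℤ) (D : ℤ) (n : ℤ) * Y x (s : ℤ) (D : ℤ) (n : ℤ)|
          + |(Y x (s : ℤ) (D : ℤ) (n : ℤ) - Y x 0 (B : ℤ) (n : ℤ)) * Y x 0 (B : ℤ) (n : ℤ) * Y x (s : ℤ) (D : ℤ) (n : ℤ)|
          + |(Y x (s : ℤ) (D : ℤ) (n : ℤ) - Y x 0 (B : ℤ) (n : ℤ)) * Y x 0 (B : ℤ) (n : ℤ) * Y x 0 (B : ℤ) (n : ℤ)|)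
        ≤ Y x 0 (s : ℤ) (n : ℤ) * Y x (s : ℤ) (D : ℤ) (n : ℤ) ^ 2 := by
      intro n _
      have a1 := neg_abs_le ((Y x 0 (s : ℤ) (n : ℤ) - Y x 0 (B : ℤ) (n : ℤ)) * Y x (s : ℤ) (D : ℤ) (n : ℤ)
        * Y x (s : ℤ) (D : ℤ) (n : ℤ))
      have a2 := neg_abs_le ((Y x (s : ℤ) (D : ℤ) (n : ℤ) - Y x 0 (B : ℤ) (n : ℤ)) * Y x 0 (B : ℤ) (n : ℤ)
        * Y x (s : ℤ) (D : ℤ) (n : ℤ))
      have a3 := neg_abs_le ((Y x (s : ℤ) (D : ℤ) (n : ℤ) - Y x 0 (B : ℤ) (n : ℤ)) * Y x 0 (B : ℤ) (n : ℤ)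
        * Y x 0 (B : ℤ) (n : ℤ))
      have a4 : Y x 0 (s : ℤ) (n : ℤ) * Y x (s : ℤ) (D : ℤ) (n : ℤ) ^ 2 - Y x 0 (B : ℤ) (n : ℤ) ^ 3
          = (Y x 0 (s : ℤ) (n : ℤ) - Y x 0 (B : ℤ) (n : ℤ)) * Y x (s : ℤ) (D : ℤ) (n : ℤ) * Y x (s : ℤ) (D : ℤ) (n : ℤ)
          + (Y x (s : ℤ) (D : ℤ) (n : ℤ) - Y x 0 (B : ℤ) (n : ℤ)) * Y x 0 (B : ℤ) (n : ℤ) * Y x (s : ℤ) (D : ℤ) (n : ℤ)
          + (Y x (s : ℤ) (D : ℤ) (n : ℤ) - Y x 0 (B : ℤ) (n : ℤ)) * Y x 0 (B : ℤ) (n : ℤ) * Y x 0 (B : ℤ) (n : ℤ) := by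
        ring
      linarith
    refine le_trans ?_ (Finset.sum_le_sum h1)
    rw [Finset.sum_sub_distrib, Finset.sum_add_distrib, Finset.sum_add_distrib]
    have h2 : C * ρ * x = e / 12 * x := by
      rw [hρ]; field_simp
    rw [h2] at t1 t2 t3
    have h3 : (1 - e / 4) * x ≤ ∑ n ∈ range (⌊x⌋₊ + 1), Y x 0 (B : ℤ) (n : ℤ) ^ 3 := hV
    linarith
  -- the windows
  have hTRL := TRL x s D
  have hconv : ∑ n ∈ range (⌊x⌋₊ + 1), (win 0 (s : ℤ) (n : ℤ) : ℝ) * (win (s : ℤ) (D : ℤ) (n : ℤ) : ℝ) ^ 2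
      = (s : ℝ) * (((D : ℝ) - s) ^ 2 / Real.log x ^ 3)
        * ∑ n ∈ range (⌊x⌋₊ + 1), Y x 0 (s : ℤ) (n : ℤ) * Y x (s : ℤ) (D : ℤ) (n : ℤ) ^ 2 := by
    rw [Finset.mul_sum]
    refine Finset.sum_congr rfl fun n _ => ?_
    unfold Y
    push_cast
    rw [sub_zero]
    have h3 : (D : ℝ) - s ≠ 0 := by
      have : (0 : ℝ) < (D : ℝ) - s := by linarith
      exact this.ne'
    field_simp
  rw [hconv] at hTRL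
  have hS3 : (((D : ℝ) - s) ^ 2 / Real.log x ^ 3)
        * ∑ n ∈ range (⌊x⌋₊ + 1), Y x 0 (s : ℤ) (n : ℤ) * Y x (s : ℤ) (D : ℤ) (n : ℤ) ^ 2
      ≤ S3 x 0 (D : ℤ) 0 (D : ℤ) := by
    rw [mul_assoc] at hTRL
    exact le_of_mul_le_mul_left hTRL hs0
  refine le_trans ?_ hS3
  have h1 : (1 - e / 4) * (D : ℝ) ^ 2 ≤ ((D : ℝ) - s) ^ 2 := by
    have h2 : 2 * (s : ℝ) * D ≤ e / 4 * (D : ℝ) ^ 2 := by
      have h3 : 2 * (s : ℝ) = 2 * (1 / 2 ^ r) * D := by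
        rw [hDr]; field_simp
      rw [h3]
      have h4 : 0 ≤ (D : ℝ) := by positivity
      nlinarith [mul_le_mul_of_nonneg_right hr1 (mul_nonneg h4 h4)]
    nlinarith [sq_nonneg (s : ℝ)]
  have h2 : (1 - e) * (D : ℝ) ^ 2 ≤ ((D : ℝ) - s) ^ 2 * (1 - e / 2) := by
    have h3 : (1 - e / 4) * (D : ℝ) ^ 2 * (1 - e / 2) ≤ ((D : ℝ) - s) ^ 2 * (1 - e / 2) :=
      mul_le_mul_of_nonneg_right h1 (by linarith)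
    refine le_trans ?_ h3
    nlinarith [mul_nonneg (mul_nonneg he.le he.le) (sq_nonneg (D : ℝ)), mul_nonneg he.le (sq_nonneg (D : ℝ))]
  calc (1 - e) * (D : ℝ) ^ 2 * (x / Real.log x ^ 3)
      ≤ ((D : ℝ) - s) ^ 2 * (1 - e / 2) * (x / Real.log x ^ 3) :=
        mul_le_mul_of_nonneg_right h2 (by positivity)
    _ = (((D : ℝ) - s) ^ 2 / Real.log x ^ 3) * ((1 - e / 2) * x) := by ring
    _ ≤ _ := mul_le_mul_of_nonneg_left hlow (by positivity)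

theorem KLO (ε : ℝ) (hε : 0 < ε) : ∃ r0 : ℕ, ∀ r : ℕ, r0 ≤ r → ∃ δ X : ℝ, 0 < δ ∧ ∀ x : ℝ, X ≤ x → ∀ s : ℕ,
    Real.log x ≤ s → (4 : ℝ) ^ r * s ≤ (Real.log x) ^ 3 → En x s - En x (4 ^ r * s) ≤ δ * x →
    (1 - ε) * ((2 ^ r * s : ℕ) : ℝ) ^ 2 * (x / (Real.log x) ^ 3)
      ≤ S3 x 0 ((2 ^ r * s : ℕ) : ℤ) 0 ((2 ^ r * s : ℕ) : ℤ) := by
  obtain ⟨K, X1, hK, h1⟩ := MO4
  obtain ⟨C, X2, hC, h2⟩ := TRY
  obtain ⟨e, hed⟩ : ∃ e : ℝ, e = min ε 1 := ⟨_, rfl⟩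
  have he : 0 < e := by rw [hed]; exact lt_min hε one_pos
  have he1 : e ≤ 1 := by rw [hed]; exact min_le_right _ _
  have heε : e ≤ ε := by rw [hed]; exact min_le_left _ _
  obtain ⟨ρ, hρ⟩ : ∃ ρ : ℝ, ρ = e / (12 * C) := ⟨_, rfl⟩
  have hρ0 : 0 < ρ := by rw [hρ]; positivity
  obtain ⟨r0, hr0, hr⟩ := KLO_r0 (192 * K ^ 2) ρ e hρ0 he
  obtain ⟨X3, h3⟩ := FMO 3 (e / 20) (by positivity)
  refine ⟨r0, fun r hrr => ⟨ρ ^ 2 / (8 * 4 ^ r), max (max X1 X2) (max X3 (1 / (e / 20))), by positivity, ?_⟩⟩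
  intro x hx s hs hB hreg
  have hx1 : X1 ≤ x := (le_max_left _ _).trans ((le_max_left _ _).trans hx)
  have hx2 : X2 ≤ x := (le_max_right _ _).trans ((le_max_left _ _).trans hx)
  have hx3 : X3 ≤ x := (le_max_left _ _).trans ((le_max_right _ _).trans hx)
  have hx4 : 1 / (e / 20) ≤ x := (le_max_right _ _).trans ((le_max_right _ _).trans hx)
  obtain ⟨hx0, hΛ, _, _, hEn⟩ := h1 x hx1
  have hΛ0 : 0 < Real.log x := by linarith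
  have hs0 : (0 : ℝ) < s := by linarith
  have h4r : (1 : ℝ) ≤ 4 ^ r := one_le_pow₀ (by norm_num)
  have hs3 : (s : ℝ) ≤ Real.log x ^ 3 := by nlinarith
  have hBΛ : Real.log x ≤ ((4 ^ r * s : ℕ) : ℝ) := by
    push_cast
    nlinarith
  have hV : (1 - e / 4) * x ≤ ∑ n ∈ range (⌊x⌋₊ + 1), Y x 0 ((4 ^ r * s : ℕ) : ℤ) (n : ℤ) ^ 3 := by
    have h4 := h3 x hx3 0 ((4 ^ r * s : ℕ) : ℤ) (by simp; positivity)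
      (by
        push_cast
        rw [abs_of_nonneg (by positivity)]
        have : (0 : ℝ) ≤ Real.log x ^ 3 := by positivity
        linarith)
      (by positivity)
    have h5 := KLO_V x (e / 20) (4 ^ r * s) hx0 hΛ (by positivity) hx4 hBΛ h4
    have h6 : 1 - 5 * (e / 20) = 1 - e / 4 := by ring
    rw [h6] at h5
    exact h5
  have hmain := KLO_main x e (ρ ^ 2 / (8 * 4 ^ r)) ρ C K r s hx0 hΛ he he1 hC hK hρ rfl (hr0.trans hrr)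
    (hr r hrr).1 (hr r hrr).2 hs hB (hEn s hs hs3) hreg (h2 x hx2) hV
  refine le_trans ?_ hmain
  have h7 : (0 : ℝ) ≤ ((2 ^ r * s : ℕ) : ℝ) ^ 2 * (x / (Real.log x) ^ 3) := by positivity
  nlinarith

end Pool.Agent.H96.EQ
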