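import Pool.Agent.H96.EQ.LEF
import Pool.Agent.H96.EQ.KLO
import Pool.Agent.H96.EQ.CRU
import Pool.Agent.H96.EQ.BRS

/-!
# GOO: regular scales are good

`C₃, C₂` the constants of `CRU3`, `CRU2`; `C = C₃`. Given `ε`: let `r₀` be the maximum of the `r₀` of `LEF (ε/4)` and
`KLO ε` and a number with `2 C₂ ≤ (ε/2) 2^(r₀)` and `r₀ ≥ 1`; for `r ≥ r₀` let `δ` be the minimum of the two `δ`, `X` the maximum of all thresholds
(and `Real.log x ≥ 1`, `x ≥ 1`). Let `D = 2^r s`, `Z = x/Λ^3`, `κ = S3 x 0 D 0 D/(D^2 Z)` (`D, Z > 0`), so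
`κ D^2 Z = S3 x 0 D 0 D`. `2 D ≤ 4^r s ≤ Λ^3`, `D ≥ s ≥ Λ`.
* `κ ≤ C` by `CRU3`, `κ ≥ 1 - ε` by `KLO`.
* `Box`: write the double sum as `S3 x u1 v1 u2 v2` (`S3_eq`). `LEF` with `F n = if isP n then win u1 v1 n else 0`
  (`|F n| ≤ if isP n then win 0 D n`, `win_mono`) and `J = (u2, v2]`:
  `|S3 x u1 v1 u2 v2 - (w₂/D) S3 x u1 v1 0 D| ≤ (ε/4) D^2 Z`. `LEF` with `F n = if isP n then win 0 D n else 0` and
  `J = (u1, v1]`: `|S3 x 0 D u1 v1 - (w₁/D) S3 x 0 D 0 D| ≤ (ε/4) D^2 Z`. `S3` is symmetric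
  (`S3 x u1 v1 0 D = S3 x 0 D u1 v1`, `mul_comm`), `0 ≤ w₂/D ≤ 1`. So
  `|S3 x u1 v1 u2 v2 - (w₁ w₂/D^2) S3 x 0 D 0 D| ≤ (ε/2) D^2 Z` and `(w₁ w₂/D^2) κ D^2 Z = κ w₁ w₂ Z`.
* `Alm`: let `t a = ∑_{b ∈ Ioc u v} p3 x a b - (w/D) ∑_{b ∈ Ioc 0 D} p3 x a b`, `c a = SignType.sign (t a)` (real valued: `1`, `0`
  or `-1`), so `|t a| = c a * t a`. `LEF` with the `F` of `F_le`, rewritten with `SF_eq` (twice: for `(u,v]` and for
  `(0,D]`): `∑_{a ∈ Ioc 0 D} |t a| = ∑ c a t a ≤ (ε/4) D^2 Z`. Removing the term `b = a` (`Finset.sum_erase_eq_sub` if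
  `a` belongs to the set, `Finset.erase_eq_of_notMem` otherwise) changes the term of `a` by at most
  `(1 + w/D) p3 x a a ≤ 2 p3 x a a`; `∑_{a ∈ Ioc 0 D} 2 p3 x a a ≤ 2 C₂ D x/Λ^2` (`dia_eq`, `CRU2`)
  `= 2 C₂ (Λ/D) D^2 Z ≤ 2 C₂ 2^(-r) D^2 Z ≤ (ε/2) D^2 Z`, because `D = 2^r s ≥ 2^r Λ`.
-/

set_option autoImplicit false

namespace Pool.Agent.H96.EQ

open Finset Pool.Agent.H6.MF

private lemma GOO_sum1 (x : ℝ) (u1 v1 u2 v2 : ℤ) :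
    ∑ n ∈ range (⌊x⌋₊ + 1), (if isP (n : ℤ) then (win u1 v1 (n : ℤ) : ℝ) else 0) * (win u2 v2 (n : ℤ) : ℝ)
      = S3 x u1 v1 u2 v2 := by
  unfold S3
  refine sum_congr rfl fun n _ => ?_
  by_cases h : isP (n : ℤ)
  · rw [if_pos h, if_pos h]
  · rw [if_neg h, if_neg h, zero_mul]

private lemma GOO_symm (x : ℝ) (u1 v1 u2 v2 : ℤ) : S3 x u1 v1 u2 v2 = S3 x u2 v2 u1 v1 := by
  unfold S3
  refine sum_congr rfl fun n _ => ?_
  by_cases h : isP (n : ℤ)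
  · rw [if_pos h, if_pos h, mul_comm]
  · rw [if_neg h, if_neg h]

private lemma GOO_bd (D u v : ℕ) (hv : v ≤ D) (n : ℤ) :
    |if isP n then (win (u : ℤ) (v : ℤ) n : ℝ) else 0| ≤ if isP n then (win 0 (D : ℤ) n : ℝ) else 0 := by
  by_cases h : isP n
  · rw [if_pos h, if_pos h, abs_of_nonneg (Nat.cast_nonneg _)]
    have h1 : win (u : ℤ) (v : ℤ) n ≤ win 0 (D : ℤ) n :=
      win_mono (by positivity) (by exact_mod_cast hv)
    exact_mod_cast h1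
  · rw [if_neg h, if_neg h, abs_zero]

private lemma GOO_erase (x : ℝ) (A : Finset ℕ) (a : ℕ) :
    ∃ θ : ℝ, 0 ≤ θ ∧ θ ≤ p3 x a a ∧ ∑ b ∈ A.erase a, p3 x a b = ∑ b ∈ A, p3 x a b - θ := by
  by_cases h : a ∈ A
  · refine ⟨p3 x a a, p3_nonneg x a a, le_refl _, ?_⟩
    rw [Finset.sum_erase_eq_sub h]
  · refine ⟨0, le_refl _, p3_nonneg x a a, ?_⟩
    rw [Finset.erase_eq_of_notMem h, sub_zero]

private lemma GOO_core (x ε C : ℝ) (D : ℕ) (hε : 0 < ε) (hD : 0 < D) (hZ : 0 < x / (Real.log x) ^ 3)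
    (hLEF : ∀ F : ℤ → ℝ, (∀ n : ℤ, |F n| ≤ if isP n then (win 0 (D : ℤ) n : ℝ) else 0) →
      ∀ u v : ℕ, u ≤ v → v ≤ D →
      |∑ n ∈ range (⌊x⌋₊ + 1), F (n : ℤ) * (win (u : ℤ) (v : ℤ) (n : ℤ) : ℝ)
          - ((v : ℝ) - u) / (D : ℝ)
            * ∑ n ∈ range (⌊x⌋₊ + 1), F (n : ℤ) * (win 0 (D : ℤ) (n : ℤ) : ℝ)|
        ≤ ε / 4 * (D : ℝ) ^ 2 * (x / (Real.log x) ^ 3))
    (hlow : (1 - ε) * (D : ℝ) ^ 2 * (x / (Real.log x) ^ 3) ≤ S3 x 0 (D : ℤ) 0 (D : ℤ))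
    (hup : S3 x 0 (D : ℤ) 0 (D : ℤ) ≤ C * (D : ℝ) ^ 2 * (x / (Real.log x) ^ 3))
    (hdia : ∑ a ∈ Ioc 0 D, p3 x a a ≤ ε / 4 * (D : ℝ) ^ 2 * (x / (Real.log x) ^ 3)) :
    Good x ε C D := by
  have hD0 : (0 : ℝ) < D := by exact_mod_cast hD
  set Z := x / (Real.log x) ^ 3 with hZdef
  have hDZ : 0 < (D : ℝ) ^ 2 * Z := by positivity
  refine ⟨⟨S3 x 0 (D : ℤ) 0 (D : ℤ) / ((D : ℝ) ^ 2 * Z), ?_, ?_, ?_⟩, ?_⟩
  · rw [le_div_iff₀ hDZ]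
    linarith
  · rw [div_le_iff₀ hDZ]
    linarith
  · intro u1 v1 u2 v2 h1 h1D h2 h2D
    rw [← S3_eq, ← hZdef]
    have e1 := hLEF (fun n => if isP n then (win (u1 : ℤ) (v1 : ℤ) n : ℝ) else 0) (GOO_bd D u1 v1 h1D) u2 v2 h2 h2D
    have e2 := hLEF (fun n => if isP n then (win 0 (D : ℤ) n : ℝ) else 0)
      (fun n => by
        have h := GOO_bd D 0 D (le_refl _) n
        rw [Nat.cast_zero] at h
        exact h) u1 v1 h1 h1D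
    simp only [GOO_sum1] at e1 e2
    rw [GOO_symm x 0 (D : ℤ) (u1 : ℤ) (v1 : ℤ)] at e2
    have hu2 : (u2 : ℝ) ≤ v2 := by exact_mod_cast h2
    have hv2 : (v2 : ℝ) ≤ D := by exact_mod_cast h2D
    have hu20 : (0 : ℝ) ≤ u2 := Nat.cast_nonneg _
    obtain ⟨q, hq⟩ : ∃ q : ℝ, q = ((v2 : ℝ) - u2) / (D : ℝ) := ⟨_, rfl⟩
    obtain ⟨p, hp⟩ : ∃ p : ℝ, p = ((v1 : ℝ) - u1) / (D : ℝ) := ⟨_, rfl⟩
    have hq0 : 0 ≤ q := by
      rw [hq]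
      exact div_nonneg (by linarith) hD0.le
    have hq1 : q ≤ 1 := by
      rw [hq, div_le_one hD0]
      linarith
    rw [← hq] at e1
    rw [← hp] at e2
    have e3 : S3 x 0 (D : ℤ) 0 (D : ℤ) / ((D : ℝ) ^ 2 * Z) * ((v1 : ℝ) - u1) * ((v2 : ℝ) - u2) * Z
        = q * (p * S3 x 0 (D : ℤ) 0 (D : ℤ)) := by
      rw [hq, hp]
      field_simp
    rw [e3]
    obtain ⟨A, hA⟩ : ∃ A : ℝ, A = S3 x (u1 : ℤ) (v1 : ℤ) (u2 : ℤ) (v2 : ℤ) := ⟨_, rfl⟩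
    obtain ⟨B, hB⟩ : ∃ B : ℝ, B = S3 x (u1 : ℤ) (v1 : ℤ) 0 (D : ℤ) := ⟨_, rfl⟩
    obtain ⟨E, hE⟩ : ∃ E : ℝ, E = S3 x 0 (D : ℤ) 0 (D : ℤ) := ⟨_, rfl⟩
    rw [← hA, ← hB] at e1
    rw [← hB, ← hE] at e2
    rw [← hA, ← hE]
    have e4 : |q * (B - p * E)| ≤ ε / 4 * (D : ℝ) ^ 2 * Z := by
      rw [abs_mul, abs_of_nonneg hq0]
      calc q * |B - p * E| ≤ 1 * |B - p * E| := mul_le_mul_of_nonneg_right hq1 (abs_nonneg _)
        _ = |B - p * E| := one_mul _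
        _ ≤ _ := e2
    have e5 : A - q * (p * E) = (A - q * B) + q * (B - p * E) := by ring
    rw [e5]
    refine (abs_add_le _ _).trans ?_
    have e6 : ε / 4 * (D : ℝ) ^ 2 * Z + ε / 4 * (D : ℝ) ^ 2 * Z = ε / 2 * ((D : ℝ) ^ 2 * Z) := by ring
    have e7 : ε * (D : ℝ) ^ 2 * Z = ε * ((D : ℝ) ^ 2 * Z) := by ring
    have e8 : ε / 2 * ((D : ℝ) ^ 2 * Z) ≤ ε * ((D : ℝ) ^ 2 * Z) :=
      mul_le_mul_of_nonneg_right (by linarith) hDZ.le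
    linarith
  · intro u v huv hvD
    rw [← hZdef]
    obtain ⟨q, hq⟩ : ∃ q : ℝ, q = ((v : ℝ) - u) / (D : ℝ) := ⟨_, rfl⟩
    have hu : (u : ℝ) ≤ v := by exact_mod_cast huv
    have hv : (v : ℝ) ≤ D := by exact_mod_cast hvD
    have hu0 : (0 : ℝ) ≤ u := Nat.cast_nonneg _
    have hq0 : 0 ≤ q := by
      rw [hq]
      exact div_nonneg (by linarith) hD0.le
    have hq1 : q ≤ 1 := by
      rw [hq, div_le_one hD0]
      linarith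
    rw [← hq]
    obtain ⟨t, ht⟩ : ∃ t : ℕ → ℝ, t = fun a => ∑ b ∈ Ioc u v, p3 x a b - q * ∑ b ∈ Ioc 0 D, p3 x a b := ⟨_, rfl⟩
    obtain ⟨c, hc⟩ : ∃ c : ℕ → ℝ, c = fun a => ((SignType.sign (t a) : SignType) : ℝ) := ⟨_, rfl⟩
    have hc1 : ∀ a, |c a| ≤ 1 := by
      intro a
      rw [hc]
      rcases lt_trichotomy (t a) 0 with h | h | h
      · simp [sign_neg h]
      · simp [h]
      · simp [sign_pos h]
    have hct : ∀ a, |t a| = c a * t a := by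
      intro a
      rw [hc]
      exact (sign_mul_self (t a)).symm
    have e1 := hLEF (fun n => if isP n then ∑ a ∈ Ioc 0 D, (if isP (n - (a : ℤ)) then c a else 0) else 0)
      (F_le D c hc1) u v huv hvD
    have e2 := SF_eq x D u v c
    have e3 := SF_eq x D 0 D c
    rw [Nat.cast_zero] at e3
    simp only [e2, e3] at e1
    rw [← hq] at e1
    have e4 : ∑ a ∈ Ioc 0 D, |t a| = ∑ a ∈ Ioc 0 D, c a * ∑ b ∈ Ioc u v, p3 x a b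
        - q * ∑ a ∈ Ioc 0 D, c a * ∑ b ∈ Ioc 0 D, p3 x a b := by
      rw [mul_sum, ← sum_sub_distrib]
      refine sum_congr rfl fun a _ => ?_
      rw [hct a, ht]
      ring
    have e5 : ∑ a ∈ Ioc 0 D, |t a| ≤ ε / 4 * (D : ℝ) ^ 2 * Z := by
      rw [e4]
      exact (le_abs_self _).trans e1
    have e6 : ∀ a ∈ Ioc 0 D, |∑ b ∈ (Ioc u v).erase a, p3 x a b - q * ∑ b ∈ (Ioc (0 : ℕ) D).erase a, p3 x a b|
        ≤ |t a| + p3 x a a := by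
      intro a _
      obtain ⟨θ1, h1, h2, h3⟩ := GOO_erase x (Ioc u v) a
      obtain ⟨θ2, h4, h5, h6⟩ := GOO_erase x (Ioc 0 D) a
      rw [h3, h6]
      have h7 : ∑ b ∈ Ioc u v, p3 x a b - θ1 - q * (∑ b ∈ Ioc 0 D, p3 x a b - θ2) = t a + (q * θ2 - θ1) := by
        rw [ht]
        ring
      rw [h7]
      refine (abs_add_le _ _).trans (add_le_add (le_refl _) ?_)
      have h8 : q * θ2 ≤ θ2 := by nlinarith
      have h9 : 0 ≤ q * θ2 := mul_nonneg hq0 h4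
      rw [abs_le]
      constructor <;> linarith
    refine (sum_le_sum e6).trans ?_
    rw [sum_add_distrib]
    have e7 : ε * (D : ℝ) ^ 2 * Z = ε * ((D : ℝ) ^ 2 * Z) := by ring
    have e8 : ε / 4 * (D : ℝ) ^ 2 * Z = ε / 4 * ((D : ℝ) ^ 2 * Z) := by ring
    have e9 : 0 ≤ ε * ((D : ℝ) ^ 2 * Z) := by positivity
    rw [e8] at e5 hdia
    rw [e7]
    linarith

theorem GOO : ∃ C : ℝ, 0 < C ∧ ∀ ε : ℝ, 0 < ε → ∃ r0 : ℕ, ∀ r : ℕ, r0 ≤ r → ∃ δ X : ℝ, 0 < δ ∧ ∀ x : ℝ, X ≤ x →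
    ∀ s : ℕ, Real.log x ≤ s → (4 : ℝ) ^ r * s ≤ (Real.log x) ^ 3 → En x s - En x (4 ^ r * s) ≤ δ * x →
    Good x ε C (2 ^ r * s) := by
  obtain ⟨C3, X3, hC3, h3⟩ := CRU3
  obtain ⟨C2, X2, hC2, h2⟩ := CRU2
  refine ⟨C3, hC3, fun ε hε => ?_⟩
  obtain ⟨rA, hA⟩ := LEF (ε / 4) (by positivity)
  obtain ⟨rB, hB⟩ := KLO ε hε
  obtain ⟨rC, hrC⟩ := pow_unbounded_of_one_lt (4 * C2 / ε) (by norm_num : (1 : ℝ) < 2)
  refine ⟨max (max rA rB) (max rC 1), fun r hr => ?_⟩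
  have hrA : rA ≤ r := (le_max_left _ _).trans ((le_max_left _ _).trans hr)
  have hrB : rB ≤ r := (le_max_right _ _).trans ((le_max_left _ _).trans hr)
  have hrC' : rC ≤ r := (le_max_left _ _).trans ((le_max_right _ _).trans hr)
  have hr1 : 1 ≤ r := (le_max_right _ _).trans ((le_max_right _ _).trans hr)
  obtain ⟨δA, XA, hδA, hLEF⟩ := hA r hrA
  obtain ⟨δB, XB, hδB, hKLO⟩ := hB r hrB
  refine ⟨min δA δB, max (max XA XB) (max (max X3 X2) (Real.exp 1)), lt_min hδA hδB, fun x hx s hs1 hs2 hE => ?_⟩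
  have hxA : XA ≤ x := (le_max_left _ _).trans ((le_max_left _ _).trans hx)
  have hxB : XB ≤ x := (le_max_right _ _).trans ((le_max_left _ _).trans hx)
  have hx3 : X3 ≤ x := (le_max_left _ _).trans ((le_max_left _ _).trans ((le_max_right _ _).trans hx))
  have hx2 : X2 ≤ x := (le_max_right _ _).trans ((le_max_left _ _).trans ((le_max_right _ _).trans hx))
  have hxe : Real.exp 1 ≤ x := (le_max_right _ _).trans ((le_max_right _ _).trans hx)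
  have hx0 : 0 < x := lt_of_lt_of_le (Real.exp_pos 1) hxe
  have hL : 1 ≤ Real.log x := by
    have h := Real.log_le_log (Real.exp_pos 1) hxe
    rwa [Real.log_exp] at h
  have hL0 : 0 < Real.log x := by linarith
  have hs0 : (0 : ℝ) < s := by linarith
  have hs0' : 0 < s := by exact_mod_cast hs0
  have hDpos : 0 < 2 ^ r * s := by positivity
  have hDc : ((2 ^ r * s : ℕ) : ℝ) = 2 ^ r * (s : ℝ) := by push_cast; ring
  have h2r : (1 : ℝ) ≤ 2 ^ r := one_le_pow₀ (by norm_num)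
  have hDs : (s : ℝ) ≤ ((2 ^ r * s : ℕ) : ℝ) := by
    rw [hDc]
    nlinarith
  have hLD : Real.log x ≤ ((2 ^ r * s : ℕ) : ℝ) := hs1.trans hDs
  have h2r2 : (2 : ℝ) ≤ 2 ^ r := by
    calc (2 : ℝ) = 2 ^ 1 := by norm_num
      _ ≤ 2 ^ r := pow_le_pow_right₀ (by norm_num) hr1
  have h4r : (4 : ℝ) ^ r = 2 ^ r * 2 ^ r := by
    rw [← mul_pow]
    norm_num
  have h2D : 2 * ((2 ^ r * s : ℕ) : ℝ) ≤ (Real.log x) ^ 3 := by
    refine le_trans ?_ hs2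
    rw [hDc, h4r]
    have : 0 ≤ (2 : ℝ) ^ r * s := by positivity
    nlinarith
  have hEA : En x s - En x (4 ^ r * s) ≤ δA * x := hE.trans (mul_le_mul_of_nonneg_right (min_le_left _ _) hx0.le)
  have hEB : En x s - En x (4 ^ r * s) ≤ δB * x := hE.trans (mul_le_mul_of_nonneg_right (min_le_right _ _) hx0.le)
  have hZ : 0 < x / (Real.log x) ^ 3 := by positivity
  refine GOO_core x ε C3 (2 ^ r * s) hε hDpos hZ ?_ ?_ ?_ ?_
  · exact hLEF x hxA s hs1 hs2 hEA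
  · exact hKLO x hxB s hs1 hs2 hEB
  · exact h3 x hx3 _ hLD h2D
  · rw [← dia_eq]
    refine (h2 x hx2 _ hLD h2D).trans ?_
    have hr2 : 4 * C2 / ε ≤ 2 ^ r := hrC.le.trans (pow_le_pow_right₀ (by norm_num) hrC')
    rw [div_le_iff₀ hε] at hr2
    have hkey : C2 * Real.log x ≤ ε / 4 * ((2 ^ r * s : ℕ) : ℝ) := by
      rw [hDc]
      have h1 : C2 * Real.log x ≤ C2 * s := mul_le_mul_of_nonneg_left hs1 hC2.le
      have h4 : C2 * s ≤ (2 ^ r * ε / 4) * s := mul_le_mul_of_nonneg_right (by linarith) hs0.le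
      calc C2 * Real.log x ≤ C2 * s := h1
        _ ≤ (2 ^ r * ε / 4) * s := h4
        _ = ε / 4 * (2 ^ r * (s : ℝ)) := by ring
    have e1 : x / (Real.log x) ^ 2 = Real.log x * (x / (Real.log x) ^ 3) := by
      field_simp
    rw [e1]
    have hD0 : (0 : ℝ) ≤ ((2 ^ r * s : ℕ) : ℝ) := Nat.cast_nonneg _
    calc C2 * ((2 ^ r * s : ℕ) : ℝ) * (Real.log x * (x / (Real.log x) ^ 3))
        = (C2 * Real.log x) * (((2 ^ r * s : ℕ) : ℝ) * (x / (Real.log x) ^ 3)) := by ring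
      _ ≤ (ε / 4 * ((2 ^ r * s : ℕ) : ℝ)) * (((2 ^ r * s : ℕ) : ℝ) * (x / (Real.log x) ^ 3)) :=
          mul_le_mul_of_nonneg_right hkey (by positivity)
      _ = ε / 4 * ((2 ^ r * s : ℕ) : ℝ) ^ 2 * (x / (Real.log x) ^ 3) := by ring

end Pool.Agent.H96.EQ
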