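import Pool.Agent.H96.EQ.VAR
import Pool.Agent.H96.EQ.MO4
import Pool.Agent.H6.MB.REG

/-!
# MON: the mean triple ratio is asymptotically non-increasing along multiples

`Λ = log x`, `S_k(ℓ) = ∑_{n ∈ range (⌊x⌋₊+1)} (Y x 0 ℓ n)^k`, `M = ℓ/Λ` (so `win 0 ℓ n = M Y x 0 ℓ n`), `r3` from H6/MB/REG. Let `η = ε/3`.
1. For `K, X` large and `K Λ ≤ ℓ ≤ Λ^2`: `S_3(ℓ)/x - η ≤ r3 x ℓ ≤ S_3(ℓ)/x + 2 η`. Use `REG_cmp` (last two conclusions) with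
   `S1, S2, S3 = S_1, S_2, S_3`, `c2 = ∑_n C(win,2)`, `c3 = ∑_n C(win,3)`, `A2`, `A3` the sums in `choose_pairs`, `choose_triples` (H6/MF/UCH) and
   `choose_pairs_ge`, `choose_triples_ge` (H6/MB/REG; errors `l3 = ℓ^3`, `l4 = ℓ^4 ≤ Λ^8 ≤ (η/6) x` for large `x`), `e2`, `e3` from `REG_ch2`,
   `REG_ch3` summed over `n`; `S_1 ≤ 2 x` (`FMO 2 1`), `S_2 = En x ℓ ≤ 2 K₀^2 x` (`MO4`, `C = 2 K₀^2`), `3 (2 + C) ≤ η M` for `K ≥ 3(2+C)/η`.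
   (All this is done in the proof of `REG`: copy it.) Finally `r3 x ℓ = A3/((ℓ^3/6) (x/Λ^3)) = 6 A3/(M^3 x)`.
2. `S_3(m ℓ) ≤ S_3(ℓ)`: for each `n`, `Y x 0 (m ℓ) n = (1/m) ∑_{j < m} Y x (j ℓ) ((j+1) ℓ) n` (`win_blocks`), so
   `(Y x 0 (m ℓ) n)^3 ≤ (1/m) ∑_j (Y x (j ℓ) ((j+1) ℓ) n)^3` (`Real.pow_arith_mean_le_arith_mean_pow`, `Λ ≥ 0`), and
   `∑_n (Y x (j ℓ) ((j+1) ℓ) n)^3 = ∑_n (Y x 0 ℓ (n - j ℓ))^3 ≤ S_3(ℓ)` (`Y_shift`, `Y_neg`, `shift_le`).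
So `r3 x (m ℓ) ≤ S_3(m ℓ)/x + 2 η ≤ S_3(ℓ)/x + 2 η ≤ r3 x ℓ + 3 η`.
-/

set_option autoImplicit false

namespace Pool.Agent.H96.EQ

open Finset Pool.Agent.H6.MF Pool.Agent.H6.MB

private lemma MON_Y (x : ℝ) (ℓ : ℕ) (n : ℤ) :
    Y x 0 (ℓ : ℤ) n = (win 0 (ℓ : ℤ) n : ℝ) / ((ℓ : ℝ) / Real.log x) := by
  unfold Y
  rw [Int.cast_natCast, Int.cast_zero, sub_zero, div_div_eq_mul_div]

private lemma MON_Yj (x : ℝ) (ℓ j : ℕ) (n : ℤ) :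
    Y x ((j * ℓ : ℕ) : ℤ) (((j + 1) * ℓ : ℕ) : ℤ) n
      = (win ((j * ℓ : ℕ) : ℤ) (((j + 1) * ℓ : ℕ) : ℤ) n : ℝ) * Real.log x / (ℓ : ℝ) := by
  unfold Y
  have h : ((((j + 1) * ℓ : ℕ) : ℤ) : ℝ) - (((j * ℓ : ℕ) : ℤ) : ℝ) = (ℓ : ℝ) := by
    push_cast
    ring
  rw [h]

private lemma MON_Yj' (x : ℝ) (ℓ j : ℕ) (n : ℤ) :
    Y x ((j * ℓ : ℕ) : ℤ) (((j + 1) * ℓ : ℕ) : ℤ) n = Y x 0 (ℓ : ℤ) (n - ((j * ℓ : ℕ) : ℤ)) := by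
  have h := Y_shift x 0 (ℓ : ℤ) n ((j * ℓ : ℕ) : ℤ)
  rw [zero_add] at h
  have e : (((j + 1) * ℓ : ℕ) : ℤ) = (ℓ : ℤ) + ((j * ℓ : ℕ) : ℤ) := by
    push_cast
    ring
  rw [e]
  exact h

private lemma MON_mean (x : ℝ) (ℓ m : ℕ) (hm : 1 ≤ m) (n : ℤ) :
    Y x 0 ((m * ℓ : ℕ) : ℤ) n
      = ∑ j ∈ range m, (1 / (m : ℝ)) * Y x ((j * ℓ : ℕ) : ℤ) (((j + 1) * ℓ : ℕ) : ℤ) n := by
  have hm0 : (m : ℝ) ≠ 0 := by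
    have : 0 < m := hm
    exact_mod_cast this.ne'
  have h1 : Y x 0 ((m * ℓ : ℕ) : ℤ) n = (win 0 ((m * ℓ : ℕ) : ℤ) n : ℝ) * Real.log x / ((m : ℝ) * ℓ) := by
    unfold Y
    push_cast
    rw [sub_zero]
  rw [h1, win_blocks ℓ m n]
  push_cast
  rw [Finset.sum_mul, Finset.sum_div]
  refine Finset.sum_congr rfl fun j _ => ?_
  have h2 := MON_Yj x ℓ j n
  push_cast at h2
  rw [h2]
  by_cases hℓ : (ℓ : ℝ) = 0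
  · rw [hℓ]
    simp
  · field_simp

private lemma MON_Ynn (x : ℝ) (hL : 0 ≤ Real.log x) (ℓ : ℕ) (n : ℤ) : 0 ≤ Y x 0 (ℓ : ℤ) n := by
  rw [MON_Y]
  positivity

theorem MON_S3 (x : ℝ) (hL : 0 ≤ Real.log x) (ℓ m : ℕ) (hm : 1 ≤ m) :
    ∑ n ∈ range (⌊x⌋₊ + 1), Y x 0 ((m * ℓ : ℕ) : ℤ) (n : ℤ) ^ 3 ≤ ∑ n ∈ range (⌊x⌋₊ + 1), Y x 0 (ℓ : ℤ) (n : ℤ) ^ 3 := by
  have hm0 : (0 : ℝ) < m := by
    have : 0 < m := hm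
    exact_mod_cast this
  have h1 : ∀ n : ℕ, Y x 0 ((m * ℓ : ℕ) : ℤ) (n : ℤ) ^ 3
      ≤ ∑ j ∈ range m, (1 / (m : ℝ)) * Y x 0 (ℓ : ℤ) ((n : ℤ) - ((j * ℓ : ℕ) : ℤ)) ^ 3 := by
    intro n
    rw [MON_mean x ℓ m hm (n : ℤ)]
    have h2 := Real.pow_arith_mean_le_arith_mean_pow (range m) (fun _ => 1 / (m : ℝ))
      (fun j => Y x ((j * ℓ : ℕ) : ℤ) (((j + 1) * ℓ : ℕ) : ℤ) (n : ℤ)) (fun i _ => by positivity)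
      (by rw [Finset.sum_const, Finset.card_range, nsmul_eq_mul]; field_simp)
      (fun j _ => by rw [MON_Yj']; exact MON_Ynn x hL ℓ _) 3
    refine h2.trans (le_of_eq ?_)
    refine Finset.sum_congr rfl fun j _ => ?_
    rw [MON_Yj']
  refine (Finset.sum_le_sum fun n _ => h1 n).trans ?_
  rw [Finset.sum_comm]
  have h3 : ∀ j ∈ range m, ∑ n ∈ range (⌊x⌋₊ + 1), (1 / (m : ℝ)) * Y x 0 (ℓ : ℤ) ((n : ℤ) - ((j * ℓ : ℕ) : ℤ)) ^ 3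
      ≤ (1 / (m : ℝ)) * ∑ n ∈ range (⌊x⌋₊ + 1), Y x 0 (ℓ : ℤ) (n : ℤ) ^ 3 := by
    intro j _
    rw [← Finset.mul_sum]
    refine mul_le_mul_of_nonneg_left ?_ (by positivity)
    refine shift_le ⌊x⌋₊ (fun t => Y x 0 (ℓ : ℤ) t ^ 3) (fun t ht => ?_) (fun t => ?_) ((j * ℓ : ℕ) : ℤ) (by positivity)
    · show Y x 0 (ℓ : ℤ) t ^ 3 = 0
      rw [Y_neg x 0 (ℓ : ℤ) t (le_refl _) ht.le]
      norm_num
    · exact pow_nonneg (MON_Ynn x hL ℓ t) 3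
  refine (Finset.sum_le_sum h3).trans (le_of_eq ?_)
  rw [Finset.sum_const, Finset.card_range, nsmul_eq_mul]
  field_simp

theorem MON_cmp (η : ℝ) (hη0 : 0 < η) : ∃ K X : ℝ, ∀ x : ℝ, X ≤ x → ∀ ℓ : ℕ, K * Real.log x ≤ (ℓ : ℝ) →
    (ℓ : ℝ) ≤ (Real.log x) ^ 2 →
    ∑ n ∈ range (⌊x⌋₊ + 1), Y x 0 (ℓ : ℤ) (n : ℤ) ^ 3 ≤ (r3 x ℓ + η) * x ∧
    r3 x ℓ * x ≤ ∑ n ∈ range (⌊x⌋₊ + 1), Y x 0 (ℓ : ℤ) (n : ℤ) ^ 3 + 2 * η * x := by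
  obtain ⟨K0, X0, hK0, hMO⟩ := MO4
  obtain ⟨X3, hF⟩ := FMO 2 1 one_pos
  have e2 := (Real.isLittleO_pow_log_id_atTop (n := 8)).def (show (0 : ℝ) < η / 6 by positivity)
  obtain ⟨X4, hX4⟩ := Filter.eventually_atTop.mp e2
  obtain ⟨C, hC⟩ : ∃ C : ℝ, C = 2 * K0 ^ 2 := ⟨_, rfl⟩
  have hC0 : 0 < C := by
    rw [hC]
    positivity
  refine ⟨max 1 (3 * (2 + C) / η), max X0 (max X3 X4), fun x hx ℓ hℓ1 hℓ2 => ?_⟩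
  have hxX0 : X0 ≤ x := (le_max_left _ _).trans hx
  have hx3 : X3 ≤ x := (le_max_left _ _).trans ((le_max_right _ _).trans hx)
  have hx4 : X4 ≤ x := (le_max_right _ _).trans ((le_max_right _ _).trans hx)
  obtain ⟨hx1, hΛ1, -, -, hEn⟩ := hMO x hxX0
  have hx0 : 0 < x := by linarith
  have hΛ0 : 0 < Real.log x := by linarith
  set Λ : ℝ := Real.log x with hΛ
  have hK2' : 1 * Λ ≤ ℓ := le_trans (by gcongr; exact le_max_left _ _) hℓ1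
  have hK3' : 3 * (2 + C) / η * Λ ≤ ℓ := le_trans (by gcongr; exact le_max_right _ _) hℓ1
  rw [one_mul] at hK2'
  set M : ℝ := (ℓ : ℝ) / Λ with hM
  have hM1 : 1 ≤ M := by rw [hM, le_div_iff₀ hΛ0]; linarith
  have hM0 : 0 < M := by linarith
  have hM3 : 3 * (2 + C) / η ≤ M := by rw [hM, le_div_iff₀ hΛ0]; exact hK3'
  have hM4 : 3 * (2 + C) ≤ η * M := by
    rw [div_le_iff₀ hη0] at hM3
    linarith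
  have hℓ8 : (ℓ : ℝ) ^ 4 ≤ η / 6 * x := by
    have h1 := hX4 x hx4
    rw [Real.norm_of_nonneg (by positivity), id, Real.norm_of_nonneg hx0.le] at h1
    calc (ℓ : ℝ) ^ 4 ≤ (Λ ^ 2) ^ 4 := by gcongr
      _ = Λ ^ 8 := by ring
      _ ≤ _ := h1
  have hℓ0 : (1 : ℝ) ≤ ℓ := by linarith
  have hℓ7 : (ℓ : ℝ) ^ 3 ≤ η / 6 * x := (pow_le_pow_right₀ hℓ0 (by norm_num)).trans hℓ8
  set s := Finset.range (⌊x⌋₊ + 1) with hs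
  set y : ℕ → ℝ := fun n => Y x 0 (ℓ : ℤ) (n : ℤ) with hy
  have hyw : ∀ n : ℕ, y n = (win 0 (ℓ : ℤ) (n : ℤ) : ℝ) / M := fun n => MON_Y x ℓ (n : ℤ)
  have hy0 : ∀ i ∈ s, 0 ≤ y i := fun i _ => MON_Ynn x hΛ0.le ℓ _
  have hS1 := hF x hx3 0 (ℓ : ℤ) (by simp only [Int.cast_zero, abs_zero]; positivity)
    (by
      rw [Int.cast_natCast, abs_of_nonneg (by positivity)]
      nlinarith [sq_nonneg Λ]) (by positivity)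
  rw [Int.cast_natCast, Int.cast_zero, sub_zero, ← hΛ] at hS1
  have eM : (ℓ : ℝ) * x / Λ = M * x := by rw [hM]; ring
  rw [eM] at hS1
  obtain ⟨hS1a, hS1b⟩ := abs_le.mp hS1
  have ey1 : ∑ i ∈ s, y i = (∑ n ∈ s, (win 0 (ℓ : ℤ) (n : ℤ) : ℝ)) / M := by
    rw [Finset.sum_div]
    exact Finset.sum_congr rfl (fun n _ => hyw n)
  have h1' : ∑ i ∈ s, y i ≤ 2 * x := by
    rw [ey1, div_le_iff₀ hM0]
    linarith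
  have ey2 : ∑ i ∈ s, y i ^ 2 = (∑ n ∈ s, (win 0 (ℓ : ℤ) (n : ℤ) : ℝ) ^ 2) / M ^ 2 := by
    rw [Finset.sum_div]
    exact Finset.sum_congr rfl (fun n _ => by rw [hyw, div_pow])
  have ey3 : ∑ i ∈ s, y i ^ 3 = (∑ n ∈ s, (win 0 (ℓ : ℤ) (n : ℤ) : ℝ) ^ 3) / M ^ 3 := by
    rw [Finset.sum_div]
    exact Finset.sum_congr rfl (fun n _ => by rw [hyw, div_pow])
  have c2 : 2 * ∑ n ∈ s, ((win 0 (ℓ : ℤ) (n : ℤ)).choose 2 : ℝ) =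
      M ^ 2 * ∑ i ∈ s, y i ^ 2 - M * ∑ i ∈ s, y i := by
    rw [ey1, ey2, Finset.mul_sum]
    rw [Finset.sum_congr rfl (fun (n : ℕ) _ => REG_ch2 (win 0 (ℓ : ℤ) (n : ℤ))), Finset.sum_sub_distrib]
    field_simp
  have c3 : 6 * ∑ n ∈ s, ((win 0 (ℓ : ℤ) (n : ℤ)).choose 3 : ℝ) =
      M ^ 3 * ∑ i ∈ s, y i ^ 3 - 3 * M ^ 2 * ∑ i ∈ s, y i ^ 2 + 2 * M * ∑ i ∈ s, y i := by
    rw [ey1, ey2, ey3, Finset.mul_sum]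
    rw [Finset.sum_congr rfl (fun (n : ℕ) _ => REG_ch3 (win 0 (ℓ : ℤ) (n : ℤ))), Finset.sum_add_distrib,
      Finset.sum_sub_distrib, ← Finset.mul_sum, ← Finset.mul_sum]
    field_simp
  have k6 : ∑ i ∈ s, y i ^ 2 ≤ (2 + C) * x := by
    have h3 : (ℓ : ℝ) ≤ Λ ^ 3 := by
      refine hℓ2.trans ?_
      exact pow_le_pow_right₀ hΛ1 (by norm_num)
    have h4 : ∑ i ∈ s, y i ^ 2 ≤ 2 * K0 ^ 2 * x := hEn ℓ hK2' h3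
    rw [← hC] at h4
    linarith
  have a1 := choose_pairs x ℓ
  have a2 := choose_pairs_ge x ℓ
  have a3 := choose_triples x ℓ
  have a4 := choose_triples_ge x ℓ
  rw [← hs] at a1 a2 a3 a4
  set A2 : ℝ := ∑ d ∈ Finset.Icc 1 ℓ, ((ℓ : ℝ) - d) * (cnt x {0, (d : ℤ)} : ℝ) with hA2'
  set A3 : ℝ := ∑ d ∈ Finset.Icc 1 ℓ, ∑ d' ∈ Finset.Ico 1 d,
    ((ℓ : ℝ) - d) * (cnt x {0, (d' : ℤ), (d : ℤ)} : ℝ) with hA3'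
  have hS10 : 0 ≤ ∑ i ∈ s, y i := Finset.sum_nonneg hy0
  have hS20 : 0 ≤ ∑ i ∈ s, y i ^ 2 := Finset.sum_nonneg (fun i hi => pow_nonneg (hy0 i hi) 2)
  have er3 : r3 x ℓ = 6 * A3 / M ^ 3 / x := by
    unfold r3
    rw [← hA3', ← hΛ, hM]
    field_simp
  obtain ⟨-, -, b3, b4⟩ := REG_cmp M x η C (∑ i ∈ s, y i) (∑ i ∈ s, y i ^ 2) (∑ i ∈ s, y i ^ 3) A2 A3 _ _
    ((ℓ : ℝ) ^ 3) ((ℓ : ℝ) ^ 4) hM1 hx0 hη0 hC0 hM4 hS10 h1' hS20 k6 hℓ7 hℓ8 c2 c3 a1 a2 a3 a4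
  have er3' : r3 x ℓ * x = 6 * A3 / M ^ 3 := by
    rw [er3]
    field_simp
  have hM30 : 0 < M ^ 3 := by positivity
  constructor
  · have h5 : ∑ i ∈ s, y i ^ 3 - η * x ≤ 6 * A3 / M ^ 3 := by
      rw [le_div_iff₀ hM30]
      linarith
    have h6 : (r3 x ℓ + η) * x = r3 x ℓ * x + η * x := by ring
    rw [h6, er3']
    linarith
  · have h5 : 6 * A3 / M ^ 3 ≤ ∑ i ∈ s, y i ^ 3 + 2 * (η * x) := by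
      rw [div_le_iff₀ hM30]
      linarith
    rw [er3']
    linarith

theorem MON (ε : ℝ) (hε : 0 < ε) : ∃ K X : ℝ, ∀ x : ℝ, X ≤ x → ∀ ℓ m : ℕ, 1 ≤ m → K * Real.log x ≤ (ℓ : ℝ) →
    ((m * ℓ : ℕ) : ℝ) ≤ (Real.log x) ^ 2 → r3 x (m * ℓ) ≤ r3 x ℓ + ε := by
  obtain ⟨K, X, h⟩ := MON_cmp (ε / 3) (by positivity)
  refine ⟨K, max X (Real.exp 1), fun x hx ℓ m hm hℓ hmℓ => ?_⟩
  have hxX : X ≤ x := (le_max_left _ _).trans hx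
  have hxe : Real.exp 1 ≤ x := (le_max_right _ _).trans hx
  have hx0 : 0 < x := lt_of_lt_of_le (Real.exp_pos 1) hxe
  have hL : 0 ≤ Real.log x := by
    have h1 := Real.log_le_log (Real.exp_pos 1) hxe
    rw [Real.log_exp] at h1
    linarith
  have hℓm : (ℓ : ℝ) ≤ ((m * ℓ : ℕ) : ℝ) := by
    have : ℓ ≤ m * ℓ := Nat.le_mul_of_pos_left ℓ hm
    exact_mod_cast this
  obtain ⟨h1, -⟩ := h x hxX ℓ hℓ (hℓm.trans hmℓ)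
  obtain ⟨-, h2⟩ := h x hxX (m * ℓ) (hℓ.trans hℓm) hmℓ
  have h3 := MON_S3 x hL ℓ m hm
  have h4 : r3 x (m * ℓ) * x ≤ (r3 x ℓ + ε) * x := by
    have e : (r3 x ℓ + ε) * x = (r3 x ℓ + ε / 3) * x + 2 * (ε / 3) * x := by ring
    rw [e]
    linarith
  exact le_of_mul_le_mul_right h4 hx0

end Pool.Agent.H96.EQ
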