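import Pool.Agent.H96.EQ.Def3
import Pool.Agent.H96.EQ.MON

/-!
# K16: the third moment is asymptotically at most 16

`kap x D ≤ r3 x D + η ≤ 4 r2 x D + 2 η ≤ 16 + ε` for `K log x ≤ D ≤ (log x)^2` (`MON_cmp`, `REG` of H6/MB).
-/

set_option autoImplicit false

namespace Pool.Agent.H96.EQ

open Finset Pool.Agent.H6.MF Pool.Agent.H6.MB

theorem kap_16 (ε : ℝ) (hε : 0 < ε) : ∃ K X : ℝ, ∀ x : ℝ, X ≤ x → ∀ D : ℕ, K * Real.log x ≤ (D : ℝ) →
    (D : ℝ) ≤ (Real.log x) ^ 2 → kap x D ≤ 16 + ε := by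
  obtain ⟨K1, X1, h1⟩ := MON_cmp (ε / 8) (by positivity)
  obtain ⟨K2, X2, h2⟩ := REG (ε / 8) (by positivity)
  refine ⟨max K1 K2, max (max X1 X2) (Real.exp 1), fun x hx D hD1 hD2 => ?_⟩
  have hx1 : X1 ≤ x := (le_max_left _ _).trans ((le_max_left _ _).trans hx)
  have hx2 : X2 ≤ x := (le_max_right _ _).trans ((le_max_left _ _).trans hx)
  have hxe : Real.exp 1 ≤ x := (le_max_right _ _).trans hx
  have hx0 : 0 < x := lt_of_lt_of_le (Real.exp_pos 1) hxe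
  have hL : 0 ≤ Real.log x := by
    have h1 := Real.log_le_log (Real.exp_pos 1) hxe
    rw [Real.log_exp] at h1
    linarith
  have g1 := (h1 x hx1 D ((mul_le_mul_of_nonneg_right (le_max_left _ _) hL).trans hD1) hD2).1
  obtain ⟨-, g2, -, -, g3⟩ := h2 x hx2 D ((mul_le_mul_of_nonneg_right (le_max_right _ _) hL).trans hD1) hD2
  unfold kap
  rw [div_le_iff₀ hx0]
  refine g1.trans (mul_le_mul_of_nonneg_right ?_ hx0.le)
  linarith

end Pool.Agent.H96.EQ
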