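import Pool.Agent.H96.EQ.Defs
import Pool.Agent.H96.EQ.SHF

/-!
# VAR: the variance decomposition and the monotonicity of the energy

* `Y_shift`: `Y x (j s) ((j+1) s) n = Y x 0 s (n - j s)`: `win_shift 0 s (n - j s) (j s)` and the lengths agree.
  (Stated for general `a`.)
* `Y_neg`: `win_neg`.
* `win_blocks`: `win 0 (m s) n = ∑_{j < m} win (j s) ((j+1) s) n`, induction on `m` with `win_add`
  (`0 ≤ m s ≤ (m+1) s`; `win 0 0 n = 0`).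
* `VAR`: let `V = Y x 0 (m s) n` and `Y_j = Y x (j s) ((j+1) s) n`. By `win_blocks` `∑_j Y_j = m V`
  (all `Y_j` have the denominator `s`, `V` has the denominator `m s`; `s, m ≥ 1`). Hence for each `n`
  `∑_j (Y_j - V)^2 = ∑_j Y_j^2 - 2 V ∑_j Y_j + m V^2 = ∑_j Y_j^2 - m V^2`. Sum over `n` and interchange
  (`Finset.sum_comm`): `∑_n Y_j(n)^2 = ∑_n (Y x 0 s (n - j s))^2 ≤ En x s` by `shift_le` with
  `f n = (Y x 0 s n)^2` (`Y_neg`: `f n = 0` for `n < 0`). So the total is `≤ m En x s - m En x (m s)`.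
* `En_anti`: the left-hand side of `VAR` is `≥ 0` and `m > 0`.
-/

set_option autoImplicit false

namespace Pool.Agent.H96.EQ

open Finset Pool.Agent.H6.MF

theorem Y_shift (x : ℝ) (u v n a : ℤ) : Y x (u + a) (v + a) n = Y x u v (n - a) := by
  unfold Y
  have h1 : win (u + a) (v + a) n = win u v (n - a) := by
    have := win_shift u v (n - a) a
    rwa [sub_add_cancel] at this
  rw [h1]
  push_cast
  congr 1
  ring

theorem Y_neg (x : ℝ) (u v n : ℤ) (hu : 0 ≤ u) (hn : n ≤ 0) : Y x u v n = 0 := by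
  unfold Y
  rw [win_neg hu hn]
  simp

theorem win_blocks (s m : ℕ) (n : ℤ) :
    win 0 ((m * s : ℕ) : ℤ) n = ∑ j ∈ range m, win ((j * s : ℕ) : ℤ) (((j + 1) * s : ℕ) : ℤ) n := by
  induction m with
  | zero => simp [win]
  | succ m ih =>
    rw [Finset.sum_range_succ, ← ih]
    refine win_add ?_ ?_ n
    · exact_mod_cast Nat.zero_le _
    · exact_mod_cast Nat.mul_le_mul_right s (Nat.le_succ m)

private lemma VAR_sum (x : ℝ) (s m : ℕ) (hs : 1 ≤ s) (hm : 1 ≤ m) (n : ℤ) :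
    ∑ j ∈ range m, Y x ((j * s : ℕ) : ℤ) (((j + 1) * s : ℕ) : ℤ) n
      = m * Y x 0 ((m * s : ℕ) : ℤ) n := by
  have hs' : (s : ℝ) ≠ 0 := by positivity
  have hm' : (m : ℝ) ≠ 0 := by positivity
  unfold Y
  rw [win_blocks]
  push_cast
  have h1 : ∀ j ∈ range m, (win ((j : ℤ) * s) (((j : ℤ) + 1) * s) n : ℝ) * Real.log x
      / (((j : ℝ) + 1) * s - (j : ℝ) * s)
      = (win ((j : ℤ) * s) (((j : ℤ) + 1) * s) n : ℝ) * (Real.log x / s) := by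
    intro j _
    have : ((j : ℝ) + 1) * s - (j : ℝ) * s = s := by ring
    rw [this, mul_div_assoc]
  rw [Finset.sum_congr rfl h1, ← Finset.sum_mul, sub_zero]
  field_simp

theorem VAR (x : ℝ) (s m : ℕ) (hs : 1 ≤ s) (hm : 1 ≤ m) :
    ∑ j ∈ range m, ∑ n ∈ range (⌊x⌋₊ + 1),
        (Y x ((j * s : ℕ) : ℤ) (((j + 1) * s : ℕ) : ℤ) (n : ℤ) - Y x 0 ((m * s : ℕ) : ℤ) (n : ℤ)) ^ 2
      ≤ m * (En x s - En x (m * s)) := by
  have h1 : ∀ n : ℕ, ∑ j ∈ range m,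
      (Y x ((j * s : ℕ) : ℤ) (((j + 1) * s : ℕ) : ℤ) (n : ℤ) - Y x 0 ((m * s : ℕ) : ℤ) (n : ℤ)) ^ 2
      = ∑ j ∈ range m, (Y x ((j * s : ℕ) : ℤ) (((j + 1) * s : ℕ) : ℤ) (n : ℤ)) ^ 2
        - m * (Y x 0 ((m * s : ℕ) : ℤ) (n : ℤ)) ^ 2 := by
    intro n
    have h2 := VAR_sum x s m hs hm (n : ℤ)
    have h3 : ∀ j ∈ range m,
        (Y x ((j * s : ℕ) : ℤ) (((j + 1) * s : ℕ) : ℤ) (n : ℤ) - Y x 0 ((m * s : ℕ) : ℤ) (n : ℤ)) ^ 2
        = (Y x ((j * s : ℕ) : ℤ) (((j + 1) * s : ℕ) : ℤ) (n : ℤ)) ^ 2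
          - Y x ((j * s : ℕ) : ℤ) (((j + 1) * s : ℕ) : ℤ) (n : ℤ)
            * (2 * Y x 0 ((m * s : ℕ) : ℤ) (n : ℤ)) + (Y x 0 ((m * s : ℕ) : ℤ) (n : ℤ)) ^ 2 := by
      intro j _; ring
    rw [Finset.sum_congr rfl h3, Finset.sum_add_distrib, Finset.sum_sub_distrib, ← Finset.sum_mul,
      h2, Finset.sum_const, card_range, nsmul_eq_mul]
    ring
  rw [Finset.sum_comm, Finset.sum_congr rfl (fun n _ => h1 n), Finset.sum_sub_distrib,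
    ← Finset.mul_sum, Finset.sum_comm]
  have h4 : ∀ j ∈ range m, ∑ n ∈ range (⌊x⌋₊ + 1),
      (Y x ((j * s : ℕ) : ℤ) (((j + 1) * s : ℕ) : ℤ) (n : ℤ)) ^ 2 ≤ En x s := by
    intro j _
    have h5 : ∀ n ∈ range (⌊x⌋₊ + 1), (Y x ((j * s : ℕ) : ℤ) (((j + 1) * s : ℕ) : ℤ) (n : ℤ)) ^ 2
        = (fun z : ℤ => (Y x 0 (s : ℤ) z) ^ 2) ((n : ℤ) - ((j * s : ℕ) : ℤ)) := by
      intro n _
      have h6 := Y_shift x 0 (s : ℤ) (n : ℤ) ((j * s : ℕ) : ℤ)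
      have h7 : (s : ℤ) + ((j * s : ℕ) : ℤ) = (((j + 1) * s : ℕ) : ℤ) := by push_cast; ring
      rw [zero_add, h7] at h6
      rw [h6]
    rw [Finset.sum_congr rfl h5]
    refine shift_le _ (fun z : ℤ => (Y x 0 (s : ℤ) z) ^ 2) ?_ ?_ _ ?_
    · intro z hz
      show (Y x 0 (s : ℤ) z) ^ 2 = 0
      rw [Y_neg x 0 s z le_rfl hz.le]
      ring
    · intro z
      exact sq_nonneg _
    · exact_mod_cast Nat.zero_le _
  have h8 := Finset.sum_le_card_nsmul (range m) _ _ h4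
  rw [card_range, nsmul_eq_mul] at h8
  have h9 : En x (m * s) = ∑ n ∈ range (⌊x⌋₊ + 1), Y x 0 ((m * s : ℕ) : ℤ) (n : ℤ) ^ 2 := rfl
  rw [h9]
  linarith

theorem En_anti (x : ℝ) (s m : ℕ) (hs : 1 ≤ s) (hm : 1 ≤ m) : En x (m * s) ≤ En x s := by
  have h1 := VAR x s m hs hm
  have h2 : (0 : ℝ) ≤ ∑ j ∈ range m, ∑ n ∈ range (⌊x⌋₊ + 1),
        (Y x ((j * s : ℕ) : ℤ) (((j + 1) * s : ℕ) : ℤ) (n : ℤ)
          - Y x 0 ((m * s : ℕ) : ℤ) (n : ℤ)) ^ 2 :=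
    Finset.sum_nonneg fun j _ => Finset.sum_nonneg fun n _ => sq_nonneg _
  have h3 : (0 : ℝ) < m := by exact_mod_cast hm
  by_contra hcon
  push Not at hcon
  have h4 : (m : ℝ) * (En x s - En x (m * s)) < 0 :=
    mul_neg_of_pos_of_neg h3 (by linarith)
  linarith

theorem En_nonneg (x : ℝ) (s : ℕ) : 0 ≤ En x s :=
  Finset.sum_nonneg fun n _ => sq_nonneg _

end Pool.Agent.H96.EQ
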