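import Pool.Agent.H96.EQ.Def3
import Pool.Agent.H96.EQ.VAR
import Pool.Agent.H96.EQ.MO4
import Pool.Agent.H6.MF.FMO

/-!
# KAP: bounds for the third moment, and its monotonicity

`Λ = log x`, `Y n = Y x 0 D n`, `N = ⌊x⌋₊ + 1`.
* `kap_ge`: `Y ≥ 0` (for `Λ ≥ 0`) and `Y^3 ≥ 3 Y - 2` (`(Y-1)^2 (Y+2) ≥ 0`). `FMO 3 (ε/10)` with the window `(0, D]`
  (`D ≤ Λ^3`) gives `∑ Y = (Λ/D) ∑ win 0 D ≥ (1 - ε/10) x` (`D ≥ 1`). `N ≤ x + 1 ≤ (1 + ε/10) x` for large `x`. So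
  `∑ Y^3 ≥ 3 (1 - ε/10) x - 2 (1 + ε/10) x = (1 - ε/2) x`.
* `kap_le`: `Y^3 ≤ 1 + Y^4`, `N ≤ 2 x`, and `∑ Y^4 ≤ K^4 x` (`MO4` with `u = 0`, `v = D`). `C = 2 + K^4`.
* `kap_anti`: for each `n`, `Y x 0 (m D) n = (1/m) ∑_{j < m} Y x (j D) ((j+1) D) n` (`win_blocks` with `s = D`; `m, D ≥ 1`), so by convexity
  (`Real.pow_arith_mean_le_arith_mean_pow`, all terms `≥ 0` as `Λ ≥ 0`) its cube is `≤ (1/m) ∑_j (Y x (j D) ((j+1) D) n)^3`. Sum over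
  `n`: `∑_n (Y x (j D) ((j+1) D) n)^3 = ∑_n (Y x 0 D (n - j D))^3 ≤ ∑_n (Y x 0 D n)^3` (`Y_shift`, `Y_neg`, `shift_le` with
  `f n = (Y x 0 D n)^3 ≥ 0`). Divide by `x ≥ 0`.
-/

set_option autoImplicit false

namespace Pool.Agent.H96.EQ

open Finset Pool.Agent.H6.MF

theorem KAP_Y_nonneg {x : ℝ} (hx : 1 ≤ x) {u v : ℤ} (huv : u ≤ v) (n : ℤ) : 0 ≤ Y x u v n := by
  unfold Y
  have h1 := Real.log_nonneg hx
  have h2 : (0 : ℝ) ≤ (v : ℝ) - u := by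
    have : (u : ℝ) ≤ v := by exact_mod_cast huv
    linarith
  positivity

theorem KAP_sum (x : ℝ) (s m : ℕ) (hs : 1 ≤ s) (hm : 1 ≤ m) (n : ℤ) :
    ∑ j ∈ range m, Y x ((j * s : ℕ) : ℤ) (((j + 1) * s : ℕ) : ℤ) n
      = m * Y x 0 ((m * s : ℕ) : ℤ) n := by
  have hs' : (s : ℝ) ≠ 0 := by positivity
  have hm' : (m : ℝ) ≠ 0 := by positivity
  unfold Y
  rw [win_blocks]
  push_cast
  have h1 : ∀ j ∈ range m, (win ((j : ℤ) * s) (((j : ℤ) + 1) * s) n : ℝ) * Real.log x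
      / (((j : ℝ) + 1) * s - (j : ℝ) * s)
      = (win ((j : ℤ) * s) (((j : ℤ) + 1) * s) n : ℝ) * (Real.log x / s) := by
    intro j _
    have : ((j : ℝ) + 1) * s - (j : ℝ) * s = s := by ring
    rw [this, mul_div_assoc]
  rw [Finset.sum_congr rfl h1, ← Finset.sum_mul, sub_zero]
  field_simp

theorem KAP_cube {y : ℝ} (hy : 0 ≤ y) : 3 * y - 2 ≤ y ^ 3 := by
  nlinarith [mul_nonneg (sq_nonneg (y - 1)) (by linarith : (0 : ℝ) ≤ y + 2)]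

theorem KAP_four {y : ℝ} (hy : 0 ≤ y) : y ^ 3 ≤ 1 + y ^ 4 := by
  rcases le_total y 1 with h | h
  · have h1 : y ^ 3 ≤ 1 := pow_le_one₀ hy h
    have h2 : 0 ≤ y ^ 4 := by positivity
    linarith
  · have h1 : y ^ 3 ≤ y ^ 4 := pow_le_pow_right₀ h (by norm_num)
    linarith

theorem kap_ge (ε : ℝ) (hε : 0 < ε) : ∃ X : ℝ, ∀ x : ℝ, X ≤ x → ∀ D : ℕ, 1 ≤ D → (D : ℝ) ≤ (Real.log x) ^ 3 →
    1 - ε ≤ kap x D := by
  obtain ⟨X1, h1⟩ := FMO 3 (ε / 10) (by positivity)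
  refine ⟨max X1 (max (Real.exp 1) (10 / ε)), fun x hx D hD hDL => ?_⟩
  have hx1 : X1 ≤ x := (le_max_left _ _).trans hx
  have hxe : Real.exp 1 ≤ x := (le_max_left _ _).trans ((le_max_right _ _).trans hx)
  have hxε : 10 / ε ≤ x := (le_max_right _ _).trans ((le_max_right _ _).trans hx)
  have he : (1 : ℝ) + 1 ≤ Real.exp 1 := Real.add_one_le_exp 1
  have hx0 : 0 < x := by linarith
  have hx1' : 1 ≤ x := by linarith
  have hL : 1 ≤ Real.log x := (Real.le_log_iff_exp_le hx0).mpr hxe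
  have hL0 : 0 < Real.log x := by linarith
  have hD0 : (0 : ℝ) < D := by exact_mod_cast hD
  have h2 := h1 x hx1 0 (D : ℤ) (by simp; positivity)
    (by rw [Int.cast_natCast, abs_of_nonneg hD0.le]; nlinarith [hDL]) (by positivity)
  rw [Int.cast_natCast, Int.cast_zero, sub_zero] at h2
  have h3 := (abs_le.1 h2).1
  have hY : ∑ n ∈ range (⌊x⌋₊ + 1), Y x 0 (D : ℤ) (n : ℤ) =
      Real.log x / D * ∑ n ∈ range (⌊x⌋₊ + 1), (win 0 (D : ℤ) (n : ℤ) : ℝ) := by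
    rw [mul_sum]
    refine sum_congr rfl fun n _ => ?_
    unfold Y
    rw [Int.cast_natCast, Int.cast_zero, sub_zero]
    ring
  have h4 : (1 - ε / 10) * x ≤ ∑ n ∈ range (⌊x⌋₊ + 1), Y x 0 (D : ℤ) (n : ℤ) := by
    rw [hY]
    have h5 : (1 - ε / 10) * (D * x / Real.log x) ≤
        ∑ n ∈ range (⌊x⌋₊ + 1), (win 0 (D : ℤ) (n : ℤ) : ℝ) := by linarith
    have h6 := mul_le_mul_of_nonneg_left h5 (by positivity : 0 ≤ Real.log x / D)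
    refine le_trans (le_of_eq ?_) h6
    field_simp
  have hN : ((⌊x⌋₊ + 1 : ℕ) : ℝ) ≤ (1 + ε / 10) * x := by
    have h5 := Nat.floor_le hx0.le
    have h6 : 1 ≤ ε / 10 * x := by
      have := mul_le_mul_of_nonneg_left hxε (by positivity : 0 ≤ ε / 10)
      refine le_trans (le_of_eq ?_) this
      field_simp
    push_cast
    linarith
  have h5 : 3 * ∑ n ∈ range (⌊x⌋₊ + 1), Y x 0 (D : ℤ) (n : ℤ) - 2 * ((⌊x⌋₊ + 1 : ℕ) : ℝ) ≤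
      ∑ n ∈ range (⌊x⌋₊ + 1), Y x 0 (D : ℤ) (n : ℤ) ^ 3 := by
    have h6 : ∑ n ∈ range (⌊x⌋₊ + 1), (3 * Y x 0 (D : ℤ) (n : ℤ) - 2) ≤
        ∑ n ∈ range (⌊x⌋₊ + 1), Y x 0 (D : ℤ) (n : ℤ) ^ 3 :=
      sum_le_sum fun n _ => KAP_cube (KAP_Y_nonneg hx1' (by positivity) _)
    rw [sum_sub_distrib, ← mul_sum, sum_const, card_range, nsmul_eq_mul] at h6
    linarith
  unfold kap
  rw [le_div_iff₀ hx0]
  nlinarith

theorem kap_le : ∃ C X : ℝ, 0 < C ∧ ∀ x : ℝ, X ≤ x → ∀ D : ℕ, Real.log x ≤ D → (D : ℝ) ≤ (Real.log x) ^ 3 →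
    kap x D ≤ C := by
  obtain ⟨K, X, hK, h⟩ := MO4
  refine ⟨2 + K ^ 4, X, by positivity, fun x hx D hD hDL => ?_⟩
  obtain ⟨hx1, hL, hfl, key, _⟩ := h x hx
  have hx0 : 0 < x := by linarith
  have h1 := (key 0 D hDL (by rw [Nat.cast_zero, zero_add]; exact hD)).2
  rw [Nat.cast_zero] at h1
  have h2 : ∑ n ∈ range (⌊x⌋₊ + 1), Y x 0 (D : ℤ) (n : ℤ) ^ 3 ≤
      ∑ n ∈ range (⌊x⌋₊ + 1), (1 + Y x 0 (D : ℤ) (n : ℤ) ^ 4) :=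
    sum_le_sum fun n _ => KAP_four (KAP_Y_nonneg hx1 (by positivity) _)
  rw [sum_add_distrib, sum_const, card_range, nsmul_eq_mul, mul_one] at h2
  push_cast at h2
  unfold kap
  rw [div_le_iff₀ hx0]
  linarith

theorem kap_anti (x : ℝ) (hx : 1 ≤ x) (D m : ℕ) (hD : 1 ≤ D) (hm : 1 ≤ m) : kap x (m * D) ≤ kap x D := by
  have hx0 : 0 < x := by linarith
  have hm0 : (0 : ℝ) < m := by exact_mod_cast hm
  unfold kap
  refine div_le_div_of_nonneg_right ?_ hx0.le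
  have h1 : ∀ n : ℕ, (m : ℝ) * Y x 0 ((m * D : ℕ) : ℤ) (n : ℤ) ^ 3 ≤
      ∑ j ∈ range m, Y x ((j * D : ℕ) : ℤ) (((j + 1) * D : ℕ) : ℤ) (n : ℤ) ^ 3 := by
    intro n
    have h2 := pow_sum_div_card_le_sum_pow (s := range m)
      (f := fun j : ℕ => Y x ((j * D : ℕ) : ℤ) (((j + 1) * D : ℕ) : ℤ) (n : ℤ)) (n := 2) (fun j _ =>
        KAP_Y_nonneg hx (by exact_mod_cast Nat.mul_le_mul_right D (Nat.le_succ j)) _)
    rw [KAP_sum x D m hD hm (n : ℤ), card_range] at h2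
    refine le_trans (le_of_eq ?_) h2
    field_simp
    ring
  have h4 : ∀ j ∈ range m, ∑ n ∈ range (⌊x⌋₊ + 1),
      (Y x ((j * D : ℕ) : ℤ) (((j + 1) * D : ℕ) : ℤ) (n : ℤ)) ^ 3 ≤
        ∑ n ∈ range (⌊x⌋₊ + 1), Y x 0 (D : ℤ) (n : ℤ) ^ 3 := by
    intro j _
    have h5 : ∀ n ∈ range (⌊x⌋₊ + 1), (Y x ((j * D : ℕ) : ℤ) (((j + 1) * D : ℕ) : ℤ) (n : ℤ)) ^ 3
        = (fun z : ℤ => (Y x 0 (D : ℤ) z) ^ 3) ((n : ℤ) - ((j * D : ℕ) : ℤ)) := by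
      intro n _
      have h6 := Y_shift x 0 (D : ℤ) (n : ℤ) ((j * D : ℕ) : ℤ)
      have h7 : (D : ℤ) + ((j * D : ℕ) : ℤ) = (((j + 1) * D : ℕ) : ℤ) := by push_cast; ring
      rw [zero_add, h7] at h6
      rw [h6]
    rw [Finset.sum_congr rfl h5]
    refine shift_le _ (fun z : ℤ => (Y x 0 (D : ℤ) z) ^ 3) ?_ ?_ _ ?_
    · intro z hz
      show (Y x 0 (D : ℤ) z) ^ 3 = 0
      rw [Y_neg x 0 D z le_rfl hz.le]
      ring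
    · intro z
      exact pow_nonneg (KAP_Y_nonneg hx (by positivity) z) 3
    · exact_mod_cast Nat.zero_le _
  have h8 := Finset.sum_le_card_nsmul (range m) _ _ h4
  rw [card_range, nsmul_eq_mul, sum_comm] at h8
  have h9 : (m : ℝ) * ∑ n ∈ range (⌊x⌋₊ + 1), Y x 0 ((m * D : ℕ) : ℤ) (n : ℤ) ^ 3 ≤
      (m : ℝ) * ∑ n ∈ range (⌊x⌋₊ + 1), Y x 0 (D : ℤ) (n : ℤ) ^ 3 := by
    refine le_trans ?_ h8
    rw [mul_sum]
    exact sum_le_sum fun n _ => h1 n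
  exact le_of_mul_le_mul_left h9 hm0

end Pool.Agent.H96.EQ
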