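import Mathlib

/-!
# PIG: the pigeonhole principle for a bounded monotone sequence (Mathlib only)

For every `I`: `∑_{i < I} (a i - a (i + 2r)) = ∑_{i < I} a i - ∑_{2r ≤ i < I + 2r} a i ≤ ∑_{i < 2r} a i ≤ 2 r C` (induction on `I`
of the exact form `∑_{i<I} (a i - a (i+2r)) = ∑_{i < 2r} a i - ∑_{i < 2r} a (I + i)`, or `Finset.sum_range_add`; then
`a ≥ 0` and `a i ≤ a 0 ≤ C`, `antitone_nat_of_succ_le`). All terms `a i - a (i + 2r)` are `≥ 0`, so
`δ · #{i < I : δ < a i - a (i + 2r)} ≤ ∑_{i<I} (a i - a (i+2r)) ≤ 2 r C` (`Finset.card_nsmul_le_sum` on the filter and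
`Finset.sum_le_sum_of_subset_of_nonneg`).
-/

set_option autoImplicit false

namespace Pool.Agent.H96.EQ

open Finset

theorem PIG_tel (a : ℕ → ℝ) (m : ℕ) (I : ℕ) :
    ∑ i ∈ range I, (a i - a (i + m)) = ∑ i ∈ range m, a i - ∑ i ∈ range m, a (I + i) := by
  induction I with
  | zero => simp
  | succ I ih =>
    rw [Finset.sum_range_succ, ih]
    have h1 : ∑ i ∈ range m, a (I + 1 + i) = ∑ i ∈ range m, a (I + i) + a (I + m) - a I := by
      have h2 := Finset.sum_range_succ (fun i => a (I + i)) m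
      have h3 := Finset.sum_range_succ' (fun i => a (I + i)) m
      rw [h2] at h3
      have h4 : ∑ i ∈ range m, a (I + 1 + i) = ∑ i ∈ range m, a (I + (i + 1)) := by
        apply Finset.sum_congr rfl
        intro i _
        rw [Nat.add_assoc, Nat.add_comm 1 i]
      rw [h4]
      have h5 : a (I + 0) = a I := by rw [Nat.add_zero]
      rw [h5] at h3
      linarith
    rw [h1]
    ring

theorem PIG (a : ℕ → ℝ) (r I : ℕ) (C δ : ℝ) (hδ : 0 < δ) (h0 : ∀ i, 0 ≤ a i) (hC : a 0 ≤ C)
    (ha : ∀ i, a (i + 1) ≤ a i) :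
    (((range I).filter (fun i => δ < a i - a (i + 2 * r))).card : ℝ) ≤ 2 * r * C / δ := by
  have hanti : Antitone a := antitone_nat_of_succ_le ha
  have hnn : ∀ i, 0 ≤ a i - a (i + 2 * r) := fun i => by
    have := hanti (Nat.le_add_right i (2 * r))
    linarith
  have hb : ∀ i, a i ≤ C := fun i => (hanti (Nat.zero_le i)).trans hC
  rw [le_div_iff₀ hδ]
  have h1 : (((range I).filter (fun i => δ < a i - a (i + 2 * r))).card : ℝ) * δ ≤
      ∑ i ∈ (range I).filter (fun i => δ < a i - a (i + 2 * r)), (a i - a (i + 2 * r)) := by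
    have h := Finset.card_nsmul_le_sum ((range I).filter (fun i => δ < a i - a (i + 2 * r)))
      (fun i => a i - a (i + 2 * r)) δ (by
        intro i hi
        rw [Finset.mem_filter] at hi
        exact hi.2.le)
    rw [nsmul_eq_mul] at h
    exact h
  have h2 : ∑ i ∈ (range I).filter (fun i => δ < a i - a (i + 2 * r)), (a i - a (i + 2 * r)) ≤
      ∑ i ∈ range I, (a i - a (i + 2 * r)) :=
    Finset.sum_le_sum_of_subset_of_nonneg (Finset.filter_subset _ _) (fun i _ _ => hnn i)
  have h3 := PIG_tel a (2 * r) I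
  have h4 : (0 : ℝ) ≤ ∑ i ∈ range (2 * r), a (I + i) := Finset.sum_nonneg (fun i _ => h0 _)
  have h5 : ∑ i ∈ range (2 * r), a i ≤ 2 * r * C := by
    have h6 : ∑ i ∈ range (2 * r), a i ≤ ∑ i ∈ range (2 * r), C :=
      Finset.sum_le_sum (fun i _ => hb i)
    rw [Finset.sum_const, Finset.card_range, nsmul_eq_mul] at h6
    push_cast at h6
    exact h6
  linarith

end Pool.Agent.H96.EQ
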