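import Pool.Agent.H96.EQ.GOO
import Pool.Agent.H96.EQ.PIG

/-!
# MAS: all but boundedly many dyadic scales are good

`C` from `GOO`, `K` from `MO4`. Given `ε`, let `r = r₀(ε)`, `δ, X₁` from `GOO`, and `M = ⌈r + 2 r (2 K^2)/δ⌉₊ + 1`. Let `x` be so
large that (besides `X₁` and the threshold of `MO4`) `4^r ≤ Λ`. If `I = 0` the set is empty. Otherwise `g ≤ Λ^2`. Let
`a i = En x (2^i g)/x` (`x > 0`): `a ≥ 0` (`En_nonneg`), `a (i+1) ≤ a i` (`En_anti` with `m = 2`, `2^(i+1) g = 2 (2^i g)`, `g ≥ 1`),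
`a 0 ≤ 2 K^2` (`MO4`: `Λ ≤ g ≤ Λ^2 ≤ Λ^3`).
If `r ≤ i < I` and `a (i - r) - a (i - r + 2r) ≤ δ` then `2^i g` is good: `GOO` with `s = 2^(i-r) g`: `2^r s = 2^i g`,
`Λ ≤ g ≤ s`, `4^r s ≤ 4^r Λ^2 ≤ Λ^3`, `4^r s = 2^(i - r + 2r) g`. Hence the bad `i` lie in
`range r ∪ (the image under (· + r) of {j < I : δ < a j - a (j + 2r)})`, and `PIG` bounds the cardinality by
`r + 2 r (2 K^2)/δ ≤ M`.
-/

set_option autoImplicit false

namespace Pool.Agent.H96.EQ

open Finset Pool.Agent.H6.MF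

open Classical in
theorem MAS : ∃ C : ℝ, 0 < C ∧ ∀ ε : ℝ, 0 < ε → ∃ (M : ℕ) (X : ℝ), ∀ x : ℝ, X ≤ x → ∀ g : ℕ, Real.log x ≤ g →
    ∀ I : ℕ, (∀ i < I, ((2 ^ i * g : ℕ) : ℝ) ≤ (Real.log x) ^ 2) →
    ((range I).filter (fun i => ¬ Good x ε C (2 ^ i * g))).card ≤ M := by
  obtain ⟨C, hC, hG⟩ := GOO
  obtain ⟨K, X0, hK, hM⟩ := MO4
  refine ⟨C, hC, fun ε hε => ?_⟩
  obtain ⟨r, hr⟩ := hG ε hε
  obtain ⟨δ, X1, hδ, hX1⟩ := hr r le_rfl
  refine ⟨⌈(r : ℝ) + 2 * r * (2 * K ^ 2) / δ⌉₊, max X0 (max X1 (Real.exp ((4 : ℝ) ^ r))), ?_⟩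
  intro x hx g hg I hI
  have hx0 : X0 ≤ x := (le_max_left _ _).trans hx
  have hx1 : X1 ≤ x := ((le_max_left _ _).trans (le_max_right _ _)).trans hx
  have hx2 : Real.exp ((4 : ℝ) ^ r) ≤ x := ((le_max_right _ _).trans (le_max_right _ _)).trans hx
  obtain ⟨h1x, hlog, _, _, hEn⟩ := hM x hx0
  have hxpos : 0 < x := by linarith
  have h4 : (4 : ℝ) ^ r ≤ Real.log x := (Real.le_log_iff_exp_le hxpos).2 hx2
  rcases Nat.eq_zero_or_pos I with hI0 | hIpos
  · subst hI0
    simp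
  have hgpos : 1 ≤ g := by
    have h : (1 : ℝ) ≤ g := hlog.trans hg
    exact_mod_cast h
  have hg2 : (g : ℝ) ≤ (Real.log x) ^ 2 := by
    have h := hI 0 hIpos
    simpa using h
  have h23 : (Real.log x) ^ 2 ≤ (Real.log x) ^ 3 := pow_le_pow_right₀ hlog (by norm_num)
  have hpos : ∀ i : ℕ, 1 ≤ 2 ^ i * g := fun i => Nat.one_le_iff_ne_zero.2 (by positivity)
  have key := PIG (fun i => En x (2 ^ i * g) / x) r I (2 * K ^ 2) δ hδ
    (fun i => div_nonneg (En_nonneg _ _) hxpos.le)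
    (by
      show En x (2 ^ 0 * g) / x ≤ 2 * K ^ 2
      rw [div_le_iff₀ hxpos, pow_zero, one_mul]
      exact hEn g hg (hg2.trans h23))
    (fun i => by
      show En x (2 ^ (i + 1) * g) / x ≤ En x (2 ^ i * g) / x
      refine div_le_div_of_nonneg_right ?_ hxpos.le
      have h := En_anti x (2 ^ i * g) 2 (hpos i) (by norm_num)
      have e : 2 ^ (i + 1) * g = 2 * (2 ^ i * g) := by ring
      rw [e]
      exact h)
  have hsub : ((range I).filter (fun i => ¬ Good x ε C (2 ^ i * g))) ⊆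
      range r ∪ ((range I).filter (fun i => δ < En x (2 ^ i * g) / x - En x (2 ^ (i + 2 * r) * g) / x)).image
        (fun j => j + r) := by
    intro i hi
    rw [mem_filter, mem_range] at hi
    rw [mem_union, mem_range, mem_image]
    by_cases hir : i < r
    · exact Or.inl hir
    · right
      push Not at hir
      refine ⟨i - r, ?_, by omega⟩
      rw [mem_filter, mem_range]
      refine ⟨by omega, ?_⟩
      by_contra hc
      push Not at hc
      apply hi.2
      have e1 : 2 ^ r * (2 ^ (i - r) * g) = 2 ^ i * g := by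
        rw [← mul_assoc, ← pow_add]
        congr 2
        omega
      have e2 : 4 ^ r * (2 ^ (i - r) * g) = 2 ^ (i - r + 2 * r) * g := by
        rw [← mul_assoc, show (4 : ℕ) = 2 ^ 2 from rfl, ← pow_mul, ← pow_add]
        congr 2
        omega
      have hs2 : ((2 ^ (i - r) * g : ℕ) : ℝ) ≤ (Real.log x) ^ 2 := hI (i - r) (by omega)
      have hs1 : Real.log x ≤ ((2 ^ (i - r) * g : ℕ) : ℝ) := by
        refine hg.trans ?_
        have h : g ≤ 2 ^ (i - r) * g := Nat.le_mul_of_pos_left _ (by positivity)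
        exact_mod_cast h
      have h := hX1 x hx1 (2 ^ (i - r) * g) hs1
        (by
          calc (4 : ℝ) ^ r * ((2 ^ (i - r) * g : ℕ) : ℝ) ≤ Real.log x * (Real.log x) ^ 2 :=
                mul_le_mul h4 hs2 (Nat.cast_nonneg _) (by linarith)
            _ = (Real.log x) ^ 3 := by ring)
        (by
          rw [e2]
          rw [← sub_div, div_le_iff₀ hxpos] at hc
          exact hc)
      rw [e1] at h
      exact h
  have hcard := (card_le_card hsub).trans (card_union_le _ _)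
  have himg : (((range I).filter (fun i => δ < En x (2 ^ i * g) / x - En x (2 ^ (i + 2 * r) * g) / x)).image
      (fun j => j + r)).card ≤
      ((range I).filter (fun i => δ < En x (2 ^ i * g) / x - En x (2 ^ (i + 2 * r) * g) / x)).card :=
    card_image_le
  rw [card_range] at hcard
  have hfin : (((range I).filter (fun i => ¬ Good x ε C (2 ^ i * g))).card : ℝ) ≤
      (r : ℝ) + 2 * r * (2 * K ^ 2) / δ := by
    have h1 : (((range I).filter (fun i => ¬ Good x ε C (2 ^ i * g))).card : ℝ) ≤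
        (r : ℝ) + (((range I).filter (fun i => δ < En x (2 ^ i * g) / x -
          En x (2 ^ (i + 2 * r) * g) / x)).card : ℝ) := by
      exact_mod_cast hcard.trans (Nat.add_le_add_left himg r)
    exact h1.trans (add_le_add_right key (r : ℝ))
  have h := hfin.trans (Nat.le_ceil _)
  exact_mod_cast h

end Pool.Agent.H96.EQ
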