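import Pool.Agent.H96.EQ.Def2
import Pool.Agent.H96.EQ.MAS
import Pool.Agent.H96.EQ.BLU
import Pool.Agent.H96.EQ.BLL
import Pool.Agent.H96.EQ.CRB

/-!
# KEY: the dyadic blocks of the logarithmic sum

Notation: `Λ = log x`, `Z = x/Λ^3`, `g = ⌊Λ⌋₊ + 1`, `Q = ⌊Λ^2⌋₊`, `I = Nat.log 2 (Q / g)`. `C₁` from `MAS`, `C₂` from `CRB`,
`C = max C₁ (2 C₂)`.
* For large `x` (`Λ ≥ 10`, say): `Λ ≤ g ≤ Λ + 1`, `1 ≤ Q / g`, `2^I ≤ Q/g < 2^(I+1)` (`Nat.pow_log_le_self`, `Nat.lt_pow_succ_log_self`), so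
  `2^I g ≤ Q ≤ Λ^2` (`Nat.div_mul_le_self`), `Q < 2^(I+1) g` (`Nat.div_lt_iff_lt_mul`). `2^I ≤ Λ^2/g ≤ Λ` gives `I log 2 ≤ log Λ`.
  `2^(I+1) > Q/g` (real quotient) `≥ (Λ^2 - 1)/(Λ + 1) = Λ - 1 ≥ Λ/2`, so `(I + 2) log 2 ≥ log Λ`.
* Given `η`: `t ≥ 1` with `6 C₁/2^t ≤ η/2`, `ε' = min η (η/(4 · 2^t))`, so `6 κ/2^t + 2 · 2^t ε' ≤ η` for `κ ≤ C₁`, and `1 - ε' ≥ 1 - η`.
  `M₀` from `MAS ε'`. `bad = {i ∈ range I : i + 1 < t ∨ ¬ Good x ε' C₁ (2^(i+1) g)}`; `card bad ≤ t + M₀ =: M`: apply `MAS` to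
  `range (I + 1)` (`2^j g ≤ 2^I g ≤ Λ^2` for `j ≤ I`); the map `i ↦ i + 1` is injective.
* For `i ∈ range I`, `i ∉ bad`: `t ≤ i + 1`, put `h = 2^(i+1-t) g`; `2^(i+1) g = 2^t h`, `2^i g = 2^(t-1) h`. `Good` gives
  `κ` (choose one for each such `i`, `κ i = 0` otherwise: classical choice, `if h : _ then h.choose else 0`) with
  `Box x ε' κ (2^t h)`, which is the hypothesis `hbox` of `BLU`, `BLL` with `f = p3 x`, `ε = ε'`, `Z = x/Λ^3` (`0 ≤ κ` needs `ε' ≤ 1`: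
  replace `η` by `min η 1` at the beginning).
* Blocks: `sec_nonneg`, and `CRB` with `P = 2^i g`, `Q = 2^(i+1) g ≤ 2^I g ≤ Λ^2`, `2 Λ^2 ≤ Λ^3`.
* `T x α β - ∑ Blk = ∑_{d ∈ Ioc ⌊Λ⌋₊ g} sec + ∑_{d ∈ Ioc (2^I g) Q} sec` by `dya_dec` (`p = ⌊Λ⌋₊`): each is `≥ 0` and
  `≤ C₂ Z` by `CRB` (`P = ⌊Λ⌋₊ ≥ 1`, `g ≤ 2 ⌊Λ⌋₊`; `P = 2^I g`, `Q ≤ 2 P`, `Λ ≤ Q`).
-/

set_option autoImplicit false

namespace Pool.Agent.H96.EQ

open Finset Pool.Agent.H6.MF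

theorem KEY : ∃ C : ℝ, 0 < C ∧ ∀ η : ℝ, 0 < η → ∃ (t : ℕ) (M X : ℝ), 1 ≤ t ∧ 0 ≤ M ∧ ∀ x : ℝ, X ≤ x →
    ∃ (I : ℕ) (bad : Finset ℕ) (κ : ℕ → ℝ), bad ⊆ range I ∧ (bad.card : ℝ) ≤ M ∧
      (I : ℝ) ≤ Real.log (Real.log x) / Real.log 2 ∧ Real.log (Real.log x) / Real.log 2 - 3 ≤ I ∧
      (∀ i ∈ range I, i ∉ bad → 1 - η ≤ κ i ∧ κ i ≤ C ∧ ∀ α β : ℝ, 0 ≤ α → α ≤ β → β ≤ 1 →
        |Blk x i α β - κ i * (β - α) * Hs t * (x / (Real.log x) ^ 3)| ≤ η * (x / (Real.log x) ^ 3)) ∧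
      (∀ i ∈ range I, ∀ α β : ℝ, 0 ≤ α → 0 ≤ Blk x i α β ∧ Blk x i α β ≤ C * (x / (Real.log x) ^ 3)) ∧
      (∀ α β : ℝ, 0 ≤ α → 0 ≤ T x α β - ∑ i ∈ range I, Blk x i α β ∧
        T x α β - ∑ i ∈ range I, Blk x i α β ≤ C * (x / (Real.log x) ^ 3)) := by
  classical
  obtain ⟨C₁, hC₁, hMAS⟩ := MAS
  obtain ⟨C₂, X₂, hC₂, hCRB⟩ := CRB
  refine ⟨max C₁ (2 * C₂), lt_max_of_lt_left hC₁, ?_⟩
  intro η hη
  obtain ⟨η', hη'0, hη'η, hη'1⟩ : ∃ η' : ℝ, 0 < η' ∧ η' ≤ η ∧ η' ≤ 1 :=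
    ⟨min η 1, lt_min hη one_pos, min_le_left _ _, min_le_right _ _⟩
  obtain ⟨t₀, ht₀⟩ : ∃ n : ℕ, (1 / 2 : ℝ) ^ n < η' / (12 * C₁) :=
    exists_pow_lt_of_lt_one (by positivity) (by norm_num)
  obtain ⟨t, ht1, htC⟩ : ∃ t : ℕ, 1 ≤ t ∧ 6 * C₁ / 2 ^ t ≤ η' / 2 := by
    refine ⟨t₀ + 1, by omega, ?_⟩
    have h1 : (1 / 2 : ℝ) ^ t₀ * (12 * C₁) < η' := by
      rwa [lt_div_iff₀ (by positivity)] at ht₀
    have h2 : (1 / 2 : ℝ) ^ t₀ = 1 / 2 ^ t₀ := by rw [one_div_pow]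
    rw [h2] at h1
    have h3 : 6 * C₁ / 2 ^ (t₀ + 1) = 1 / 2 ^ t₀ * (12 * C₁) / 4 := by
      rw [pow_succ]; field_simp; ring
    rw [h3]
    linarith
  have h2t : (1 : ℝ) ≤ 2 ^ t := one_le_pow₀ (by norm_num)
  obtain ⟨ε, hε0, hεη, hε2⟩ : ∃ ε : ℝ, 0 < ε ∧ ε ≤ η' ∧ 2 * 2 ^ t * ε = η' / 2 := by
    refine ⟨η' / (4 * 2 ^ t), by positivity, ?_, by field_simp; ring⟩
    apply div_le_self hη'0.le
    linarith
  obtain ⟨M₀, X₁, hM⟩ := hMAS ε hε0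
  refine ⟨t, (t : ℝ) + M₀, max (max X₁ X₂) (Real.exp 10), ht1, by positivity, ?_⟩
  intro x hx
  have hxX₁ : X₁ ≤ x := le_trans (le_trans (le_max_left _ _) (le_max_left _ _)) hx
  have hxX₂ : X₂ ≤ x := le_trans (le_trans (le_max_right _ _) (le_max_left _ _)) hx
  have hxe : Real.exp 10 ≤ x := le_trans (le_max_right _ _) hx
  have hx0 : 0 < x := lt_of_lt_of_le (Real.exp_pos _) hxe
  have hΛ : 10 ≤ Real.log x := by
    rw [Real.le_log_iff_exp_le hx0]; exact hxe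
  set Λ : ℝ := Real.log x with hΛdef
  have hZ0 : 0 ≤ x / Λ ^ 3 := by positivity
  obtain ⟨p, hp⟩ : ∃ p : ℕ, p = ⌊Λ⌋₊ := ⟨_, rfl⟩
  obtain ⟨g, hg⟩ : ∃ g : ℕ, g = ⌊Λ⌋₊ + 1 := ⟨_, rfl⟩
  obtain ⟨Q, hQ⟩ : ∃ Q : ℕ, Q = ⌊Λ ^ 2⌋₊ := ⟨_, rfl⟩
  have hpΛ : (p : ℝ) ≤ Λ := by rw [hp]; exact Nat.floor_le (by linarith)
  have hΛp : Λ < (p : ℝ) + 1 := by rw [hp]; exact Nat.lt_floor_add_one _
  have hgp : g = p + 1 := by rw [hg, hp]
  have hgpR : (g : ℝ) = (p : ℝ) + 1 := by rw [hgp]; push_cast; ring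
  have hΛg : Λ ≤ (g : ℝ) := by rw [hgpR]; exact hΛp.le
  have hgΛ : (g : ℝ) ≤ Λ + 1 := by rw [hgpR]; linarith
  have hQΛ : (Q : ℝ) ≤ Λ ^ 2 := by rw [hQ]; exact Nat.floor_le (by positivity)
  have hΛQ : Λ ^ 2 < (Q : ℝ) + 1 := by rw [hQ]; exact Nat.lt_floor_add_one _
  have hg0 : 0 < g := by omega
  have hp1 : 1 ≤ p := by
    have : (1 : ℝ) < (p : ℝ) + 1 := by linarith
    have h' : (0 : ℝ) < (p : ℝ) := by linarith
    exact_mod_cast h'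
  have hgQ : g ≤ Q := by
    have : (g : ℝ) < (Q : ℝ) + 1 := by nlinarith
    have h' : g < Q + 1 := by exact_mod_cast this
    omega
  obtain ⟨I, hI⟩ : ∃ I : ℕ, I = Nat.log 2 (Q / g) := ⟨_, rfl⟩
  have hQg : Q / g ≠ 0 := by
    have := Nat.div_pos hgQ hg0
    omega
  have hIQ : 2 ^ I * g ≤ Q := by
    have h1 : 2 ^ I ≤ Q / g := by rw [hI]; exact Nat.pow_log_le_self 2 hQg
    exact (Nat.le_div_iff_mul_le hg0).1 h1
  have hQI : Q < 2 ^ (I + 1) * g := by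
    have h1 : Q / g < 2 ^ (I + 1) := by rw [hI]; exact Nat.lt_pow_succ_log_self (by norm_num) _
    exact (Nat.div_lt_iff_lt_mul hg0).1 h1
  have hIQR : (2 : ℝ) ^ I * g ≤ Λ ^ 2 := by
    have : ((2 ^ I * g : ℕ) : ℝ) ≤ (Q : ℝ) := by exact_mod_cast hIQ
    push_cast at this
    linarith
  have hlog2 : 0 < Real.log 2 := Real.log_pos (by norm_num)
  have hle : ∀ j ≤ I, ((2 ^ j * g : ℕ) : ℝ) ≤ Λ ^ 2 := by
    intro j hj
    have h1 : 2 ^ j * g ≤ 2 ^ I * g := Nat.mul_le_mul_right _ (Nat.pow_le_pow_right (by norm_num) hj)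
    have h2 : ((2 ^ j * g : ℕ) : ℝ) ≤ ((2 ^ I * g : ℕ) : ℝ) := by exact_mod_cast h1
    have h3 : ((2 ^ I * g : ℕ) : ℝ) = (2 : ℝ) ^ I * g := by push_cast; ring
    linarith
  have hI1 : (I : ℝ) ≤ Real.log Λ / Real.log 2 := by
    rw [le_div_iff₀ hlog2, ← Real.log_pow]
    apply Real.log_le_log (by positivity)
    have h1 : (2 : ℝ) ^ I * Λ ≤ Λ ^ 2 := by
      refine le_trans ?_ hIQR
      exact mul_le_mul_of_nonneg_left hΛg (by positivity)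
    nlinarith
  have hI2 : Real.log Λ / Real.log 2 - 3 ≤ (I : ℝ) := by
    have h1 : Λ ^ 2 < (2 : ℝ) ^ (I + 1) * g := by
      have h2 : Q + 1 ≤ 2 ^ (I + 1) * g := hQI
      have h3 : ((Q + 1 : ℕ) : ℝ) ≤ ((2 ^ (I + 1) * g : ℕ) : ℝ) := by exact_mod_cast h2
      push_cast at h3
      linarith
    have h2 : Λ ≤ (2 : ℝ) ^ (I + 3) := by
      have h3 : (2 : ℝ) ^ (I + 1) * g ≤ (2 : ℝ) ^ (I + 1) * (4 * Λ) :=
        mul_le_mul_of_nonneg_left (by linarith) (by positivity)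
      have h4 : Λ ^ 2 < (2 : ℝ) ^ (I + 3) * Λ := by
        have : (2 : ℝ) ^ (I + 3) = (2 : ℝ) ^ (I + 1) * 4 := by rw [pow_add, pow_add]; norm_num; ring
        rw [this]
        linarith
      nlinarith
    have h3 : Real.log Λ ≤ ((I + 3 : ℕ) : ℝ) * Real.log 2 := by
      rw [← Real.log_pow]
      exact Real.log_le_log (by linarith) h2
    rw [sub_le_iff_le_add, div_le_iff₀ hlog2]
    push_cast at h3
    exact h3
  refine ⟨I, (range I).filter (fun i => i + 1 < t ∨ ¬ Good x ε C₁ (2 ^ (i + 1) * g)),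
    fun i => if h : Good x ε C₁ (2 ^ (i + 1) * g) then h.1.choose else 0,
    filter_subset _ _, ?_, hI1, hI2, ?_, ?_, ?_⟩
  · -- cardinality of the bad set
    have h1 : ((range I).filter (fun i => i + 1 < t ∨ ¬ Good x ε C₁ (2 ^ (i + 1) * g))).card
        ≤ t + M₀ := by
      rw [filter_or]
      refine le_trans (card_union_le _ _) (add_le_add ?_ ?_)
      · calc ((range I).filter (fun i => i + 1 < t)).card ≤ (range t).card := by
              apply card_le_card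
              intro i hi
              rw [mem_filter] at hi
              rw [mem_range]
              omega
          _ = t := card_range t
      · have hM1 := hM x hxX₁ g hΛg (I + 1) (fun j hj => hle j (by omega))
        refine le_trans ?_ hM1
        apply card_le_card_of_injOn (fun i => i + 1)
        · intro i hi
          have hi' := (mem_filter.1 (mem_coe.1 hi))
          rw [mem_coe, mem_filter, mem_range]
          refine ⟨?_, hi'.2⟩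
          have := mem_range.1 hi'.1
          show i + 1 < I + 1
          omega
        · intro i _ j _ hij
          simpa using hij
    exact_mod_cast h1
  · -- good blocks
    intro i hi hib
    have hnb : t ≤ i + 1 ∧ Good x ε C₁ (2 ^ (i + 1) * g) := by
      by_contra hcon
      apply hib
      rw [mem_filter]
      refine ⟨hi, ?_⟩
      by_contra hc2
      rw [not_or, not_not, not_lt] at hc2
      exact hcon hc2
    obtain ⟨hti, hGood⟩ := hnb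
    have hκ : (if h : Good x ε C₁ (2 ^ (i + 1) * g) then h.1.choose else 0) = hGood.1.choose :=
      dif_pos hGood
    simp only [hκ]
    obtain ⟨hk1, hk2, hbox⟩ := hGood.1.choose_spec
    generalize hGood.1.choose = k at hk1 hk2 hbox
    have hk0 : 0 ≤ k := by linarith
    refine ⟨by linarith, le_trans hk2 (le_max_left _ _), ?_⟩
    intro α β h0 h1 h2
    obtain ⟨h, hh⟩ : ∃ h : ℕ, h = 2 ^ (i + 1 - t) * g := ⟨_, rfl⟩
    have hD : 2 ^ (i + 1) * g = 2 ^ t * h := by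
      rw [hh, ← mul_assoc, ← pow_add]
      congr 2
      omega
    have hD' : 2 ^ i * g = 2 ^ (t - 1) * h := by
      rw [hh, ← mul_assoc, ← pow_add]
      congr 2
      omega
    have hh1 : 1 ≤ h := by
      rw [hh]
      exact Nat.mul_pos (by positivity) hg0
    have hBlk : Blk x i α β = ∑ d ∈ Ioc (2 ^ (t - 1) * h) (2 ^ t * h), sec (p3 x) α β d := by
      unfold Blk
      rw [← hΛdef, ← hg, hD, hD']
    unfold Box at hbox
    rw [hD] at hbox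
    have hf : ∀ a b, 0 ≤ p3 x a b := fun a b => Nat.cast_nonneg _
    have hU := BLU (p3 x) hf h t hh1 ht1 k ε (x / Λ ^ 3) hk0 hε0.le hZ0 hbox α β h0 h1 h2
    have hL := BLL (p3 x) hf h t hh1 ht1 k ε (x / Λ ^ 3) hk0 hε0.le hZ0 hbox α β h0 h1 h2
    rw [← hBlk] at hU hL
    have hE : (6 * k / 2 ^ t + 2 * 2 ^ t * ε) * (x / Λ ^ 3) ≤ η * (x / Λ ^ 3) := by
      apply mul_le_mul_of_nonneg_right _ hZ0
      have h6 : 6 * k / 2 ^ t ≤ 6 * C₁ / 2 ^ t := by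
        apply div_le_div_of_nonneg_right _ (by positivity)
        linarith
      rw [hε2]
      linarith
    rw [abs_le]
    constructor
    · linarith
    · linarith
  · -- crude bounds for the blocks
    intro i hi α β h0
    have hiI : i + 1 ≤ I := mem_range.1 hi
    constructor
    · exact sum_nonneg (fun d _ => sec_nonneg x α β d)
    · unfold Blk
      rw [← hΛdef, ← hg]
      refine le_trans (hCRB x hxX₂ (2 ^ i * g) (2 ^ (i + 1) * g) ?_ ?_ ?_ ?_ α β h0) ?_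
      · exact Nat.mul_pos (by positivity) hg0
      · rw [pow_succ]; apply le_of_eq; ring
      · refine le_trans hΛg ?_
        have : g ≤ 2 ^ (i + 1) * g := Nat.le_mul_of_pos_left _ (by positivity)
        exact_mod_cast this
      · have h3 := hle (i + 1) hiI
        have h4 : 2 * Λ ^ 2 ≤ Λ ^ 3 := by nlinarith [sq_nonneg Λ]
        linarith
      · apply mul_le_mul_of_nonneg_right _ hZ0
        refine le_trans ?_ (le_max_right _ _)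
        linarith
  · -- the two ends
    intro α β h0
    have hdec : T x α β = ∑ d ∈ Ioc p g, sec (p3 x) α β d + ∑ i ∈ range I, Blk x i α β
        + ∑ d ∈ Ioc (2 ^ I * g) Q, sec (p3 x) α β d := by
      unfold T Blk
      rw [← hΛdef, ← hg, ← hp, ← hQ]
      exact dya_dec (fun d => sec (p3 x) α β d) p g Q I (by omega) hIQ
    have hA0 : 0 ≤ ∑ d ∈ Ioc p g, sec (p3 x) α β d := sum_nonneg (fun d _ => sec_nonneg x α β d)
    have hB0 : 0 ≤ ∑ d ∈ Ioc (2 ^ I * g) Q, sec (p3 x) α β d :=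
      sum_nonneg (fun d _ => sec_nonneg x α β d)
    have h4 : 2 * Λ ^ 2 ≤ Λ ^ 3 := by nlinarith [sq_nonneg Λ]
    have hA1 : ∑ d ∈ Ioc p g, sec (p3 x) α β d ≤ C₂ * (x / Λ ^ 3) := by
      refine hCRB x hxX₂ p g hp1 (by omega) hΛg ?_ α β h0
      nlinarith
    have hB1 : ∑ d ∈ Ioc (2 ^ I * g) Q, sec (p3 x) α β d ≤ C₂ * (x / Λ ^ 3) := by
      refine hCRB x hxX₂ (2 ^ I * g) Q (Nat.mul_pos (by positivity) hg0) ?_ ?_ ?_ α β h0
      · rw [pow_succ] at hQI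
        have : 2 ^ I * 2 * g = 2 * (2 ^ I * g) := by ring
        omega
      · refine le_trans hΛg ?_
        exact_mod_cast hgQ
      · linarith
    have hmax : 2 * C₂ * (x / Λ ^ 3) ≤ max C₁ (2 * C₂) * (x / Λ ^ 3) :=
      mul_le_mul_of_nonneg_right (le_max_right _ _) hZ0
    rw [hdec]
    constructor
    · linarith
    · linarith

end Pool.Agent.H96.EQ
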