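import Pool.Agent.H96.EQ.CLO
import Pool.Agent.H96.EQ.AVE
import Pool.Agent.H96.EQ.MO4

/-!
# LEF: linear functionals at a regular scale

Notation: `Λ = log x`, `Z = x/Λ^3`, `D = 2^r s`, `B = 4^r s`, `w = v - u`, `J = (u, v]`, `W_J = win u v n`,
`G n = ∑_{b ∈ Ioc 0 s} F' (n - b)`. `C₁` = the constant of `TRP`, `C₂` = the constant of `TRD`, `K` = the constant of `MO4`.

Parameters: choose `a : ℕ` with `2 C₁ · 2 · 2^(-a) ≤ ε/8` and `8 C₁ 2^(-a) ≤ ε/8`; `r₀ ≥ 3 a + 1` such that also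
`192 K^2 4^(a - r₀) ≤ ρ₀^2/2` where `ρ₀ > 0` satisfies `2 C₂ ρ₀ ≤ ε/8`; for `r ≥ r₀`: `δ > 0` with `16 · 4^r δ ≤ ρ₀^2/2`.
`w₀ = 2^(r-a) s` (a natural number, `w₀ = 2^(-a) D ≥ s`).

0. *Truncation.* `F' n = F n` if `n ≤ N - s`, else `0`; it satisfies both hypotheses of `AVE`. For `n ∈ (N - s, N]`
   (at most `s` values) `|F n| ≤ win 0 D n ≤ D` and `win u v n ≤ D` (`win_le`), so replacing `F` by `F'` changes
   `∑ F W_J` and `(w/D) ∑ F W_{(0,D]}` by at most `s D^2` each, and `2 s D^2 ≤ (ε/8) D^2 Z` for large `x`, because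
   `s ≤ Λ^3` and `Λ^6 · 16 ≤ ε x` (`HUP_growth` or `isLittleO_pow_log_id_atTop`).
1. `AVE` and `TRP` (the windows `(0,s]`, `(0,D+s]`, `(u,u+s]`, `(v,v+s]` have length `≥ s ≥ Λ` and right ends
   `≤ D + s ≤ B ≤ Λ^3` as `r ≥ 1`; `D + s ≤ 2 D`): `|s ∑ F' W_J - ∑ G W_J| ≤ 2 C₁ s (2D) s Z`, the same for
   `(0, D]`. Divided by `s`: `≤ 4 C₁ s D Z = 4 C₁ 2^(-r) D^2 Z ≤ (ε/8) D^2 Z`.
2. `|∑ G W_J - (w/D) ∑ G W_{(0,D]}| ≤ (ε/4) s D^2 Z`: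
   * `w ≥ w₀`: `W_J = (w/Λ) Y_J`, `W_{(0,D]} = (D/Λ) Y_{(0,D]}`, so the difference is `(w/Λ) |∑ G (Y_J - Y_{(0,D]})|`. By
     `AVE_bd` `|G| ≤ W_{(0,s]} W_{(0,D+s]}`. By `CLO` (`m = 4^r`, `C = 2 K^2`, `u + s ≤ v`) for `J` and for `(0,D]`:
     `∑ (Y_J - Y_{(0,D]})^2 ≤ 2 ∑ (Y_J - V)^2 + 2 ∑ (Y_{(0,D]} - V)^2 ≤ 4 (4 · 4^r δ + 48 K^2 (s/w₀)^2) x ≤ ρ₀^2 x`, as
     `s/w₀ = 2^(a-r)`. `TRD` gives `∑ |G| |Y_J - Y_{(0,D]}| ≤ C₂ ρ₀ s (2 D) x/Λ^2`; times `w/Λ ≤ D/Λ`: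
     `≤ 2 C₂ ρ₀ s D^2 Z ≤ (ε/8) s D^2 Z`.
   * `w < w₀`: `W_J ≤ win u (u + w₀) n` (`u + w₀ ≤ 2 D ≤ B`), so by `TRP` both terms are small:
     `∑ |G| W_J ≤ C₁ s (2D) w₀ Z` and `(w/D) ∑ |G| W_{(0,D]} ≤ (w₀/D) C₁ s (2D) D Z`; the sum is
     `4 C₁ s D w₀ Z = 4 C₁ 2^(-a) s D^2 Z ≤ (ε/8) s D^2 Z`.
3. Total: `ε/8 + 2 · ε/8 + ε/4 ≤ ε` (in step 1 the term for `(0,D]` is multiplied by `w/D ≤ 1`).
-/

set_option autoImplicit false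

namespace Pool.Agent.H96.EQ

open Finset Pool.Agent.H6.MF

theorem LEF_card (N s : ℕ) :
    ((range (N + 1)).filter (fun n : ℕ => (N : ℤ) - (s : ℤ) < (n : ℤ))).card ≤ s := by
  have h1 : (range (N + 1)).filter (fun n : ℕ => (N : ℤ) - (s : ℤ) < (n : ℤ)) ⊆
      Ico (N + 1 - s) (N + 1) := by
    intro n hn
    rw [mem_filter, mem_range] at hn
    rw [mem_Ico]
    omega
  have h2 := card_le_card h1
  rw [Nat.card_Ico] at h2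
  omega

theorem LEF_trunc (N s D u v : ℕ) (F : ℤ → ℝ)
    (hF : ∀ n : ℤ, |F n| ≤ if isP n then (win 0 (D : ℤ) n : ℝ) else 0) (hv : v ≤ D) :
    |∑ n ∈ range (N + 1), F (n : ℤ) * (win (u : ℤ) (v : ℤ) (n : ℤ) : ℝ)
      - ∑ n ∈ range (N + 1), (if (n : ℤ) ≤ (N : ℤ) - (s : ℤ) then F (n : ℤ) else 0) *
          (win (u : ℤ) (v : ℤ) (n : ℤ) : ℝ)|
      ≤ (s : ℝ) * (D : ℝ) ^ 2 := by
  have hFD : ∀ n : ℤ, |F n| ≤ (D : ℝ) := fun n => by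
    refine (hF n).trans ?_
    have h1 : (win 0 (D : ℤ) n : ℝ) ≤ D := by
      have h3 := win_le 0 (D : ℤ) n
      have h2 : ((D : ℤ) - 0).toNat = D := by simp
      rw [h2] at h3
      exact_mod_cast h3
    split_ifs
    · exact h1
    · positivity
  have hW : ∀ n : ℤ, (win (u : ℤ) (v : ℤ) n : ℝ) ≤ D := fun n => by
    have h3 := win_le (u : ℤ) (v : ℤ) n
    have h2 : ((v : ℤ) - u).toNat ≤ D := by omega
    exact_mod_cast h3.trans h2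
  rw [← sum_sub_distrib]
  refine (abs_sum_le_sum_abs _ _).trans ?_
  calc ∑ n ∈ range (N + 1), |F (n : ℤ) * (win (u : ℤ) (v : ℤ) (n : ℤ) : ℝ) -
        (if (n : ℤ) ≤ (N : ℤ) - (s : ℤ) then F (n : ℤ) else 0) *
          (win (u : ℤ) (v : ℤ) (n : ℤ) : ℝ)|
      ≤ ∑ n ∈ range (N + 1), (if (N : ℤ) - (s : ℤ) < (n : ℤ) then (D : ℝ) ^ 2 else 0) := by
        refine sum_le_sum fun n _ => ?_
        by_cases hn : (n : ℤ) ≤ (N : ℤ) - (s : ℤ)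
        · rw [if_pos hn, if_neg (not_lt.2 hn), sub_self, abs_zero]
        · rw [if_neg hn, if_pos (not_le.1 hn), zero_mul, sub_zero, abs_mul, sq]
          refine mul_le_mul (hFD _) ?_ (abs_nonneg _) (by positivity)
          rw [abs_of_nonneg (by positivity)]
          exact hW _
    _ = ((range (N + 1)).filter (fun n : ℕ => (N : ℤ) - (s : ℤ) < (n : ℤ))).card *
          (D : ℝ) ^ 2 := by
        rw [← sum_filter, sum_const, nsmul_eq_mul]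
    _ ≤ (s : ℝ) * (D : ℝ) ^ 2 := by
        have h3 : (((range (N + 1)).filter
            (fun n : ℕ => (N : ℤ) - (s : ℤ) < (n : ℤ))).card : ℝ) ≤ s := by
          exact_mod_cast LEF_card N s
        exact mul_le_mul_of_nonneg_right h3 (by positivity)

/-- the conclusion of `TRP` at `x` -/
def LEF_P (C1 x : ℝ) : Prop := ∀ u0 v0 u1 v1 u2 v2 : ℕ,
    (v0 : ℝ) ≤ (Real.log x) ^ 3 → (v1 : ℝ) ≤ (Real.log x) ^ 3 → (v2 : ℝ) ≤ (Real.log x) ^ 3 →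
    (u0 : ℝ) + Real.log x ≤ v0 → (u1 : ℝ) + Real.log x ≤ v1 → (u2 : ℝ) + Real.log x ≤ v2 →
    ∑ n ∈ range (⌊x⌋₊ + 1), (win (u0 : ℤ) (v0 : ℤ) (n : ℤ) : ℝ) *
        (win (u1 : ℤ) (v1 : ℤ) (n : ℤ) : ℝ) * (win (u2 : ℤ) (v2 : ℤ) (n : ℤ) : ℝ)
      ≤ C1 * (((v0 : ℝ) - u0) * ((v1 : ℝ) - u1) * ((v2 : ℝ) - u2)) * (x / (Real.log x) ^ 3)

theorem LEF_avg (C1 x : ℝ) (hC1 : 0 < C1) (hx : 1 ≤ x) (hΛ : 1 ≤ Real.log x)
    (hTRP : LEF_P C1 x)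
    (s D u v : ℕ) (hs : Real.log x ≤ s) (hsD : s ≤ D) (hD : ((2 * D : ℕ) : ℝ) ≤ Real.log x ^ 3)
    (F : ℤ → ℝ) (hF : ∀ n : ℤ, |F n| ≤ if isP n then (win 0 (D : ℤ) n : ℝ) else 0)
    (hs0 : ∀ n : ℤ, (⌊x⌋₊ : ℤ) - (s : ℤ) < n → F n = 0) (huv : u ≤ v) (hv : v ≤ D) :
    |(s : ℝ) * ∑ n ∈ range (⌊x⌋₊ + 1), F (n : ℤ) * (win (u : ℤ) (v : ℤ) (n : ℤ) : ℝ)
        - ∑ n ∈ range (⌊x⌋₊ + 1), (∑ b ∈ Ioc (0 : ℤ) (s : ℤ), F ((n : ℤ) - b)) *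
            (win (u : ℤ) (v : ℤ) (n : ℤ) : ℝ)|
      ≤ 4 * C1 * (s : ℝ) ^ 2 * D * (x / Real.log x ^ 3) := by
  have hΛ0 : 0 < Real.log x := by linarith
  have hx0 : 0 < x := by linarith
  have hZ : 0 ≤ x / Real.log x ^ 3 := by positivity
  refine (AVE x s D u v F hF hs0 huv).trans ?_
  have hle : ∀ k : ℕ, k ≤ 2 * D → (k : ℝ) ≤ Real.log x ^ 3 := fun k hk => by
    have : (k : ℝ) ≤ ((2 * D : ℕ) : ℝ) := by exact_mod_cast hk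
    exact this.trans hD
  have hw : ∀ k : ℕ, (k : ℝ) + Real.log x ≤ ((k + s : ℕ) : ℝ) := fun k => by
    push_cast
    linarith
  have h1 := hTRP 0 s 0 (D + s) u (u + s) (hle _ (by omega)) (hle _ (by omega)) (hle _ (by omega))
    (by simpa using hs) (by push_cast; have : (0 : ℝ) ≤ D := by positivity
                            linarith) (hw u)
  have h2 := hTRP 0 s 0 (D + s) v (v + s) (hle _ (by omega)) (hle _ (by omega)) (hle _ (by omega))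
    (by simpa using hs) (by push_cast; have : (0 : ℝ) ≤ D := by positivity
                            linarith) (hw v)
  rw [Nat.cast_zero, Nat.cast_zero] at h1 h2
  have e1 : (((u + s : ℕ) : ℝ) - u) = s := by push_cast; ring
  have e2 : (((v + s : ℕ) : ℝ) - v) = s := by push_cast; ring
  rw [e1, sub_zero, sub_zero] at h1
  rw [e2, sub_zero, sub_zero] at h2
  have h3 : ((D + s : ℕ) : ℝ) ≤ 2 * D := by
    have : ((D + s : ℕ) : ℝ) ≤ ((2 * D : ℕ) : ℝ) := by exact_mod_cast (by omega : D + s ≤ 2 * D)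
    simpa using this
  calc _ = ∑ n ∈ range (⌊x⌋₊ + 1), (win 0 (s : ℤ) (n : ℤ) : ℝ) *
              (win 0 ((D + s : ℕ) : ℤ) (n : ℤ) : ℝ) * (win (u : ℤ) ((u + s : ℕ) : ℤ) (n : ℤ) : ℝ) +
            ∑ n ∈ range (⌊x⌋₊ + 1), (win 0 (s : ℤ) (n : ℤ) : ℝ) *
              (win 0 ((D + s : ℕ) : ℤ) (n : ℤ) : ℝ) *
                (win (v : ℤ) ((v + s : ℕ) : ℤ) (n : ℤ) : ℝ) := by
        rw [← sum_add_distrib]
        exact sum_congr rfl fun n _ => by ring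
    _ ≤ _ := add_le_add h1 h2
    _ = (2 * C1 * (s : ℝ) ^ 2 * (x / Real.log x ^ 3)) * ((D + s : ℕ) : ℝ) := by ring
    _ ≤ (2 * C1 * (s : ℝ) ^ 2 * (x / Real.log x ^ 3)) * (2 * D) :=
        mul_le_mul_of_nonneg_left h3 (by positivity)
    _ = _ := by ring

theorem LEF_small (C1 x : ℝ) (hC1 : 0 < C1) (hx : 1 ≤ x) (hΛ : 1 ≤ Real.log x)
    (hTRP : LEF_P C1 x)
    (s D w0 u v : ℕ) (hs : Real.log x ≤ s) (hsw : s ≤ w0) (hwD : w0 ≤ D)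
    (hD : ((2 * D : ℕ) : ℝ) ≤ Real.log x ^ 3)
    (F : ℤ → ℝ) (hF : ∀ n : ℤ, |F n| ≤ if isP n then (win 0 (D : ℤ) n : ℝ) else 0)
    (huv : u ≤ v) (hv : v ≤ D) (hw : v ≤ u + w0) :
    |∑ n ∈ range (⌊x⌋₊ + 1), (∑ b ∈ Ioc (0 : ℤ) (s : ℤ), F ((n : ℤ) - b)) *
            (win (u : ℤ) (v : ℤ) (n : ℤ) : ℝ) -
      ((v : ℝ) - u) / (D : ℝ) * ∑ n ∈ range (⌊x⌋₊ + 1),
          (∑ b ∈ Ioc (0 : ℤ) (s : ℤ), F ((n : ℤ) - b)) * (win 0 (D : ℤ) (n : ℤ) : ℝ)|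
      ≤ 4 * C1 * s * D * w0 * (x / Real.log x ^ 3) := by
  have hΛ0 : 0 < Real.log x := by linarith
  have hx0 : 0 < x := by linarith
  have hZ : 0 ≤ x / Real.log x ^ 3 := by positivity
  have hs1 : (1 : ℝ) ≤ s := hΛ.trans hs
  have hs1' : 1 ≤ s := by exact_mod_cast hs1
  have hD1 : (0 : ℝ) < D := by exact_mod_cast (by omega : 0 < D)
  have hle : ∀ k : ℕ, k ≤ 2 * D → (k : ℝ) ≤ Real.log x ^ 3 := fun k hk => by
    have : (k : ℝ) ≤ ((2 * D : ℕ) : ℝ) := by exact_mod_cast hk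
    exact this.trans hD
  have hsw' : (s : ℝ) ≤ w0 := by exact_mod_cast hsw
  have hwD' : (w0 : ℝ) ≤ D := by exact_mod_cast hwD
  have h1 := hTRP 0 s 0 (D + s) u (u + w0) (hle _ (by omega)) (hle _ (by omega))
    (hle _ (by omega)) (by simpa using hs) (by push_cast; linarith) (by push_cast; linarith)
  have h2 := hTRP 0 s 0 (D + s) 0 D (hle _ (by omega)) (hle _ (by omega)) (hle _ (by omega))
    (by simpa using hs) (by push_cast; linarith) (by push_cast; linarith)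
  rw [Nat.cast_zero, Nat.cast_zero] at h1 h2
  have e1 : (((u + w0 : ℕ) : ℝ) - u) = w0 := by push_cast; ring
  rw [e1, sub_zero, sub_zero] at h1
  rw [sub_zero, sub_zero, sub_zero] at h2
  have h3 : ((D + s : ℕ) : ℝ) ≤ 2 * D := by
    have : ((D + s : ℕ) : ℝ) ≤ ((2 * D : ℕ) : ℝ) := by exact_mod_cast (by omega : D + s ≤ 2 * D)
    simpa using this
  have hA : |∑ n ∈ range (⌊x⌋₊ + 1), (∑ b ∈ Ioc (0 : ℤ) (s : ℤ), F ((n : ℤ) - b)) *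
            (win (u : ℤ) (v : ℤ) (n : ℤ) : ℝ)| ≤
      C1 * ((s : ℝ) * ((D + s : ℕ) : ℝ) * w0) * (x / Real.log x ^ 3) := by
    refine (abs_sum_le_sum_abs _ _).trans (le_trans (sum_le_sum fun n _ => ?_) h1)
    rw [abs_mul]
    refine mul_le_mul (AVE_bd s D F hF n) ?_ (abs_nonneg _) (by positivity)
    rw [abs_of_nonneg (by positivity)]
    have h4 : win (u : ℤ) (v : ℤ) (n : ℤ) ≤ win (u : ℤ) ((u + w0 : ℕ) : ℤ) (n : ℤ) :=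
      win_mono le_rfl (by exact_mod_cast hw)
    exact_mod_cast h4
  have hB : |∑ n ∈ range (⌊x⌋₊ + 1), (∑ b ∈ Ioc (0 : ℤ) (s : ℤ), F ((n : ℤ) - b)) *
            (win 0 (D : ℤ) (n : ℤ) : ℝ)| ≤
      C1 * ((s : ℝ) * ((D + s : ℕ) : ℝ) * D) * (x / Real.log x ^ 3) := by
    refine (abs_sum_le_sum_abs _ _).trans (le_trans (sum_le_sum fun n _ => ?_) h2)
    rw [abs_mul]
    refine mul_le_mul (AVE_bd s D F hF n) ?_ (abs_nonneg _) (by positivity)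
    rw [abs_of_nonneg (by positivity)]
  have hc0 : 0 ≤ ((v : ℝ) - u) / (D : ℝ) := by
    have : (u : ℝ) ≤ v := by exact_mod_cast huv
    exact div_nonneg (by linarith) hD1.le
  have hc1 : ((v : ℝ) - u) / (D : ℝ) ≤ w0 / D := by
    have : (v : ℝ) ≤ u + w0 := by exact_mod_cast hw
    exact div_le_div_of_nonneg_right (by linarith) hD1.le
  refine (abs_sub _ _).trans ?_
  rw [abs_mul, abs_of_nonneg hc0]
  have h5 : ((v : ℝ) - u) / (D : ℝ) * |∑ n ∈ range (⌊x⌋₊ + 1),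
      (∑ b ∈ Ioc (0 : ℤ) (s : ℤ), F ((n : ℤ) - b)) * (win 0 (D : ℤ) (n : ℤ) : ℝ)| ≤
      w0 / D * (C1 * ((s : ℝ) * ((D + s : ℕ) : ℝ) * D) * (x / Real.log x ^ 3)) :=
    mul_le_mul hc1 hB (abs_nonneg _) (by positivity)
  calc _ ≤ C1 * ((s : ℝ) * ((D + s : ℕ) : ℝ) * w0) * (x / Real.log x ^ 3) +
        w0 / D * (C1 * ((s : ℝ) * ((D + s : ℕ) : ℝ) * D) * (x / Real.log x ^ 3)) :=
        add_le_add hA h5
    _ = (2 * C1 * s * w0 * (x / Real.log x ^ 3)) * ((D + s : ℕ) : ℝ) := by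
        field_simp
        ring
    _ ≤ (2 * C1 * s * w0 * (x / Real.log x ^ 3)) * (2 * D) :=
        mul_le_mul_of_nonneg_left h3 (by positivity)
    _ = _ := by ring

theorem LEF_big (C2 x ρ : ℝ) (hC2 : 0 < C2) (hρ : 0 ≤ ρ) (hx : 1 ≤ x) (hΛ : 1 ≤ Real.log x)
    (hTRD : ∀ (f : ℕ → ℝ) (ρ : ℝ), 0 ≤ ρ →
      ∑ n ∈ range (⌊x⌋₊ + 1), f n ^ 2 ≤ ρ ^ 2 * x → ∀ u0 v0 u1 v1 : ℕ,
      (v0 : ℝ) ≤ (Real.log x) ^ 3 → (v1 : ℝ) ≤ (Real.log x) ^ 3 →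
      (u0 : ℝ) + Real.log x ≤ v0 → (u1 : ℝ) + Real.log x ≤ v1 →
      ∑ n ∈ range (⌊x⌋₊ + 1), |f n * (win (u0 : ℤ) (v0 : ℤ) (n : ℤ) : ℝ) *
          (win (u1 : ℤ) (v1 : ℤ) (n : ℤ) : ℝ)|
        ≤ C2 * ρ * (((v0 : ℝ) - u0) * ((v1 : ℝ) - u1)) * (x / (Real.log x) ^ 2))
    (s D u v : ℕ) (hs : Real.log x ≤ s) (hsD : s ≤ D)
    (hD : ((2 * D : ℕ) : ℝ) ≤ Real.log x ^ 3)
    (F : ℤ → ℝ) (hF : ∀ n : ℤ, |F n| ≤ if isP n then (win 0 (D : ℤ) n : ℝ) else 0)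
    (huv : u < v) (hv : v ≤ D)
    (hY : ∑ n ∈ range (⌊x⌋₊ + 1),
      (Y x (u : ℤ) (v : ℤ) (n : ℤ) - Y x 0 (D : ℤ) (n : ℤ)) ^ 2 ≤ ρ ^ 2 * x) :
    |∑ n ∈ range (⌊x⌋₊ + 1), (∑ b ∈ Ioc (0 : ℤ) (s : ℤ), F ((n : ℤ) - b)) *
            (win (u : ℤ) (v : ℤ) (n : ℤ) : ℝ) -
      ((v : ℝ) - u) / (D : ℝ) * ∑ n ∈ range (⌊x⌋₊ + 1),
          (∑ b ∈ Ioc (0 : ℤ) (s : ℤ), F ((n : ℤ) - b)) * (win 0 (D : ℤ) (n : ℤ) : ℝ)|
      ≤ 2 * C2 * ρ * s * (D : ℝ) ^ 2 * (x / Real.log x ^ 3) := by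
  have hΛ0 : 0 < Real.log x := by linarith
  have hx0 : 0 < x := by linarith
  have hs1 : (1 : ℝ) ≤ s := hΛ.trans hs
  have hs1' : 1 ≤ s := by exact_mod_cast hs1
  have hD1 : (0 : ℝ) < D := by exact_mod_cast (by omega : 0 < D)
  have hw : (0 : ℝ) < (v : ℝ) - u := by
    have : (u : ℝ) < v := by exact_mod_cast huv
    linarith
  have hle : ∀ k : ℕ, k ≤ 2 * D → (k : ℝ) ≤ Real.log x ^ 3 := fun k hk => by
    have : (k : ℝ) ≤ ((2 * D : ℕ) : ℝ) := by exact_mod_cast hk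
    exact this.trans hD
  have h1 := hTRD (fun n => Y x (u : ℤ) (v : ℤ) (n : ℤ) - Y x 0 (D : ℤ) (n : ℤ)) ρ hρ hY
    0 s 0 (D + s) (hle _ (by omega)) (hle _ (by omega)) (by simpa using hs)
    (by push_cast; linarith)
  rw [Nat.cast_zero, Nat.cast_zero, sub_zero, sub_zero] at h1
  have h3 : ((D + s : ℕ) : ℝ) ≤ 2 * D := by
    have : ((D + s : ℕ) : ℝ) ≤ ((2 * D : ℕ) : ℝ) := by exact_mod_cast (by omega : D + s ≤ 2 * D)
    simpa using this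
  have hwD : (v : ℝ) - u ≤ D := by
    have h4 : (v : ℝ) ≤ D := by exact_mod_cast hv
    have h5 : (0 : ℝ) ≤ u := by positivity
    linarith
  rw [mul_sum, ← sum_sub_distrib]
  calc _ ≤ ∑ n ∈ range (⌊x⌋₊ + 1), ((v : ℝ) - u) / Real.log x *
          |(Y x (u : ℤ) (v : ℤ) (n : ℤ) - Y x 0 (D : ℤ) (n : ℤ)) *
            (win 0 (s : ℤ) (n : ℤ) : ℝ) * (win 0 ((D + s : ℕ) : ℤ) (n : ℤ) : ℝ)| := by
        refine (abs_sum_le_sum_abs _ _).trans (sum_le_sum fun n _ => ?_)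
        have e1 : (∑ b ∈ Ioc (0 : ℤ) (s : ℤ), F ((n : ℤ) - b)) *
            (win (u : ℤ) (v : ℤ) (n : ℤ) : ℝ) - ((v : ℝ) - u) / (D : ℝ) *
              ((∑ b ∈ Ioc (0 : ℤ) (s : ℤ), F ((n : ℤ) - b)) * (win 0 (D : ℤ) (n : ℤ) : ℝ)) =
            ((v : ℝ) - u) / Real.log x *
              ((Y x (u : ℤ) (v : ℤ) (n : ℤ) - Y x 0 (D : ℤ) (n : ℤ)) *
              ∑ b ∈ Ioc (0 : ℤ) (s : ℤ), F ((n : ℤ) - b)) := by
          unfold Y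
          push_cast
          simp only [sub_zero]
          field_simp
        rw [e1, abs_mul, abs_of_nonneg (by positivity : 0 ≤ ((v : ℝ) - u) / Real.log x)]
        refine mul_le_mul_of_nonneg_left ?_ (by positivity)
        rw [mul_assoc, abs_mul, abs_mul]
        refine mul_le_mul_of_nonneg_left ?_ (abs_nonneg _)
        refine (AVE_bd s D F hF n).trans (le_abs_self _)
    _ = ((v : ℝ) - u) / Real.log x * ∑ n ∈ range (⌊x⌋₊ + 1),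
          |(Y x (u : ℤ) (v : ℤ) (n : ℤ) - Y x 0 (D : ℤ) (n : ℤ)) *
            (win 0 (s : ℤ) (n : ℤ) : ℝ) * (win 0 ((D + s : ℕ) : ℤ) (n : ℤ) : ℝ)| := by
        rw [mul_sum]
    _ ≤ (D : ℝ) / Real.log x * (C2 * ρ * ((s : ℝ) * (2 * D)) * (x / Real.log x ^ 2)) := by
        refine mul_le_mul ?_ (h1.trans ?_) (sum_nonneg fun _ _ => abs_nonneg _) (by positivity)
        · exact div_le_div_of_nonneg_right hwD hΛ0.le
        · have h6 : C2 * ρ * ((s : ℝ) * ((D + s : ℕ) : ℝ)) ≤ C2 * ρ * ((s : ℝ) * (2 * D)) :=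
            mul_le_mul_of_nonneg_left (mul_le_mul_of_nonneg_left h3 (by positivity))
              (by positivity)
          exact mul_le_mul_of_nonneg_right h6 (by positivity)
    _ = _ := by
        field_simp

theorem LEF (ε : ℝ) (hε : 0 < ε) : ∃ r0 : ℕ, ∀ r : ℕ, r0 ≤ r → ∃ δ X : ℝ, 0 < δ ∧ ∀ x : ℝ, X ≤ x → ∀ s : ℕ,
    Real.log x ≤ s → (4 : ℝ) ^ r * s ≤ (Real.log x) ^ 3 → En x s - En x (4 ^ r * s) ≤ δ * x →
    ∀ F : ℤ → ℝ, (∀ n : ℤ, |F n| ≤ if isP n then (win 0 ((2 ^ r * s : ℕ) : ℤ) n : ℝ) else 0) →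
    ∀ u v : ℕ, u ≤ v → v ≤ 2 ^ r * s →
    |∑ n ∈ range (⌊x⌋₊ + 1), F (n : ℤ) * (win (u : ℤ) (v : ℤ) (n : ℤ) : ℝ)
        - ((v : ℝ) - u) / ((2 ^ r * s : ℕ) : ℝ)
          * ∑ n ∈ range (⌊x⌋₊ + 1), F (n : ℤ) * (win 0 ((2 ^ r * s : ℕ) : ℤ) (n : ℤ) : ℝ)|
      ≤ ε * ((2 ^ r * s : ℕ) : ℝ) ^ 2 * (x / (Real.log x) ^ 3) := by
  obtain ⟨C1, X1, hC1, hTRP⟩ := TRP
  obtain ⟨C2, X2, hC2, hTRD⟩ := TRD
  obtain ⟨K, X3, hK, hMO⟩ := MO4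
  have hK0 : 0 < K := by linarith
  obtain ⟨a, ha⟩ := exists_pow_lt_of_lt_one (by positivity : 0 < ε / (32 * C1))
    (by norm_num : (1 / 2 : ℝ) < 1)
  obtain ⟨ρ, hρd⟩ : ∃ ρ : ℝ, ρ = ε / (16 * C2) := ⟨_, rfl⟩
  have hρ : 0 < ρ := by rw [hρd]; positivity
  obtain ⟨b, hb⟩ := exists_pow_lt_of_lt_one (by positivity : 0 < ρ ^ 2 / (384 * K ^ 2))
    (by norm_num : (1 / 4 : ℝ) < 1)
  refine ⟨a + b + 1, fun r hr => ?_⟩
  obtain ⟨k, rfl⟩ : ∃ k, r = a + k := ⟨r - a, by omega⟩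
  have hkb : b + 1 ≤ k := by omega
  obtain ⟨δ, hδd⟩ : ∃ δ : ℝ, δ = ρ ^ 2 / (32 * 4 ^ (a + k)) := ⟨_, rfl⟩
  have hδ : 0 < δ := by rw [hδd]; positivity
  obtain ⟨X4, hX4⟩ := Filter.eventually_atTop.1 (HUP_growth (16 / ε) 6)
  refine ⟨δ, max (max X1 X2) (max X3 X4), hδ, ?_⟩
  intro x hxX s hs hBs hEn F hF u v huv hv
  have hx1 : X1 ≤ x := le_trans (le_trans (le_max_left _ _) (le_max_left _ _)) hxX
  have hx2 : X2 ≤ x := le_trans (le_trans (le_max_right _ _) (le_max_left _ _)) hxX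
  have hx3 : X3 ≤ x := le_trans (le_trans (le_max_left _ _) (le_max_right _ _)) hxX
  have hx4 : X4 ≤ x := le_trans (le_trans (le_max_right _ _) (le_max_right _ _)) hxX
  obtain ⟨hx, hΛ, -, -, hEnb⟩ := hMO x hx3
  have hP : LEF_P C1 x := hTRP x hx1
  have hTD := hTRD x hx2
  have hgr := hX4 x hx4
  have hΛ0 : 0 < Real.log x := by linarith
  have hx0 : 0 < x := by linarith
  have hs1 : (1 : ℝ) ≤ s := hΛ.trans hs
  have hs1' : 1 ≤ s := by exact_mod_cast hs1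
  obtain ⟨Z, hZd⟩ : ∃ Z : ℝ, Z = x / Real.log x ^ 3 := ⟨_, rfl⟩
  have hZ : 0 < Z := by rw [hZd]; positivity
  obtain ⟨w0, hw0⟩ : ∃ w0 : ℕ, w0 = 2 ^ k * s := ⟨_, rfl⟩
  obtain ⟨D, hDd⟩ : ∃ D : ℕ, D = 2 ^ (a + k) * s := ⟨_, rfl⟩
  have hDw : D = 2 ^ a * w0 := by rw [hDd, hw0, pow_add]; ring
  rw [← hDd] at hF hv ⊢
  have hsw : s ≤ w0 := by
    rw [hw0]
    exact Nat.le_mul_of_pos_left s (by positivity)
  have hwD : w0 ≤ D := by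
    rw [hDw]
    exact Nat.le_mul_of_pos_left w0 (by positivity)
  have hsD : s ≤ D := hsw.trans hwD
  have h2DB : 2 * D ≤ 4 ^ (a + k) * s := by
    rw [hDd, ← mul_assoc]
    refine Nat.mul_le_mul_right s ?_
    have h1 : (4 : ℕ) ^ (a + k) = 2 ^ (a + k) * 2 ^ (a + k) := by
      rw [← mul_pow]
      norm_num
    rw [h1]
    refine Nat.mul_le_mul_right _ ?_
    calc 2 = 2 ^ 1 := rfl
      _ ≤ 2 ^ (a + k) := Nat.pow_le_pow_right (by norm_num) (by omega)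
  have hD2 : ((2 * D : ℕ) : ℝ) ≤ Real.log x ^ 3 := by
    have h1 : ((2 * D : ℕ) : ℝ) ≤ ((4 ^ (a + k) * s : ℕ) : ℝ) := by exact_mod_cast h2DB
    push_cast at h1 ⊢
    linarith
  have hsΛ : (s : ℝ) ≤ Real.log x ^ 3 := by
    have h1 : (s : ℝ) ≤ ((2 * D : ℕ) : ℝ) := by exact_mod_cast (by omega : s ≤ 2 * D)
    exact h1.trans hD2
  have hDpos : (0 : ℝ) < D := by exact_mod_cast (by omega : 0 < D)
  have hDR : (D : ℝ) = 2 ^ a * w0 := by rw [hDw]; push_cast; ring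
  have hDR2 : (D : ℝ) = 2 ^ (a + k) * s := by rw [hDd]; push_cast; ring
  have haC : 4 * C1 ≤ ε / 8 * 2 ^ a := by
    have h1 : (1 / 2 : ℝ) ^ a * 2 ^ a = 1 := by
      rw [← mul_pow]
      norm_num
    have h2 : (1 : ℝ) ≤ ε / (32 * C1) * 2 ^ a := by
      rw [← h1]
      exact mul_le_mul_of_nonneg_right ha.le (by positivity)
    calc 4 * C1 = 4 * C1 * 1 := by ring
      _ ≤ 4 * C1 * (ε / (32 * C1) * 2 ^ a) := mul_le_mul_of_nonneg_left h2 (by positivity)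
      _ = ε / 8 * 2 ^ a := by field_simp; ring
  -- truncated functional
  obtain ⟨F', hF'd⟩ : ∃ F' : ℤ → ℝ, F' = fun n : ℤ =>
    if n ≤ (⌊x⌋₊ : ℤ) - (s : ℤ) then F n else 0 := ⟨_, rfl⟩
  have hF'0 : ∀ n : ℤ, (⌊x⌋₊ : ℤ) - (s : ℤ) < n → F' n = 0 := fun n hn => by
    rw [hF'd]
    exact if_neg (not_le.2 hn)
  have hF'b : ∀ n : ℤ, |F' n| ≤ if isP n then (win 0 (D : ℤ) n : ℝ) else 0 := fun n => by
    rw [hF'd]
    dsimp only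
    by_cases h1 : n ≤ (⌊x⌋₊ : ℤ) - (s : ℤ)
    · rw [if_pos h1]
      exact hF n
    · rw [if_neg h1, abs_zero]
      split_ifs
      · positivity
      · exact le_rfl
  have hTJ := LEF_trunc ⌊x⌋₊ s D u v F hF hv
  have hT0 := LEF_trunc ⌊x⌋₊ s D 0 D F hF le_rfl
  have hAJ := LEF_avg C1 x hC1 hx hΛ hP s D u v hs hsD hD2 F' hF'b hF'0 huv hv
  have hA0 := LEF_avg C1 x hC1 hx hΛ hP s D 0 D hs hsD hD2 F' hF'b hF'0 (Nat.zero_le _) le_rfl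
  rw [Nat.cast_zero] at hT0 hA0
  -- the main step
  have hmain : |∑ n ∈ range (⌊x⌋₊ + 1), (∑ b ∈ Ioc (0 : ℤ) (s : ℤ), F' ((n : ℤ) - b)) *
            (win (u : ℤ) (v : ℤ) (n : ℤ) : ℝ) -
      ((v : ℝ) - u) / (D : ℝ) * ∑ n ∈ range (⌊x⌋₊ + 1),
          (∑ b ∈ Ioc (0 : ℤ) (s : ℤ), F' ((n : ℤ) - b)) * (win 0 (D : ℤ) (n : ℤ) : ℝ)|
      ≤ ε / 8 * s * (D : ℝ) ^ 2 * Z := by
    rcases Nat.lt_or_ge v (u + w0) with hcase | hcase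
    · refine (LEF_small C1 x hC1 hx hΛ hP s D w0 u v hs hsw hwD hD2 F' hF'b huv hv
        hcase.le).trans ?_
      rw [← hZd]
      calc 4 * C1 * s * D * w0 * Z = (4 * C1) * (s * D * w0 * Z) := by ring
        _ ≤ (ε / 8 * 2 ^ a) * (s * D * w0 * Z) :=
            mul_le_mul_of_nonneg_right haC (by positivity)
        _ = ε / 8 * s * D * (2 ^ a * w0) * Z := by ring
        _ = ε / 8 * s * (D : ℝ) ^ 2 * Z := by rw [← hDR]; ring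
    · have huv' : u < v := by omega
      have hsq : ∀ u' v' : ℕ, u' + w0 ≤ v' → v' ≤ D →
          ∑ n ∈ range (⌊x⌋₊ + 1), (Y x (u' : ℤ) (v' : ℤ) (n : ℤ) -
            Y x 0 ((4 ^ (a + k) * s : ℕ) : ℤ) (n : ℤ)) ^ 2 ≤ ρ ^ 2 / 4 * x := by
        intro u' v' h1 h2
        have h3 := CLO x (2 * K ^ 2) δ s (4 ^ (a + k)) u' v' hx0.le hs1' (Nat.one_le_pow _ _ (by norm_num))
          (by positivity) (hEnb s hs hsΛ) hEn (by omega) (by omega)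
        refine h3.trans ?_
        refine mul_le_mul_of_nonneg_right ?_ hx0.le
        have h4 : (s : ℝ) / ((v' : ℝ) - u') ≤ (1 / 2) ^ k := by
          have h5 : (w0 : ℝ) ≤ (v' : ℝ) - u' := by
            have : ((u' + w0 : ℕ) : ℝ) ≤ v' := by exact_mod_cast h1
            push_cast at this
            linarith
          have h6 : (w0 : ℝ) = 2 ^ k * s := by rw [hw0]; push_cast; ring
          have h7 : (0 : ℝ) < 2 ^ k * s := by positivity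
          rw [h6] at h5
          rw [div_le_iff₀ (by linarith)]
          have h8 : (1 / 2 : ℝ) ^ k * (2 ^ k * s) = s := by
            rw [← mul_assoc, ← mul_pow]
            norm_num
          calc (s : ℝ) = (1 / 2 : ℝ) ^ k * (2 ^ k * s) := h8.symm
            _ ≤ (1 / 2 : ℝ) ^ k * ((v' : ℝ) - u') :=
              mul_le_mul_of_nonneg_left h5 (by positivity)
        have h4' : 0 ≤ (s : ℝ) / ((v' : ℝ) - u') := by
          have : ((u' + w0 : ℕ) : ℝ) ≤ v' := by exact_mod_cast h1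
          push_cast at this
          have h9 : (0 : ℝ) ≤ w0 := by positivity
          exact div_nonneg (by positivity) (by linarith)
        have h5 : ((s : ℝ) / ((v' : ℝ) - u')) ^ 2 ≤ (1 / 4) ^ k := by
          calc ((s : ℝ) / ((v' : ℝ) - u')) ^ 2 ≤ ((1 / 2 : ℝ) ^ k) ^ 2 :=
                pow_le_pow_left₀ h4' h4 2
            _ = (1 / 4) ^ k := by
                rw [← pow_mul, mul_comm k 2, pow_mul]
                norm_num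
        have h6 : (1 / 4 : ℝ) ^ k ≤ ρ ^ 2 / (384 * K ^ 2) :=
          (pow_le_pow_of_le_one (by norm_num) (by norm_num) (by omega : b ≤ k)).trans hb.le
        have h7 : 24 * (2 * K ^ 2) * ((s : ℝ) / ((v' : ℝ) - u')) ^ 2 ≤ ρ ^ 2 / 8 := by
          calc 24 * (2 * K ^ 2) * ((s : ℝ) / ((v' : ℝ) - u')) ^ 2
              ≤ 24 * (2 * K ^ 2) * (ρ ^ 2 / (384 * K ^ 2)) :=
                mul_le_mul_of_nonneg_left (h5.trans h6) (by positivity)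
            _ = ρ ^ 2 / 8 := by field_simp; ring
        have h8 : 4 * ((4 ^ (a + k) : ℕ) : ℝ) * δ = ρ ^ 2 / 8 := by
          rw [hδd]
          push_cast
          field_simp
          ring
        linarith
      have hJ := hsq u v hcase hv
      have h0 := hsq 0 D (by omega) le_rfl
      rw [Nat.cast_zero] at h0
      have hY : ∑ n ∈ range (⌊x⌋₊ + 1),
          (Y x (u : ℤ) (v : ℤ) (n : ℤ) - Y x 0 (D : ℤ) (n : ℤ)) ^ 2 ≤ ρ ^ 2 * x := by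
        calc _ ≤ ∑ n ∈ range (⌊x⌋₊ + 1), (2 * (Y x (u : ℤ) (v : ℤ) (n : ℤ) -
              Y x 0 ((4 ^ (a + k) * s : ℕ) : ℤ) (n : ℤ)) ^ 2 + 2 * (Y x 0 (D : ℤ) (n : ℤ) -
              Y x 0 ((4 ^ (a + k) * s : ℕ) : ℤ) (n : ℤ)) ^ 2) := by
              refine sum_le_sum fun n _ => ?_
              nlinarith [sq_nonneg (Y x (u : ℤ) (v : ℤ) (n : ℤ) -
                Y x 0 ((4 ^ (a + k) * s : ℕ) : ℤ) (n : ℤ) + (Y x 0 (D : ℤ) (n : ℤ) -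
                Y x 0 ((4 ^ (a + k) * s : ℕ) : ℤ) (n : ℤ)))]
          _ = 2 * ∑ n ∈ range (⌊x⌋₊ + 1), (Y x (u : ℤ) (v : ℤ) (n : ℤ) -
              Y x 0 ((4 ^ (a + k) * s : ℕ) : ℤ) (n : ℤ)) ^ 2 +
              2 * ∑ n ∈ range (⌊x⌋₊ + 1), (Y x 0 (D : ℤ) (n : ℤ) -
              Y x 0 ((4 ^ (a + k) * s : ℕ) : ℤ) (n : ℤ)) ^ 2 := by
              rw [sum_add_distrib, mul_sum, mul_sum]
          _ ≤ 2 * (ρ ^ 2 / 4 * x) + 2 * (ρ ^ 2 / 4 * x) := by linarith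
          _ = ρ ^ 2 * x := by ring
      refine (LEF_big C2 x ρ hC2 hρ.le hx hΛ hTD s D u v hs hsD hD2 F' hF'b huv' hv hY).trans ?_
      rw [← hZd]
      have h2ρ : 2 * C2 * ρ = ε / 8 := by
        rw [hρd]
        field_simp
        ring
      rw [h2ρ]
  rw [← hZd] at hAJ hA0 ⊢
  -- assembly
  obtain ⟨c, hcd⟩ : ∃ c : ℝ, c = ((v : ℝ) - u) / (D : ℝ) := ⟨_, rfl⟩
  have hc0 : 0 ≤ c := by
    rw [hcd]
    have : (u : ℝ) ≤ v := by exact_mod_cast huv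
    exact div_nonneg (by linarith) hDpos.le
  have hc1 : c ≤ 1 := by
    rw [hcd, div_le_one hDpos]
    have h4 : (v : ℝ) ≤ D := by exact_mod_cast hv
    have h5 : (0 : ℝ) ≤ u := by positivity
    linarith
  rw [← hcd] at hmain ⊢
  have hF'' : ∀ n : ℕ, (if (n : ℤ) ≤ (⌊x⌋₊ : ℤ) - (s : ℤ) then F (n : ℤ) else 0) = F' (n : ℤ) :=
    fun n => by rw [hF'd]
  simp only [hF''] at hTJ hT0
  generalize ∑ n ∈ range (⌊x⌋₊ + 1), F (n : ℤ) * (win (u : ℤ) (v : ℤ) (n : ℤ) : ℝ) = TJ at hTJ ⊢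
  generalize ∑ n ∈ range (⌊x⌋₊ + 1), F (n : ℤ) * (win 0 (D : ℤ) (n : ℤ) : ℝ) = T0 at hT0 ⊢
  generalize ∑ n ∈ range (⌊x⌋₊ + 1), F' (n : ℤ) * (win (u : ℤ) (v : ℤ) (n : ℤ) : ℝ) = TJ'
    at hTJ hAJ
  generalize ∑ n ∈ range (⌊x⌋₊ + 1), F' (n : ℤ) * (win 0 (D : ℤ) (n : ℤ) : ℝ) = T0' at hT0 hA0
  generalize ∑ n ∈ range (⌊x⌋₊ + 1), (∑ b ∈ Ioc (0 : ℤ) (s : ℤ), F' ((n : ℤ) - b)) *
            (win (u : ℤ) (v : ℤ) (n : ℤ) : ℝ) = GJ at hAJ hmain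
  generalize ∑ n ∈ range (⌊x⌋₊ + 1), (∑ b ∈ Ioc (0 : ℤ) (s : ℤ), F' ((n : ℤ) - b)) *
            (win 0 (D : ℤ) (n : ℤ) : ℝ) = G0 at hA0 hmain
  have hsp : (0 : ℝ) < s := by linarith
  have hA : 4 * C1 * (s : ℝ) ^ 2 * D * Z ≤ s * (ε / 8 * (D : ℝ) ^ 2 * Z) := by
    have h1 : 4 * C1 * s ≤ ε / 8 * D := by
      have h2 : (s : ℝ) ≤ w0 := by exact_mod_cast hsw
      calc 4 * C1 * s ≤ ε / 8 * 2 ^ a * w0 :=
            mul_le_mul haC h2 (by positivity) (by positivity)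
        _ = ε / 8 * D := by rw [hDR]; ring
    calc 4 * C1 * (s : ℝ) ^ 2 * D * Z = (4 * C1 * s) * (s * D * Z) := by ring
      _ ≤ (ε / 8 * D) * (s * D * Z) := mul_le_mul_of_nonneg_right h1 (by positivity)
      _ = _ := by ring
  have hJ1 : |TJ' - GJ / s| ≤ ε / 8 * (D : ℝ) ^ 2 * Z := by
    have h1 : TJ' - GJ / s = (s * TJ' - GJ) / s := by field_simp
    rw [h1, abs_div, abs_of_pos hsp, div_le_iff₀ hsp]
    calc |s * TJ' - GJ| ≤ _ := hAJ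
      _ ≤ s * (ε / 8 * (D : ℝ) ^ 2 * Z) := hA
      _ = _ := by ring
  have hJ0 : |T0' - G0 / s| ≤ ε / 8 * (D : ℝ) ^ 2 * Z := by
    have h1 : T0' - G0 / s = (s * T0' - G0) / s := by field_simp
    rw [h1, abs_div, abs_of_pos hsp, div_le_iff₀ hsp]
    calc |s * T0' - G0| ≤ _ := hA0
      _ ≤ s * (ε / 8 * (D : ℝ) ^ 2 * Z) := hA
      _ = _ := by ring
  have hM : |GJ / s - c * (G0 / s)| ≤ ε / 8 * (D : ℝ) ^ 2 * Z := by
    have h1 : GJ / s - c * (G0 / s) = (GJ - c * G0) / s := by field_simp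
    rw [h1, abs_div, abs_of_pos hsp, div_le_iff₀ hsp]
    calc |GJ - c * G0| ≤ _ := hmain
      _ = _ := by ring
  have hTr : (s : ℝ) * (D : ℝ) ^ 2 ≤ ε / 16 * (D : ℝ) ^ 2 * Z := by
    have h1 : (s : ℝ) ≤ ε / 16 * Z := by
      rw [hZd]
      have h2 : 16 / ε * Real.log x ^ 6 ≤ x := hgr
      have h3 : Real.log x ^ 3 ≤ ε / 16 * (x / Real.log x ^ 3) := by
        rw [← mul_div_assoc, le_div_iff₀ (by positivity)]
        calc Real.log x ^ 3 * Real.log x ^ 3 = ε / 16 * (16 / ε * Real.log x ^ 6) := by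
              field_simp
          _ ≤ ε / 16 * x := mul_le_mul_of_nonneg_left h2 (by positivity)
      exact hsΛ.trans h3
    calc (s : ℝ) * (D : ℝ) ^ 2 ≤ (ε / 16 * Z) * (D : ℝ) ^ 2 :=
          mul_le_mul_of_nonneg_right h1 (by positivity)
      _ = _ := by ring
  have hB : 0 ≤ (D : ℝ) ^ 2 * Z := by positivity
  have e : TJ - c * T0 = (TJ - TJ') - c * (T0 - T0') + (TJ' - GJ / s) - c * (T0' - G0 / s) +
      (GJ / s - c * (G0 / s)) := by ring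
  have hc2 : |c * (T0 - T0')| ≤ ε / 16 * (D : ℝ) ^ 2 * Z := by
    rw [abs_mul, abs_of_nonneg hc0]
    calc c * |T0 - T0'| ≤ 1 * |T0 - T0'| := mul_le_mul_of_nonneg_right hc1 (abs_nonneg _)
      _ ≤ _ := by rw [one_mul]; exact hT0.trans hTr
  have hc3 : |c * (T0' - G0 / s)| ≤ ε / 8 * (D : ℝ) ^ 2 * Z := by
    rw [abs_mul, abs_of_nonneg hc0]
    calc c * |T0' - G0 / s| ≤ 1 * |T0' - G0 / s| := mul_le_mul_of_nonneg_right hc1 (abs_nonneg _)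
      _ ≤ _ := by rw [one_mul]; exact hJ0
  have hTJ' := hTJ.trans hTr
  rw [e]
  rw [abs_le] at hTJ' hc2 hc3 hJ1 hM ⊢
  have hB' : 0 ≤ ε * (D : ℝ) ^ 2 * Z := by positivity
  constructor <;> linarith [hTJ'.1, hTJ'.2, hc2.1, hc2.2, hc3.1, hc3.2, hJ1.1, hJ1.2, hM.1, hM.2]

end Pool.Agent.H96.EQ
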