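import Pool.Agent.H96.EQ.Def3
import Pool.Agent.H96.EQ.CLO
import Pool.Agent.H96.EQ.AVE
import Pool.Agent.H96.EQ.MO4
import Pool.Agent.H96.EQ.LEF

/-!
# KTW: at a regular scale the number of prime triples is given by the third moment

Notation: `Λ = log x`, `Z = x/Λ^3`, `D = 2^r s`, `B = 4^r s`, `V = Y_{(0,B]}`, `Y₀ = Y_{(0,s]}`, `Y_D = Y_{(0,D]}`, `S = S3 x 0 D 0 D`;
`K` from `MO4`, `C₁` from `TRP`, `C` from `TRY`; `r ≥ 2`. (Compare the row `KLO`, whose proof can be copied for part 2.)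
0. *Mean squares.* `∑ (Y₀ - V)^2 ≤ 4^r δ x` (the term `j = 0` of `VAR` with `m = 4^r`). For each of the windows `J = (0,D]`, `(s,D]`,
   `(0,D+s]` (all in `(0,B]`, of length `≥ D/2`, so `s/w ≤ 2 · 2^(-r)`) `CLO` (with its `C = 2 K^2`) gives
   `∑ (Y_J - V)^2 ≤ (4 · 4^r δ + 192 K^2 4^(-r)) x =: ρ^2 x`. All these `Y_J`, `Y₀`, `V` have fourth moments `≤ K^4 x` and `TRY` applies to
   products of a difference and two of them.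
   For `A, B', C'` among them: `A B' C' - V^3 = (A - V) B' C' + (B' - V) V C' + (C' - V) V V`, so `∑ |A B' C' - V^3| ≤ 3 C ρ x`; in
   particular `|∑ Y_D^3 - ∑ V^3| ≤ 3 C ρ x`, i.e. `|x kap x D - ∑ V^3| ≤ 3 C ρ x`.
1. *Upper bound.* Let `F n = if isP n ∧ n ≤ ⌊x⌋₊ - s then win 0 D n else 0`. `AVE` with `(u,v] = (0,D]`, `AVE_bd` and `TRP`:
   `s ∑ F W_{(0,D]} ≤ ∑ W_{(0,s]} W_{(0,D+s]} W_{(0,D]} + 2 C₁ s (2D) s Z`. The first sum is `(s (D+s) D/Λ^3) ∑ Y₀ Y_{(0,D+s]} Y_D ≤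
   (s (D+s) D/Λ^3) (x kap x D + 6 C ρ x)`. The `n > ⌊x⌋₊ - s` contribute at most `s D^2 ≤ 2^(-r) D^2 Z` to `S` (`s ≤ Λ^3`, `2^r Λ^6 ≤ x` for large `x`).
   So `S ≤ (1 + 2^(-r)) (kap x D + 6 C ρ) D^2 Z + (4 C₁ + 1) 2^(-r) D^2 Z`.
2. *Lower bound.* `TRL`: `s S ≥ ∑ W_{(0,s]} W_{(s,D]}^2 = (s (D-s)^2/Λ^3) ∑ Y₀ Y_{(s,D]}^2 ≥ (s (D-s)^2/Λ^3) (x kap x D - 6 C ρ x)`, and
   `(D - s)^2 ≥ (1 - 2 · 2^(-r)) D^2`. So `S ≥ (1 - 2 · 2^(-r)) kap x D · D^2 Z - 6 C ρ D^2 Z`.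
3. `0 ≤ kap x D ≤ 2 + K^4` (`Y^3 ≤ 1 + Y^4`). Choose `r₀` and then `δ` such that
   `(2 + K^4) 2 · 2^(-r₀) + 12 C ρ + (4 C₁ + 1) 2^(-r₀) ≤ ε` for all `r ≥ r₀` (`ρ^2 ≤ 4 · 4^r δ + 192 K^2 4^(-r)`).
-/

set_option autoImplicit false

namespace Pool.Agent.H96.EQ

open Finset Pool.Agent.H6.MF

private lemma KTW_tri (S : Finset ℕ) (A B' C' V : ℕ → ℝ) (E : ℝ)
    (h1 : ∑ n ∈ S, |(A n - V n) * B' n * C' n| ≤ E)
    (h2 : ∑ n ∈ S, |(B' n - V n) * V n * C' n| ≤ E)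
    (h3 : ∑ n ∈ S, |(C' n - V n) * V n * V n| ≤ E) :
    |∑ n ∈ S, A n * B' n * C' n - ∑ n ∈ S, V n ^ 3| ≤ 3 * E := by
  rw [← Finset.sum_sub_distrib]
  have e : ∀ n ∈ S, |A n * B' n * C' n - V n ^ 3| ≤ |(A n - V n) * B' n * C' n| + |(B' n - V n) * V n * C' n|
      + |(C' n - V n) * V n * V n| := by
    intro n _
    have e1 : A n * B' n * C' n - V n ^ 3
        = (A n - V n) * B' n * C' n + (B' n - V n) * V n * C' n + (C' n - V n) * V n * V n := by ring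
    rw [e1]
    exact (abs_add_le _ _).trans (add_le_add (abs_add_le _ _) le_rfl)
  refine (Finset.abs_sum_le_sum_abs _ _).trans ((Finset.sum_le_sum e).trans ?_)
  rw [Finset.sum_add_distrib, Finset.sum_add_distrib]
  linarith

/-- the windows which are close to the long window -/
private def KTW_W (x ρ : ℝ) (B u v : ℕ) : Prop :=
  (v : ℝ) ≤ (Real.log x) ^ 3 ∧ (u : ℝ) + Real.log x ≤ v ∧
    ∑ n ∈ range (⌊x⌋₊ + 1), (Y x (u : ℤ) (v : ℤ) (n : ℤ) - Y x ((0 : ℕ) : ℤ) (B : ℤ) (n : ℤ)) ^ 2 ≤ ρ ^ 2 * x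

private lemma KTW_close (x C ρ : ℝ) (B : ℕ)
    (hTRY : ∀ f : ℕ → ℝ, ∑ n ∈ range (⌊x⌋₊ + 1), f n ^ 2 ≤ ρ ^ 2 * x → ∀ u0 v0 u1 v1 : ℕ,
      (v0 : ℝ) ≤ (Real.log x) ^ 3 → (v1 : ℝ) ≤ (Real.log x) ^ 3 →
      (u0 : ℝ) + Real.log x ≤ v0 → (u1 : ℝ) + Real.log x ≤ v1 →
      ∑ n ∈ range (⌊x⌋₊ + 1), |f n * Y x (u0 : ℤ) (v0 : ℤ) (n : ℤ) * Y x (u1 : ℤ) (v1 : ℤ) (n : ℤ)| ≤ C * ρ * x)
    (hB : (B : ℝ) ≤ (Real.log x) ^ 3) (hB0 : Real.log x ≤ B) (u0 v0 u1 v1 u2 v2 : ℕ)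
    (h0 : KTW_W x ρ B u0 v0) (h1 : KTW_W x ρ B u1 v1) (h2 : KTW_W x ρ B u2 v2) :
    |∑ n ∈ range (⌊x⌋₊ + 1), Y x (u0 : ℤ) (v0 : ℤ) (n : ℤ) * Y x (u1 : ℤ) (v1 : ℤ) (n : ℤ)
        * Y x (u2 : ℤ) (v2 : ℤ) (n : ℤ) - ∑ n ∈ range (⌊x⌋₊ + 1), Y x ((0 : ℕ) : ℤ) (B : ℤ) (n : ℤ) ^ 3|
      ≤ 3 * (C * ρ * x) := by
  have hB0' : ((0 : ℕ) : ℝ) + Real.log x ≤ B := by rw [Nat.cast_zero, zero_add]; exact hB0
  exact KTW_tri (range (⌊x⌋₊ + 1)) (fun n => Y x (u0 : ℤ) (v0 : ℤ) (n : ℤ))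
    (fun n => Y x (u1 : ℤ) (v1 : ℤ) (n : ℤ)) (fun n => Y x (u2 : ℤ) (v2 : ℤ) (n : ℤ))
    (fun n => Y x ((0 : ℕ) : ℤ) (B : ℤ) (n : ℤ)) (C * ρ * x)
    (hTRY _ h0.2.2 u1 v1 u2 v2 h1.1 h2.1 h1.2.1 h2.2.1)
    (hTRY _ h1.2.2 0 B u2 v2 hB h2.1 hB0' h2.2.1)
    (hTRY _ h2.2.2 0 B 0 B hB hB hB0' hB0')

private lemma KTW_close2 (x C ρ : ℝ) (B : ℕ)
    (hTRY : ∀ f : ℕ → ℝ, ∑ n ∈ range (⌊x⌋₊ + 1), f n ^ 2 ≤ ρ ^ 2 * x → ∀ u0 v0 u1 v1 : ℕ,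
      (v0 : ℝ) ≤ (Real.log x) ^ 3 → (v1 : ℝ) ≤ (Real.log x) ^ 3 →
      (u0 : ℝ) + Real.log x ≤ v0 → (u1 : ℝ) + Real.log x ≤ v1 →
      ∑ n ∈ range (⌊x⌋₊ + 1), |f n * Y x (u0 : ℤ) (v0 : ℤ) (n : ℤ) * Y x (u1 : ℤ) (v1 : ℤ) (n : ℤ)| ≤ C * ρ * x)
    (hB : (B : ℝ) ≤ (Real.log x) ^ 3) (hB0 : Real.log x ≤ B) (D : ℕ) (hD : KTW_W x ρ B 0 D) (u0 v0 u1 v1 u2 v2 : ℕ)
    (h0 : KTW_W x ρ B u0 v0) (h1 : KTW_W x ρ B u1 v1) (h2 : KTW_W x ρ B u2 v2) :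
    |∑ n ∈ range (⌊x⌋₊ + 1), Y x (u0 : ℤ) (v0 : ℤ) (n : ℤ) * Y x (u1 : ℤ) (v1 : ℤ) (n : ℤ)
        * Y x (u2 : ℤ) (v2 : ℤ) (n : ℤ) - ∑ n ∈ range (⌊x⌋₊ + 1), Y x 0 (D : ℤ) (n : ℤ) ^ 3|
      ≤ 6 * (C * ρ * x) := by
  have e1 := KTW_close x C ρ B hTRY hB hB0 u0 v0 u1 v1 u2 v2 h0 h1 h2
  have e2 := KTW_close x C ρ B hTRY hB hB0 0 D 0 D 0 D hD hD hD
  have e3 : ∑ n ∈ range (⌊x⌋₊ + 1), Y x ((0 : ℕ) : ℤ) (D : ℤ) (n : ℤ) * Y x ((0 : ℕ) : ℤ) (D : ℤ) (n : ℤ)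
        * Y x ((0 : ℕ) : ℤ) (D : ℤ) (n : ℤ) = ∑ n ∈ range (⌊x⌋₊ + 1), Y x 0 (D : ℤ) (n : ℤ) ^ 3 := by
    refine Finset.sum_congr rfl fun n _ => ?_
    rw [Nat.cast_zero]
    ring
  rw [e3] at e2
  rw [abs_le] at e1 e2 ⊢
  constructor <;> linarith [e1.1, e1.2, e2.1, e2.2]

private lemma KTW_win (x : ℝ) (hL : 0 < Real.log x) (u v : ℕ) (huv : (u : ℝ) < v) (n : ℤ) :
    (win (u : ℤ) (v : ℤ) n : ℝ) = Y x (u : ℤ) (v : ℤ) n * (((v : ℝ) - u) / Real.log x) := by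
  unfold Y
  have h1 : (((v : ℤ) : ℝ) - ((u : ℤ) : ℝ)) ≠ 0 := by
    push_cast
    linarith
  have h2 : ((v : ℝ) - u) ≠ 0 := by linarith
  push_cast
  field_simp

private lemma KTW_prod (x : ℝ) (hL : 0 < Real.log x) (u0 v0 u1 v1 u2 v2 : ℕ) (h0 : (u0 : ℝ) < v0)
    (h1 : (u1 : ℝ) < v1) (h2 : (u2 : ℝ) < v2) :
    ∑ n ∈ range (⌊x⌋₊ + 1), (win (u0 : ℤ) (v0 : ℤ) (n : ℤ) : ℝ) * (win (u1 : ℤ) (v1 : ℤ) (n : ℤ) : ℝ)
        * (win (u2 : ℤ) (v2 : ℤ) (n : ℤ) : ℝ)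
      = (((v0 : ℝ) - u0) * ((v1 : ℝ) - u1) * ((v2 : ℝ) - u2) / (Real.log x) ^ 3)
        * ∑ n ∈ range (⌊x⌋₊ + 1), Y x (u0 : ℤ) (v0 : ℤ) (n : ℤ) * Y x (u1 : ℤ) (v1 : ℤ) (n : ℤ)
          * Y x (u2 : ℤ) (v2 : ℤ) (n : ℤ) := by
  rw [Finset.mul_sum]
  refine Finset.sum_congr rfl fun n _ => ?_
  rw [KTW_win x hL u0 v0 h0, KTW_win x hL u1 v1 h1, KTW_win x hL u2 v2 h2]
  field_simp

/-- the final arithmetic -/
private lemma KTW_arith (ε C C1 ρ e κ K4 D s x Λ S T : ℝ) (hΛ : 0 < Λ) (hx : 0 < x) (hs : 0 < s) (hD : 0 < D)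
    (hsD : s = e * D) (he0 : 0 < e) (he1 : e ≤ 1) (hC : 0 < C) (hC1 : 0 < C1) (hρ : 0 < ρ)
    (hκ0 : 0 ≤ κ) (hκ : κ ≤ K4) (hε1 : 12 * C * ρ ≤ ε / 2) (hε2 : e * (2 * K4 + 4 * C1 + 1) ≤ ε / 2)
    (hbig : s ≤ e * (x / Λ ^ 3))
    (hST : S ≤ T + s * D ^ 2)
    (hT : s * T ≤ (s * (D + s) * D / Λ ^ 3) * (κ * x + 6 * (C * ρ * x)) + 4 * C1 * s * D * s * (x / Λ ^ 3))
    (hlow : (s * (D - s) * (D - s) / Λ ^ 3) * (κ * x - 6 * (C * ρ * x)) ≤ s * S) :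
    |S - κ * D ^ 2 * (x / Λ ^ 3)| ≤ ε * D ^ 2 * (x / Λ ^ 3) := by
  obtain ⟨Z, hZ⟩ : ∃ Z : ℝ, Z = x / Λ ^ 3 := ⟨_, rfl⟩
  have hZ0 : 0 < Z := by rw [hZ]; positivity
  rw [← hZ] at hbig hT ⊢
  have hCρ : 0 < C * ρ := by positivity
  have hG : 0 < D ^ 2 * Z := by positivity
  -- upper bound
  have e1 : (s * (D + s) * D / Λ ^ 3) * (κ * x + 6 * (C * ρ * x)) = s * ((D + s) * D * Z * (κ + 6 * (C * ρ))) := by
    rw [hZ]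
    field_simp
  have e2 : 4 * C1 * s * D * s * Z = s * (4 * C1 * s * D * Z) := by ring
  rw [e1, e2, ← mul_add] at hT
  have hT' := le_of_mul_le_mul_left hT hs
  have e3 : (s * (D - s) * (D - s) / Λ ^ 3) * (κ * x - 6 * (C * ρ * x))
      = s * ((D - s) * (D - s) * Z * (κ - 6 * (C * ρ))) := by
    rw [hZ]
    field_simp
  rw [e3] at hlow
  have hlow' := le_of_mul_le_mul_left hlow hs
  have hu : S ≤ D ^ 2 * Z * ((1 + e) * (κ + 6 * (C * ρ)) + 4 * C1 * e + e) := by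
    have h1 : (D + s) * D * Z * (κ + 6 * (C * ρ)) = D ^ 2 * Z * ((1 + e) * (κ + 6 * (C * ρ))) := by
      rw [hsD]
      ring
    have h2 : 4 * C1 * s * D * Z = D ^ 2 * Z * (4 * C1 * e) := by
      rw [hsD]
      ring
    have h3 : s * D ^ 2 ≤ D ^ 2 * Z * e := by
      have := mul_le_mul_of_nonneg_right hbig (sq_nonneg D)
      calc s * D ^ 2 ≤ e * Z * D ^ 2 := this
        _ = D ^ 2 * Z * e := by ring
    rw [h1, h2] at hT'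
    have h4 : D ^ 2 * Z * ((1 + e) * (κ + 6 * (C * ρ)) + 4 * C1 * e + e)
        = D ^ 2 * Z * ((1 + e) * (κ + 6 * (C * ρ))) + D ^ 2 * Z * (4 * C1 * e) + D ^ 2 * Z * e := by ring
    rw [h4]
    linarith
  have hl : D ^ 2 * Z * ((1 - e) ^ 2 * (κ - 6 * (C * ρ))) ≤ S := by
    have h1 : (D - s) * (D - s) * Z * (κ - 6 * (C * ρ)) = D ^ 2 * Z * ((1 - e) ^ 2 * (κ - 6 * (C * ρ))) := by
      rw [hsD]
      ring
    rw [h1] at hlow'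
    exact hlow'
  have heκ : 0 ≤ e * κ := by positivity
  have heκ' : e * κ ≤ e * K4 := mul_le_mul_of_nonneg_left hκ he0.le
  have heρ : e * (C * ρ) ≤ C * ρ := by nlinarith
  have heρ0 : 0 ≤ e * (C * ρ) := by positivity
  have b1 : (1 + e) * (κ + 6 * (C * ρ)) + 4 * C1 * e + e ≤ κ + ε := by
    have h1 : (1 + e) * (κ + 6 * (C * ρ)) + 4 * C1 * e + e
        = κ + e * κ + 6 * (C * ρ) + 6 * (e * (C * ρ)) + (4 * C1 * e + e) := by ring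
    have h2 : e * (2 * K4 + 4 * C1 + 1) = 2 * (e * K4) + (4 * C1 * e + e) := by ring
    rw [h2] at hε2
    have h3 : 12 * C * ρ = 12 * (C * ρ) := by ring
    rw [h3] at hε1
    rw [h1]
    linarith
  have b2 : κ - ε ≤ (1 - e) ^ 2 * (κ - 6 * (C * ρ)) := by
    have h1 : (1 - e) ^ 2 * (κ - 6 * (C * ρ)) = κ - 2 * (e * κ) + e * (e * κ) - 6 * (C * ρ)
        + (2 * e - e ^ 2) * (6 * (C * ρ)) := by ring
    have h2 : e * (2 * K4 + 4 * C1 + 1) = 2 * (e * K4) + (4 * C1 * e + e) := by ring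
    rw [h2] at hε2
    have h3 : 12 * C * ρ = 12 * (C * ρ) := by ring
    rw [h3] at hε1
    have h4 : 0 ≤ e * (e * κ) := by positivity
    have h5 : 0 ≤ (2 * e - e ^ 2) * (6 * (C * ρ)) := by
      have : 0 ≤ 2 * e - e ^ 2 := by nlinarith
      positivity
    have h6 : 0 ≤ 4 * C1 * e + e := by positivity
    rw [h1]
    linarith
  have c1 := mul_le_mul_of_nonneg_left b1 hG.le
  have c2 := mul_le_mul_of_nonneg_left b2 hG.le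
  rw [abs_le]
  constructor
  · have : D ^ 2 * Z * (κ - ε) = κ * D ^ 2 * Z - ε * D ^ 2 * Z := by ring
    linarith
  · have : D ^ 2 * Z * (κ + ε) = κ * D ^ 2 * Z + ε * D ^ 2 * Z := by ring
    linarith

theorem KTW (ε : ℝ) (hε : 0 < ε) : ∃ r0 : ℕ, ∀ r : ℕ, r0 ≤ r → ∃ δ X : ℝ, 0 < δ ∧ ∀ x : ℝ, X ≤ x → ∀ s : ℕ,
    Real.log x ≤ s → (4 : ℝ) ^ r * s ≤ (Real.log x) ^ 3 → En x s - En x (4 ^ r * s) ≤ δ * x →
    |S3 x 0 ((2 ^ r * s : ℕ) : ℤ) 0 ((2 ^ r * s : ℕ) : ℤ)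
        - kap x (2 ^ r * s) * ((2 ^ r * s : ℕ) : ℝ) ^ 2 * (x / (Real.log x) ^ 3)|
      ≤ ε * ((2 ^ r * s : ℕ) : ℝ) ^ 2 * (x / (Real.log x) ^ 3) := by
  obtain ⟨C1, X1, hC1, hTRP⟩ := TRP
  obtain ⟨C, X2, hC, hTRY⟩ := TRY
  obtain ⟨K, X3, hK, hMO⟩ := MO4
  have hK0 : 0 < K := by linarith
  obtain ⟨ρ, hρd⟩ : ∃ ρ : ℝ, ρ = ε / (24 * C) := ⟨_, rfl⟩
  have hρ : 0 < ρ := by rw [hρd]; positivity
  obtain ⟨K4, hK4⟩ : ∃ K4 : ℝ, K4 = 2 + K ^ 4 := ⟨_, rfl⟩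
  have hK40 : 0 < K4 := by rw [hK4]; positivity
  obtain ⟨a, ha⟩ := exists_pow_lt_of_lt_one (by positivity : 0 < ε / 2 / (2 * K4 + 4 * C1 + 1))
    (by norm_num : (1 / 2 : ℝ) < 1)
  obtain ⟨b, hb⟩ := exists_pow_lt_of_lt_one (by positivity : 0 < ρ ^ 2 / (384 * K ^ 2))
    (by norm_num : (1 / 4 : ℝ) < 1)
  refine ⟨max (max a b) 2, fun r hr => ?_⟩
  have hra : a ≤ r := (le_max_left _ _).trans ((le_max_left _ _).trans hr)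
  have hrb : b ≤ r := (le_max_right _ _).trans ((le_max_left _ _).trans hr)
  have hr2 : 2 ≤ r := (le_max_right _ _).trans hr
  obtain ⟨δ, hδd⟩ : ∃ δ : ℝ, δ = ρ ^ 2 / (8 * 4 ^ r) := ⟨_, rfl⟩
  have hδ : 0 < δ := by rw [hδd]; positivity
  obtain ⟨X4, hX4⟩ := Filter.eventually_atTop.1 (HUP_growth (2 ^ r) 6)
  refine ⟨δ, max (max X1 X2) (max X3 X4), hδ, ?_⟩
  intro x hxX s hs hBs hEn
  have hx1 : X1 ≤ x := le_trans (le_trans (le_max_left _ _) (le_max_left _ _)) hxX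
  have hx2 : X2 ≤ x := le_trans (le_trans (le_max_right _ _) (le_max_left _ _)) hxX
  have hx3 : X3 ≤ x := le_trans (le_trans (le_max_left _ _) (le_max_right _ _)) hxX
  have hx4 : X4 ≤ x := le_trans (le_trans (le_max_right _ _) (le_max_right _ _)) hxX
  obtain ⟨hx, hΛ, hfl, hY4, hEnb⟩ := hMO x hx3
  have hTR := hTRP x hx1
  have hTY : ∀ f : ℕ → ℝ, ∑ n ∈ range (⌊x⌋₊ + 1), f n ^ 2 ≤ ρ ^ 2 * x → ∀ u0 v0 u1 v1 : ℕ,
      (v0 : ℝ) ≤ (Real.log x) ^ 3 → (v1 : ℝ) ≤ (Real.log x) ^ 3 →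
      (u0 : ℝ) + Real.log x ≤ v0 → (u1 : ℝ) + Real.log x ≤ v1 →
      ∑ n ∈ range (⌊x⌋₊ + 1), |f n * Y x (u0 : ℤ) (v0 : ℤ) (n : ℤ) * Y x (u1 : ℤ) (v1 : ℤ) (n : ℤ)| ≤ C * ρ * x :=
    fun f hf => hTRY x hx2 f ρ hρ.le hf
  have hgr := hX4 x hx4
  have hΛ0 : 0 < Real.log x := by linarith
  have hx0 : 0 < x := by linarith
  have hs1 : (1 : ℝ) ≤ s := hΛ.trans hs
  have hs1' : 1 ≤ s := by exact_mod_cast hs1
  have hs0 : (0 : ℝ) < s := by linarith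
  obtain ⟨D, hDd⟩ : ∃ D : ℕ, D = 2 ^ r * s := ⟨_, rfl⟩
  obtain ⟨B, hBd⟩ : ∃ B : ℕ, B = 4 ^ r * s := ⟨_, rfl⟩
  rw [← hDd]
  have h2r : (2 : ℕ) ≤ 2 ^ r := by
    calc 2 = 2 ^ 1 := rfl
      _ ≤ 2 ^ r := Nat.pow_le_pow_right (by norm_num) (by omega)
  have h2sD : 2 * s ≤ D := by
    rw [hDd]
    exact Nat.mul_le_mul_right s h2r
  have h2DB : 2 * D ≤ B := by
    rw [hDd, hBd, ← mul_assoc]
    refine Nat.mul_le_mul_right s ?_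
    have h1 : (4 : ℕ) ^ r = 2 ^ r * 2 ^ r := by
      rw [← mul_pow]
      norm_num
    rw [h1]
    exact Nat.mul_le_mul_right _ h2r
  have hBΛ : (B : ℝ) ≤ Real.log x ^ 3 := by
    rw [hBd]
    push_cast
    exact hBs
  have hle : ∀ v : ℕ, v ≤ B → (v : ℝ) ≤ Real.log x ^ 3 := fun v hv => by
    have : (v : ℝ) ≤ (B : ℝ) := by exact_mod_cast hv
    exact this.trans hBΛ
  have hDpos : (0 : ℝ) < D := by exact_mod_cast (by omega : 0 < D)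
  have hDR : (D : ℝ) = 2 ^ r * s := by rw [hDd]; push_cast; ring
  have hΛB : Real.log x ≤ B := by
    have : (s : ℝ) ≤ (B : ℝ) := by exact_mod_cast (by omega : s ≤ B)
    exact hs.trans this
  have h4b : 192 * K ^ 2 * (1 / 4 : ℝ) ^ r ≤ ρ ^ 2 / 2 := by
    have h1 : (1 / 4 : ℝ) ^ r ≤ (1 / 4 : ℝ) ^ b := pow_le_pow_of_le_one (by norm_num) (by norm_num) hrb
    have h2 : (1 / 4 : ℝ) ^ r ≤ ρ ^ 2 / (384 * K ^ 2) := h1.trans hb.le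
    calc 192 * K ^ 2 * (1 / 4 : ℝ) ^ r ≤ 192 * K ^ 2 * (ρ ^ 2 / (384 * K ^ 2)) :=
          mul_le_mul_of_nonneg_left h2 (by positivity)
      _ = ρ ^ 2 / 2 := by field_simp; ring
  have h4δ : (4 : ℝ) ^ r * δ = ρ ^ 2 / 8 := by
    rw [hδd]
    field_simp
  -- the windows
  have hWin : ∀ u v : ℕ, u + s ≤ v → v ≤ B → D ≤ 2 * (v - u) → KTW_W x ρ B u v := by
    intro u v h1 h2 h3
    refine ⟨hle v h2, ?_, ?_⟩
    · have : (u : ℝ) + s ≤ v := by exact_mod_cast h1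
      linarith
    · have h4 := CLO x (2 * K ^ 2) δ s (4 ^ r) u v hx0.le hs1' (Nat.one_le_pow _ _ (by norm_num))
          (by positivity) (hEnb s hs (hle s (by omega))) hEn h1 (by rw [← hBd]; exact h2)
      rw [← hBd] at h4
      rw [Nat.cast_zero]
      refine h4.trans ?_
      refine mul_le_mul_of_nonneg_right ?_ hx0.le
      have h5 : (D : ℝ) ≤ 2 * ((v : ℝ) - u) := by
        have h6 : ((v - u : ℕ) : ℝ) = (v : ℝ) - u := by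
          rw [Nat.cast_sub (by omega)]
        rw [← h6]
        exact_mod_cast h3
      have h6 : 0 < (v : ℝ) - u := by linarith
      have h7 : (s : ℝ) / ((v : ℝ) - u) ≤ 2 * (1 / 2 : ℝ) ^ r := by
        rw [div_le_iff₀ h6]
        have h8 : (1 / 2 : ℝ) ^ r * 2 ^ r = 1 := by
          rw [← mul_pow]
          norm_num
        calc (s : ℝ) = (1 / 2 : ℝ) ^ r * 2 ^ r * s := by rw [h8, one_mul]
          _ = (1 / 2 : ℝ) ^ r * D := by rw [hDR]; ring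
          _ ≤ (1 / 2 : ℝ) ^ r * (2 * ((v : ℝ) - u)) := mul_le_mul_of_nonneg_left h5 (by positivity)
          _ = 2 * (1 / 2 : ℝ) ^ r * ((v : ℝ) - u) := by ring
      have h8 : ((s : ℝ) / ((v : ℝ) - u)) ^ 2 ≤ 4 * (1 / 4 : ℝ) ^ r := by
        have h9 := pow_le_pow_left₀ (by positivity) h7 2
        refine h9.trans (le_of_eq ?_)
        rw [mul_pow, ← pow_mul, mul_comm r 2, pow_mul]
        norm_num
      have h10 : 24 * (2 * K ^ 2) * ((s : ℝ) / ((v : ℝ) - u)) ^ 2 ≤ 24 * (2 * K ^ 2) * (4 * (1 / 4 : ℝ) ^ r) :=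
        mul_le_mul_of_nonneg_left h8 (by positivity)
      have h11 : 4 * (((4 ^ r : ℕ) : ℝ)) * δ = 4 * (4 ^ r * δ) := by
        push_cast
        ring
      rw [h11, h4δ]
      have h12 : 24 * (2 * K ^ 2) * (4 * (1 / 4 : ℝ) ^ r) = 192 * K ^ 2 * (1 / 4 : ℝ) ^ r := by ring
      linarith
  have hW0 : KTW_W x ρ B 0 s := by
    refine ⟨hle s (by omega), by rw [Nat.cast_zero, zero_add]; exact hs, ?_⟩
    have h1 := VAR x s (4 ^ r) hs1' (Nat.one_le_pow _ _ (by norm_num))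
    rw [← hBd] at h1
    have h2 : ∑ n ∈ range (⌊x⌋₊ + 1), (Y x ((0 : ℕ) : ℤ) (s : ℤ) (n : ℤ) - Y x ((0 : ℕ) : ℤ) (B : ℤ) (n : ℤ)) ^ 2
        ≤ ∑ j ∈ range (4 ^ r), ∑ n ∈ range (⌊x⌋₊ + 1),
        (Y x ((j * s : ℕ) : ℤ) (((j + 1) * s : ℕ) : ℤ) (n : ℤ) - Y x 0 (B : ℤ) (n : ℤ)) ^ 2 := by
      have h3 := Finset.single_le_sum (f := fun j => ∑ n ∈ range (⌊x⌋₊ + 1),
        (Y x ((j * s : ℕ) : ℤ) (((j + 1) * s : ℕ) : ℤ) (n : ℤ) - Y x 0 (B : ℤ) (n : ℤ)) ^ 2)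
        (fun j _ => Finset.sum_nonneg fun n _ => sq_nonneg _)
        (Finset.mem_range.2 (by positivity : 0 < 4 ^ r))
      refine le_trans (le_of_eq ?_) h3
      simp
    refine h2.trans (h1.trans ?_)
    have h4 : ((4 ^ r : ℕ) : ℝ) * (En x s - En x B) ≤ ((4 ^ r : ℕ) : ℝ) * (δ * x) := by
      refine mul_le_mul_of_nonneg_left ?_ (Nat.cast_nonneg _)
      rw [hBd]
      exact hEn
    refine h4.trans ?_
    have h5 : ((4 ^ r : ℕ) : ℝ) * (δ * x) = (4 ^ r * δ) * x := by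
      push_cast
      ring
    rw [h5, h4δ]
    have h6 : 0 < ρ ^ 2 * x := by positivity
    linarith
  have hWD : KTW_W x ρ B 0 D := hWin 0 D (by omega) (by omega) (by omega)
  have hWsD : KTW_W x ρ B s D := hWin s D (by omega) (by omega) (by omega)
  have hWDs : KTW_W x ρ B 0 (D + s) := hWin 0 (D + s) (by omega) (by omega) (by omega)
  have hkap : kap x D * x = ∑ n ∈ range (⌊x⌋₊ + 1), Y x 0 (D : ℤ) (n : ℤ) ^ 3 := by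
    unfold kap
    field_simp
  have hYnn : ∀ n : ℤ, 0 ≤ Y x 0 (D : ℤ) n := fun n => by
    unfold Y
    rw [Int.cast_natCast, Int.cast_zero, sub_zero]
    positivity
  have hk0 : 0 ≤ kap x D := by
    unfold kap
    exact div_nonneg (Finset.sum_nonneg fun n _ => pow_nonneg (hYnn _) 3) hx0.le
  have hk1 : kap x D ≤ K4 := by
    have h1 : kap x D * x ≤ K4 * x := by
      rw [hkap]
      have h2 : ∀ n ∈ range (⌊x⌋₊ + 1), Y x 0 (D : ℤ) (n : ℤ) ^ 3 ≤ 1 + Y x 0 (D : ℤ) (n : ℤ) ^ 4 := by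
        intro n _
        have h3 := hYnn (n : ℤ)
        rcases le_total (Y x 0 (D : ℤ) (n : ℤ)) 1 with h | h
        · have h4 : Y x 0 (D : ℤ) (n : ℤ) ^ 3 ≤ 1 := pow_le_one₀ h3 h
          have h5 : 0 ≤ Y x 0 (D : ℤ) (n : ℤ) ^ 4 := by positivity
          linarith
        · have h4 : Y x 0 (D : ℤ) (n : ℤ) ^ 3 ≤ Y x 0 (D : ℤ) (n : ℤ) ^ 4 := pow_le_pow_right₀ h (by norm_num)
          linarith
      refine (Finset.sum_le_sum h2).trans ?_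
      rw [Finset.sum_add_distrib, Finset.sum_const, Finset.card_range, nsmul_eq_mul, mul_one]
      have h6 := (hY4 0 D (hle D (by omega)) hWD.2.1).2
      rw [Nat.cast_zero] at h6
      have h7 : ((⌊x⌋₊ + 1 : ℕ) : ℝ) ≤ 2 * x := by
        push_cast
        exact hfl
      rw [hK4]
      linarith
    exact le_of_mul_le_mul_right h1 hx0
  -- the truncated functional
  obtain ⟨F, hF⟩ : ∃ F : ℤ → ℝ, F = fun n => if isP n then (win 0 (D : ℤ) n : ℝ) else 0 := ⟨_, rfl⟩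
  have hFb : ∀ n : ℤ, |F n| ≤ if isP n then (win 0 (D : ℤ) n : ℝ) else 0 := fun n => by
    rw [hF]
    dsimp only
    split_ifs
    · rw [abs_of_nonneg (Nat.cast_nonneg _)]
    · rw [abs_zero]
  obtain ⟨F', hF'⟩ : ∃ F' : ℤ → ℝ, F' = fun n : ℤ => if n ≤ (⌊x⌋₊ : ℤ) - (s : ℤ) then F n else 0 := ⟨_, rfl⟩
  have hF'0 : ∀ n : ℤ, (⌊x⌋₊ : ℤ) - (s : ℤ) < n → F' n = 0 := fun n hn => by
    rw [hF']
    exact if_neg (not_le.2 hn)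
  have hF'b : ∀ n : ℤ, |F' n| ≤ if isP n then (win 0 (D : ℤ) n : ℝ) else 0 := fun n => by
    rw [hF']
    dsimp only
    by_cases h1 : n ≤ (⌊x⌋₊ : ℤ) - (s : ℤ)
    · rw [if_pos h1]
      exact hFb n
    · rw [if_neg h1, abs_zero]
      split_ifs
      · positivity
      · exact le_rfl
  have hTr := LEF_trunc ⌊x⌋₊ s D 0 D F hFb le_rfl
  have hAv := AVE x s D 0 D F' hF'b hF'0 (Nat.zero_le _)
  have hSF : ∑ n ∈ range (⌊x⌋₊ + 1), F (n : ℤ) * (win ((0 : ℕ) : ℤ) (D : ℤ) (n : ℤ) : ℝ) = S3 x 0 (D : ℤ) 0 (D : ℤ) := by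
    unfold S3
    refine Finset.sum_congr rfl fun n _ => ?_
    rw [hF, Nat.cast_zero]
    dsimp only
    by_cases h : isP (n : ℤ)
    · rw [if_pos h, if_pos h]
    · rw [if_neg h, if_neg h, zero_mul]
  have hF'e : ∀ n : ℤ, (if n ≤ (⌊x⌋₊ : ℤ) - (s : ℤ) then F n else 0) = F' n := fun n => by rw [hF']
  simp only [hF'e] at hTr
  rw [hSF] at hTr
  obtain ⟨T, hT⟩ : ∃ T : ℝ, T = ∑ n ∈ range (⌊x⌋₊ + 1), F' (n : ℤ) * (win ((0 : ℕ) : ℤ) (D : ℤ) (n : ℤ) : ℝ) := ⟨_, rfl⟩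
  rw [← hT] at hTr hAv
  have h0s : ((0 : ℕ) : ℝ) < s := by rw [Nat.cast_zero]; exact hs0
  have h0D : ((0 : ℕ) : ℝ) < D := by rw [Nat.cast_zero]; exact hDpos
  have h0Ds : ((0 : ℕ) : ℝ) < ((D + s : ℕ) : ℝ) := by
    rw [Nat.cast_zero]
    exact_mod_cast (by omega : 0 < D + s)
  have hsDl : (s : ℝ) < D := by exact_mod_cast (by omega : s < D)
  have hDs2 : ((D + s : ℕ) : ℝ) ≤ 2 * D := by
    push_cast
    linarith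
  -- the error term of `AVE`
  have hErr : ∑ n ∈ range (⌊x⌋₊ + 1), (win 0 (s : ℤ) (n : ℤ) : ℝ) * (win 0 ((D + s : ℕ) : ℤ) (n : ℤ) : ℝ)
          * ((win ((0 : ℕ) : ℤ) ((0 + s : ℕ) : ℤ) (n : ℤ) : ℝ) + (win (D : ℤ) ((D + s : ℕ) : ℤ) (n : ℤ) : ℝ))
      ≤ 4 * C1 * s * D * s * (x / Real.log x ^ 3) := by
    have h1 := hTR 0 s 0 (D + s) 0 s (hle s (by omega)) (hle _ (by omega)) (hle s (by omega)) hW0.2.1
      hWDs.2.1 hW0.2.1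
    have h2 := hTR 0 s 0 (D + s) D (D + s) (hle s (by omega)) (hle _ (by omega)) (hle _ (by omega)) hW0.2.1
      hWDs.2.1 (by push_cast; linarith)
    simp only [mul_add, Finset.sum_add_distrib, Nat.cast_zero, zero_add, sub_zero] at h1 h2 ⊢
    have h3 : (((D + s : ℕ) : ℝ) - (D : ℝ)) = s := by
      push_cast
      ring
    rw [h3] at h2
    have h4 : C1 * ((s : ℝ) * ((D + s : ℕ) : ℝ) * s) * (x / Real.log x ^ 3)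
        ≤ C1 * ((s : ℝ) * (2 * D) * s) * (x / Real.log x ^ 3) := by
      have hZ : 0 ≤ x / Real.log x ^ 3 := by positivity
      gcongr
    have h5 : 4 * C1 * s * D * s * (x / Real.log x ^ 3) = C1 * ((s : ℝ) * (2 * D) * s) * (x / Real.log x ^ 3)
        + C1 * ((s : ℝ) * (2 * D) * s) * (x / Real.log x ^ 3) := by ring
    rw [h5]
    exact add_le_add (h1.trans h4) (h2.trans h4)
  -- the main term of `AVE`
  have hMain : ∑ n ∈ range (⌊x⌋₊ + 1), (∑ b ∈ Ioc (0 : ℤ) (s : ℤ), F' ((n : ℤ) - b)) *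
            (win ((0 : ℕ) : ℤ) (D : ℤ) (n : ℤ) : ℝ)
      ≤ ((s : ℝ) * ((D : ℝ) + s) * D / Real.log x ^ 3) * (kap x D * x + 6 * (C * ρ * x)) := by
    have h1 : ∀ n ∈ range (⌊x⌋₊ + 1), (∑ b ∈ Ioc (0 : ℤ) (s : ℤ), F' ((n : ℤ) - b)) *
            (win ((0 : ℕ) : ℤ) (D : ℤ) (n : ℤ) : ℝ) ≤ (win ((0 : ℕ) : ℤ) (s : ℤ) (n : ℤ) : ℝ)
              * (win ((0 : ℕ) : ℤ) ((D + s : ℕ) : ℤ) (n : ℤ) : ℝ) * (win ((0 : ℕ) : ℤ) (D : ℤ) (n : ℤ) : ℝ) := by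
      intro n _
      refine mul_le_mul_of_nonneg_right ?_ (Nat.cast_nonneg _)
      rw [Nat.cast_zero]
      exact (le_abs_self _).trans (AVE_bd s D F' hF'b (n : ℤ))
    refine (Finset.sum_le_sum h1).trans ?_
    rw [KTW_prod x hΛ0 0 s 0 (D + s) 0 D h0s h0Ds h0D]
    have h2 := KTW_close2 x C ρ B hTY hBΛ hΛB D hWD 0 s 0 (D + s) 0 D hW0 hWDs hWD
    rw [← hkap] at h2
    have h3 := (abs_le.1 h2).2
    have h4 : (((s : ℝ) - ((0 : ℕ) : ℝ)) * (((D + s : ℕ) : ℝ) - ((0 : ℕ) : ℝ)) * ((D : ℝ) - ((0 : ℕ) : ℝ)) / Real.log x ^ 3)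
        = (s : ℝ) * ((D : ℝ) + s) * D / Real.log x ^ 3 := by
      push_cast
      ring
    rw [h4]
    refine mul_le_mul_of_nonneg_left ?_ (by positivity)
    linarith
  -- the lower bound
  have hLow : ((s : ℝ) * ((D : ℝ) - s) * ((D : ℝ) - s) / Real.log x ^ 3) * (kap x D * x - 6 * (C * ρ * x))
      ≤ (s : ℝ) * S3 x 0 (D : ℤ) 0 (D : ℤ) := by
    refine le_trans ?_ (TRL x s D)
    have h1 : ∑ n ∈ range (⌊x⌋₊ + 1), (win 0 (s : ℤ) (n : ℤ) : ℝ) * (win (s : ℤ) (D : ℤ) (n : ℤ) : ℝ) ^ 2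
        = ∑ n ∈ range (⌊x⌋₊ + 1), (win ((0 : ℕ) : ℤ) (s : ℤ) (n : ℤ) : ℝ) * (win (s : ℤ) (D : ℤ) (n : ℤ) : ℝ)
          * (win (s : ℤ) (D : ℤ) (n : ℤ) : ℝ) := by
      refine Finset.sum_congr rfl fun n _ => ?_
      rw [Nat.cast_zero]
      ring
    rw [h1, KTW_prod x hΛ0 0 s s D s D h0s hsDl hsDl]
    have h2 := KTW_close2 x C ρ B hTY hBΛ hΛB D hWD 0 s s D s D hW0 hWsD hWsD
    rw [← hkap] at h2
    have h3 := (abs_le.1 h2).1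
    rw [Nat.cast_zero, sub_zero]
    refine mul_le_mul_of_nonneg_left ?_ ?_
    · linarith
    · have : 0 ≤ (D : ℝ) - s := by linarith
      positivity
  -- conclusion
  have hhalf : (1 / 2 : ℝ) ^ r * 2 ^ r = 1 := by
    rw [← mul_pow]
    norm_num
  refine KTW_arith ε C C1 ρ ((1 / 2 : ℝ) ^ r) (kap x D) K4 D s x (Real.log x) (S3 x 0 (D : ℤ) 0 (D : ℤ)) T hΛ0 hx0 hs0
    hDpos ?_ (by positivity) (pow_le_one₀ (by norm_num) (by norm_num)) hC hC1 hρ hk0 hk1 ?_ ?_ ?_ ?_ ?_ hLow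
  · rw [hDR, ← mul_assoc, hhalf, one_mul]
  · rw [hρd]
    refine le_of_eq ?_
    field_simp
    ring
  · have h1 : (1 / 2 : ℝ) ^ r ≤ (1 / 2 : ℝ) ^ a := pow_le_pow_of_le_one (by norm_num) (by norm_num) hra
    have h2 : (1 / 2 : ℝ) ^ r ≤ ε / 2 / (2 * K4 + 4 * C1 + 1) := h1.trans ha.le
    rw [le_div_iff₀ (by positivity)] at h2
    exact h2
  · have h1 : (s : ℝ) ≤ Real.log x ^ 3 := hle s (by omega)
    rw [← mul_div_assoc, le_div_iff₀ (by positivity)]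
    have h2 : (s : ℝ) * Real.log x ^ 3 ≤ Real.log x ^ 3 * Real.log x ^ 3 :=
      mul_le_mul_of_nonneg_right h1 (by positivity)
    have h3 : Real.log x ^ 3 * Real.log x ^ 3 = Real.log x ^ 6 := by ring
    rw [h3] at h2
    refine h2.trans ?_
    have h4 : (1 / 2 : ℝ) ^ r * (2 ^ r * Real.log x ^ 6) ≤ (1 / 2 : ℝ) ^ r * x :=
      mul_le_mul_of_nonneg_left hgr (by positivity)
    rw [← mul_assoc, hhalf, one_mul] at h4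
    exact h4
  · have h1 := (abs_le.1 hTr).2
    linarith
  · have h1 := (abs_le.1 hAv).2
    have h2 := hAv.trans hErr
    have h3 := (abs_le.1 h2).2
    linarith

end Pool.Agent.H96.EQ
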