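import Pool.Agent.H96.EQ.CNB
import Pool.Agent.H6.MF.SAT

/-!
# MSG: the mean of the singular series over the `k`-subsets of an interval

Induction on `k` (statement for all `k`, with `Y₀` depending on `k` and `A`).
* `k = 0`: `powersetCard 0 _ = {∅}`; `sing ∅ = 1`: all local factors are `(1 - 0/p)/(1-1/p)^0 = 1`
  (`nuH ∅ p = 0`, `tprod_one`). The right-hand side is `1`.
* `k = 1`: `powersetCard 1 S` are the singletons `{b}` (`Finset.powersetCard_one`, `sum_map`), `sing {b} = 1`
  (`{b} = tr {0} b`, `sing_tr`, `sing_zero`), so the sum is `#(Ioc u v) = v - u ≤ 2 (v - u)`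
  (`Int.card_Ioc`; `v - u ≥ Y > 0`).
* `k → k + 1`, `k ≥ 1`: `sum_powersetCard_succ_le` with `f = sing` (`sing_nonneg`): the sum is at most
  `∑_{H ∈ powersetCard k} ∑_{b ∈ Ioc u v \ H} sing (insert b H)`. If `H` is admissible, `SAV k _ A 1` (every `h ∈ H`
  lies in `(u, v]`, so `|h| ≤ Y^A`) gives `inner ≤ 2 (v - u) sing H`. If `H` is not admissible, no `insert b H` is
  (`adm_anti`), so `sing (insert b H) = 0` (`sing_ne_zero_iff`), inner `= 0 ≤ 2 (v-u) sing H`. Now use the
  induction hypothesis. (`Y ≥ max (Y₀(k)) (the constant of SAV) 1`.)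
-/

set_option autoImplicit false

namespace Pool.Agent.H96.EQ

open Finset Pool.Agent.H6.MF

theorem MSG (k A : ℕ) : ∃ Y₀ : ℝ, ∀ Y : ℝ, Y₀ ≤ Y → ∀ u v : ℤ, |(u : ℝ)| ≤ Y ^ A → |(v : ℝ)| ≤ Y ^ A →
    Y ≤ (v : ℝ) - u → ∑ H ∈ powersetCard k (Ioc u v), sing H ≤ (2 * ((v : ℝ) - u)) ^ k := by
  induction k with
  | zero =>
    refine ⟨0, fun Y _ u v _ _ _ => ?_⟩
    rw [powersetCard_zero, sum_singleton, pow_zero]
    have h : sing ∅ = 1 := by
      unfold sing
      have h1 : ∀ p : Nat.Primes, loc ∅ (p : ℕ) = 1 := by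
        intro p
        unfold loc nuH
        simp
      rw [show (fun p : Nat.Primes => loc ∅ (p : ℕ)) = fun _ => (1 : ℝ) from funext h1]
      exact tprod_one
    rw [h]
  | succ k ih =>
    rcases Nat.eq_zero_or_pos k with hk | hk
    · subst hk
      refine ⟨0, fun Y hY u v _ _ huv => ?_⟩
      rw [zero_add, powersetCard_one, sum_map, pow_one]
      have h1 : ∀ b ∈ Ioc u v, sing ((⟨singleton, singleton_injective⟩ : ℤ ↪ Finset ℤ) b) = 1 := by
        intro b _
        have h2 : ({b} : Finset ℤ) = tr {0} b := by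
          unfold tr
          rw [image_singleton, zero_add]
        show sing {b} = 1
        rw [h2, sing_tr, sing_zero]
      rw [sum_congr rfl h1, sum_const, Int.card_Ioc, nsmul_eq_mul, mul_one]
      have h3 : (0 : ℝ) ≤ (v : ℝ) - u := hY.trans huv
      have h4 : 0 ≤ v - u := by
        have : ((0 : ℤ) : ℝ) ≤ ((v - u : ℤ) : ℝ) := by push_cast; linarith
        exact_mod_cast this
      have h5 : (((v - u).toNat : ℕ) : ℝ) = (v : ℝ) - u := by
        have : (((v - u).toNat : ℕ) : ℤ) = v - u := Int.toNat_of_nonneg h4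
        have h6 : ((((v - u).toNat : ℕ) : ℤ) : ℝ) = ((v - u : ℤ) : ℝ) := by rw [this]
        push_cast at h6
        simpa using h6
      rw [h5]
      linarith
    · obtain ⟨Y₁, hY₁⟩ := ih
      obtain ⟨Y₂, hY₂⟩ := SAV k hk A 1 one_pos
      refine ⟨max (max Y₁ Y₂) 1, fun Y hY u v hu hv huv => ?_⟩
      have hYa : Y₁ ≤ Y := (le_max_left _ _).trans ((le_max_left _ _).trans hY)
      have hYb : Y₂ ≤ Y := (le_max_right _ _).trans ((le_max_left _ _).trans hY)
      have hYc : 1 ≤ Y := (le_max_right _ _).trans hY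
      have h3 : (0 : ℝ) ≤ (v : ℝ) - u := by linarith
      have hin : ∀ H ∈ powersetCard k (Ioc u v),
          ∑ b ∈ Ioc u v \ H, sing (insert b H) ≤ 2 * ((v : ℝ) - u) * sing H := by
        intro H hH
        rw [mem_powersetCard] at hH
        by_cases ha : adm H
        · have hb : ∀ h ∈ H, |(h : ℝ)| ≤ Y ^ A := by
            intro h hh
            have h4 := mem_Ioc.1 (hH.1 hh)
            have h5 : (u : ℝ) ≤ h := by exact_mod_cast h4.1.le
            have h6 : (h : ℝ) ≤ v := by exact_mod_cast h4.2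
            have h7 := abs_le.1 hu
            have h8 := abs_le.1 hv
            exact abs_le.2 ⟨by linarith [h7.1], by linarith [h8.2]⟩
          have h9 := (abs_le.1 (hY₂ Y hYb H hH.2 ha hb u v hu hv huv)).2
          linarith
        · have hz : ∀ b ∈ Ioc u v \ H, sing (insert b H) = 0 := by
            intro b _
            by_contra hne
            exact ha (adm_anti (subset_insert b H) ((sing_ne_zero_iff _).1 hne))
          rw [sum_eq_zero hz]
          exact mul_nonneg (by linarith) (sing_nonneg H)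
      calc ∑ H ∈ powersetCard (k + 1) (Ioc u v), sing H
          ≤ ∑ H ∈ powersetCard k (Ioc u v), ∑ b ∈ Ioc u v \ H, sing (insert b H) :=
            sum_powersetCard_succ_le (Ioc u v) k sing sing_nonneg
        _ ≤ ∑ H ∈ powersetCard k (Ioc u v), 2 * ((v : ℝ) - u) * sing H := sum_le_sum hin
        _ = 2 * ((v : ℝ) - u) * ∑ H ∈ powersetCard k (Ioc u v), sing H := by rw [mul_sum]
        _ ≤ 2 * ((v : ℝ) - u) * (2 * ((v : ℝ) - u)) ^ k :=
            mul_le_mul_of_nonneg_left (hY₁ Y hYa u v hu hv huv) (by linarith)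
        _ = (2 * ((v : ℝ) - u)) ^ (k + 1) := by rw [pow_succ]; ring

end Pool.Agent.H96.EQ
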