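import Pool.Agent.H96.EQ.KTW
import Pool.Agent.H96.EQ.GOO
import Pool.Agent.H96.EQ.PIG
import Pool.Agent.H96.EQ.KAP

/-!
# MX2: all but boundedly many dyadic scales are good, with the third moment as the common factor

* `GO2`: `GOO` with `ε/4` and `KTW` with `ε/4` (maximum of the two `r₀`, minimum of the two `δ`, maximum of the thresholds, `x ≥ 1`, `log x ≥ 1`). With `D = 2^r s`, `Z = x/Λ^3 > 0`:
  `Box x (ε/4) κ D` for the rectangle `u1 = u2 = 0`, `v1 = v2 = D` says `|S3 x 0 D 0 D - κ D^2 Z| ≤ (ε/4) D^2 Z` (`S3_eq`), and `KTW` says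
  `|S3 x 0 D 0 D - kap x D D^2 Z| ≤ (ε/4) D^2 Z`; so `|κ - kap x D| ≤ ε/2` (`D^2 Z > 0`), and for every rectangle
  `|κ w₁ w₂ Z - kap x D w₁ w₂ Z| ≤ (ε/2) D^2 Z`. Hence `Box x ε (kap x D) D`; `Alm x (ε/4) D` implies `Alm x ε D`.
* `MX2`: the proof of the row `MAS`, with `GO2` in place of `GOO`: given `ε`, let `r = r₀(ε)`, `δ, X₁` from `GO2`, `K` from `MO4`, and `M = ⌈r + 2 r (2 K^2)/δ⌉₊ + 1`; `x` so
  large that (besides `X₁` and the threshold of `MO4`) `4^r ≤ Λ`. Let `S` be as in the statement; if `S` is empty there is nothing to prove; otherwise `g ≤ Λ^2`, and `S ⊆ range I` with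
  `I = S.sup id + 1`. Let `a i = En x (2^i g)/x` (`x > 0`): `a ≥ 0` (`En_nonneg`), `a (i+1) ≤ a i` (`En_anti` with `m = 2`),
  `a 0 ≤ 2 K^2` (`MO4`: `Λ ≤ g ≤ Λ^2 ≤ Λ^3`). If `i ∈ S`, `r ≤ i` and `a (i - r) - a (i - r + 2r) ≤ δ` then `GO2` with `s = 2^(i-r) g` applies
  (`2^r s = 2^i g`, `Λ ≤ g ≤ s`, `4^r s ≤ 4^r Λ^2 ≤ Λ^3`, `4^r s = 2^(i - r + 2r) g`) and contradicts the badness of `i`. Hence
  `S ⊆ range r ∪ (image under (· + r) of {j < I : δ < a j - a (j + 2r)})`, and `PIG` bounds the cardinality by `r + 2 r (2 K^2)/δ ≤ M`.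
* `MX3`: apply `MX2` to `g = ⌊(log x)^2/2^M⌋₊` and `S = {i ∈ range (M+1) : 2^i g not good}` (classical filter); for large `x`
  `g ≥ (log x)^2/2^M - 1 ≥ (log x)^2/2^(M+1) ≥ log x`; `2^i g ≤ 2^M g ≤ (log x)^2`; `card S ≤ M`, so some `i < M + 1` is good; `D = 2^i g ≥ g`,
  `η = 1/2^(M+1)`.
-/

set_option autoImplicit false

namespace Pool.Agent.H96.EQ

open Finset Pool.Agent.H6.MF

theorem GO2 (ε : ℝ) (hε : 0 < ε) : ∃ r0 : ℕ, ∀ r : ℕ, r0 ≤ r → ∃ δ X : ℝ, 0 < δ ∧ ∀ x : ℝ, X ≤ x →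
    ∀ s : ℕ, Real.log x ≤ s → (4 : ℝ) ^ r * s ≤ (Real.log x) ^ 3 → En x s - En x (4 ^ r * s) ≤ δ * x →
    Box x ε (kap x (2 ^ r * s)) (2 ^ r * s) ∧ Alm x ε (2 ^ r * s) := by
  obtain ⟨C, -, hG⟩ := GOO
  obtain ⟨rA, hA⟩ := hG (ε / 4) (by positivity)
  obtain ⟨rB, hB⟩ := KTW (ε / 4) (by positivity)
  refine ⟨max rA rB, fun r hr => ?_⟩
  obtain ⟨δA, XA, hδA, hA'⟩ := hA r ((le_max_left _ _).trans hr)
  obtain ⟨δB, XB, hδB, hB'⟩ := hB r ((le_max_right _ _).trans hr)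
  refine ⟨min δA δB, max XA (max XB (Real.exp 1)), lt_min hδA hδB, ?_⟩
  intro x hx s hs1 hs2 hs3
  have hxA : XA ≤ x := (le_max_left _ _).trans hx
  have hxB : XB ≤ x := ((le_max_left _ _).trans (le_max_right _ _)).trans hx
  have hxe : Real.exp 1 ≤ x := ((le_max_right _ _).trans (le_max_right _ _)).trans hx
  have hxpos : 0 < x := lt_of_lt_of_le (Real.exp_pos 1) hxe
  have hlog : 1 ≤ Real.log x := (Real.le_log_iff_exp_le hxpos).2 hxe
  have hspos : (0 : ℝ) < s := by linarith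
  have hgood := hA' x hxA s hs1 hs2 (hs3.trans (mul_le_mul_of_nonneg_right (min_le_left _ _) hxpos.le))
  have hktw := hB' x hxB s hs1 hs2 (hs3.trans (mul_le_mul_of_nonneg_right (min_le_right _ _) hxpos.le))
  obtain ⟨⟨κ, -, -, hbox⟩, halm⟩ := hgood
  set D : ℕ := 2 ^ r * s with hD
  have hDpos : (0 : ℝ) < D := by
    rw [hD]; push_cast; positivity
  set Z := x / (Real.log x) ^ 3 with hZ
  have hZpos : 0 < Z := by positivity
  have hDZ : 0 < (D : ℝ) ^ 2 * Z := by positivity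
  have h1 := hbox 0 D 0 D (Nat.zero_le _) le_rfl (Nat.zero_le _) le_rfl
  rw [← S3_eq] at h1
  simp only [Nat.cast_zero, sub_zero] at h1
  have h2 : |κ - kap x D| * ((D : ℝ) ^ 2 * Z) ≤ ε / 2 * ((D : ℝ) ^ 2 * Z) := by
    rw [← abs_of_pos hDZ, ← abs_mul, abs_of_pos hDZ]
    have h3 : (κ - kap x D) * ((D : ℝ) ^ 2 * Z)
        = (S3 x 0 (D : ℤ) 0 (D : ℤ) - kap x D * (D : ℝ) ^ 2 * Z)
          - (S3 x 0 (D : ℤ) 0 (D : ℤ) - κ * (D : ℝ) * (D : ℝ) * Z) := by ring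
    rw [h3]
    refine (abs_sub _ _).trans ?_
    have h4 := add_le_add hktw h1
    refine h4.trans (le_of_eq ?_)
    ring
  have h5 : |κ - kap x D| ≤ ε / 2 := le_of_mul_le_mul_right h2 hDZ
  refine ⟨?_, ?_⟩
  · intro u1 v1 u2 v2 hu1 hv1 hu2 hv2
    have h6 := hbox u1 v1 u2 v2 hu1 hv1 hu2 hv2
    have hu1' : (u1 : ℝ) ≤ v1 := by exact_mod_cast hu1
    have hu2' : (u2 : ℝ) ≤ v2 := by exact_mod_cast hu2
    have hv1' : (v1 : ℝ) ≤ D := by exact_mod_cast hv1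
    have hv2' : (v2 : ℝ) ≤ D := by exact_mod_cast hv2
    have hu10 : (0 : ℝ) ≤ u1 := Nat.cast_nonneg _
    have hu20 : (0 : ℝ) ≤ u2 := Nat.cast_nonneg _
    have h7 : ((v1 : ℝ) - u1) * ((v2 : ℝ) - u2) ≤ (D : ℝ) ^ 2 := by
      rw [pow_two]
      exact mul_le_mul (by linarith) (by linarith) (by linarith) hDpos.le
    have h7' : 0 ≤ ((v1 : ℝ) - u1) * ((v2 : ℝ) - u2) :=
      mul_nonneg (by linarith) (by linarith)
    have h8 : |(κ - kap x D) * (((v1 : ℝ) - u1) * ((v2 : ℝ) - u2) * Z)| ≤ ε / 2 * ((D : ℝ) ^ 2 * Z) := by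
      rw [abs_mul, abs_of_nonneg (mul_nonneg h7' hZpos.le)]
      exact mul_le_mul h5 (mul_le_mul_of_nonneg_right h7 hZpos.le) (mul_nonneg h7' hZpos.le)
        (by positivity)
    have h9 : ∑ a ∈ Ioc u1 v1, ∑ b ∈ Ioc u2 v2, p3 x a b
          - kap x D * ((v1 : ℝ) - u1) * ((v2 : ℝ) - u2) * Z
        = (∑ a ∈ Ioc u1 v1, ∑ b ∈ Ioc u2 v2, p3 x a b
          - κ * ((v1 : ℝ) - u1) * ((v2 : ℝ) - u2) * Z)
          + (κ - kap x D) * (((v1 : ℝ) - u1) * ((v2 : ℝ) - u2) * Z) := by ring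
    rw [h9]
    refine (abs_add_le _ _).trans ?_
    have h10 : 0 ≤ ε * ((D : ℝ) ^ 2 * Z) := by positivity
    linarith [add_le_add h6 h8]
  · intro u v huv hv
    refine (halm u v huv hv).trans ?_
    refine mul_le_mul_of_nonneg_right ?_ hZpos.le
    refine mul_le_mul_of_nonneg_right (by linarith) (by positivity)

theorem MX2 (ε : ℝ) (hε : 0 < ε) : ∃ (M : ℕ) (X : ℝ), ∀ x : ℝ, X ≤ x → ∀ g : ℕ, Real.log x ≤ g →
    ∀ S : Finset ℕ, (∀ i ∈ S, ((2 ^ i * g : ℕ) : ℝ) ≤ (Real.log x) ^ 2 ∧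
      ¬ (Box x ε (kap x (2 ^ i * g)) (2 ^ i * g) ∧ Alm x ε (2 ^ i * g))) → S.card ≤ M := by
  classical
  obtain ⟨K, X0, hK, hM⟩ := MO4
  obtain ⟨r, hr⟩ := GO2 ε hε
  obtain ⟨δ, X1, hδ, hX1⟩ := hr r le_rfl
  refine ⟨⌈(r : ℝ) + 2 * r * (2 * K ^ 2) / δ⌉₊, max X0 (max X1 (Real.exp ((4 : ℝ) ^ r))), ?_⟩
  intro x hx g hg S hS
  have hx0 : X0 ≤ x := (le_max_left _ _).trans hx
  have hx1 : X1 ≤ x := ((le_max_left _ _).trans (le_max_right _ _)).trans hx
  have hx2 : Real.exp ((4 : ℝ) ^ r) ≤ x := ((le_max_right _ _).trans (le_max_right _ _)).trans hx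
  obtain ⟨h1x, hlog, _, _, hEn⟩ := hM x hx0
  have hxpos : 0 < x := by linarith
  have h4 : (4 : ℝ) ^ r ≤ Real.log x := (Real.le_log_iff_exp_le hxpos).2 hx2
  rcases S.eq_empty_or_nonempty with hS0 | ⟨i0, hi0⟩
  · rw [hS0]; simp
  have hgpos : 1 ≤ g := by
    have h : (1 : ℝ) ≤ g := hlog.trans hg
    exact_mod_cast h
  have hmono : ∀ i : ℕ, ∀ j : ℕ, j ≤ i → ((2 ^ j * g : ℕ) : ℝ) ≤ ((2 ^ i * g : ℕ) : ℝ) := by
    intro i j hji
    have h : 2 ^ j * g ≤ 2 ^ i * g := Nat.mul_le_mul_right g (Nat.pow_le_pow_right (by norm_num) hji)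
    exact_mod_cast h
  have hg2 : (g : ℝ) ≤ (Real.log x) ^ 2 := by
    have h := (hmono i0 0 (Nat.zero_le _)).trans (hS i0 hi0).1
    simpa using h
  have h23 : (Real.log x) ^ 2 ≤ (Real.log x) ^ 3 := pow_le_pow_right₀ hlog (by norm_num)
  have hpos : ∀ i : ℕ, 1 ≤ 2 ^ i * g := fun i => Nat.one_le_iff_ne_zero.2 (by positivity)
  set I : ℕ := S.sup id + 1 with hI
  have hSI : ∀ i ∈ S, i < I := fun i hi => Nat.lt_succ_of_le (Finset.le_sup (f := id) hi)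
  have key := PIG (fun i => En x (2 ^ i * g) / x) r I (2 * K ^ 2) δ hδ
    (fun i => div_nonneg (En_nonneg _ _) hxpos.le)
    (by
      show En x (2 ^ 0 * g) / x ≤ 2 * K ^ 2
      rw [div_le_iff₀ hxpos, pow_zero, one_mul]
      exact hEn g hg (hg2.trans h23))
    (fun i => by
      show En x (2 ^ (i + 1) * g) / x ≤ En x (2 ^ i * g) / x
      refine div_le_div_of_nonneg_right ?_ hxpos.le
      have h := En_anti x (2 ^ i * g) 2 (hpos i) (by norm_num)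
      have e : 2 ^ (i + 1) * g = 2 * (2 ^ i * g) := by ring
      rw [e]
      exact h)
  have hsub : S ⊆
      range r ∪ ((range I).filter (fun i => δ < En x (2 ^ i * g) / x - En x (2 ^ (i + 2 * r) * g) / x)).image
        (fun j => j + r) := by
    intro i hi
    obtain ⟨hi1, hi2⟩ := hS i hi
    have hiI := hSI i hi
    rw [mem_union, mem_range, mem_image]
    by_cases hir : i < r
    · exact Or.inl hir
    · right
      push Not at hir
      refine ⟨i - r, ?_, by omega⟩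
      rw [mem_filter, mem_range]
      refine ⟨by omega, ?_⟩
      by_contra hc
      push Not at hc
      apply hi2
      have e1 : 2 ^ r * (2 ^ (i - r) * g) = 2 ^ i * g := by
        rw [← mul_assoc, ← pow_add]
        congr 2
        omega
      have e2 : 4 ^ r * (2 ^ (i - r) * g) = 2 ^ (i - r + 2 * r) * g := by
        rw [← mul_assoc, show (4 : ℕ) = 2 ^ 2 from rfl, ← pow_mul, ← pow_add]
        congr 2
        omega
      have hs2 : ((2 ^ (i - r) * g : ℕ) : ℝ) ≤ (Real.log x) ^ 2 :=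
        (hmono i (i - r) (Nat.sub_le _ _)).trans hi1
      have hs1 : Real.log x ≤ ((2 ^ (i - r) * g : ℕ) : ℝ) := by
        refine hg.trans ?_
        have h : g ≤ 2 ^ (i - r) * g := Nat.le_mul_of_pos_left _ (by positivity)
        exact_mod_cast h
      have h := hX1 x hx1 (2 ^ (i - r) * g) hs1
        (by
          calc (4 : ℝ) ^ r * ((2 ^ (i - r) * g : ℕ) : ℝ) ≤ Real.log x * (Real.log x) ^ 2 :=
                mul_le_mul h4 hs2 (Nat.cast_nonneg _) (by linarith)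
            _ = (Real.log x) ^ 3 := by ring)
        (by
          rw [e2]
          rw [← sub_div, div_le_iff₀ hxpos] at hc
          exact hc)
      rw [e1] at h
      exact h
  have hcard := (card_le_card hsub).trans (card_union_le _ _)
  have himg : (((range I).filter (fun i => δ < En x (2 ^ i * g) / x - En x (2 ^ (i + 2 * r) * g) / x)).image
      (fun j => j + r)).card ≤
      ((range I).filter (fun i => δ < En x (2 ^ i * g) / x - En x (2 ^ (i + 2 * r) * g) / x)).card :=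
    card_image_le
  rw [card_range] at hcard
  have hfin : (S.card : ℝ) ≤ (r : ℝ) + 2 * r * (2 * K ^ 2) / δ := by
    have h1 : (S.card : ℝ) ≤
        (r : ℝ) + (((range I).filter (fun i => δ < En x (2 ^ i * g) / x -
          En x (2 ^ (i + 2 * r) * g) / x)).card : ℝ) := by
      exact_mod_cast hcard.trans (Nat.add_le_add_left himg r)
    exact h1.trans (add_le_add_right key (r : ℝ))
  have h := hfin.trans (Nat.le_ceil _)
  exact_mod_cast h

theorem MX3 (ε : ℝ) (hε : 0 < ε) : ∃ η X : ℝ, 0 < η ∧ ∀ x : ℝ, X ≤ x → ∃ D : ℕ, η * (Real.log x) ^ 2 ≤ D ∧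
    (D : ℝ) ≤ (Real.log x) ^ 2 ∧ Box x ε (kap x D) D ∧ Alm x ε D := by
  classical
  obtain ⟨M, X0, hM⟩ := MX2 ε hε
  refine ⟨1 / 2 ^ (M + 1), max X0 (Real.exp ((2 : ℝ) ^ (M + 1))), by positivity, fun x hx => ?_⟩
  have hx0 : X0 ≤ x := (le_max_left _ _).trans hx
  have hx1 : Real.exp ((2 : ℝ) ^ (M + 1)) ≤ x := (le_max_right _ _).trans hx
  have hxpos : 0 < x := lt_of_lt_of_le (Real.exp_pos _) hx1
  have hlog : (2 : ℝ) ^ (M + 1) ≤ Real.log x := (Real.le_log_iff_exp_le hxpos).2 hx1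
  have hP : (1 : ℝ) ≤ 2 ^ (M + 1) := one_le_pow₀ (by norm_num)
  have hlog1 : 1 ≤ Real.log x := hP.trans hlog
  have hPpos : (0 : ℝ) < 2 ^ (M + 1) := by positivity
  have hq : Real.log x ≤ (Real.log x) ^ 2 / 2 ^ (M + 1) := by
    rw [le_div_iff₀ hPpos, pow_two]
    exact mul_le_mul_of_nonneg_left hlog (by linarith)
  set g : ℕ := ⌊(Real.log x) ^ 2 / 2 ^ M⌋₊ with hg
  have hg1 : (g : ℝ) ≤ (Real.log x) ^ 2 / 2 ^ M := Nat.floor_le (by positivity)
  have hg2 : (Real.log x) ^ 2 / 2 ^ M < g + 1 := Nat.lt_floor_add_one _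
  have hhalf : (Real.log x) ^ 2 / 2 ^ M = 2 * ((Real.log x) ^ 2 / 2 ^ (M + 1)) := by
    have h2 : (2 : ℝ) ^ (M + 1) = 2 ^ M * 2 := pow_succ _ _
    rw [h2]; field_simp
  have hg3 : (Real.log x) ^ 2 / 2 ^ (M + 1) ≤ g := by linarith
  have hgl : Real.log x ≤ g := hq.trans hg3
  have hup : ∀ i ≤ M, ((2 ^ i * g : ℕ) : ℝ) ≤ (Real.log x) ^ 2 := by
    intro i hi
    push_cast
    have h1 : (2 : ℝ) ^ i ≤ 2 ^ M := pow_le_pow_right₀ (by norm_num) hi
    calc (2 : ℝ) ^ i * g ≤ 2 ^ M * ((Real.log x) ^ 2 / 2 ^ M) :=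
          mul_le_mul h1 hg1 (Nat.cast_nonneg _) (by positivity)
      _ = (Real.log x) ^ 2 := by field_simp
  set S : Finset ℕ := (range (M + 1)).filter (fun i =>
    ¬ (Box x ε (kap x (2 ^ i * g)) (2 ^ i * g) ∧ Alm x ε (2 ^ i * g))) with hS
  have hSc : S.card ≤ M := hM x hx0 g hgl S (fun i hi => by
    rw [hS, mem_filter, mem_range] at hi
    exact ⟨hup i (by omega), hi.2⟩)
  obtain ⟨i, hi, hiS⟩ : ∃ i ∈ range (M + 1), i ∉ S := by
    by_contra hcon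
    push Not at hcon
    have h1 := card_le_card (show range (M + 1) ⊆ S from fun i hi => hcon i hi)
    rw [card_range] at h1
    omega
  have hgood : Box x ε (kap x (2 ^ i * g)) (2 ^ i * g) ∧ Alm x ε (2 ^ i * g) := by
    by_contra hcon
    exact hiS (mem_filter.mpr ⟨hi, hcon⟩)
  rw [mem_range] at hi
  refine ⟨2 ^ i * g, ?_, hup i (by omega), hgood.1, hgood.2⟩
  have h1 : (g : ℝ) ≤ ((2 ^ i * g : ℕ) : ℝ) := by
    have h : g ≤ 2 ^ i * g := Nat.le_mul_of_pos_left _ (by positivity)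
    exact_mod_cast h
  refine le_trans ?_ h1
  rw [one_div, inv_mul_eq_div]
  exact hg3

end Pool.Agent.H96.EQ
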