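import Pool.Agent.H96.EQ.Defs

/-!
# NUM: harmonic sums over a dyadic block

Let `p = 2^(t-1)`, `2^t = 2 p`, `p ≥ 1`; all `j ∈ Ico p (2p)` satisfy `j ≥ p ≥ 1`, and there are `p` of them.
* `Hs_ge`: `log (j+1) - log j = log ((j+1)/j) ≤ 1/j` (`Real.log_le_sub_one_of_pos`), telescoping
  (`Finset.sum_Ico_consecutive`/`Finset.sum_range_succ_sub`-type lemma or induction): `log (2p) - log p = log 2`.
* `Hs_le`: each term is `≤ 1/p`.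
* `Hs_sq`: each term is `≤ 1/p^2`, so the sum is `≤ 1/p = 2/2^t`.
-/

set_option autoImplicit false

namespace Pool.Agent.H96.EQ

open Finset

theorem log_le_sum_Ico (p : ℕ) (hp : 1 ≤ p) (q : ℕ) (hq : p ≤ q) :
    Real.log q - Real.log p ≤ ∑ j ∈ Ico p q, (1 : ℝ) / (j : ℝ) := by
  induction q, hq using Nat.le_induction with
  | base => simp
  | succ q hq ih =>
    rw [Finset.sum_Ico_succ_top hq]
    have hq0 : (0 : ℝ) < (q : ℝ) := by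
      have : 1 ≤ q := le_trans hp hq
      exact_mod_cast this
    have h1 : Real.log ((q : ℝ) + 1) - Real.log q ≤ 1 / (q : ℝ) := by
      rw [← Real.log_div (by positivity) hq0.ne']
      have h2 := Real.log_le_sub_one_of_pos (show (0 : ℝ) < ((q : ℝ) + 1) / q by positivity)
      have h3 : ((q : ℝ) + 1) / q - 1 = 1 / q := by
        field_simp
        ring
      linarith
    push_cast
    linarith

theorem two_pow_pred (t : ℕ) (ht : 1 ≤ t) : (2 : ℕ) ^ t = 2 * 2 ^ (t - 1) := by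
  obtain ⟨s, rfl⟩ : ∃ s, t = s + 1 := ⟨t - 1, by omega⟩
  simp only [Nat.add_sub_cancel]
  ring

theorem Hs_ge (t : ℕ) (ht : 1 ≤ t) : Real.log 2 ≤ Hs t := by
  have hp : 1 ≤ (2 : ℕ) ^ (t - 1) := Nat.one_le_two_pow
  have h1 := log_le_sum_Ico ((2 : ℕ) ^ (t - 1)) hp ((2 : ℕ) ^ t)
    (by rw [two_pow_pred t ht]; omega)
  have h2 : Real.log (((2 : ℕ) ^ t : ℕ) : ℝ) - Real.log (((2 : ℕ) ^ (t - 1) : ℕ) : ℝ) =
      Real.log 2 := by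
    rw [two_pow_pred t ht]
    have h3 : (0 : ℝ) < (((2 : ℕ) ^ (t - 1) : ℕ) : ℝ) := by exact_mod_cast hp
    rw [Nat.cast_mul, Real.log_mul (by norm_num) h3.ne']
    push_cast
    ring
  rw [h2] at h1
  exact h1

theorem Hs_le (t : ℕ) (ht : 1 ≤ t) : Hs t ≤ 1 := by
  have hp : 1 ≤ (2 : ℕ) ^ (t - 1) := Nat.one_le_two_pow
  have hp0 : (0 : ℝ) < (((2 : ℕ) ^ (t - 1) : ℕ) : ℝ) := by exact_mod_cast hp
  have h1 : Hs t ≤ ∑ j ∈ Ico ((2 : ℕ) ^ (t - 1)) ((2 : ℕ) ^ t),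
      (1 : ℝ) / (((2 : ℕ) ^ (t - 1) : ℕ) : ℝ) := by
    unfold Hs
    refine Finset.sum_le_sum fun j hj => ?_
    rw [Finset.mem_Ico] at hj
    have h2 : (((2 : ℕ) ^ (t - 1) : ℕ) : ℝ) ≤ (j : ℝ) := by exact_mod_cast hj.1
    exact one_div_le_one_div_of_le hp0 h2
  refine h1.trans ?_
  rw [Finset.sum_const, Nat.card_Ico, nsmul_eq_mul]
  have h3 : (2 : ℕ) ^ t - 2 ^ (t - 1) = 2 ^ (t - 1) := by
    rw [two_pow_pred t ht]; omega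
  rw [h3]
  rw [mul_one_div_cancel hp0.ne']

theorem Hs_sq (t : ℕ) (ht : 1 ≤ t) : ∑ j ∈ Ico ((2 : ℕ) ^ (t - 1)) ((2 : ℕ) ^ t), 1 / (j : ℝ) ^ 2 ≤ 2 / 2 ^ t := by
  have hp : 1 ≤ (2 : ℕ) ^ (t - 1) := Nat.one_le_two_pow
  have hp0 : (0 : ℝ) < (((2 : ℕ) ^ (t - 1) : ℕ) : ℝ) := by exact_mod_cast hp
  have h1 : ∑ j ∈ Ico ((2 : ℕ) ^ (t - 1)) ((2 : ℕ) ^ t), 1 / (j : ℝ) ^ 2 ≤
      ∑ j ∈ Ico ((2 : ℕ) ^ (t - 1)) ((2 : ℕ) ^ t),
      (1 : ℝ) / (((2 : ℕ) ^ (t - 1) : ℕ) : ℝ) ^ 2 := by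
    refine Finset.sum_le_sum fun j hj => ?_
    rw [Finset.mem_Ico] at hj
    have h2 : (((2 : ℕ) ^ (t - 1) : ℕ) : ℝ) ≤ (j : ℝ) := by exact_mod_cast hj.1
    exact one_div_le_one_div_of_le (by positivity) (pow_le_pow_left₀ hp0.le h2 2)
  refine h1.trans ?_
  rw [Finset.sum_const, Nat.card_Ico, nsmul_eq_mul]
  have h3 : (2 : ℕ) ^ t - 2 ^ (t - 1) = 2 ^ (t - 1) := by
    rw [two_pow_pred t ht]; omega
  rw [h3]
  have h4 : (2 : ℝ) ^ t = 2 * (((2 : ℕ) ^ (t - 1) : ℕ) : ℝ) := by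
    exact_mod_cast two_pow_pred t ht
  rw [h4]
  apply le_of_eq
  field_simp

end Pool.Agent.H96.EQ
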