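import Pool.Agent.H96.EQ.QB
import Pool.Agent.H96.EQ.AVE

/-!
# QA: averaging over a shift, windows of a set of primes

`AVE` (file AVE.lean) with `wq Q u v n` in place of `win u v n` on the left-hand side; the right-hand side is the same (with `win`). Copy the proof:
`shift_eq` with `f m = F m * wq Q u v m`, `wq_shift`, and the pointwise bound
`|wq Q (u+b) (v+b) n - wq Q u v n| ≤ wq Q u (u+s) n + wq Q v (v+s) n ≤ win u (u+s) n + win v (v+s) n` for `0 < b ≤ s`, `u ≤ v` (`wq_mono`, `wq_add`,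
`wq_le_win`), `AVE_abs`.
`QG`: let `F n = if n ∈ Q0 then wq Q1 0 D n else 0` for `n ≤ ⌊x⌋₊ - s` and `0` for larger `n`. For `n ≤ ⌊x⌋₊ - s`, `b ∈ (0,s]`:
`F (n - b) = [n - b ∈ Q0] wq Q1 b (D+b) n`, which differs from `[n - b ∈ Q0] wq Q1 0 D n` by at most `[n - b ∈ Q0] (win 0 s n + win D (D+s) n)` (the pointwise bound
above with `u = 0`, `v = D`); summing over `b` (`∑_b [n - b ∈ Q0] = wq Q0 0 s n ≤ win 0 s n`):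
`|∑_b F (n - b) - wq Q0 0 s n wq Q1 0 D n| ≤ win 0 s n (win 0 s n + win D (D+s) n)`. For the at most `s` values `n > ⌊x⌋₊ - s` both `∑_b F(n-b)` and
`wq Q0 0 s n wq Q1 0 D n` lie between `0` and `s D` (each `F (n-b) ≤ D` as `wq Q1 0 D m ≤ D`), so the difference is `≤ s D`, and `wq Q2 0 D n ≤ D`. Total:
the stated bound.
-/

set_option autoImplicit false

namespace Pool.Agent.H96.EQ

open Finset Pool.Agent.H6.MF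

theorem QA_sh (Q : Set ℤ) (u v n b : ℤ) : wq Q u v (n - b) = wq Q (u + b) (v + b) n := by
  have h := wq_shift Q u v (n - b) b
  rw [← h, sub_add_cancel]

theorem QA_diff {Q : Set ℤ} (hQ : PQ Q) {u v s : ℕ} (huv : u ≤ v) (n b : ℤ)
    (hb : b ∈ Ioc (0 : ℤ) (s : ℤ)) :
    |(wq Q ((u : ℤ) + b) ((v : ℤ) + b) n : ℝ) - (wq Q (u : ℤ) (v : ℤ) n : ℝ)| ≤
      (win (u : ℤ) ((u + s : ℕ) : ℤ) n : ℝ) + (win (v : ℤ) ((v + s : ℕ) : ℤ) n : ℝ) := by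
  rw [Finset.mem_Ioc] at hb
  have huv' : (u : ℤ) ≤ (v : ℤ) := by exact_mod_cast huv
  have a1 : wq Q ((u : ℤ) + b) ((v : ℤ) + b) n ≤ wq Q (u : ℤ) ((v : ℤ) + b) n :=
    wq_mono Q (by omega) le_rfl
  have a2 : wq Q (u : ℤ) ((v : ℤ) + b) n = wq Q (u : ℤ) (v : ℤ) n + wq Q (v : ℤ) ((v : ℤ) + b) n :=
    wq_add Q huv' (by omega) n
  have a3 : wq Q (v : ℤ) ((v : ℤ) + b) n ≤ wq Q (v : ℤ) ((v + s : ℕ) : ℤ) n :=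
    wq_mono Q le_rfl (by push_cast; omega)
  have a4 := wq_le_win hQ (v : ℤ) ((v + s : ℕ) : ℤ) n
  have b1 : wq Q (u : ℤ) (v : ℤ) n ≤ wq Q (u : ℤ) ((v : ℤ) + b) n := wq_mono Q le_rfl (by omega)
  have b2 : wq Q (u : ℤ) ((v : ℤ) + b) n = wq Q (u : ℤ) ((u : ℤ) + b) n +
      wq Q ((u : ℤ) + b) ((v : ℤ) + b) n := wq_add Q (by omega) (by omega) n
  have b3 : wq Q (u : ℤ) ((u : ℤ) + b) n ≤ wq Q (u : ℤ) ((u + s : ℕ) : ℤ) n :=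
    wq_mono Q le_rfl (by push_cast; omega)
  have b4 := wq_le_win hQ (u : ℤ) ((u + s : ℕ) : ℤ) n
  have c1 : wq Q ((u : ℤ) + b) ((v : ℤ) + b) n ≤
      wq Q (u : ℤ) (v : ℤ) n + win (v : ℤ) ((v + s : ℕ) : ℤ) n := by omega
  have c2 : wq Q (u : ℤ) (v : ℤ) n ≤
      win (u : ℤ) ((u + s : ℕ) : ℤ) n + wq Q ((u : ℤ) + b) ((v : ℤ) + b) n := by omega
  have d1 : (wq Q ((u : ℤ) + b) ((v : ℤ) + b) n : ℝ) ≤
      (wq Q (u : ℤ) (v : ℤ) n : ℝ) + (win (v : ℤ) ((v + s : ℕ) : ℤ) n : ℝ) := by exact_mod_cast c1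
  have d2 : (wq Q (u : ℤ) (v : ℤ) n : ℝ) ≤
      (win (u : ℤ) ((u + s : ℕ) : ℤ) n : ℝ) + (wq Q ((u : ℤ) + b) ((v : ℤ) + b) n : ℝ) := by
    exact_mod_cast c2
  have e1 : (0 : ℝ) ≤ (win (u : ℤ) ((u + s : ℕ) : ℤ) n : ℝ) := Nat.cast_nonneg _
  have e2 : (0 : ℝ) ≤ (win (v : ℤ) ((v + s : ℕ) : ℤ) n : ℝ) := Nat.cast_nonneg _
  rw [abs_le]
  constructor <;> linarith

open Classical in
theorem QA_wq (Q : Set ℤ) (s : ℕ) (n : ℤ) :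
    (wq Q 0 (s : ℤ) n : ℝ) = ∑ b ∈ Ioc (0 : ℤ) (s : ℤ), (if n - b ∈ Q then (1 : ℝ) else 0) := by
  rw [wq, Finset.card_filter]
  push_cast
  rfl

open Classical in
theorem QA_wq_le (Q : Set ℤ) (D : ℕ) (n : ℤ) : (wq Q 0 (D : ℤ) n : ℝ) ≤ D := by
  have h : wq Q 0 (D : ℤ) n ≤ D := by
    unfold wq
    refine (Finset.card_filter_le _ _).trans ?_
    rw [Int.card_Ioc]
    omega
  exact_mod_cast h

theorem QA_card (N s : ℕ) :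
    ((range (N + 1)).filter (fun n : ℕ => (N : ℤ) - (s : ℤ) < (n : ℤ))).card ≤ s := by
  have h : (range (N + 1)).filter (fun n : ℕ => (N : ℤ) - (s : ℤ) < (n : ℤ)) ⊆
      Ico (N + 1 - s) (N + 1) := by
    intro n hn
    rw [mem_filter, mem_range] at hn
    rw [mem_Ico]
    omega
  refine (Finset.card_le_card h).trans ?_
  rw [Nat.card_Ico]
  omega

theorem QAVE (x : ℝ) {Q : Set ℤ} (hQ : PQ Q) (s D u v : ℕ) (F : ℤ → ℝ)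
    (hF : ∀ n : ℤ, |F n| ≤ if isP n then (win 0 (D : ℤ) n : ℝ) else 0)
    (hs : ∀ n : ℤ, (⌊x⌋₊ : ℤ) - (s : ℤ) < n → F n = 0) (huv : u ≤ v) :
    |(s : ℝ) * ∑ n ∈ range (⌊x⌋₊ + 1), F (n : ℤ) * (wq Q (u : ℤ) (v : ℤ) (n : ℤ) : ℝ)
        - ∑ n ∈ range (⌊x⌋₊ + 1), (∑ b ∈ Ioc (0 : ℤ) (s : ℤ), F ((n : ℤ) - b)) * (wq Q (u : ℤ) (v : ℤ) (n : ℤ) : ℝ)|
      ≤ ∑ n ∈ range (⌊x⌋₊ + 1), (win 0 (s : ℤ) (n : ℤ) : ℝ) * (win 0 ((D + s : ℕ) : ℤ) (n : ℤ) : ℝ)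
          * ((win (u : ℤ) ((u + s : ℕ) : ℤ) (n : ℤ) : ℝ) + (win (v : ℤ) ((v + s : ℕ) : ℤ) (n : ℤ) : ℝ)) := by
  have hF0 : ∀ n : ℤ, n < 0 → F n = 0 := by
    intro n hn
    have h := hF n
    rw [if_neg (AVE_notP hn)] at h
    exact abs_eq_zero.1 (le_antisymm h (abs_nonneg _))
  have h1 : ∀ b ∈ Ioc (0 : ℤ) (s : ℤ),
      ∑ n ∈ range (⌊x⌋₊ + 1), F (n : ℤ) * (wq Q (u : ℤ) (v : ℤ) (n : ℤ) : ℝ) =
      ∑ n ∈ range (⌊x⌋₊ + 1), F ((n : ℤ) - b) *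
        (wq Q ((u : ℤ) + b) ((v : ℤ) + b) (n : ℤ) : ℝ) := by
    intro b hb
    rw [Finset.mem_Ioc] at hb
    have h2 := shift_eq ⌊x⌋₊ (s : ℤ) (fun m : ℤ => F m * (wq Q (u : ℤ) (v : ℤ) m : ℝ))
      (fun n hn => by simp only [hF0 n hn, zero_mul])
      (fun n hn => by simp only [hs n hn, zero_mul]) b hb.1.le hb.2
    rw [← h2]
    refine Finset.sum_congr rfl fun n _ => ?_
    rw [QA_sh]
  have h3 : (s : ℝ) * ∑ n ∈ range (⌊x⌋₊ + 1), F (n : ℤ) * (wq Q (u : ℤ) (v : ℤ) (n : ℤ) : ℝ) =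
      ∑ n ∈ range (⌊x⌋₊ + 1), ∑ b ∈ Ioc (0 : ℤ) (s : ℤ), F ((n : ℤ) - b) *
        (wq Q ((u : ℤ) + b) ((v : ℤ) + b) (n : ℤ) : ℝ) := by
    rw [Finset.sum_comm, ← Finset.sum_congr rfl h1, Finset.sum_const, Int.card_Ioc, nsmul_eq_mul]
    congr 1
  rw [h3, ← Finset.sum_sub_distrib]
  refine (Finset.abs_sum_le_sum_abs _ _).trans (Finset.sum_le_sum fun n _ => ?_)
  rw [Finset.sum_mul, ← Finset.sum_sub_distrib]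
  refine (Finset.abs_sum_le_sum_abs _ _).trans ?_
  refine le_trans (Finset.sum_le_sum (g := fun b : ℤ => |F ((n : ℤ) - b)| *
    ((win (u : ℤ) ((u + s : ℕ) : ℤ) (n : ℤ) : ℝ) + (win (v : ℤ) ((v + s : ℕ) : ℤ) (n : ℤ) : ℝ)))
    fun b hb => ?_) ?_
  · rw [← mul_sub, abs_mul]
    exact mul_le_mul_of_nonneg_left (QA_diff hQ huv _ b hb) (abs_nonneg _)
  · rw [← Finset.sum_mul]
    exact mul_le_mul_of_nonneg_right (AVE_abs s D F hF n) (by positivity)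

open Classical in
theorem QG (x : ℝ) {Q0 Q1 Q2 : Set ℤ} (h0 : PQ Q0) (h1 : PQ Q1) (h2 : PQ Q2) (s D : ℕ) (hsD : s ≤ D) (F : ℤ → ℝ)
    (hF : ∀ n : ℤ, F n = if n ≤ (⌊x⌋₊ : ℤ) - (s : ℤ) then (if n ∈ Q0 then (wq Q1 0 (D : ℤ) n : ℝ) else 0) else 0) :
    |∑ n ∈ range (⌊x⌋₊ + 1), (∑ b ∈ Ioc (0 : ℤ) (s : ℤ), F ((n : ℤ) - b)) * (wq Q2 0 (D : ℤ) (n : ℤ) : ℝ)
        - ∑ n ∈ range (⌊x⌋₊ + 1), (wq Q0 0 (s : ℤ) (n : ℤ) : ℝ) * (wq Q1 0 (D : ℤ) (n : ℤ) : ℝ) * (wq Q2 0 (D : ℤ) (n : ℤ) : ℝ)|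
      ≤ ∑ n ∈ range (⌊x⌋₊ + 1), (win 0 (s : ℤ) (n : ℤ) : ℝ) * (win 0 (D : ℤ) (n : ℤ) : ℝ)
          * ((win 0 (s : ℤ) (n : ℤ) : ℝ) + (win (D : ℤ) ((D + s : ℕ) : ℤ) (n : ℤ) : ℝ)) + (s : ℝ) ^ 2 * (D : ℝ) ^ 2 := by
  have hD0 : (0 : ℝ) ≤ (D : ℝ) := Nat.cast_nonneg D
  have hs0 : (0 : ℝ) ≤ (s : ℝ) := Nat.cast_nonneg s
  have hF0 : ∀ n : ℤ, 0 ≤ F n ∧ F n ≤ D := by
    intro n
    rw [hF n]
    split_ifs
    · exact ⟨Nat.cast_nonneg _, QA_wq_le Q1 D n⟩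
    · exact ⟨le_rfl, hD0⟩
    · exact ⟨le_rfl, hD0⟩
  have hpt : ∀ n ∈ range (⌊x⌋₊ + 1),
      |(∑ b ∈ Ioc (0 : ℤ) (s : ℤ), F ((n : ℤ) - b)) * (wq Q2 0 (D : ℤ) (n : ℤ) : ℝ)
        - (wq Q0 0 (s : ℤ) (n : ℤ) : ℝ) * (wq Q1 0 (D : ℤ) (n : ℤ) : ℝ) * (wq Q2 0 (D : ℤ) (n : ℤ) : ℝ)|
      ≤ (win 0 (s : ℤ) (n : ℤ) : ℝ) * (win 0 (D : ℤ) (n : ℤ) : ℝ)
          * ((win 0 (s : ℤ) (n : ℤ) : ℝ) + (win (D : ℤ) ((D + s : ℕ) : ℤ) (n : ℤ) : ℝ))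
        + (if (⌊x⌋₊ : ℤ) - (s : ℤ) < (n : ℤ) then (s : ℝ) * (D : ℝ) ^ 2 else 0) := by
    intro n _
    have hw2 : (wq Q2 0 (D : ℤ) (n : ℤ) : ℝ) ≤ (win 0 (D : ℤ) (n : ℤ) : ℝ) := by
      exact_mod_cast wq_le_win h2 0 (D : ℤ) (n : ℤ)
    have hw0 : (0 : ℝ) ≤ (wq Q2 0 (D : ℤ) (n : ℤ) : ℝ) := Nat.cast_nonneg _
    rw [← sub_mul, abs_mul, abs_of_nonneg hw0]
    by_cases hn : (⌊x⌋₊ : ℤ) - (s : ℤ) < (n : ℤ)
    · rw [if_pos hn]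
      have e1 : 0 ≤ ∑ b ∈ Ioc (0 : ℤ) (s : ℤ), F ((n : ℤ) - b) :=
        Finset.sum_nonneg fun b _ => (hF0 _).1
      have e2 : ∑ b ∈ Ioc (0 : ℤ) (s : ℤ), F ((n : ℤ) - b) ≤ (s : ℝ) * D := by
        refine (Finset.sum_le_card_nsmul _ _ (D : ℝ) fun b _ => (hF0 _).2).trans (le_of_eq ?_)
        rw [Int.card_Ioc, nsmul_eq_mul]
        congr 1
      have e3 : (0 : ℝ) ≤ (wq Q0 0 (s : ℤ) (n : ℤ) : ℝ) * (wq Q1 0 (D : ℤ) (n : ℤ) : ℝ) := by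
        positivity
      have e4 : (wq Q0 0 (s : ℤ) (n : ℤ) : ℝ) * (wq Q1 0 (D : ℤ) (n : ℤ) : ℝ) ≤ (s : ℝ) * D :=
        mul_le_mul (QA_wq_le Q0 s n) (QA_wq_le Q1 D n) (Nat.cast_nonneg _) hs0
      have e5 : |∑ b ∈ Ioc (0 : ℤ) (s : ℤ), F ((n : ℤ) - b) -
          (wq Q0 0 (s : ℤ) (n : ℤ) : ℝ) * (wq Q1 0 (D : ℤ) (n : ℤ) : ℝ)| ≤ (s : ℝ) * D := by
        rw [abs_le]
        constructor <;> linarith
      have e6 := mul_le_mul e5 (QA_wq_le Q2 D (n : ℤ)) hw0 (by positivity)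
      have e7 : (0 : ℝ) ≤ (win 0 (s : ℤ) (n : ℤ) : ℝ) * (win 0 (D : ℤ) (n : ℤ) : ℝ)
          * ((win 0 (s : ℤ) (n : ℤ) : ℝ) + (win (D : ℤ) ((D + s : ℕ) : ℤ) (n : ℤ) : ℝ)) := by
        positivity
      calc _ ≤ (s : ℝ) * D * D := e6
        _ ≤ _ := by nlinarith
    · rw [if_neg hn, add_zero]
      have e1 : ∑ b ∈ Ioc (0 : ℤ) (s : ℤ), F ((n : ℤ) - b) -
          (wq Q0 0 (s : ℤ) (n : ℤ) : ℝ) * (wq Q1 0 (D : ℤ) (n : ℤ) : ℝ) =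
          ∑ b ∈ Ioc (0 : ℤ) (s : ℤ), (if (n : ℤ) - b ∈ Q0 then (1 : ℝ) else 0) *
            ((wq Q1 b ((D : ℤ) + b) (n : ℤ) : ℝ) - (wq Q1 0 (D : ℤ) (n : ℤ) : ℝ)) := by
        rw [QA_wq Q0 s (n : ℤ), Finset.sum_mul, ← Finset.sum_sub_distrib]
        refine Finset.sum_congr rfl fun b hb => ?_
        rw [Finset.mem_Ioc] at hb
        have hb2 : (n : ℤ) - b ≤ (⌊x⌋₊ : ℤ) - (s : ℤ) := by omega
        rw [hF, if_pos hb2]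
        have h5 : wq Q1 0 (D : ℤ) ((n : ℤ) - b) = wq Q1 b ((D : ℤ) + b) (n : ℤ) := by
          rw [QA_sh, zero_add]
        split_ifs
        · rw [h5]; ring
        · ring
      have e2 : |∑ b ∈ Ioc (0 : ℤ) (s : ℤ), F ((n : ℤ) - b) -
          (wq Q0 0 (s : ℤ) (n : ℤ) : ℝ) * (wq Q1 0 (D : ℤ) (n : ℤ) : ℝ)| ≤
          (win 0 (s : ℤ) (n : ℤ) : ℝ) *
            ((win 0 (s : ℤ) (n : ℤ) : ℝ) + (win (D : ℤ) ((D + s : ℕ) : ℤ) (n : ℤ) : ℝ)) := by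
        rw [e1]
        refine (Finset.abs_sum_le_sum_abs _ _).trans ?_
        have e3 : ∀ b ∈ Ioc (0 : ℤ) (s : ℤ), |(if (n : ℤ) - b ∈ Q0 then (1 : ℝ) else 0) *
            ((wq Q1 b ((D : ℤ) + b) (n : ℤ) : ℝ) - (wq Q1 0 (D : ℤ) (n : ℤ) : ℝ))| ≤
            (if (n : ℤ) - b ∈ Q0 then (1 : ℝ) else 0) *
            ((win 0 (s : ℤ) (n : ℤ) : ℝ) + (win (D : ℤ) ((D + s : ℕ) : ℤ) (n : ℤ) : ℝ)) := by
          intro b hb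
          have h6 := QA_diff h1 (u := 0) (v := D) (s := s) (Nat.zero_le D) (n : ℤ) b hb
          simp only [Nat.cast_zero, zero_add] at h6
          rw [abs_mul]
          have h7 : |(if (n : ℤ) - b ∈ Q0 then (1 : ℝ) else 0)| = (if (n : ℤ) - b ∈ Q0 then (1 : ℝ) else 0) :=
            abs_of_nonneg (by split_ifs <;> norm_num)
          rw [h7]
          exact mul_le_mul_of_nonneg_left h6 (by split_ifs <;> norm_num)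
        refine (Finset.sum_le_sum e3).trans ?_
        rw [← Finset.sum_mul, ← QA_wq]
        have h8 : (wq Q0 0 (s : ℤ) (n : ℤ) : ℝ) ≤ (win 0 (s : ℤ) (n : ℤ) : ℝ) := by
          exact_mod_cast wq_le_win h0 0 (s : ℤ) (n : ℤ)
        exact mul_le_mul_of_nonneg_right h8 (by positivity)
      have e4 := mul_le_mul e2 hw2 hw0 (by positivity)
      refine e4.trans (le_of_eq ?_)
      ring
  rw [← Finset.sum_sub_distrib]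
  refine (Finset.abs_sum_le_sum_abs _ _).trans ((Finset.sum_le_sum hpt).trans ?_)
  rw [Finset.sum_add_distrib]
  refine add_le_add le_rfl ?_
  rw [← Finset.sum_filter, Finset.sum_const, nsmul_eq_mul]
  have h9 : (((range (⌊x⌋₊ + 1)).filter (fun n : ℕ => (⌊x⌋₊ : ℤ) - (s : ℤ) < (n : ℤ))).card : ℝ) ≤ s := by
    exact_mod_cast QA_card ⌊x⌋₊ s
  calc _ ≤ (s : ℝ) * ((s : ℝ) * (D : ℝ) ^ 2) := mul_le_mul_of_nonneg_right h9 (by positivity)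
    _ = _ := by ring

end Pool.Agent.H96.EQ
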