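import Pool.Agent.H96.EQ.Def4
import Pool.Agent.H96.EQ.BRS

/-!
# QB: elementary facts on windows for a set `Q` of primes

Everything as for `win` in Pool/Agent/H6/MF/BAS.lean (copy the proofs of `win_mono`, `win_neg`, `win_shift`, `win_add`, `win_le` with the predicate
`n - b ∈ Q` instead of `isP (n - b)`, classical decidability) and for `win_blocks`, `Y_shift`, `Y_neg` in `VAR.lean`.
* `wq_le_win`: the filter is contained in the other filter, since `Q ⊆ primes`.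
* `wq_sum`: for natural `u, v`: `wq Q u v n` is the sum over the natural numbers `b ∈ Ioc u v` (as in the private lemma of `BRS.lean` for `win`).
* `q3_eq`: `q3 x Q0 Q1 Q2 a b = ∑_n (if n ∈ Q0 then (if n - a ∈ Q1 then 1 else 0) * (if n - b ∈ Q2 then 1 else 0) else 0)`, sum over `a`, `b` and
  interchange (compare `S3_eq`, `SF_eq` in BRS.lean). `q3_comm`: reorder.
* `q3_le`: for sets of primes the filter is contained in the filter of `primeTriples x a b` (`isP ((n:ℤ) - a) ↔ (n - a).Prime`,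
  `Int.toNat_sub`, see `cnt_triple` in H6/MF/BRG).
* `wq_P`, `q3_P`: for `Q = {n | isP n}` the filters agree (`Finset.filter_congr_decidable`/`Finset.filter_congr`).
* `QF_le`: like `F_le`.
-/

set_option autoImplicit false

namespace Pool.Agent.H96.EQ

open Finset Pool.Agent.H6.MF

theorem wq_mono (Q : Set ℤ) {u v u' v' n : ℤ} (hu : u' ≤ u) (hv : v ≤ v') : wq Q u v n ≤ wq Q u' v' n := by
  classical
  unfold wq
  exact card_le_card (filter_subset_filter _ (Ioc_subset_Ioc hu hv))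

theorem wq_neg {Q : Set ℤ} (hQ : PQ Q) {u v n : ℤ} (hu : 0 ≤ u) (hn : n ≤ 0) : wq Q u v n = 0 := by
  classical
  unfold wq
  rw [card_eq_zero, filter_eq_empty_iff]
  intro b hb hP
  rw [mem_Ioc] at hb
  have h2 : (n - b).toNat.Prime := hQ _ hP
  rw [Int.toNat_of_nonpos (by omega)] at h2
  exact Nat.not_prime_zero h2

theorem wq_shift (Q : Set ℤ) (u v n a : ℤ) : wq Q (u + a) (v + a) (n + a) = wq Q u v n := by
  unfold wq
  refine card_nbij' (fun b => b - a) (fun b => b + a) ?_ ?_ ?_ ?_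
  · intro b hb
    simp only [coe_filter, mem_Ioc, Set.mem_ofPred_eq] at hb ⊢
    refine ⟨by omega, ?_⟩
    have h1 : n - (b - a) = n + a - b := by ring
    rw [h1]
    exact hb.2
  · intro b hb
    simp only [coe_filter, mem_Ioc, Set.mem_ofPred_eq] at hb ⊢
    refine ⟨by omega, ?_⟩
    have h1 : n + a - (b + a) = n - b := by ring
    rw [h1]
    exact hb.2
  · intro b _
    simp
  · intro b _
    simp

theorem wq_add (Q : Set ℤ) {u v w : ℤ} (huv : u ≤ v) (hvw : v ≤ w) (n : ℤ) :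
    wq Q u w n = wq Q u v n + wq Q v w n := by
  classical
  unfold wq
  rw [← card_union_of_disjoint, ← filter_union, Ioc_union_Ioc_eq_Ioc huv hvw]
  refine disjoint_filter_filter ?_
  rw [disjoint_left]
  intro a ha hb
  rw [mem_Ioc] at ha hb
  omega

theorem wq_le_win {Q : Set ℤ} (hQ : PQ Q) (u v n : ℤ) : wq Q u v n ≤ win u v n := by
  classical
  unfold wq win
  refine card_le_card fun b hb => ?_
  rw [mem_filter] at hb ⊢
  exact ⟨hb.1, hQ _ hb.2⟩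

theorem Yq_shift (x : ℝ) (Q : Set ℤ) (u v n a : ℤ) : Yq x Q (u + a) (v + a) n = Yq x Q u v (n - a) := by
  unfold Yq
  have h1 : wq Q (u + a) (v + a) n = wq Q u v (n - a) := by
    have := wq_shift Q u v (n - a) a
    rwa [sub_add_cancel] at this
  rw [h1]
  push_cast
  congr 1
  ring

theorem Yq_neg (x : ℝ) {Q : Set ℤ} (hQ : PQ Q) (u v n : ℤ) (hu : 0 ≤ u) (hn : n ≤ 0) : Yq x Q u v n = 0 := by
  unfold Yq
  rw [wq_neg hQ hu hn]
  simp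

theorem Yq_nonneg (x : ℝ) (hx : 1 ≤ x) (Q : Set ℤ) (u v n : ℤ) (huv : u ≤ v) : 0 ≤ Yq x Q u v n := by
  unfold Yq
  have h1 : (u : ℝ) ≤ v := by exact_mod_cast huv
  exact div_nonneg (mul_nonneg (Nat.cast_nonneg _) (Real.log_nonneg hx)) (sub_nonneg.2 h1)

theorem Yq_le (x : ℝ) (hx : 1 ≤ x) {Q : Set ℤ} (hQ : PQ Q) (u v n : ℤ) (huv : u ≤ v) : Yq x Q u v n ≤ Y x u v n := by
  unfold Yq Y
  have h1 : (u : ℝ) ≤ v := by exact_mod_cast huv
  refine div_le_div_of_nonneg_right (mul_le_mul_of_nonneg_right ?_ (Real.log_nonneg hx)) (sub_nonneg.2 h1)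
  exact_mod_cast wq_le_win hQ u v n

theorem wq_blocks (Q : Set ℤ) (s m : ℕ) (n : ℤ) :
    wq Q 0 ((m * s : ℕ) : ℤ) n = ∑ j ∈ range m, wq Q ((j * s : ℕ) : ℤ) (((j + 1) * s : ℕ) : ℤ) n := by
  induction m with
  | zero => simp [wq]
  | succ m ih =>
    rw [Finset.sum_range_succ, ← ih]
    refine wq_add Q ?_ ?_ n
    · exact_mod_cast Nat.zero_le _
    · exact_mod_cast Nat.mul_le_mul_right s (Nat.le_succ m)

open Classical in
theorem wq_sum (Q : Set ℤ) (u v : ℕ) (n : ℤ) :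
    (wq Q (u : ℤ) (v : ℤ) n : ℝ) = ∑ b ∈ Ioc u v, (if n - (b : ℤ) ∈ Q then (1 : ℝ) else 0) := by
  unfold wq
  rw [Finset.card_filter, Nat.cast_sum]
  symm
  refine Finset.sum_nbij' (fun b : ℕ => (b : ℤ)) (fun b : ℤ => b.toNat) ?_ ?_ ?_ ?_ ?_
  · intro b hb
    rw [Finset.mem_Ioc] at hb ⊢
    constructor
    · exact_mod_cast hb.1
    · exact_mod_cast hb.2
  · intro b hb
    rw [Finset.mem_Ioc] at hb ⊢
    omega
  · intro b _
    simp
  · intro b hb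
    rw [Finset.mem_Ioc] at hb
    have h : (0 : ℤ) ≤ b := by omega
    exact Int.toNat_of_nonneg h
  · intro b _
    by_cases h : n - (b : ℤ) ∈ Q <;> simp [h]

open Classical in
theorem QB_q3 (x : ℝ) (Q0 Q1 Q2 : Set ℤ) (a b : ℕ) : q3 x Q0 Q1 Q2 a b = ∑ n ∈ range (⌊x⌋₊ + 1),
    (if (n : ℤ) ∈ Q0 then (if (n : ℤ) - (a : ℤ) ∈ Q1 then (1 : ℝ) else 0)
      * (if (n : ℤ) - (b : ℤ) ∈ Q2 then (1 : ℝ) else 0) else 0) := by
  unfold q3
  rw [Finset.card_filter, Nat.cast_sum]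
  refine Finset.sum_congr rfl fun n _ => ?_
  by_cases h0 : (n : ℤ) ∈ Q0 <;> by_cases h1 : (n : ℤ) - (a : ℤ) ∈ Q1 <;>
    by_cases h2 : (n : ℤ) - (b : ℤ) ∈ Q2 <;> simp [h0, h1, h2]

open Classical in
theorem q3_sum (x : ℝ) (Q0 Q1 Q2 : Set ℤ) (u1 v1 u2 v2 : ℕ) :
    ∑ n ∈ range (⌊x⌋₊ + 1), (if (n : ℤ) ∈ Q0 then (wq Q1 (u1 : ℤ) (v1 : ℤ) (n : ℤ) : ℝ) else 0)
        * (wq Q2 (u2 : ℤ) (v2 : ℤ) (n : ℤ) : ℝ)
      = ∑ a ∈ Ioc u1 v1, ∑ b ∈ Ioc u2 v2, q3 x Q0 Q1 Q2 a b := by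
  have h1 : ∑ a ∈ Ioc u1 v1, ∑ b ∈ Ioc u2 v2, q3 x Q0 Q1 Q2 a b = ∑ n ∈ range (⌊x⌋₊ + 1),
      ∑ a ∈ Ioc u1 v1, ∑ b ∈ Ioc u2 v2, (if (n : ℤ) ∈ Q0 then (if (n : ℤ) - (a : ℤ) ∈ Q1 then (1 : ℝ) else 0)
      * (if (n : ℤ) - (b : ℤ) ∈ Q2 then (1 : ℝ) else 0) else 0) := by
    refine Eq.trans (Finset.sum_congr rfl fun a _ => ?_) Finset.sum_comm
    refine Eq.trans (Finset.sum_congr rfl fun b _ => ?_) Finset.sum_comm
    exact QB_q3 x Q0 Q1 Q2 a b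
  rw [h1]
  refine Finset.sum_congr rfl fun n _ => ?_
  by_cases h : (n : ℤ) ∈ Q0
  · simp only [if_pos h]
    rw [wq_sum, wq_sum, Finset.sum_mul_sum]
  · simp only [if_neg h, Finset.sum_const_zero, zero_mul]

open Classical in
theorem q3_sum_c (x : ℝ) (Q0 Q1 Q2 : Set ℤ) (D u v : ℕ) (c : ℕ → ℝ) :
    ∑ n ∈ range (⌊x⌋₊ + 1), (if (n : ℤ) ∈ Q0 then ∑ a ∈ Ioc 0 D, (if (n : ℤ) - (a : ℤ) ∈ Q1 then c a else 0) else 0)
        * (wq Q2 (u : ℤ) (v : ℤ) (n : ℤ) : ℝ)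
      = ∑ a ∈ Ioc 0 D, c a * ∑ b ∈ Ioc u v, q3 x Q0 Q1 Q2 a b := by
  have h1 : ∑ a ∈ Ioc 0 D, c a * ∑ b ∈ Ioc u v, q3 x Q0 Q1 Q2 a b = ∑ n ∈ range (⌊x⌋₊ + 1), ∑ a ∈ Ioc 0 D,
      c a * ∑ b ∈ Ioc u v, (if (n : ℤ) ∈ Q0 then (if (n : ℤ) - (a : ℤ) ∈ Q1 then (1 : ℝ) else 0)
      * (if (n : ℤ) - (b : ℤ) ∈ Q2 then (1 : ℝ) else 0) else 0) := by
    refine Eq.trans (Finset.sum_congr rfl fun a _ => ?_) Finset.sum_comm
    rw [← Finset.mul_sum]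
    congr 1
    refine Eq.trans (Finset.sum_congr rfl fun b _ => ?_) Finset.sum_comm
    exact QB_q3 x Q0 Q1 Q2 a b
  rw [h1]
  refine Finset.sum_congr rfl fun n _ => ?_
  by_cases h : (n : ℤ) ∈ Q0
  · simp only [if_pos h]
    rw [wq_sum, Finset.sum_mul]
    refine Finset.sum_congr rfl fun a _ => ?_
    rw [← Finset.mul_sum]
    by_cases h2 : (n : ℤ) - (a : ℤ) ∈ Q1
    · rw [if_pos h2, if_pos h2, one_mul]
    · rw [if_neg h2, if_neg h2]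
      ring
  · simp only [if_neg h, Finset.sum_const_zero, mul_zero, zero_mul]

open Classical in
theorem QF_le {Q0 Q1 : Set ℤ} (h0 : PQ Q0) (h1 : PQ Q1) (D : ℕ) (c : ℕ → ℝ) (hc : ∀ a, |c a| ≤ 1) (n : ℤ) :
    |if n ∈ Q0 then ∑ a ∈ Ioc 0 D, (if n - (a : ℤ) ∈ Q1 then c a else 0) else 0|
      ≤ if isP n then (win 0 (D : ℤ) n : ℝ) else 0 := by
  by_cases h : n ∈ Q0
  · rw [if_pos h, if_pos (h0 n h)]
    have hw := wq_sum Q1 0 D n
    rw [Nat.cast_zero] at hw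
    have hle : (wq Q1 0 (D : ℤ) n : ℝ) ≤ (win 0 (D : ℤ) n : ℝ) := by
      exact_mod_cast wq_le_win h1 0 (D : ℤ) n
    refine le_trans ?_ hle
    rw [hw]
    refine le_trans (Finset.abs_sum_le_sum_abs _ _) (Finset.sum_le_sum fun a _ => ?_)
    by_cases h2 : n - (a : ℤ) ∈ Q1
    · rw [if_pos h2, if_pos h2]
      exact hc a
    · rw [if_neg h2, if_neg h2, abs_zero]
  · rw [if_neg h, abs_zero]
    split_ifs
    · exact Nat.cast_nonneg _
    · exact le_rfl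

open Classical in
theorem QF_le' {Q0 Q1 : Set ℤ} (h0 : PQ Q0) (h1 : PQ Q1) (D u v : ℕ) (hv : v ≤ D) (n : ℤ) :
    |if n ∈ Q0 then (wq Q1 (u : ℤ) (v : ℤ) n : ℝ) else 0| ≤ if isP n then (win 0 (D : ℤ) n : ℝ) else 0 := by
  by_cases h : n ∈ Q0
  · rw [if_pos h, if_pos (h0 n h), Nat.abs_cast]
    have h2 : wq Q1 (u : ℤ) (v : ℤ) n ≤ wq Q1 0 (D : ℤ) n :=
      wq_mono Q1 (by positivity) (by exact_mod_cast hv)
    exact_mod_cast h2.trans (wq_le_win h1 0 (D : ℤ) n)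
  · rw [if_neg h, abs_zero]
    split_ifs
    · exact Nat.cast_nonneg _
    · exact le_rfl

theorem q3_comm (x : ℝ) (Q0 Q1 Q2 : Set ℤ) (a b : ℕ) : q3 x Q0 Q1 Q2 a b = q3 x Q0 Q2 Q1 b a := by
  classical
  rw [QB_q3, QB_q3]
  refine Finset.sum_congr rfl fun n _ => ?_
  by_cases h : (n : ℤ) ∈ Q0
  · rw [if_pos h, if_pos h, mul_comm]
  · rw [if_neg h, if_neg h]

theorem q3_nonneg (x : ℝ) (Q0 Q1 Q2 : Set ℤ) (a b : ℕ) : 0 ≤ q3 x Q0 Q1 Q2 a b := by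
  unfold q3
  exact Nat.cast_nonneg _

theorem q3_le (x : ℝ) {Q0 Q1 Q2 : Set ℤ} (h0 : PQ Q0) (h1 : PQ Q1) (h2 : PQ Q2) (a b : ℕ) :
    q3 x Q0 Q1 Q2 a b ≤ p3 x a b := by
  classical
  unfold q3 p3 Pool.Agent.H17.Triple.primeTriples
  refine Nat.cast_le.2 (card_le_card fun n hn => ?_)
  rw [mem_filter] at hn ⊢
  obtain ⟨hn0, hq0, hq1, hq2⟩ := hn
  refine ⟨hn0, (BRS_isP0 n).1 (h0 _ hq0), ?_, ?_⟩
  · exact (BRS_isP n b).1 (h2 _ hq2)
  · exact (BRS_isP n a).1 (h1 _ hq1)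

theorem QB_wq {Q : Set ℤ} (hQ : ∀ n, n ∈ Q ↔ isP n) (u v n : ℤ) : wq Q u v n = win u v n := by
  classical
  unfold wq win
  refine congrArg Finset.card ?_
  ext b
  rw [mem_filter, mem_filter, hQ]

theorem QB_q3P {Q : Set ℤ} (hQ : ∀ n, n ∈ Q ↔ isP n) (x : ℝ) (a b : ℕ) : q3 x Q Q Q a b = p3 x a b := by
  classical
  unfold q3 p3 Pool.Agent.H17.Triple.primeTriples
  refine congrArg (fun s : Finset ℕ => ((s.card : ℕ) : ℝ)) ?_
  ext n
  rw [mem_filter, mem_filter, hQ, hQ, hQ, BRS_isP0, BRS_isP, BRS_isP, and_comm (a := (n - a).Prime)]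

theorem wq_P (u v n : ℤ) : wq {n : ℤ | isP n} u v n = win u v n := by
  exact QB_wq (fun _ => Iff.rfl) u v n

theorem q3_P (x : ℝ) (a b : ℕ) : q3 x {n : ℤ | isP n} {n : ℤ | isP n} {n : ℤ | isP n} a b = p3 x a b := by
  exact QB_q3P (fun _ => Iff.rfl) x a b

end Pool.Agent.H96.EQ
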