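import Pool.Agent.H96.EQ.Def4
import Pool.Agent.H96.EQ.BLU
import Pool.Agent.H96.EQ.BLL
import Pool.Agent.H96.EQ.CRB

/-!
# QS: equidistribution in sectors from the rectangle estimates, for a general function `f`
-/

set_option autoImplicit false

namespace Pool.Agent.H96.EQ

open Finset Pool.Agent.H6.MF

theorem QS_aux_large (K : ℝ) : ∃ X : ℝ, ∀ x : ℝ, X ≤ x →
    0 ≤ x / (Real.log x) ^ 3 ∧ 1 ≤ Real.log (Real.log x) ∧ K ≤ Real.log (Real.log x) := by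
  have h1 : Filter.Tendsto (fun x : ℝ => Real.log (Real.log x)) Filter.atTop Filter.atTop :=
    Real.tendsto_log_atTop.comp Real.tendsto_log_atTop
  have h2 := ((Real.tendsto_log_atTop.eventually_ge_atTop 0).and
    (Filter.eventually_ge_atTop (0 : ℝ))).and
    ((h1.eventually_ge_atTop 1).and (h1.eventually_ge_atTop K))
  rcases Filter.eventually_atTop.mp h2 with ⟨X, hX⟩
  refine ⟨X, fun x hx => ?_⟩
  obtain ⟨⟨ha, hb⟩, hc, hd⟩ := hX x hx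
  exact ⟨by positivity, hc, hd⟩

theorem QS_log2 : (1 : ℝ) / 2 ≤ Real.log 2 ∧ Real.log 2 ≤ 1 := by
  constructor
  · have := Real.log_two_gt_d9; linarith
  · have := Real.log_two_lt_d9; linarith

theorem QS_I_le (I : ℕ) (l : ℝ) (hl : 1 ≤ l) (h : (I : ℝ) ≤ l / Real.log 2) : (I : ℝ) ≤ 2 * l := by
  have h2 := QS_log2
  refine h.trans ?_
  rw [div_le_iff₀ (by linarith [h2.1])]
  nlinarith [h2.1]

theorem QS_abs {p q b K : ℝ} (hp : 0 ≤ p) (hpK : p ≤ K) (hq : 0 ≤ q) (hqK : q ≤ K) (hb : 0 ≤ b)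
    (hb1 : b ≤ 1) : |p - b * q| ≤ K := by
  have m1 : 0 ≤ b * q := mul_nonneg hb hq
  have m2 : b * q ≤ 1 * q := mul_le_mul_of_nonneg_right hb1 hq
  rw [abs_le]
  constructor <;> linarith

theorem QS_abs2 {p q b u v K : ℝ} (hp : |p - b * u * v| ≤ K) (hq : |q - 1 * u * v| ≤ K)
    (hb : 0 ≤ b) (hb1 : b ≤ 1) : |p - b * q| ≤ 2 * K := by
  have hK : 0 ≤ K := (abs_nonneg _).trans hp
  have e : p - b * q = (p - b * u * v) - b * (q - 1 * u * v) := by ring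
  rw [e]
  have h1 : |b * (q - 1 * u * v)| ≤ K := by
    rw [abs_mul, abs_of_nonneg hb]
    calc b * |q - 1 * u * v| ≤ 1 * |q - 1 * u * v| := mul_le_mul_of_nonneg_right hb1 (abs_nonneg _)
      _ ≤ K := by rw [one_mul]; exact hq
  rw [abs_le] at hp h1 ⊢
  constructor <;> linarith [hp.1, hp.2, h1.1, h1.2]

theorem QS_sec_nonneg (f : ℕ → ℕ → ℝ) (hf : ∀ a b, 0 ≤ f a b) (α β : ℝ) (d : ℕ) :
    0 ≤ sec f α β d := by
  unfold sec
  apply mul_nonneg (by positivity)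
  exact Finset.sum_nonneg (fun a _ => hf a d)

theorem QS_sec_le (f g : ℕ → ℕ → ℝ) (hf : ∀ a b, f a b ≤ g a b) (α β : ℝ) (d : ℕ) :
    sec f α β d ≤ sec g α β d := by
  unfold sec
  exact mul_le_mul_of_nonneg_left (Finset.sum_le_sum fun a _ => hf a d) (by positivity)

theorem QSEC (C ε : ℝ) (hC : 0 < C) (hε : 0 < ε) : ∃ ε' : ℝ, 0 < ε' ∧ ∀ M : ℕ, ∃ X : ℝ, ∀ x : ℝ, X ≤ x →
    ∀ f : ℕ → ℕ → ℝ, (∀ a b, 0 ≤ f a b ∧ f a b ≤ p3 x a b) →
    (∀ g : ℕ, Real.log x ≤ g → ∀ S : Finset ℕ, (∀ i ∈ S, ((2 ^ i * g : ℕ) : ℝ) ≤ (Real.log x) ^ 2 ∧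
      ¬ (∃ κ : ℝ, 0 ≤ κ ∧ κ ≤ C ∧ BoxF f x ε' κ (2 ^ i * g))) → S.card ≤ M) →
    ∀ α β : ℝ, 0 ≤ α → α ≤ β → β ≤ 1 →
    |Tf f x α β - (β - α) * Tf f x 0 1| ≤ ε * (Real.log (Real.log x) * (x / (Real.log x) ^ 3)) := by
  classical
  obtain ⟨C₂, X₂, hC₂, hCRB⟩ := CRB
  obtain ⟨η, hηdef⟩ : ∃ η : ℝ, η = ε / 16 := ⟨_, rfl⟩
  have hη : 0 < η := by rw [hηdef]; positivity
  obtain ⟨t₀, ht₀⟩ : ∃ n : ℕ, (1 / 2 : ℝ) ^ n < η / (12 * C) :=
    exists_pow_lt_of_lt_one (by positivity) (by norm_num)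
  obtain ⟨t, ht1, htC⟩ : ∃ t : ℕ, 1 ≤ t ∧ 6 * C / 2 ^ t ≤ η / 2 := by
    refine ⟨t₀ + 1, by omega, ?_⟩
    have h1 : (1 / 2 : ℝ) ^ t₀ * (12 * C) < η := by
      rwa [lt_div_iff₀ (by positivity)] at ht₀
    have h2 : (1 / 2 : ℝ) ^ t₀ = 1 / 2 ^ t₀ := by rw [one_div_pow]
    rw [h2] at h1
    have h3 : 6 * C / 2 ^ (t₀ + 1) = 1 / 2 ^ t₀ * (12 * C) / 4 := by
      rw [pow_succ]; field_simp; ring
    rw [h3]
    linarith
  have h2t : (1 : ℝ) ≤ 2 ^ t := one_le_pow₀ (by norm_num)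
  obtain ⟨ε', hε0, hε2⟩ : ∃ ε' : ℝ, 0 < ε' ∧ 2 * 2 ^ t * ε' = η / 2 :=
    ⟨η / (4 * 2 ^ t), by positivity, by field_simp; ring⟩
  refine ⟨ε', hε0, ?_⟩
  intro M
  obtain ⟨X0, hX0⟩ := QS_aux_large (2 * (((t : ℝ) + M + 2) * C₂) / ε)
  refine ⟨max (max X0 X₂) (Real.exp 10), ?_⟩
  intro x hx f hf hS α β hα hαβ hβ
  have hxX₀ : X0 ≤ x := le_trans (le_trans (le_max_left _ _) (le_max_left _ _)) hx
  have hxX₂ : X₂ ≤ x := le_trans (le_trans (le_max_right _ _) (le_max_left _ _)) hx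
  have hxe : Real.exp 10 ≤ x := le_trans (le_max_right _ _) hx
  obtain ⟨hZ, hl1, hlK⟩ := hX0 x hxX₀
  have hx0 : 0 < x := lt_of_lt_of_le (Real.exp_pos _) hxe
  have hΛ : 10 ≤ Real.log x := by
    rw [Real.le_log_iff_exp_le hx0]; exact hxe
  have hf0 : ∀ a b, 0 ≤ f a b := fun a b => (hf a b).1
  have hf1 : ∀ a b, f a b ≤ p3 x a b := fun a b => (hf a b).2
  set Λ : ℝ := Real.log x with hΛdef
  set Z : ℝ := x / Λ ^ 3 with hZdef
  set l : ℝ := Real.log Λ with hl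
  obtain ⟨p, hp⟩ : ∃ p : ℕ, p = ⌊Λ⌋₊ := ⟨_, rfl⟩
  obtain ⟨g, hg⟩ : ∃ g : ℕ, g = ⌊Λ⌋₊ + 1 := ⟨_, rfl⟩
  obtain ⟨Q, hQ⟩ : ∃ Q : ℕ, Q = ⌊Λ ^ 2⌋₊ := ⟨_, rfl⟩
  have hpΛ : (p : ℝ) ≤ Λ := by rw [hp]; exact Nat.floor_le (by linarith)
  have hΛp : Λ < (p : ℝ) + 1 := by rw [hp]; exact Nat.lt_floor_add_one _
  have hgp : g = p + 1 := by rw [hg, hp]
  have hgpR : (g : ℝ) = (p : ℝ) + 1 := by rw [hgp]; push_cast; ring
  have hΛg : Λ ≤ (g : ℝ) := by rw [hgpR]; exact hΛp.le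
  have hgΛ : (g : ℝ) ≤ Λ + 1 := by rw [hgpR]; linarith
  have hQΛ : (Q : ℝ) ≤ Λ ^ 2 := by rw [hQ]; exact Nat.floor_le (by positivity)
  have hΛQ : Λ ^ 2 < (Q : ℝ) + 1 := by rw [hQ]; exact Nat.lt_floor_add_one _
  have hg0 : 0 < g := by omega
  have hp1 : 1 ≤ p := by
    have h' : (0 : ℝ) < (p : ℝ) := by linarith
    exact_mod_cast h'
  have hgQ : g ≤ Q := by
    have : (g : ℝ) < (Q : ℝ) + 1 := by nlinarith
    have h' : g < Q + 1 := by exact_mod_cast this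
    omega
  obtain ⟨I, hI⟩ : ∃ I : ℕ, I = Nat.log 2 (Q / g) := ⟨_, rfl⟩
  have hQg : Q / g ≠ 0 := by
    have := Nat.div_pos hgQ hg0
    omega
  have hIQ : 2 ^ I * g ≤ Q := by
    have h1 : 2 ^ I ≤ Q / g := by rw [hI]; exact Nat.pow_log_le_self 2 hQg
    exact (Nat.le_div_iff_mul_le hg0).1 h1
  have hQI : Q < 2 ^ (I + 1) * g := by
    have h1 : Q / g < 2 ^ (I + 1) := by rw [hI]; exact Nat.lt_pow_succ_log_self (by norm_num) _
    exact (Nat.div_lt_iff_lt_mul hg0).1 h1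
  have hIQR : (2 : ℝ) ^ I * g ≤ Λ ^ 2 := by
    have : ((2 ^ I * g : ℕ) : ℝ) ≤ (Q : ℝ) := by exact_mod_cast hIQ
    push_cast at this
    linarith
  have hlog2 : 0 < Real.log 2 := Real.log_pos (by norm_num)
  have hle : ∀ j ≤ I, ((2 ^ j * g : ℕ) : ℝ) ≤ Λ ^ 2 := by
    intro j hj
    have h1 : 2 ^ j * g ≤ 2 ^ I * g := Nat.mul_le_mul_right _ (Nat.pow_le_pow_right (by norm_num) hj)
    have h2 : ((2 ^ j * g : ℕ) : ℝ) ≤ ((2 ^ I * g : ℕ) : ℝ) := by exact_mod_cast h1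
    have h3 : ((2 ^ I * g : ℕ) : ℝ) = (2 : ℝ) ^ I * g := by push_cast; ring
    linarith
  have hI1 : (I : ℝ) ≤ l / Real.log 2 := by
    rw [le_div_iff₀ hlog2, ← Real.log_pow]
    apply Real.log_le_log (by positivity)
    have h1 : (2 : ℝ) ^ I * Λ ≤ Λ ^ 2 := by
      refine le_trans ?_ hIQR
      exact mul_le_mul_of_nonneg_left hΛg (by positivity)
    nlinarith
  have hI3 : (I : ℝ) ≤ 2 * l := QS_I_le I l hl1 hI1
  have h23 : 2 * Λ ^ 2 ≤ Λ ^ 3 := by nlinarith [sq_nonneg Λ]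
  have hba0 : 0 ≤ β - α := by linarith
  have hba1 : β - α ≤ 1 := by linarith
  -- crude bounds
  have hcr : ∀ P R : ℕ, 1 ≤ P → R ≤ 2 * P → Λ ≤ R → 2 * (R : ℝ) ≤ Λ ^ 3 → ∀ a b : ℝ, 0 ≤ a →
      0 ≤ ∑ d ∈ Ioc P R, sec f a b d ∧ ∑ d ∈ Ioc P R, sec f a b d ≤ C₂ * Z := by
    intro P R h1 h2 h3 h4 a b ha
    refine ⟨sum_nonneg fun d _ => QS_sec_nonneg f hf0 a b d, ?_⟩
    exact (sum_le_sum fun d _ => QS_sec_le f (p3 x) hf1 a b d).trans
      (hCRB x hxX₂ P R h1 h2 h3 h4 a b ha)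
  have hblk : ∀ i ∈ range I, ∀ a b : ℝ, 0 ≤ a →
      0 ≤ ∑ d ∈ Ioc (2 ^ i * g) (2 ^ (i + 1) * g), sec f a b d ∧
      ∑ d ∈ Ioc (2 ^ i * g) (2 ^ (i + 1) * g), sec f a b d ≤ C₂ * Z := by
    intro i hi a b ha
    have hiI : i + 1 ≤ I := mem_range.1 hi
    refine hcr _ _ ?_ ?_ ?_ ?_ a b ha
    · exact Nat.mul_pos (by positivity) hg0
    · rw [pow_succ]; apply le_of_eq; ring
    · refine le_trans hΛg ?_
      have : g ≤ 2 ^ (i + 1) * g := Nat.le_mul_of_pos_left _ (by positivity)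
      exact_mod_cast this
    · have h3 := hle (i + 1) hiI
      linarith
  -- the bad blocks
  obtain ⟨bad, hbad⟩ : ∃ bad : Finset ℕ, bad = (range I).filter (fun i => i + 1 < t ∨
      ¬ (∃ κ : ℝ, 0 ≤ κ ∧ κ ≤ C ∧ BoxF f x ε' κ (2 ^ (i + 1) * g))) := ⟨_, rfl⟩
  have hcard : bad.card ≤ t + M := by
    rw [hbad, filter_or]
    refine le_trans (card_union_le _ _) (add_le_add ?_ ?_)
    · calc ((range I).filter (fun i => i + 1 < t)).card ≤ (range t).card := by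
            apply card_le_card
            intro i hi
            rw [mem_filter] at hi
            rw [mem_range]
            omega
        _ = t := card_range t
    · have hM1 := hS g hΛg ((range (I + 1)).filter (fun j =>
        ¬ (∃ κ : ℝ, 0 ≤ κ ∧ κ ≤ C ∧ BoxF f x ε' κ (2 ^ j * g)))) (by
          intro j hj
          have hj' := mem_filter.1 hj
          exact ⟨hle j (by have := mem_range.1 hj'.1; omega), hj'.2⟩)
      refine le_trans ?_ hM1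
      apply card_le_card_of_injOn (fun i => i + 1)
      · intro i hi
        have hi' := (mem_filter.1 (mem_coe.1 hi))
        rw [mem_coe, mem_filter, mem_range]
        refine ⟨?_, hi'.2⟩
        have := mem_range.1 hi'.1
        show i + 1 < I + 1
        omega
      · intro i _ j _ hij
        simpa using hij
  have hterm : ∀ i ∈ range I,
      |∑ d ∈ Ioc (2 ^ i * g) (2 ^ (i + 1) * g), sec f α β d -
        (β - α) * ∑ d ∈ Ioc (2 ^ i * g) (2 ^ (i + 1) * g), sec f 0 1 d|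
      ≤ 2 * η * Z + (if i ∈ bad then C₂ * Z else 0) := by
    intro i hi
    have hCZ : 0 ≤ C₂ * Z := by positivity
    have hηZ : 0 ≤ η * Z := by positivity
    by_cases hb : i ∈ bad
    · rw [if_pos hb]
      obtain ⟨b1, b2⟩ := hblk i hi α β hα
      obtain ⟨b3, b4⟩ := hblk i hi 0 1 le_rfl
      have := QS_abs b1 b2 b3 b4 hba0 hba1
      linarith
    · rw [if_neg hb, add_zero]
      have hnb : t ≤ i + 1 ∧ ∃ κ : ℝ, 0 ≤ κ ∧ κ ≤ C ∧ BoxF f x ε' κ (2 ^ (i + 1) * g) := by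
        by_contra hcon
        apply hb
        rw [hbad, mem_filter]
        refine ⟨hi, ?_⟩
        by_contra hc2
        rw [not_or, not_not, not_lt] at hc2
        exact hcon hc2
      obtain ⟨hti, k, hk0, hk2, hbox⟩ := hnb
      obtain ⟨h, hh⟩ : ∃ h : ℕ, h = 2 ^ (i + 1 - t) * g := ⟨_, rfl⟩
      have hD : 2 ^ (i + 1) * g = 2 ^ t * h := by
        rw [hh, ← mul_assoc, ← pow_add]
        congr 2
        omega
      have hD' : 2 ^ i * g = 2 ^ (t - 1) * h := by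
        rw [hh, ← mul_assoc, ← pow_add]
        congr 2
        omega
      have hh1 : 1 ≤ h := by
        rw [hh]
        exact Nat.mul_pos (by positivity) hg0
      unfold BoxF at hbox
      rw [hD] at hbox
      have hE : (6 * k / 2 ^ t + 2 * 2 ^ t * ε') * Z ≤ η * Z := by
        apply mul_le_mul_of_nonneg_right _ hZ
        have h6 : 6 * k / 2 ^ t ≤ 6 * C / 2 ^ t := by
          apply div_le_div_of_nonneg_right _ (by positivity)
          linarith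
        rw [hε2]
        linarith
      have key : ∀ a b : ℝ, 0 ≤ a → a ≤ b → b ≤ 1 →
          |∑ d ∈ Ioc (2 ^ i * g) (2 ^ (i + 1) * g), sec f a b d - (b - a) * (k * Hs t) * Z| ≤ η * Z := by
        intro a b h0 h1 h2
        have hU := BLU f hf0 h t hh1 ht1 k ε' Z hk0 hε0.le hZ hbox a b h0 h1 h2
        have hL := BLL f hf0 h t hh1 ht1 k ε' Z hk0 hε0.le hZ hbox a b h0 h1 h2
        rw [hD, hD', abs_le]
        constructor
        · linarith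
        · linarith
      have g1 := key α β hα hαβ hβ
      have g2 := key 0 1 le_rfl zero_le_one le_rfl
      rw [sub_zero] at g2
      have := QS_abs2 g1 g2 hba0 hba1
      linarith
  have hsum : |∑ i ∈ range I, (∑ d ∈ Ioc (2 ^ i * g) (2 ^ (i + 1) * g), sec f α β d -
        (β - α) * ∑ d ∈ Ioc (2 ^ i * g) (2 ^ (i + 1) * g), sec f 0 1 d)|
      ≤ (I : ℝ) * (2 * η * Z) + ((t : ℝ) + M) * (C₂ * Z) := by
    refine (Finset.abs_sum_le_sum_abs _ _).trans ?_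
    refine (Finset.sum_le_sum hterm).trans ?_
    rw [Finset.sum_add_distrib, Finset.sum_const, card_range, nsmul_eq_mul, Finset.sum_ite_mem,
      Finset.sum_const, nsmul_eq_mul]
    have hc : (((range I ∩ bad).card : ℕ) : ℝ) ≤ (t : ℝ) + M := by
      have h1 : (range I ∩ bad).card ≤ t + M :=
        (Finset.card_le_card Finset.inter_subset_right).trans hcard
      exact_mod_cast h1
    have hCZ : 0 ≤ C₂ * Z := by positivity
    have := mul_le_mul_of_nonneg_right hc hCZ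
    linarith
  have hdec : ∀ a b : ℝ, Tf f x a b = ∑ d ∈ Ioc p g, sec f a b d
      + ∑ i ∈ range I, ∑ d ∈ Ioc (2 ^ i * g) (2 ^ (i + 1) * g), sec f a b d
      + ∑ d ∈ Ioc (2 ^ I * g) Q, sec f a b d := by
    intro a b
    unfold Tf
    rw [← hΛdef, ← hp, ← hQ]
    exact dya_dec (fun d => sec f a b d) p g Q I (by omega) hIQ
  have hA : ∀ a b : ℝ, 0 ≤ a → 0 ≤ ∑ d ∈ Ioc p g, sec f a b d ∧
      ∑ d ∈ Ioc p g, sec f a b d ≤ C₂ * Z := by
    intro a b ha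
    exact hcr p g hp1 (by omega) hΛg (by nlinarith) a b ha
  have hB : ∀ a b : ℝ, 0 ≤ a → 0 ≤ ∑ d ∈ Ioc (2 ^ I * g) Q, sec f a b d ∧
      ∑ d ∈ Ioc (2 ^ I * g) Q, sec f a b d ≤ C₂ * Z := by
    intro a b ha
    refine hcr (2 ^ I * g) Q (Nat.mul_pos (by positivity) hg0) ?_ ?_ ?_ a b ha
    · rw [pow_succ] at hQI
      have : 2 ^ I * 2 * g = 2 * (2 ^ I * g) := by ring
      omega
    · refine le_trans hΛg ?_
      exact_mod_cast hgQ
    · linarith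
  have hA1 := QS_abs (hA α β hα).1 (hA α β hα).2 (hA 0 1 le_rfl).1 (hA 0 1 le_rfl).2 hba0 hba1
  have hB1 := QS_abs (hB α β hα).1 (hB α β hα).2 (hB 0 1 le_rfl).1 (hB 0 1 le_rfl).2 hba0 hba1
  have hid : Tf f x α β - (β - α) * Tf f x 0 1
      = (∑ d ∈ Ioc p g, sec f α β d - (β - α) * ∑ d ∈ Ioc p g, sec f 0 1 d)
        + ∑ i ∈ range I, (∑ d ∈ Ioc (2 ^ i * g) (2 ^ (i + 1) * g), sec f α β d -
        (β - α) * ∑ d ∈ Ioc (2 ^ i * g) (2 ^ (i + 1) * g), sec f 0 1 d)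
        + (∑ d ∈ Ioc (2 ^ I * g) Q, sec f α β d
          - (β - α) * ∑ d ∈ Ioc (2 ^ I * g) Q, sec f 0 1 d) := by
    rw [hdec, hdec, Finset.sum_sub_distrib, ← Finset.mul_sum]
    ring
  rw [hid]
  refine (abs_add_le _ _).trans ((add_le_add (abs_add_le _ _) le_rfl).trans ?_)
  have hKl : ((t : ℝ) + M + 2) * C₂ ≤ ε * l / 2 := by
    rw [div_le_iff₀ hε] at hlK
    linarith
  have e1 : (I : ℝ) * (2 * η * Z) ≤ (2 * l) * (2 * η * Z) :=
    mul_le_mul_of_nonneg_right hI3 (by positivity)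
  have e2 : ((t : ℝ) + M + 2) * C₂ * Z ≤ ε * l / 2 * Z := mul_le_mul_of_nonneg_right hKl hZ
  have e3 : (2 * l) * (2 * η * Z) = ε * l / 4 * Z := by rw [hηdef]; ring
  have e4 : 0 ≤ ε * l * Z := by positivity
  calc _ ≤ C₂ * Z + ((I : ℝ) * (2 * η * Z) + ((t : ℝ) + M) * (C₂ * Z)) + C₂ * Z :=
        add_le_add (add_le_add hA1 hsum) hB1
    _ ≤ ε * l / 4 * Z + ε * l / 2 * Z := by linarith
    _ ≤ ε * (l * Z) := by linarith

end Pool.Agent.H96.EQ
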