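import Pool.Agent.H96.EQ.QM
import Pool.Agent.H96.EQ.QS
import Pool.Agent.H96.EQ.KAP

/-!
# QF: equidistribution in sectors for three sets of primes

* `kq_nonneg`: `Yq_nonneg`. `kq_le_kap`: `0 ≤ Yq x Qi 0 D n ≤ Y x 0 D n` (`Yq_le`), so the product is `≤ (Y x 0 D n)^3`.
* `kq_P`: `wq_P`, so `Yq x P = Y x`; `a * a * a = a ^ 3`.
* `QFIN`: `C` from `kap_le`. `QSEC C ε` gives `ε'`; `QMX ε'` gives `M`, `X₁`; `QSEC` with this `M` gives `X₂`. For `x ≥ X₁, X₂`, the threshold of `kap_le`, and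
  `log x ≥ 1`: apply `QSEC` to `f = q3 x Q0 Q1 Q2` (`q3_nonneg`, `q3_le`). Its hypothesis: if `i ∈ S` then `2^i g ≤ Λ^2 ≤ Λ^3` and not `∃ κ ...`, so with
  `κ = kq x Q0 Q1 Q2 (2^i g)` (`0 ≤ κ ≤ C` by `kq_nonneg`, `kq_le_kap`, `kap_le`) `BoxF` fails, and the hypothesis of `QMX ε'` holds for `S`.
-/

set_option autoImplicit false

namespace Pool.Agent.H96.EQ

open Finset Pool.Agent.H6.MF

theorem kq_nonneg (x : ℝ) (hx : 1 ≤ x) (Q0 Q1 Q2 : Set ℤ) (D : ℕ) : 0 ≤ kq x Q0 Q1 Q2 D := by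
  have hD : (0 : ℤ) ≤ (D : ℤ) := Int.natCast_nonneg D
  unfold kq
  refine div_nonneg (Finset.sum_nonneg fun n _ => ?_) (by linarith)
  exact mul_nonneg (mul_nonneg (Yq_nonneg x hx Q0 _ _ _ hD) (Yq_nonneg x hx Q1 _ _ _ hD))
    (Yq_nonneg x hx Q2 _ _ _ hD)

theorem kq_le_kap (x : ℝ) (hx : 1 ≤ x) {Q0 Q1 Q2 : Set ℤ} (h0 : PQ Q0) (h1 : PQ Q1) (h2 : PQ Q2) (D : ℕ) :
    kq x Q0 Q1 Q2 D ≤ kap x D := by
  have hD : (0 : ℤ) ≤ (D : ℤ) := Int.natCast_nonneg D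
  unfold kq kap
  apply div_le_div_of_nonneg_right _ (by linarith)
  apply Finset.sum_le_sum
  intro n _
  have y0 := Yq_nonneg x hx Q0 0 (D : ℤ) (n : ℤ) hD
  have y1 := Yq_nonneg x hx Q1 0 (D : ℤ) (n : ℤ) hD
  have y2 := Yq_nonneg x hx Q2 0 (D : ℤ) (n : ℤ) hD
  have z0 := Yq_le x hx h0 0 (D : ℤ) (n : ℤ) hD
  have z1 := Yq_le x hx h1 0 (D : ℤ) (n : ℤ) hD
  have z2 := Yq_le x hx h2 0 (D : ℤ) (n : ℤ) hD
  have hY : 0 ≤ Y x 0 (D : ℤ) (n : ℤ) := y0.trans z0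
  calc Yq x Q0 0 (D : ℤ) (n : ℤ) * Yq x Q1 0 (D : ℤ) (n : ℤ) * Yq x Q2 0 (D : ℤ) (n : ℤ)
      ≤ Y x 0 (D : ℤ) (n : ℤ) * Y x 0 (D : ℤ) (n : ℤ) * Y x 0 (D : ℤ) (n : ℤ) :=
        mul_le_mul (mul_le_mul z0 z1 y1 hY) z2 y2 (mul_nonneg hY hY)
    _ = Y x 0 (D : ℤ) (n : ℤ) ^ 3 := by ring

theorem kq_P (x : ℝ) (D : ℕ) : kq x {n : ℤ | isP n} {n : ℤ | isP n} {n : ℤ | isP n} D = kap x D := by
  have h : ∀ u v n : ℤ, Yq x {n : ℤ | isP n} u v n = Y x u v n := by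
    intro u v n
    unfold Yq Y
    rw [wq_P]
  unfold kq kap
  congr 1
  apply Finset.sum_congr rfl
  intro n _
  rw [h]
  ring

theorem QFIN (ε : ℝ) (hε : 0 < ε) : ∃ X : ℝ, ∀ x : ℝ, X ≤ x → ∀ Q0 Q1 Q2 : Set ℤ, PQ Q0 → PQ Q1 → PQ Q2 →
    ∀ α β : ℝ, 0 ≤ α → α ≤ β → β ≤ 1 →
    |Tf (q3 x Q0 Q1 Q2) x α β - (β - α) * Tf (q3 x Q0 Q1 Q2) x 0 1|
      ≤ ε * (Real.log (Real.log x) * (x / (Real.log x) ^ 3)) := by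
  obtain ⟨C, X₀, hC, hkap⟩ := kap_le
  obtain ⟨ε', hε', hsec⟩ := QSEC C ε hC hε
  obtain ⟨M, X₁, hM⟩ := QMX ε' hε'
  obtain ⟨X₂, hX₂⟩ := hsec M
  refine ⟨max (max X₀ X₁) (max X₂ (Real.exp 1)), fun x hx Q0 Q1 Q2 h0 h1 h2 α β hα hαβ hβ => ?_⟩
  have hx0 : X₀ ≤ x := ((le_max_left _ _).trans (le_max_left _ _)).trans hx
  have hxM : X₁ ≤ x := ((le_max_right _ _).trans (le_max_left _ _)).trans hx
  have hx2 : X₂ ≤ x := ((le_max_left _ _).trans (le_max_right _ _)).trans hx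
  have hxe : Real.exp 1 ≤ x := ((le_max_right _ _).trans (le_max_right _ _)).trans hx
  have hx1 : 1 ≤ x := by
    have := Real.add_one_le_exp (1 : ℝ)
    linarith
  have hL : 1 ≤ Real.log x := by
    rw [Real.le_log_iff_exp_le (by linarith)]
    exact hxe
  refine hX₂ x hx2 (q3 x Q0 Q1 Q2) (fun a b => ⟨q3_nonneg x Q0 Q1 Q2 a b, q3_le x h0 h1 h2 a b⟩) ?_ α β hα hαβ hβ
  intro g hg S hS
  refine hM x hxM Q0 Q1 Q2 h0 h1 h2 g hg S (fun i hi => ?_)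
  obtain ⟨ha, hb⟩ := hS i hi
  refine ⟨ha, fun hc => hb ?_⟩
  refine ⟨kq x Q0 Q1 Q2 (2 ^ i * g), kq_nonneg x hx1 Q0 Q1 Q2 _,
    (kq_le_kap x hx1 h0 h1 h2 _).trans (hkap x hx0 (2 ^ i * g) ?_ ?_), hc.1⟩
  · push_cast
    have h3 : (1 : ℝ) ≤ 2 ^ i := one_le_pow₀ (by norm_num)
    have h4 : (0 : ℝ) ≤ g := Nat.cast_nonneg g
    nlinarith
  · refine ha.trans ?_
    exact pow_le_pow_right₀ hL (by norm_num)

end Pool.Agent.H96.EQ
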