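import Pool.Agent.H96.EQ.QV
import Pool.Agent.H96.EQ.QA
import Pool.Agent.H96.EQ.LEF

/-!
# QK: the number of triples at a scale regular for `Q₀` is given by the mixed third moment

Notation: `Λ = log x`, `Z = x/Λ^3`, `D = 2^r s`, `B = 4^r s`, `W₀ = wq Q0`, etc.; `S = ∑_n [n ∈ Q0] W₁(0,D] W₂(0,D]` (this is
`∑_{a,b ≤ D} q3 x Q0 Q1 Q2 a b`, `q3_sum` with `u1 = u2 = 0`, `v1 = v2 = D`). `K` from `MO4`, `C₁` from `TRP`, `C` from `TRY`; `r ≥ 2`.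
0. *Truncation.* `F n = if n ≤ N - s then (if n ∈ Q0 then wq Q1 0 D n else 0) else 0` (`N = ⌊x⌋₊`). `|F n| ≤ if isP n then win 0 D n else 0` (`QF_le'`). Dropping
   the at most `s` values `n > N - s` changes `S` by at most `s D^2`.
1. `QAVE` (with `Q = Q2`, `(u,v] = (0,D]`) and `TRP` (as in `LEF_avg`): `|s ∑ F W₂(0,D] - ∑ G W₂(0,D]| ≤ 4 C₁ s^2 D Z`, `G n = ∑_b F (n - b)`.
2. `QG` and `TRP` (windows `(0,s]`, `(0,D]`, `(0,s]` resp. `(D,D+s]`): `|∑ G W₂(0,D] - ∑ W₀(0,s] W₁(0,D] W₂(0,D]| ≤ 2 C₁ s^2 D Z + s^2 D^2`.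
3. `∑ W₀(0,s] W₁(0,D] W₂(0,D] = (s D^2/Λ^3) ∑ Y₀(0,s] Y₁(0,D] Y₂(0,D]` (`Yq`), and replacing `Y₀(0,s]` by `Y₀(0,D]` changes the last sum by at most
   `∑ |Y₀(0,s] - Y₀(0,D]| Y(0,D] Y(0,D] ≤ C ρ x` (`TRY` with `f n = Yq x Q0 0 s n - Yq x Q0 0 D n`; `0 ≤ Yq ≤ Y`, `Yq_le`, `Yq_nonneg`), where
   `∑ f^2 ≤ 2 ∑ (Y₀(0,s] - V)^2 + 2 ∑ (Y₀(0,D] - V)^2 ≤ (2 · 4^r δ + 2 (4 · 4^r δ + 48 K^2 4^(-r))) x =: ρ^2 x` with `V = Yq x Q0 0 B n`: the first by the term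
   `j = 0` of `QVAR` (`m = 4^r`), the second by `QCLO` with `C = 2 K^2` (`Eq2_le`, `MO4`), `u = 0`, `v = D`, `s/D = 2^(-r)`. So
   `|∑ W₀ W₁ W₂ - s D^2 Z kq x Q0 Q1 Q2 D| ≤ s D^2 Z C ρ` (recall `kq = (1/x) ∑ Y₀(0,D] Y₁(0,D] Y₂(0,D]`).
4. Divide by `s`: `|S - kq D^2 Z| ≤ (6 C₁ 2^(-r) + C ρ) D^2 Z + 2 s D^2`, and `2 s D^2 ≤ (ε/4) D^2 Z` for large `x` (`s ≤ Λ^3`, `8 Λ^6 ≤ ε x`). Choose `r₀`, `δ`.
-/

set_option autoImplicit false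

namespace Pool.Agent.H96.EQ

open Finset Pool.Agent.H6.MF

theorem QK_trunc (N s D : ℕ) (F W : ℤ → ℝ) (hF : ∀ n : ℤ, |F n| ≤ (D : ℝ)) (hW0 : ∀ n : ℤ, 0 ≤ W n)
    (hW : ∀ n : ℤ, W n ≤ (D : ℝ)) :
    |∑ n ∈ range (N + 1), F (n : ℤ) * W (n : ℤ)
      - ∑ n ∈ range (N + 1), (if (n : ℤ) ≤ (N : ℤ) - (s : ℤ) then F (n : ℤ) else 0) * W (n : ℤ)|
      ≤ (s : ℝ) * (D : ℝ) ^ 2 := by
  rw [← sum_sub_distrib]
  refine (abs_sum_le_sum_abs _ _).trans ?_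
  calc ∑ n ∈ range (N + 1), |F (n : ℤ) * W (n : ℤ) -
        (if (n : ℤ) ≤ (N : ℤ) - (s : ℤ) then F (n : ℤ) else 0) * W (n : ℤ)|
      ≤ ∑ n ∈ range (N + 1), (if (N : ℤ) - (s : ℤ) < (n : ℤ) then (D : ℝ) ^ 2 else 0) := by
        refine sum_le_sum fun n _ => ?_
        by_cases hn : (n : ℤ) ≤ (N : ℤ) - (s : ℤ)
        · rw [if_pos hn, if_neg (not_lt.2 hn), sub_self, abs_zero]
        · rw [if_neg hn, if_pos (not_le.1 hn), zero_mul, sub_zero, abs_mul, sq]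
          refine mul_le_mul (hF _) ?_ (abs_nonneg _) (by positivity)
          rw [abs_of_nonneg (hW0 _)]
          exact hW _
    _ = ((range (N + 1)).filter (fun n : ℕ => (N : ℤ) - (s : ℤ) < (n : ℤ))).card *
          (D : ℝ) ^ 2 := by
        rw [← sum_filter, sum_const, nsmul_eq_mul]
    _ ≤ (s : ℝ) * (D : ℝ) ^ 2 := by
        have h3 : (((range (N + 1)).filter
            (fun n : ℕ => (N : ℤ) - (s : ℤ) < (n : ℤ))).card : ℝ) ≤ s := by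
          exact_mod_cast LEF_card N s
        exact mul_le_mul_of_nonneg_right h3 (by positivity)

theorem QK_fsq (x K δ : ℝ) {Q : Set ℤ} (hQ : PQ Q) (s r : ℕ) (hx : 0 ≤ x) (hs : 1 ≤ s)
    (hE : Eq2 x Q s ≤ 2 * K ^ 2 * x) (hδ : Eq2 x Q s - Eq2 x Q (4 ^ r * s) ≤ δ * x) :
    ∑ n ∈ range (⌊x⌋₊ + 1), (Yq x Q 0 (s : ℤ) (n : ℤ) - Yq x Q 0 ((2 ^ r * s : ℕ) : ℤ) (n : ℤ)) ^ 2
      ≤ (10 * 4 ^ r * δ + 96 * K ^ 2 * (1 / 4) ^ r) * x := by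
  have hm : 1 ≤ 4 ^ r := Nat.one_le_pow _ _ (by norm_num)
  have h1 : ∑ n ∈ range (⌊x⌋₊ + 1), (Yq x Q 0 (s : ℤ) (n : ℤ) -
      Yq x Q 0 ((4 ^ r * s : ℕ) : ℤ) (n : ℤ)) ^ 2 ≤ 4 ^ r * (δ * x) := by
    have h2 := QVAR x hQ s (4 ^ r) hs hm
    have h3 : ∑ n ∈ range (⌊x⌋₊ + 1),
        (Yq x Q ((0 * s : ℕ) : ℤ) (((0 + 1) * s : ℕ) : ℤ) (n : ℤ) -
          Yq x Q 0 ((4 ^ r * s : ℕ) : ℤ) (n : ℤ)) ^ 2 ≤ _ :=
      (single_le_sum (f := fun j => ∑ n ∈ range (⌊x⌋₊ + 1),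
        (Yq x Q ((j * s : ℕ) : ℤ) (((j + 1) * s : ℕ) : ℤ) (n : ℤ) -
          Yq x Q 0 ((4 ^ r * s : ℕ) : ℤ) (n : ℤ)) ^ 2)
        (fun j _ => sum_nonneg fun n _ => sq_nonneg _) (mem_range.2 hm)).trans h2
    rw [Nat.zero_mul, Nat.zero_add, Nat.one_mul, Nat.cast_zero] at h3
    refine h3.trans ?_
    push_cast
    exact mul_le_mul_of_nonneg_left hδ (by positivity)
  have h4 := QCLO x (2 * K ^ 2) δ hQ s (4 ^ r) 0 (2 ^ r * s) hx hs hm (by positivity) hE hδ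
    (by rw [Nat.zero_add]; exact Nat.le_mul_of_pos_left s (by positivity))
    (Nat.mul_le_mul_right s (Nat.pow_le_pow_left (by norm_num) r))
  rw [Nat.cast_zero, Nat.cast_zero, sub_zero] at h4
  have hs0 : (0 : ℝ) < s := by exact_mod_cast (by omega : 0 < s)
  have h5 : ((s : ℝ) / ((2 ^ r * s : ℕ) : ℝ)) ^ 2 = (1 / 4) ^ r := by
    have h6 : (s : ℝ) / ((2 ^ r * s : ℕ) : ℝ) = (1 / 2) ^ r := by
      push_cast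
      rw [div_pow, one_pow]
      field_simp
    rw [h6, ← pow_mul, mul_comm r 2, pow_mul]
    norm_num
  rw [h5] at h4
  push_cast at h4
  push_cast at h1
  calc _ ≤ ∑ n ∈ range (⌊x⌋₊ + 1), (2 * (Yq x Q 0 (s : ℤ) (n : ℤ) -
              Yq x Q 0 (4 ^ r * (s : ℤ)) (n : ℤ)) ^ 2 +
              2 * (Yq x Q 0 (2 ^ r * (s : ℤ)) (n : ℤ) -
              Yq x Q 0 (4 ^ r * (s : ℤ)) (n : ℤ)) ^ 2) := by
              refine sum_le_sum fun n _ => ?_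
              push_cast
              nlinarith [sq_nonneg (Yq x Q 0 (s : ℤ) (n : ℤ) -
                Yq x Q 0 (4 ^ r * (s : ℤ)) (n : ℤ) +
                (Yq x Q 0 (2 ^ r * (s : ℤ)) (n : ℤ) -
                Yq x Q 0 (4 ^ r * (s : ℤ)) (n : ℤ)))]
    _ = 2 * ∑ n ∈ range (⌊x⌋₊ + 1), (Yq x Q 0 (s : ℤ) (n : ℤ) -
              Yq x Q 0 (4 ^ r * (s : ℤ)) (n : ℤ)) ^ 2 +
              2 * ∑ n ∈ range (⌊x⌋₊ + 1), (Yq x Q 0 (2 ^ r * (s : ℤ)) (n : ℤ) -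
              Yq x Q 0 (4 ^ r * (s : ℤ)) (n : ℤ)) ^ 2 := by
              rw [sum_add_distrib, mul_sum, mul_sum]
    _ ≤ _ := by nlinarith [h1, h4]

open Classical in
theorem QK_core (C1 C2 x ρ : ℝ) (hC1 : 0 < C1) (hx : 1 ≤ x)
    (hΛ : 1 ≤ Real.log x) (hP : LEF_P C1 x)
    (hTY : ∀ (f : ℕ → ℝ), ∑ n ∈ range (⌊x⌋₊ + 1), f n ^ 2 ≤ ρ ^ 2 * x → ∀ u0 v0 u1 v1 : ℕ,
      (v0 : ℝ) ≤ (Real.log x) ^ 3 → (v1 : ℝ) ≤ (Real.log x) ^ 3 →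
      (u0 : ℝ) + Real.log x ≤ v0 → (u1 : ℝ) + Real.log x ≤ v1 →
      ∑ n ∈ range (⌊x⌋₊ + 1), |f n * Y x (u0 : ℤ) (v0 : ℤ) (n : ℤ) *
        Y x (u1 : ℤ) (v1 : ℤ) (n : ℤ)| ≤ C2 * ρ * x)
    {Q0 Q1 Q2 : Set ℤ} (h0 : PQ Q0) (h1 : PQ Q1) (h2 : PQ Q2) (s D : ℕ) (hs : Real.log x ≤ s)
    (hsD : s ≤ D) (hD2 : ((2 * D : ℕ) : ℝ) ≤ Real.log x ^ 3)
    (hY : ∑ n ∈ range (⌊x⌋₊ + 1), (Yq x Q0 0 (s : ℤ) (n : ℤ) - Yq x Q0 0 (D : ℤ) (n : ℤ)) ^ 2 ≤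
      ρ ^ 2 * x) :
    |∑ a ∈ Ioc 0 D, ∑ b ∈ Ioc 0 D, q3 x Q0 Q1 Q2 a b
        - kq x Q0 Q1 Q2 D * (D : ℝ) ^ 2 * (x / (Real.log x) ^ 3)|
      ≤ 2 * s * (D : ℝ) ^ 2 + 6 * C1 * s * D * (x / (Real.log x) ^ 3) +
        C2 * ρ * (D : ℝ) ^ 2 * (x / (Real.log x) ^ 3) := by
  have hΛ0 : 0 < Real.log x := by linarith
  have hx0 : 0 < x := by linarith
  have hs1 : (1 : ℝ) ≤ s := hΛ.trans hs
  have hs0 : (0 : ℝ) < s := by linarith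
  have hs1' : 1 ≤ s := by exact_mod_cast hs1
  have hDpos : (0 : ℝ) < D := by exact_mod_cast (by omega : 0 < D)
  have hsDR : (s : ℝ) ≤ D := by exact_mod_cast hsD
  have hle : ∀ k : ℕ, k ≤ 2 * D → (k : ℝ) ≤ Real.log x ^ 3 := fun k hk => by
    have : (k : ℝ) ≤ ((2 * D : ℕ) : ℝ) := by exact_mod_cast hk
    exact this.trans hD2
  obtain ⟨Z, hZd⟩ : ∃ Z : ℝ, Z = x / Real.log x ^ 3 := ⟨_, rfl⟩
  have hZ : 0 < Z := by rw [hZd]; positivity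
  -- windows
  have hwin : ∀ n : ℤ, (win 0 (D : ℤ) n : ℝ) ≤ D := fun n => by
    have h3 := win_le 0 (D : ℤ) n
    have h4 : ((D : ℤ) - 0).toNat = D := by simp
    rw [h4] at h3
    exact_mod_cast h3
  have hwq : ∀ Q : Set ℤ, PQ Q → ∀ n : ℤ, (wq Q 0 (D : ℤ) n : ℝ) ≤ D := fun Q hQ n => by
    have h3 : (wq Q 0 (D : ℤ) n : ℝ) ≤ (win 0 (D : ℤ) n : ℝ) := by
      exact_mod_cast wq_le_win hQ 0 (D : ℤ) n
    exact h3.trans (hwin n)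
  -- truncation
  obtain ⟨F, hFd⟩ : ∃ F : ℤ → ℝ, ∀ n : ℤ, F n = if n ≤ (⌊x⌋₊ : ℤ) - (s : ℤ) then
      (if n ∈ Q0 then (wq Q1 0 (D : ℤ) n : ℝ) else 0) else 0 := ⟨_, fun _ => rfl⟩
  have hF0 : ∀ n : ℤ, (⌊x⌋₊ : ℤ) - (s : ℤ) < n → F n = 0 := fun n hn => by
    rw [hFd]
    exact if_neg (not_le.2 hn)
  have hQF : ∀ n : ℤ, |if n ∈ Q0 then (wq Q1 0 (D : ℤ) n : ℝ) else 0| ≤
      if isP n then (win 0 (D : ℤ) n : ℝ) else 0 := fun n => by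
    have h3 := QF_le' h0 h1 D 0 D le_rfl n
    rwa [Nat.cast_zero] at h3
  have hFb : ∀ n : ℤ, |F n| ≤ if isP n then (win 0 (D : ℤ) n : ℝ) else 0 := fun n => by
    rw [hFd]
    by_cases h3 : n ≤ (⌊x⌋₊ : ℤ) - (s : ℤ)
    · rw [if_pos h3]
      exact hQF n
    · rw [if_neg h3, abs_zero]
      split_ifs
      · positivity
      · exact le_rfl
  have hT := QK_trunc ⌊x⌋₊ s D (fun n => if n ∈ Q0 then (wq Q1 0 (D : ℤ) n : ℝ) else 0)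
    (fun n => (wq Q2 0 (D : ℤ) n : ℝ))
    (fun n => by
      refine (hQF n).trans ?_
      split_ifs
      · exact hwin n
      · positivity)
    (fun n => by positivity) (fun n => hwq Q2 h2 n)
  have hFe : ∀ n : ℕ, (if (n : ℤ) ≤ (⌊x⌋₊ : ℤ) - (s : ℤ) then
      (if (n : ℤ) ∈ Q0 then (wq Q1 0 (D : ℤ) (n : ℤ) : ℝ) else 0) else 0) = F (n : ℤ) :=
    fun n => (hFd (n : ℤ)).symm
  simp only [hFe] at hT
  have hq := q3_sum x Q0 Q1 Q2 0 D 0 D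
  rw [Nat.cast_zero] at hq
  rw [hq] at hT
  -- averaging
  have hA1 := QAVE x h2 s D 0 D F hFb hF0 (Nat.zero_le _)
  have hA2 := QG x h0 h1 h2 s D hsD F hFd
  rw [Nat.zero_add, Nat.cast_zero] at hA1
  have e1 : (((D + s : ℕ) : ℝ) - D) = s := by push_cast; ring
  have hTa := hP 0 s 0 (D + s) 0 s (hle _ (by omega)) (hle _ (by omega)) (hle _ (by omega))
    (by simpa using hs) (by push_cast; linarith) (by simpa using hs)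
  have hTb := hP 0 s 0 (D + s) D (D + s) (hle _ (by omega)) (hle _ (by omega)) (hle _ (by omega))
    (by simpa using hs) (by push_cast; linarith) (by push_cast; linarith)
  have hTc := hP 0 s 0 D 0 s (hle _ (by omega)) (hle _ (by omega)) (hle _ (by omega))
    (by simpa using hs) (by push_cast; linarith) (by simpa using hs)
  have hTd := hP 0 s 0 D D (D + s) (hle _ (by omega)) (hle _ (by omega)) (hle _ (by omega))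
    (by simpa using hs) (by push_cast; linarith) (by push_cast; linarith)
  rw [Nat.cast_zero, Nat.cast_zero, sub_zero, sub_zero] at hTa hTc
  rw [Nat.cast_zero, Nat.cast_zero, e1, sub_zero, sub_zero] at hTb hTd
  rw [← hZd] at hTa hTb hTc hTd ⊢
  have h3 : ((D + s : ℕ) : ℝ) ≤ 2 * D := by
    push_cast
    linarith
  have hB1 : ∑ n ∈ range (⌊x⌋₊ + 1), (win 0 (s : ℤ) (n : ℤ) : ℝ) *
      (win 0 ((D + s : ℕ) : ℤ) (n : ℤ) : ℝ) * ((win 0 (s : ℤ) (n : ℤ) : ℝ) +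
        (win (D : ℤ) ((D + s : ℕ) : ℤ) (n : ℤ) : ℝ)) ≤ 4 * C1 * (s : ℝ) ^ 2 * D * Z := by
    calc _ = ∑ n ∈ range (⌊x⌋₊ + 1), (win 0 (s : ℤ) (n : ℤ) : ℝ) *
              (win 0 ((D + s : ℕ) : ℤ) (n : ℤ) : ℝ) * (win 0 (s : ℤ) (n : ℤ) : ℝ) +
            ∑ n ∈ range (⌊x⌋₊ + 1), (win 0 (s : ℤ) (n : ℤ) : ℝ) *
              (win 0 ((D + s : ℕ) : ℤ) (n : ℤ) : ℝ) *
                (win (D : ℤ) ((D + s : ℕ) : ℤ) (n : ℤ) : ℝ) := by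
          rw [← sum_add_distrib]
          exact sum_congr rfl fun n _ => by ring
      _ ≤ _ := add_le_add hTa hTb
      _ = (2 * C1 * (s : ℝ) ^ 2 * Z) * ((D + s : ℕ) : ℝ) := by ring
      _ ≤ (2 * C1 * (s : ℝ) ^ 2 * Z) * (2 * D) :=
          mul_le_mul_of_nonneg_left h3 (by positivity)
      _ = _ := by ring
  have hB2 : ∑ n ∈ range (⌊x⌋₊ + 1), (win 0 (s : ℤ) (n : ℤ) : ℝ) *
      (win 0 (D : ℤ) (n : ℤ) : ℝ) * ((win 0 (s : ℤ) (n : ℤ) : ℝ) +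
        (win (D : ℤ) ((D + s : ℕ) : ℤ) (n : ℤ) : ℝ)) ≤ 2 * C1 * (s : ℝ) ^ 2 * D * Z := by
    calc _ = ∑ n ∈ range (⌊x⌋₊ + 1), (win 0 (s : ℤ) (n : ℤ) : ℝ) *
              (win 0 (D : ℤ) (n : ℤ) : ℝ) * (win 0 (s : ℤ) (n : ℤ) : ℝ) +
            ∑ n ∈ range (⌊x⌋₊ + 1), (win 0 (s : ℤ) (n : ℤ) : ℝ) *
              (win 0 (D : ℤ) (n : ℤ) : ℝ) *
                (win (D : ℤ) ((D + s : ℕ) : ℤ) (n : ℤ) : ℝ) := by
          rw [← sum_add_distrib]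
          exact sum_congr rfl fun n _ => by ring
      _ ≤ _ := add_le_add hTc hTd
      _ = _ := by ring
  have hA1' := hA1.trans hB1
  have hA2' := hA2.trans (add_le_add_left hB2 _)
  -- the product of three windows
  have hD' : (0 : ℝ) < (D : ℝ) := hDpos
  have hW3 : ∑ n ∈ range (⌊x⌋₊ + 1), (wq Q0 0 (s : ℤ) (n : ℤ) : ℝ) *
      (wq Q1 0 (D : ℤ) (n : ℤ) : ℝ) * (wq Q2 0 (D : ℤ) (n : ℤ) : ℝ) =
      s * (D : ℝ) ^ 2 / Real.log x ^ 3 * ∑ n ∈ range (⌊x⌋₊ + 1), Yq x Q0 0 (s : ℤ) (n : ℤ) *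
        Yq x Q1 0 (D : ℤ) (n : ℤ) * Yq x Q2 0 (D : ℤ) (n : ℤ) := by
    rw [mul_sum]
    refine sum_congr rfl fun n _ => ?_
    unfold Yq
    push_cast
    rw [sub_zero, sub_zero]
    field_simp
  have hk : ∑ n ∈ range (⌊x⌋₊ + 1), Yq x Q0 0 (D : ℤ) (n : ℤ) * Yq x Q1 0 (D : ℤ) (n : ℤ) *
      Yq x Q2 0 (D : ℤ) (n : ℤ) = kq x Q0 Q1 Q2 D * x := by
    unfold kq
    rw [div_mul_cancel₀ _ hx0.ne']
  have hTY' := hTY (fun n => Yq x Q0 0 (s : ℤ) (n : ℤ) - Yq x Q0 0 (D : ℤ) (n : ℤ)) hY 0 D 0 D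
    (hle _ (by omega)) (hle _ (by omega)) (by rw [Nat.cast_zero]; linarith)
    (by rw [Nat.cast_zero]; linarith)
  rw [Nat.cast_zero] at hTY'
  have hdiff : |∑ n ∈ range (⌊x⌋₊ + 1), Yq x Q0 0 (s : ℤ) (n : ℤ) *
        Yq x Q1 0 (D : ℤ) (n : ℤ) * Yq x Q2 0 (D : ℤ) (n : ℤ) - kq x Q0 Q1 Q2 D * x| ≤
      C2 * ρ * x := by
    rw [← hk, ← sum_sub_distrib]
    refine (abs_sum_le_sum_abs _ _).trans (le_trans (sum_le_sum fun n _ => ?_) hTY')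
    have hD0 : (0 : ℤ) ≤ (D : ℤ) := by positivity
    have a1 := Yq_le x hx h1 0 (D : ℤ) (n : ℤ) hD0
    have a2 := Yq_le x hx h2 0 (D : ℤ) (n : ℤ) hD0
    have b1 := Yq_nonneg x hx Q1 0 (D : ℤ) (n : ℤ) hD0
    have b2 := Yq_nonneg x hx Q2 0 (D : ℤ) (n : ℤ) hD0
    have e2 : Yq x Q0 0 (s : ℤ) (n : ℤ) * Yq x Q1 0 (D : ℤ) (n : ℤ) * Yq x Q2 0 (D : ℤ) (n : ℤ) -
        Yq x Q0 0 (D : ℤ) (n : ℤ) * Yq x Q1 0 (D : ℤ) (n : ℤ) * Yq x Q2 0 (D : ℤ) (n : ℤ) =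
        (Yq x Q0 0 (s : ℤ) (n : ℤ) - Yq x Q0 0 (D : ℤ) (n : ℤ)) * Yq x Q1 0 (D : ℤ) (n : ℤ) *
          Yq x Q2 0 (D : ℤ) (n : ℤ) := by ring
    rw [e2, abs_mul, abs_mul, abs_mul, abs_mul, abs_of_nonneg b1, abs_of_nonneg b2,
      abs_of_nonneg (b1.trans a1)]
    exact mul_le_mul (mul_le_mul_of_nonneg_left a1 (abs_nonneg _)) a2 b2
      (mul_nonneg (abs_nonneg _) (b1.trans a1))
  have hprod : |∑ n ∈ range (⌊x⌋₊ + 1), (wq Q0 0 (s : ℤ) (n : ℤ) : ℝ) *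
      (wq Q1 0 (D : ℤ) (n : ℤ) : ℝ) * (wq Q2 0 (D : ℤ) (n : ℤ) : ℝ) -
      s * (kq x Q0 Q1 Q2 D * (D : ℝ) ^ 2 * Z)| ≤ s * (C2 * ρ * (D : ℝ) ^ 2 * Z) := by
    rw [hW3]
    generalize ∑ n ∈ range (⌊x⌋₊ + 1), Yq x Q0 0 (s : ℤ) (n : ℤ) *
        Yq x Q1 0 (D : ℤ) (n : ℤ) * Yq x Q2 0 (D : ℤ) (n : ℤ) = M at hdiff ⊢
    have e3 : s * (D : ℝ) ^ 2 / Real.log x ^ 3 * M - s * (kq x Q0 Q1 Q2 D * (D : ℝ) ^ 2 * Z) =
        s * (D : ℝ) ^ 2 / Real.log x ^ 3 * (M - kq x Q0 Q1 Q2 D * x) := by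
      rw [hZd]
      ring
    rw [e3, abs_mul, abs_of_nonneg (by positivity)]
    calc _ ≤ s * (D : ℝ) ^ 2 / Real.log x ^ 3 * (C2 * ρ * x) :=
          mul_le_mul_of_nonneg_left hdiff (by positivity)
      _ = _ := by rw [hZd]; ring
  generalize ∑ a ∈ Ioc 0 D, ∑ b ∈ Ioc 0 D, q3 x Q0 Q1 Q2 a b = S at hT ⊢
  generalize ∑ n ∈ range (⌊x⌋₊ + 1), F (n : ℤ) * (wq Q2 0 (D : ℤ) (n : ℤ) : ℝ) = T1 at hT hA1'
  generalize ∑ n ∈ range (⌊x⌋₊ + 1), (∑ b ∈ Ioc (0 : ℤ) (s : ℤ), F ((n : ℤ) - b)) *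
    (wq Q2 0 (D : ℤ) (n : ℤ) : ℝ) = G at hA1' hA2'
  generalize ∑ n ∈ range (⌊x⌋₊ + 1), (wq Q0 0 (s : ℤ) (n : ℤ) : ℝ) *
      (wq Q1 0 (D : ℤ) (n : ℤ) : ℝ) * (wq Q2 0 (D : ℤ) (n : ℤ) : ℝ) = P at hA2' hprod
  generalize kq x Q0 Q1 Q2 D = κ at hprod ⊢
  have hfin : (s : ℝ) * |S - κ * (D : ℝ) ^ 2 * Z| ≤
      s * (2 * s * (D : ℝ) ^ 2 + 6 * C1 * s * D * Z + C2 * ρ * (D : ℝ) ^ 2 * Z) := by
    rw [← abs_of_pos hs0, ← abs_mul, abs_of_pos hs0]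
    have e4 : s * (S - κ * (D : ℝ) ^ 2 * Z) = s * (S - T1) + (s * T1 - G) + (G - P) +
        (P - s * (κ * (D : ℝ) ^ 2 * Z)) := by ring
    rw [e4]
    have g1 : |s * (S - T1)| ≤ s * (s * (D : ℝ) ^ 2) := by
      rw [abs_mul, abs_of_pos hs0]
      exact mul_le_mul_of_nonneg_left hT hs0.le
    rw [abs_le] at g1 hA1' hA2' hprod ⊢
    constructor <;> nlinarith [g1.1, g1.2, hA1'.1, hA1'.2, hA2'.1, hA2'.2, hprod.1, hprod.2]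
  exact le_of_mul_le_mul_left hfin hs0

theorem QKT (ε : ℝ) (hε : 0 < ε) : ∃ r0 : ℕ, ∀ r : ℕ, r0 ≤ r → ∃ δ X : ℝ, 0 < δ ∧ ∀ x : ℝ, X ≤ x →
    ∀ Q0 Q1 Q2 : Set ℤ, PQ Q0 → PQ Q1 → PQ Q2 → ∀ s : ℕ, Real.log x ≤ s → (4 : ℝ) ^ r * s ≤ (Real.log x) ^ 3 →
    Eq2 x Q0 s - Eq2 x Q0 (4 ^ r * s) ≤ δ * x →
    |∑ a ∈ Ioc 0 (2 ^ r * s), ∑ b ∈ Ioc 0 (2 ^ r * s), q3 x Q0 Q1 Q2 a b
        - kq x Q0 Q1 Q2 (2 ^ r * s) * ((2 ^ r * s : ℕ) : ℝ) ^ 2 * (x / (Real.log x) ^ 3)|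
      ≤ ε * ((2 ^ r * s : ℕ) : ℝ) ^ 2 * (x / (Real.log x) ^ 3) := by
  obtain ⟨C1, X1, hC1, hTRP⟩ := TRP
  obtain ⟨C2, X2, hC2, hTRY⟩ := TRY
  obtain ⟨K, X3, hK, hMO⟩ := MO4
  have hK0 : 0 < K := by linarith
  obtain ⟨a, ha⟩ := exists_pow_lt_of_lt_one (by positivity : 0 < ε / (24 * C1))
    (by norm_num : (1 / 2 : ℝ) < 1)
  obtain ⟨ρ, hρd⟩ : ∃ ρ : ℝ, ρ = ε / (4 * C2) := ⟨_, rfl⟩
  have hρ : 0 < ρ := by rw [hρd]; positivity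
  obtain ⟨b, hb⟩ := exists_pow_lt_of_lt_one (by positivity : 0 < ρ ^ 2 / (192 * K ^ 2))
    (by norm_num : (1 / 4 : ℝ) < 1)
  refine ⟨a + b + 1, fun r hr => ?_⟩
  obtain ⟨δ, hδd⟩ : ∃ δ : ℝ, δ = ρ ^ 2 / (20 * 4 ^ r) := ⟨_, rfl⟩
  have hδ : 0 < δ := by rw [hδd]; positivity
  obtain ⟨X4, hX4⟩ := Filter.eventually_atTop.1 (HUP_growth (8 / ε) 6)
  refine ⟨δ, max (max X1 X2) (max X3 X4), hδ, ?_⟩
  intro x hxX Q0 Q1 Q2 h0 h1 h2 s hs hBs hEn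
  have hx1 : X1 ≤ x := le_trans (le_trans (le_max_left _ _) (le_max_left _ _)) hxX
  have hx2 : X2 ≤ x := le_trans (le_trans (le_max_right _ _) (le_max_left _ _)) hxX
  have hx3 : X3 ≤ x := le_trans (le_trans (le_max_left _ _) (le_max_right _ _)) hxX
  have hx4 : X4 ≤ x := le_trans (le_trans (le_max_right _ _) (le_max_right _ _)) hxX
  obtain ⟨hx, hΛ, -, -, hEnb⟩ := hMO x hx3
  have hP : LEF_P C1 x := hTRP x hx1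
  have hTY := hTRY x hx2
  have hgr := hX4 x hx4
  have hΛ0 : 0 < Real.log x := by linarith
  have hx0 : 0 < x := by linarith
  have hs1 : (1 : ℝ) ≤ s := hΛ.trans hs
  have hs1' : 1 ≤ s := by exact_mod_cast hs1
  obtain ⟨D, hDd⟩ : ∃ D : ℕ, D = 2 ^ r * s := ⟨_, rfl⟩
  have hsD : s ≤ D := by
    rw [hDd]
    exact Nat.le_mul_of_pos_left s (by positivity)
  have h2DB : 2 * D ≤ 4 ^ r * s := by
    rw [hDd, ← mul_assoc]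
    refine Nat.mul_le_mul_right s ?_
    have h1 : (4 : ℕ) ^ r = 2 ^ r * 2 ^ r := by
      rw [← mul_pow]
      norm_num
    rw [h1]
    refine Nat.mul_le_mul_right _ ?_
    calc 2 = 2 ^ 1 := rfl
      _ ≤ 2 ^ r := Nat.pow_le_pow_right (by norm_num) (by omega)
  have hD2 : ((2 * D : ℕ) : ℝ) ≤ Real.log x ^ 3 := by
    have h1 : ((2 * D : ℕ) : ℝ) ≤ ((4 ^ r * s : ℕ) : ℝ) := by exact_mod_cast h2DB
    push_cast at h1 ⊢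
    linarith
  have hsΛ : (s : ℝ) ≤ Real.log x ^ 3 := by
    have h1 : (s : ℝ) ≤ ((2 * D : ℕ) : ℝ) := by exact_mod_cast (by omega : s ≤ 2 * D)
    exact h1.trans hD2
  have hDR : (D : ℝ) = 2 ^ r * s := by rw [hDd]; push_cast; ring
  have hE2 : Eq2 x Q0 s ≤ 2 * K ^ 2 * x := (Eq2_le x hx h0 s).trans (hEnb s hs hsΛ)
  have hY : ∑ n ∈ range (⌊x⌋₊ + 1), (Yq x Q0 0 (s : ℤ) (n : ℤ) - Yq x Q0 0 (D : ℤ) (n : ℤ)) ^ 2 ≤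
      ρ ^ 2 * x := by
    have h3 := QK_fsq x K δ h0 s r hx0.le hs1' hE2 hEn
    rw [hDd]
    refine h3.trans (mul_le_mul_of_nonneg_right ?_ hx0.le)
    have h4 : 10 * 4 ^ r * δ = ρ ^ 2 / 2 := by
      rw [hδd]
      field_simp
      ring
    have h5 : (1 / 4 : ℝ) ^ r ≤ ρ ^ 2 / (192 * K ^ 2) :=
      (pow_le_pow_of_le_one (by norm_num) (by norm_num) (by omega : b ≤ r)).trans hb.le
    have h6 : 96 * K ^ 2 * (1 / 4) ^ r ≤ ρ ^ 2 / 2 := by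
      calc 96 * K ^ 2 * (1 / 4) ^ r ≤ 96 * K ^ 2 * (ρ ^ 2 / (192 * K ^ 2)) :=
            mul_le_mul_of_nonneg_left h5 (by positivity)
        _ = ρ ^ 2 / 2 := by field_simp; ring
    linarith
  have hcore := QK_core C1 C2 x ρ hC1 hx hΛ hP (fun f hf => hTY f ρ hρ.le hf) h0 h1 h2 s D hs hsD
    hD2 hY
  rw [← hDd]
  refine hcore.trans ?_
  obtain ⟨Z, hZd⟩ : ∃ Z : ℝ, Z = x / Real.log x ^ 3 := ⟨_, rfl⟩
  have hZ : 0 < Z := by rw [hZd]; positivity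
  rw [← hZd]
  have hTr : 2 * (s : ℝ) * (D : ℝ) ^ 2 ≤ ε / 4 * (D : ℝ) ^ 2 * Z := by
    have h1 : 2 * (s : ℝ) ≤ ε / 4 * Z := by
      rw [hZd]
      have h2 : 8 / ε * Real.log x ^ 6 ≤ x := hgr
      have h3 : 2 * Real.log x ^ 3 ≤ ε / 4 * (x / Real.log x ^ 3) := by
        rw [← mul_div_assoc, le_div_iff₀ (by positivity)]
        calc 2 * Real.log x ^ 3 * Real.log x ^ 3 = ε / 4 * (8 / ε * Real.log x ^ 6) := by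
              field_simp
              ring
          _ ≤ ε / 4 * x := mul_le_mul_of_nonneg_left h2 (by positivity)
      linarith
    calc 2 * (s : ℝ) * (D : ℝ) ^ 2 ≤ (ε / 4 * Z) * (D : ℝ) ^ 2 :=
          mul_le_mul_of_nonneg_right h1 (by positivity)
      _ = _ := by ring
  have hC : 6 * C1 * s * D * Z ≤ ε / 4 * (D : ℝ) ^ 2 * Z := by
    have h3 : (1 / 2 : ℝ) ^ r ≤ ε / (24 * C1) :=
      (pow_le_pow_of_le_one (by norm_num) (by norm_num) (by omega : a ≤ r)).trans ha.le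
    have h4 : (s : ℝ) = (1 / 2) ^ r * D := by
      rw [hDR, ← mul_assoc, ← mul_pow]
      norm_num
    calc 6 * C1 * s * D * Z = 6 * C1 * (1 / 2) ^ r * ((D : ℝ) ^ 2 * Z) := by
          rw [h4]
          ring
      _ ≤ 6 * C1 * (ε / (24 * C1)) * ((D : ℝ) ^ 2 * Z) := by
          refine mul_le_mul_of_nonneg_right (mul_le_mul_of_nonneg_left h3 (by positivity))
            (by positivity)
      _ = _ := by field_simp; ring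
  have hR : C2 * ρ * (D : ℝ) ^ 2 * Z = ε / 4 * (D : ℝ) ^ 2 * Z := by
    rw [hρd]
    field_simp
  have hpos : 0 ≤ ε * (D : ℝ) ^ 2 * Z := by positivity
  rw [hR]
  linarith

end Pool.Agent.H96.EQ
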