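import Pool.Agent.H96.EQ.QL
import Pool.Agent.H96.EQ.QK
import Pool.Agent.H96.EQ.PIG

/-!
# QM: all but boundedly many dyadic scales are good, for three sets of primes

* `QGO`: `QLEF` with `ε/4` and `QKT` with `ε/4` (maximum of the two `r₀`, minimum of the two `δ`, maximum of the thresholds). `D = 2^r s`, `f = q3 x Q0 Q1 Q2`,
  `S(J₁,J₂) = ∑_{a∈J₁} ∑_{b∈J₂} f a b`.
  * `BoxF`: `QLEF` for `Q2` with `F n = if n ∈ Q0 then wq Q1 u1 v1 n else 0` (`QF_le'`) and `J = (u2,v2]`, rewritten by `q3_sum`: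
    `|S(J₁,J₂) - (w₂/D) S(J₁,(0,D])| ≤ (ε/4) D^2 Z`. `QLEF` for `Q1` with `F n = if n ∈ Q0 then wq Q2 0 D n else 0` and `J = (u1,v1]`, rewritten by
    `q3_sum` (with `Q1`, `Q2` exchanged) and `q3_comm` (`Finset.sum_comm`): `|S(J₁,(0,D]) - (w₁/D) S((0,D],(0,D])| ≤ (ε/4) D^2 Z`. `QKT`:
    `|S((0,D],(0,D]) - kq D^2 Z| ≤ (ε/4) D^2 Z`. As `0 ≤ w₁/D, w₂/D ≤ 1`: `|S(J₁,J₂) - kq w₁ w₂ Z| ≤ (3ε/4) D^2 Z`.
  * `AlmF`: let `t a = ∑_{b ∈ Ioc u v} f a b - (w/D) ∑_{b ∈ Ioc 0 D} f a b`, `c a = SignType.sign (t a)`; `∑ |t a| = ∑ c a t a`, and `QLEF` for `Q2` with the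
    `F` of `QF_le`, rewritten by `q3_sum_c` twice (for `(u,v]` and for `(0,D]`), bounds this by `(ε/4) D^2 Z`.
* `QMX`: as the row `MX2`: given `ε`, let `r = r₀(ε)`, `δ, X₁` from `QGO`, `K` from `MO4`, `M = ⌈r + 2 r (6 K^2)/δ⌉₊ + 1`; `x` so large that also `4^r ≤ Λ`. For `S = ∅` nothing
  is to be proved; otherwise `g ≤ Λ^2`, `S ⊆ range I`, `I = S.sup id + 1`. Let `a i = (Eq2 x Q0 (2^i g) + Eq2 x Q1 (2^i g) + Eq2 x Q2 (2^i g))/x`: nonnegative,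
  nonincreasing (`Eq2_anti` with `m = 2`), `a 0 ≤ 6 K^2` (`Eq2_le`, `MO4`). If `i ∈ S`, `r ≤ i`, `a (i - r) - a (i - r + 2r) ≤ δ` then all three differences
  `Eq2 x Qj (2^(i-r) g) - Eq2 x Qj (4^r 2^(i-r) g)` are `≥ 0` (`Eq2_anti` with `m = 4^r`), hence each is `≤ δ x`, and `QGO` with `s = 2^(i-r) g` contradicts the badness of `i`.
  So `S ⊆ range r ∪ (image under (· + r) of {j < I : δ < a j - a (j + 2r)})`, and `PIG` bounds the cardinality by `r + 2 r (6 K^2)/δ ≤ M`.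
-/

set_option autoImplicit false

namespace Pool.Agent.H96.EQ

open Finset Pool.Agent.H6.MF

open Classical in
private lemma QGO_box (x ε κ : ℝ) (D : ℕ) (hε : 0 < ε) (hD : 0 < D) (hZ : 0 < x / (Real.log x) ^ 3)
    {Q0 Q1 Q2 : Set ℤ} (h0 : PQ Q0) (hq1 : PQ Q1) (hq2 : PQ Q2)
    (hL1 : ∀ F : ℤ → ℝ, (∀ n : ℤ, |F n| ≤ if isP n then (win 0 (D : ℤ) n : ℝ) else 0) →
      ∀ u v : ℕ, u ≤ v → v ≤ D →
      |∑ n ∈ range (⌊x⌋₊ + 1), F (n : ℤ) * (wq Q1 (u : ℤ) (v : ℤ) (n : ℤ) : ℝ)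
          - ((v : ℝ) - u) / (D : ℝ)
            * ∑ n ∈ range (⌊x⌋₊ + 1), F (n : ℤ) * (wq Q1 0 (D : ℤ) (n : ℤ) : ℝ)|
        ≤ ε / 4 * (D : ℝ) ^ 2 * (x / (Real.log x) ^ 3))
    (hL2 : ∀ F : ℤ → ℝ, (∀ n : ℤ, |F n| ≤ if isP n then (win 0 (D : ℤ) n : ℝ) else 0) →
      ∀ u v : ℕ, u ≤ v → v ≤ D →
      |∑ n ∈ range (⌊x⌋₊ + 1), F (n : ℤ) * (wq Q2 (u : ℤ) (v : ℤ) (n : ℤ) : ℝ)
          - ((v : ℝ) - u) / (D : ℝ)
            * ∑ n ∈ range (⌊x⌋₊ + 1), F (n : ℤ) * (wq Q2 0 (D : ℤ) (n : ℤ) : ℝ)|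
        ≤ ε / 4 * (D : ℝ) ^ 2 * (x / (Real.log x) ^ 3))
    (hK : |∑ a ∈ Ioc 0 D, ∑ b ∈ Ioc 0 D, q3 x Q0 Q1 Q2 a b -
        κ * (D : ℝ) ^ 2 * (x / (Real.log x) ^ 3)| ≤ ε / 4 * (D : ℝ) ^ 2 * (x / (Real.log x) ^ 3)) :
    BoxF (q3 x Q0 Q1 Q2) x ε κ D := by
  have hD0 : (0 : ℝ) < D := by exact_mod_cast hD
  set Z := x / (Real.log x) ^ 3 with hZdef
  have hDZ : 0 < (D : ℝ) ^ 2 * Z := by positivity
  intro u1 v1 u2 v2 h1 h1D h2 h2D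
  rw [← hZdef]
  have hcomm : ∀ u1 v1 u2 v2 : ℕ, ∑ a ∈ Ioc u1 v1, ∑ b ∈ Ioc u2 v2, q3 x Q0 Q2 Q1 a b =
      ∑ a ∈ Ioc u2 v2, ∑ b ∈ Ioc u1 v1, q3 x Q0 Q1 Q2 a b := by
    intro u1 v1 u2 v2
    rw [sum_comm]
    exact sum_congr rfl fun a _ => sum_congr rfl fun b _ => q3_comm x Q0 Q2 Q1 b a
  have e1 := hL2 (fun n => if n ∈ Q0 then (wq Q1 (u1 : ℤ) (v1 : ℤ) n : ℝ) else 0)
    (QF_le' h0 hq1 D u1 v1 h1D) u2 v2 h2 h2D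
  have e2 := hL1 (fun n => if n ∈ Q0 then (wq Q2 ((0 : ℕ) : ℤ) (D : ℤ) n : ℝ) else 0)
    (QF_le' h0 hq2 D 0 D (le_refl _)) u1 v1 h1 h1D
  have s1 := q3_sum x Q0 Q1 Q2 u1 v1 u2 v2
  have s2 := q3_sum x Q0 Q1 Q2 u1 v1 0 D
  have s3 := q3_sum x Q0 Q2 Q1 0 D u1 v1
  have s4 := q3_sum x Q0 Q2 Q1 0 D 0 D
  rw [hcomm] at s3 s4
  rw [Nat.cast_zero] at s2
  have s4' := s4
  rw [Nat.cast_zero] at s4'
  simp only [Nat.cast_zero] at e1 e2 s3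
  rw [s1, s2] at e1
  rw [s3, s4'] at e2
  have hu2 : (u2 : ℝ) ≤ v2 := by exact_mod_cast h2
  have hv2 : (v2 : ℝ) ≤ D := by exact_mod_cast h2D
  have hu20 : (0 : ℝ) ≤ u2 := Nat.cast_nonneg _
  have hu1 : (u1 : ℝ) ≤ v1 := by exact_mod_cast h1
  have hv1 : (v1 : ℝ) ≤ D := by exact_mod_cast h1D
  have hu10 : (0 : ℝ) ≤ u1 := Nat.cast_nonneg _
  obtain ⟨q, hq⟩ : ∃ q : ℝ, q = ((v2 : ℝ) - u2) / (D : ℝ) := ⟨_, rfl⟩
  obtain ⟨p, hp⟩ : ∃ p : ℝ, p = ((v1 : ℝ) - u1) / (D : ℝ) := ⟨_, rfl⟩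
  have hq0 : 0 ≤ q := by
    rw [hq]
    exact div_nonneg (by linarith) hD0.le
  have hq1 : q ≤ 1 := by
    rw [hq, div_le_one hD0]
    linarith
  have hp0 : 0 ≤ p := by
    rw [hp]
    exact div_nonneg (by linarith) hD0.le
  have hp1 : p ≤ 1 := by
    rw [hp, div_le_one hD0]
    linarith
  rw [← hq] at e1
  rw [← hp] at e2
  have e3 : κ * ((v1 : ℝ) - u1) * ((v2 : ℝ) - u2) * Z = q * (p * (κ * (D : ℝ) ^ 2 * Z)) := by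
    rw [hq, hp]
    field_simp
  rw [e3]
  generalize ∑ a ∈ Ioc u1 v1, ∑ b ∈ Ioc u2 v2, q3 x Q0 Q1 Q2 a b = A at e1 ⊢
  generalize ∑ a ∈ Ioc u1 v1, ∑ b ∈ Ioc 0 D, q3 x Q0 Q1 Q2 a b = B at e1 e2
  generalize ∑ a ∈ Ioc 0 D, ∑ b ∈ Ioc 0 D, q3 x Q0 Q1 Q2 a b = E at e2 hK
  have e4 : |q * (B - p * E)| ≤ ε / 4 * (D : ℝ) ^ 2 * Z := by
    rw [abs_mul, abs_of_nonneg hq0]
    calc q * |B - p * E| ≤ 1 * |B - p * E| := mul_le_mul_of_nonneg_right hq1 (abs_nonneg _)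
      _ = |B - p * E| := one_mul _
      _ ≤ _ := e2
  have e4' : |q * (p * (E - κ * (D : ℝ) ^ 2 * Z))| ≤ ε / 4 * (D : ℝ) ^ 2 * Z := by
    rw [abs_mul, abs_of_nonneg hq0, abs_mul, abs_of_nonneg hp0]
    have hqp : q * p ≤ 1 := by nlinarith
    calc q * (p * |E - κ * (D : ℝ) ^ 2 * Z|) = (q * p) * |E - κ * (D : ℝ) ^ 2 * Z| := by ring
      _ ≤ 1 * |E - κ * (D : ℝ) ^ 2 * Z| := mul_le_mul_of_nonneg_right hqp (abs_nonneg _)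
      _ = |E - κ * (D : ℝ) ^ 2 * Z| := one_mul _
      _ ≤ _ := hK
  have e5 : A - q * (p * (κ * (D : ℝ) ^ 2 * Z)) = (A - q * B) + (q * (B - p * E) +
      q * (p * (E - κ * (D : ℝ) ^ 2 * Z))) := by ring
  rw [e5]
  refine (abs_add_le _ _).trans ?_
  have e9 := abs_add_le (q * (B - p * E)) (q * (p * (E - κ * (D : ℝ) ^ 2 * Z)))
  have e6 : ε / 4 * (D : ℝ) ^ 2 * Z = ε / 4 * ((D : ℝ) ^ 2 * Z) := by ring
  have e7 : ε * (D : ℝ) ^ 2 * Z = ε * ((D : ℝ) ^ 2 * Z) := by ring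
  have e8 : ε / 4 * ((D : ℝ) ^ 2 * Z) * 3 ≤ ε * ((D : ℝ) ^ 2 * Z) := by
    have : 0 ≤ ε * ((D : ℝ) ^ 2 * Z) := by positivity
    linarith
  rw [e6] at e1 e4 e4'
  rw [e7]
  linarith

open Classical in
private lemma QGO_alm (x ε : ℝ) (D : ℕ) (hε : 0 < ε) (hD : 0 < D) (hZ : 0 < x / (Real.log x) ^ 3)
    {Q0 Q1 Q2 : Set ℤ} (h0 : PQ Q0) (hq1 : PQ Q1)
    (hL2 : ∀ F : ℤ → ℝ, (∀ n : ℤ, |F n| ≤ if isP n then (win 0 (D : ℤ) n : ℝ) else 0) →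
      ∀ u v : ℕ, u ≤ v → v ≤ D →
      |∑ n ∈ range (⌊x⌋₊ + 1), F (n : ℤ) * (wq Q2 (u : ℤ) (v : ℤ) (n : ℤ) : ℝ)
          - ((v : ℝ) - u) / (D : ℝ)
            * ∑ n ∈ range (⌊x⌋₊ + 1), F (n : ℤ) * (wq Q2 0 (D : ℤ) (n : ℤ) : ℝ)|
        ≤ ε / 4 * (D : ℝ) ^ 2 * (x / (Real.log x) ^ 3)) :
    AlmF (q3 x Q0 Q1 Q2) x ε D := by
  have hD0 : (0 : ℝ) < D := by exact_mod_cast hD
  set Z := x / (Real.log x) ^ 3 with hZdef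
  have hDZ : 0 < (D : ℝ) ^ 2 * Z := by positivity
  intro u v huv hvD
  rw [← hZdef]
  obtain ⟨q, hq⟩ : ∃ q : ℝ, q = ((v : ℝ) - u) / (D : ℝ) := ⟨_, rfl⟩
  rw [← hq]
  obtain ⟨t, ht⟩ : ∃ t : ℕ → ℝ, t = fun a => ∑ b ∈ Ioc u v, q3 x Q0 Q1 Q2 a b -
      q * ∑ b ∈ Ioc 0 D, q3 x Q0 Q1 Q2 a b := ⟨_, rfl⟩
  obtain ⟨c, hc⟩ : ∃ c : ℕ → ℝ, c = fun a => ((SignType.sign (t a) : SignType) : ℝ) := ⟨_, rfl⟩
  have hc1 : ∀ a, |c a| ≤ 1 := by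
    intro a
    rw [hc]
    rcases lt_trichotomy (t a) 0 with h | h | h
    · simp [sign_neg h]
    · simp [h]
    · simp [sign_pos h]
  have hct : ∀ a, |t a| = c a * t a := by
    intro a
    rw [hc]
    exact (sign_mul_self (t a)).symm
  have e1 := hL2 (fun n => if n ∈ Q0 then ∑ a ∈ Ioc 0 D, (if n - (a : ℤ) ∈ Q1 then c a else 0) else 0)
    (QF_le h0 hq1 D c hc1) u v huv hvD
  have e2 := q3_sum_c x Q0 Q1 Q2 D u v c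
  have e3 := q3_sum_c x Q0 Q1 Q2 D 0 D c
  rw [Nat.cast_zero] at e3
  simp only [e2, e3] at e1
  rw [← hq] at e1
  have e4 : ∑ a ∈ Ioc 0 D, |t a| = ∑ a ∈ Ioc 0 D, c a * ∑ b ∈ Ioc u v, q3 x Q0 Q1 Q2 a b
      - q * ∑ a ∈ Ioc 0 D, c a * ∑ b ∈ Ioc 0 D, q3 x Q0 Q1 Q2 a b := by
    rw [mul_sum, ← sum_sub_distrib]
    refine sum_congr rfl fun a _ => ?_
    rw [hct a, ht]
    ring
  have e5 : ∑ a ∈ Ioc 0 D, |t a| ≤ ε / 4 * (D : ℝ) ^ 2 * Z := by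
    rw [e4]
    exact (le_abs_self _).trans e1
  have e6 : ∑ a ∈ Ioc (0 : ℕ) D, |∑ b ∈ Ioc u v, q3 x Q0 Q1 Q2 a b -
      q * ∑ b ∈ Ioc (0 : ℕ) D, q3 x Q0 Q1 Q2 a b| = ∑ a ∈ Ioc 0 D, |t a| := by
    rw [ht]
  rw [e6]
  refine e5.trans ?_
  have e7 : ε * (D : ℝ) ^ 2 * Z = ε * ((D : ℝ) ^ 2 * Z) := by ring
  have e8 : ε / 4 * (D : ℝ) ^ 2 * Z = ε / 4 * ((D : ℝ) ^ 2 * Z) := by ring
  have e9 : 0 ≤ ε * ((D : ℝ) ^ 2 * Z) := by positivity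
  rw [e7, e8]
  linarith

theorem QGO (ε : ℝ) (hε : 0 < ε) : ∃ r0 : ℕ, ∀ r : ℕ, r0 ≤ r → ∃ δ X : ℝ, 0 < δ ∧ ∀ x : ℝ, X ≤ x →
    ∀ Q0 Q1 Q2 : Set ℤ, PQ Q0 → PQ Q1 → PQ Q2 → ∀ s : ℕ, Real.log x ≤ s → (4 : ℝ) ^ r * s ≤ (Real.log x) ^ 3 →
    Eq2 x Q0 s - Eq2 x Q0 (4 ^ r * s) ≤ δ * x → Eq2 x Q1 s - Eq2 x Q1 (4 ^ r * s) ≤ δ * x →
    Eq2 x Q2 s - Eq2 x Q2 (4 ^ r * s) ≤ δ * x →
    BoxF (q3 x Q0 Q1 Q2) x ε (kq x Q0 Q1 Q2 (2 ^ r * s)) (2 ^ r * s) ∧ AlmF (q3 x Q0 Q1 Q2) x ε (2 ^ r * s) := by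
  obtain ⟨rA, hA⟩ := QLEF (ε / 4) (by positivity)
  obtain ⟨rB, hB⟩ := QKT (ε / 4) (by positivity)
  refine ⟨max rA rB, fun r hr => ?_⟩
  obtain ⟨δA, XA, hδA, hA'⟩ := hA r ((le_max_left _ _).trans hr)
  obtain ⟨δB, XB, hδB, hB'⟩ := hB r ((le_max_right _ _).trans hr)
  refine ⟨min δA δB, max XA (max XB (Real.exp 1)), lt_min hδA hδB, ?_⟩
  intro x hx Q0 Q1 Q2 h0 h1 h2 s hs1 hs2 hE0 hE1 hE2
  have hxA : XA ≤ x := (le_max_left _ _).trans hx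
  have hxB : XB ≤ x := ((le_max_left _ _).trans (le_max_right _ _)).trans hx
  have hxe : Real.exp 1 ≤ x := ((le_max_right _ _).trans (le_max_right _ _)).trans hx
  have hxpos : 0 < x := lt_of_lt_of_le (Real.exp_pos 1) hxe
  have hlog : 1 ≤ Real.log x := (Real.le_log_iff_exp_le hxpos).2 hxe
  have hspos : (0 : ℝ) < s := by linarith
  have hspos' : 0 < s := by exact_mod_cast hspos
  have hDpos : 0 < 2 ^ r * s := by positivity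
  have hZ : 0 < x / (Real.log x) ^ 3 := by positivity
  have hA0 : δA * x ≥ min δA δB * x := mul_le_mul_of_nonneg_right (min_le_left _ _) hxpos.le
  have hB0 : δB * x ≥ min δA δB * x := mul_le_mul_of_nonneg_right (min_le_right _ _) hxpos.le
  have hL1 := hA' x hxA Q1 h1 s hs1 hs2 (hE1.trans hA0)
  have hL2 := hA' x hxA Q2 h2 s hs1 hs2 (hE2.trans hA0)
  have hK := hB' x hxB Q0 Q1 Q2 h0 h1 h2 s hs1 hs2 (hE0.trans hB0)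
  exact ⟨QGO_box x ε _ (2 ^ r * s) hε hDpos hZ h0 h1 h2 hL1 hL2 hK,
    QGO_alm x ε (2 ^ r * s) hε hDpos hZ h0 h1 hL2⟩

theorem QMX (ε : ℝ) (hε : 0 < ε) : ∃ (M : ℕ) (X : ℝ), ∀ x : ℝ, X ≤ x → ∀ Q0 Q1 Q2 : Set ℤ, PQ Q0 → PQ Q1 → PQ Q2 →
    ∀ g : ℕ, Real.log x ≤ g → ∀ S : Finset ℕ, (∀ i ∈ S, ((2 ^ i * g : ℕ) : ℝ) ≤ (Real.log x) ^ 2 ∧
      ¬ (BoxF (q3 x Q0 Q1 Q2) x ε (kq x Q0 Q1 Q2 (2 ^ i * g)) (2 ^ i * g) ∧ AlmF (q3 x Q0 Q1 Q2) x ε (2 ^ i * g))) →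
    S.card ≤ M := by
  classical
  obtain ⟨K, X0, hK, hM⟩ := MO4
  obtain ⟨r, hr⟩ := QGO ε hε
  obtain ⟨δ, X1, hδ, hX1⟩ := hr r le_rfl
  refine ⟨⌈(r : ℝ) + 2 * r * (6 * K ^ 2) / δ⌉₊, max X0 (max X1 (Real.exp ((4 : ℝ) ^ r))), ?_⟩
  intro x hx Q0 Q1 Q2 hQ0 hQ1 hQ2 g hg S hS
  have hx0 : X0 ≤ x := (le_max_left _ _).trans hx
  have hx1 : X1 ≤ x := ((le_max_left _ _).trans (le_max_right _ _)).trans hx
  have hx2 : Real.exp ((4 : ℝ) ^ r) ≤ x := ((le_max_right _ _).trans (le_max_right _ _)).trans hx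
  obtain ⟨h1x, hlog, _, _, hEn⟩ := hM x hx0
  have hxpos : 0 < x := by linarith
  have h4 : (4 : ℝ) ^ r ≤ Real.log x := (Real.le_log_iff_exp_le hxpos).2 hx2
  rcases S.eq_empty_or_nonempty with hS0 | ⟨i0, hi0⟩
  · rw [hS0]; simp
  have hgpos : 1 ≤ g := by
    have h : (1 : ℝ) ≤ g := hlog.trans hg
    exact_mod_cast h
  have hmono : ∀ i : ℕ, ∀ j : ℕ, j ≤ i → ((2 ^ j * g : ℕ) : ℝ) ≤ ((2 ^ i * g : ℕ) : ℝ) := by
    intro i j hji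
    have h : 2 ^ j * g ≤ 2 ^ i * g := Nat.mul_le_mul_right g (Nat.pow_le_pow_right (by norm_num) hji)
    exact_mod_cast h
  have hg2 : (g : ℝ) ≤ (Real.log x) ^ 2 := by
    have h := (hmono i0 0 (Nat.zero_le _)).trans (hS i0 hi0).1
    simpa using h
  have h23 : (Real.log x) ^ 2 ≤ (Real.log x) ^ 3 := pow_le_pow_right₀ hlog (by norm_num)
  have hpos : ∀ i : ℕ, 1 ≤ 2 ^ i * g := fun i => Nat.one_le_iff_ne_zero.2 (by positivity)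
  set I : ℕ := S.sup id + 1 with hI
  have hSI : ∀ i ∈ S, i < I := fun i hi => Nat.lt_succ_of_le (Finset.le_sup (f := id) hi)
  obtain ⟨a, ha⟩ : ∃ a : ℕ → ℝ, a = fun i => (Eq2 x Q0 (2 ^ i * g) + Eq2 x Q1 (2 ^ i * g) +
      Eq2 x Q2 (2 ^ i * g)) / x := ⟨_, rfl⟩
  have key := PIG a r I (6 * K ^ 2) δ hδ
    (fun i => by
      rw [ha]
      exact div_nonneg (add_nonneg (add_nonneg (Eq2_nonneg _ _ _) (Eq2_nonneg _ _ _))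
        (Eq2_nonneg _ _ _)) hxpos.le)
    (by
      rw [ha]
      change (Eq2 x Q0 (2 ^ 0 * g) + Eq2 x Q1 (2 ^ 0 * g) + Eq2 x Q2 (2 ^ 0 * g)) / x ≤ 6 * K ^ 2
      rw [div_le_iff₀ hxpos, pow_zero, one_mul]
      have hE := hEn g hg (hg2.trans h23)
      have e0 := (Eq2_le x h1x hQ0 g).trans hE
      have e1 := (Eq2_le x h1x hQ1 g).trans hE
      have e2 := (Eq2_le x h1x hQ2 g).trans hE
      linarith)
    (fun i => by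
      rw [ha]
      change (Eq2 x Q0 (2 ^ (i + 1) * g) + Eq2 x Q1 (2 ^ (i + 1) * g) + Eq2 x Q2 (2 ^ (i + 1) * g)) / x ≤
        (Eq2 x Q0 (2 ^ i * g) + Eq2 x Q1 (2 ^ i * g) + Eq2 x Q2 (2 ^ i * g)) / x
      refine div_le_div_of_nonneg_right ?_ hxpos.le
      have e : 2 ^ (i + 1) * g = 2 * (2 ^ i * g) := by ring
      rw [e]
      exact add_le_add (add_le_add (Eq2_anti x hQ0 (2 ^ i * g) 2 (hpos i) (by norm_num))
        (Eq2_anti x hQ1 (2 ^ i * g) 2 (hpos i) (by norm_num)))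
        (Eq2_anti x hQ2 (2 ^ i * g) 2 (hpos i) (by norm_num)))
  have hsub : S ⊆
      range r ∪ ((range I).filter (fun i => δ < a i - a (i + 2 * r))).image
        (fun j => j + r) := by
    intro i hi
    obtain ⟨hi1, hi2⟩ := hS i hi
    have hiI := hSI i hi
    rw [mem_union, mem_range, mem_image]
    by_cases hir : i < r
    · exact Or.inl hir
    · right
      push Not at hir
      refine ⟨i - r, ?_, by omega⟩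
      rw [mem_filter, mem_range]
      refine ⟨by omega, ?_⟩
      by_contra hc
      push Not at hc
      apply hi2
      have e1 : 2 ^ r * (2 ^ (i - r) * g) = 2 ^ i * g := by
        rw [← mul_assoc, ← pow_add]
        congr 2
        omega
      have e2 : 4 ^ r * (2 ^ (i - r) * g) = 2 ^ (i - r + 2 * r) * g := by
        rw [← mul_assoc, show (4 : ℕ) = 2 ^ 2 from rfl, ← pow_mul, ← pow_add]
        congr 2
        omega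
      have hs2 : ((2 ^ (i - r) * g : ℕ) : ℝ) ≤ (Real.log x) ^ 2 :=
        (hmono i (i - r) (Nat.sub_le _ _)).trans hi1
      have hs1 : Real.log x ≤ ((2 ^ (i - r) * g : ℕ) : ℝ) := by
        refine hg.trans ?_
        have h : g ≤ 2 ^ (i - r) * g := Nat.le_mul_of_pos_left _ (by positivity)
        exact_mod_cast h
      rw [ha] at hc
      change (Eq2 x Q0 (2 ^ (i - r) * g) + Eq2 x Q1 (2 ^ (i - r) * g) + Eq2 x Q2 (2 ^ (i - r) * g)) / x -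
        (Eq2 x Q0 (2 ^ (i - r + 2 * r) * g) + Eq2 x Q1 (2 ^ (i - r + 2 * r) * g) +
          Eq2 x Q2 (2 ^ (i - r + 2 * r) * g)) / x ≤ δ at hc
      rw [← sub_div, div_le_iff₀ hxpos, ← e2] at hc
      have h4r : 1 ≤ 4 ^ r := Nat.one_le_pow _ _ (by norm_num)
      have d0 := Eq2_anti x hQ0 (2 ^ (i - r) * g) (4 ^ r) (hpos _) h4r
      have d1 := Eq2_anti x hQ1 (2 ^ (i - r) * g) (4 ^ r) (hpos _) h4r
      have d2 := Eq2_anti x hQ2 (2 ^ (i - r) * g) (4 ^ r) (hpos _) h4r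
      have h := hX1 x hx1 Q0 Q1 Q2 hQ0 hQ1 hQ2 (2 ^ (i - r) * g) hs1
        (by
          calc (4 : ℝ) ^ r * ((2 ^ (i - r) * g : ℕ) : ℝ) ≤ Real.log x * (Real.log x) ^ 2 :=
                mul_le_mul h4 hs2 (Nat.cast_nonneg _) (by linarith)
            _ = (Real.log x) ^ 3 := by ring)
        (by linarith) (by linarith) (by linarith)
      rw [e1] at h
      exact h
  have hcard := (card_le_card hsub).trans (card_union_le _ _)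
  have himg : (((range I).filter (fun i => δ < a i - a (i + 2 * r))).image
      (fun j => j + r)).card ≤
      ((range I).filter (fun i => δ < a i - a (i + 2 * r))).card :=
    card_image_le
  rw [card_range] at hcard
  have hfin : (S.card : ℝ) ≤ (r : ℝ) + 2 * r * (6 * K ^ 2) / δ := by
    have h1 : (S.card : ℝ) ≤
        (r : ℝ) + (((range I).filter (fun i => δ < a i - a (i + 2 * r))).card : ℝ) := by
      exact_mod_cast hcard.trans (Nat.add_le_add_left himg r)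
    exact h1.trans (add_le_add_right key (r : ℝ))
  have h := hfin.trans (Nat.le_ceil _)
  exact_mod_cast h

end Pool.Agent.H96.EQ
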