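import Pool.Agent.H96.EQ.Def4
import Pool.Agent.H96.EQ.BLL
import Pool.Agent.H96.EQ.CRB

/-!
# QT: lower bound for the logarithmic sum from the rectangle estimates, for a general function `f`

This is the row `KEY` together with `FIN2` (files KEY.lean, FIN.lean) for a function `0 ≤ f` instead of `p3 x`. Copy the two proofs; only lower bounds are needed.
Notation: `Λ = log x`, `Z = x/Λ^3`, `ℓ = log Λ`, `g = ⌊Λ⌋₊ + 1`, `Q = ⌊Λ^2⌋₊`, `I = Nat.log 2 (Q / g)`, `B_i = ∑_{d ∈ Ioc (2^i g) (2^(i+1) g)} sec f 0 1 d`.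
* *Choice of `ε'`:* `η = min (ε/16) 1`, `t ≥ 1` with `6 C/2^t ≤ η/2`, `ε' = min η (η/(4 · 2^t))`, so that `6 κ/2^t + 2 · 2^t ε' ≤ η` for `0 ≤ κ ≤ C`.
* For large `x`: `Λ ≤ g ≤ Λ + 1`, `2^I g ≤ Q ≤ Λ^2`, `2^(I+1) ≥ Λ/2`, so `I ≥ ℓ/log 2 - 3`. `bad = {i ∈ range I : i + 1 < t ∨ ¬ ∃ κ, c ≤ κ ∧ κ ≤ C ∧ BoxF f x ε' κ (2^(i+1) g)}`.
  `card bad ≤ t + M` (the hypothesis applied to the set of the bad exponents `j = i + 1 ≤ I`; `2^j g ≤ Λ^2`).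
* `i ∉ bad`: `h = 2^(i+1-t) g`, `2^(i+1) g = 2^t h`, `2^i g = 2^(t-1) h`; `BLL` with `α = 0`, `β = 1`: `B_i ≥ (κ Hs t - η) Z ≥ (c log 2 - η) Z` (`Hs_ge`, `κ ≥ c ≥ 0`).
* `Tf f x 0 1 ≥ ∑_{i ∈ range I, i ∉ bad} B_i` (all terms `≥ 0`: `f ≥ 0`; `dya_dec`). If `c log 2 - η ≤ 0` then `c ≤ 2 η ≤ ε` and the claim is trivial (`Tf ≥ 0`). Otherwise
  `Tf ≥ (I - t - M) (c log 2 - η) Z ≥ (ℓ/log 2 - 3 - t - M) (c log 2 - η) Z ≥ (c ℓ - 2 η ℓ - (3 + t + M) C) Z ≥ (c - ε) ℓ Z` for large `x` (when `ℓ/log 2 - 3 - t - M ≥ 0`).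
-/

set_option autoImplicit false

namespace Pool.Agent.H96.EQ

open Finset Pool.Agent.H6.MF

theorem QT_large (K : ℝ) : ∃ X : ℝ, ∀ x : ℝ, X ≤ x →
    0 ≤ x / (Real.log x) ^ 3 ∧ 1 ≤ Real.log (Real.log x) ∧ K ≤ Real.log (Real.log x) := by
  have h1 : Filter.Tendsto (fun x : ℝ => Real.log (Real.log x)) Filter.atTop Filter.atTop :=
    Real.tendsto_log_atTop.comp Real.tendsto_log_atTop
  have h2 := ((Real.tendsto_log_atTop.eventually_ge_atTop 0).and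
    (Filter.eventually_ge_atTop (0 : ℝ))).and
    ((h1.eventually_ge_atTop 1).and (h1.eventually_ge_atTop K))
  rcases Filter.eventually_atTop.mp h2 with ⟨X, hX⟩
  refine ⟨X, fun x hx => ?_⟩
  obtain ⟨⟨ha, hb⟩, hc, hd⟩ := hX x hx
  exact ⟨by positivity, hc, hd⟩

theorem QT_log2 : (1 : ℝ) / 2 ≤ Real.log 2 ∧ Real.log 2 ≤ 1 := by
  constructor
  · have := Real.log_two_gt_d9; linarith
  · have := Real.log_two_lt_d9; linarith

theorem QT_sec_nonneg {f : ℕ → ℕ → ℝ} (hf : ∀ a b, 0 ≤ f a b) (α β : ℝ) (d : ℕ) :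
    0 ≤ sec f α β d := by
  unfold sec
  exact mul_nonneg (by positivity) (Finset.sum_nonneg fun a _ => hf a d)

/-- the last estimate -/
theorem QT_final (c C ε η l N b B : ℝ) (hc : 0 ≤ c) (hcC : c ≤ C) (hε : 0 < ε)
    (hη0 : 0 < η) (hη : η ≤ ε / 8) (hl : 1 ≤ l) (hb : 0 ≤ b) (hKl : 2 * ((3 + b) * C) ≤ ε * l)
    (hN : l / Real.log 2 - 3 - b ≤ N) (hB0 : 0 ≤ B) (hB : N * (c * Real.log 2 - η) ≤ B) :
    (c - ε) * l ≤ B := by
  obtain ⟨hL1, hL2⟩ := QT_log2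
  rcases le_or_gt (c * Real.log 2 - η) 0 with h | h
  · have h1 : c ≤ ε := by nlinarith
    have h2 : (c - ε) * l ≤ 0 := mul_nonpos_of_nonpos_of_nonneg (by linarith) (by linarith)
    linarith
  · refine le_trans ?_ hB
    refine le_trans ?_ (mul_le_mul_of_nonneg_right hN h.le)
    have hlogpos : 0 < Real.log 2 := by linarith
    have hq : l / Real.log 2 * Real.log 2 = l := div_mul_cancel₀ _ hlogpos.ne'
    have hq2 : l / Real.log 2 ≤ 2 * l := by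
      rw [div_le_iff₀ hlogpos]; nlinarith
    have e1 : (l / Real.log 2 - 3 - b) * (c * Real.log 2 - η)
        = c * l - η * (l / Real.log 2) - (3 + b) * (c * Real.log 2 - η) := by
      linear_combination c * hq
    rw [e1]
    have e2 : η * (l / Real.log 2) ≤ ε / 8 * (2 * l) :=
      mul_le_mul hη hq2 (by positivity) (by positivity)
    have e3 : (3 + b) * (c * Real.log 2 - η) ≤ (3 + b) * C := by
      refine mul_le_mul_of_nonneg_left ?_ (by linarith)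
      have : c * Real.log 2 ≤ c * 1 := mul_le_mul_of_nonneg_left hL2 hc
      linarith
    have e4 : 0 ≤ ε * l := by positivity
    linarith

theorem QLOW (C ε : ℝ) (hC : 0 < C) (hε : 0 < ε) : ∃ ε' : ℝ, 0 < ε' ∧ ∀ M : ℕ, ∃ X : ℝ, ∀ x : ℝ, X ≤ x →
    ∀ f : ℕ → ℕ → ℝ, (∀ a b, 0 ≤ f a b) → ∀ c : ℝ, 0 ≤ c → c ≤ C →
    (∀ g : ℕ, Real.log x ≤ g → ∀ S : Finset ℕ, (∀ i ∈ S, ((2 ^ i * g : ℕ) : ℝ) ≤ (Real.log x) ^ 2 ∧
      ¬ (∃ κ : ℝ, c ≤ κ ∧ κ ≤ C ∧ BoxF f x ε' κ (2 ^ i * g))) → S.card ≤ M) →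
    (c - ε) * (Real.log (Real.log x) * (x / (Real.log x) ^ 3)) ≤ Tf f x 0 1 := by
  classical
  obtain ⟨η, hη0, hηε, hη1⟩ : ∃ η : ℝ, 0 < η ∧ η ≤ ε / 8 ∧ η ≤ 1 :=
    ⟨min (ε / 8) 1, lt_min (by positivity) one_pos, min_le_left _ _, min_le_right _ _⟩
  obtain ⟨t₀, ht₀⟩ : ∃ n : ℕ, (1 / 2 : ℝ) ^ n < η / (12 * C) :=
    exists_pow_lt_of_lt_one (by positivity) (by norm_num)
  obtain ⟨t, ht1, htC⟩ : ∃ t : ℕ, 1 ≤ t ∧ 6 * C / 2 ^ t ≤ η / 2 := by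
    refine ⟨t₀ + 1, by omega, ?_⟩
    have h1 : (1 / 2 : ℝ) ^ t₀ * (12 * C) < η := by
      rwa [lt_div_iff₀ (by positivity)] at ht₀
    have h2 : (1 / 2 : ℝ) ^ t₀ = 1 / 2 ^ t₀ := by rw [one_div_pow]
    rw [h2] at h1
    have h3 : 6 * C / 2 ^ (t₀ + 1) = 1 / 2 ^ t₀ * (12 * C) / 4 := by
      rw [pow_succ]; field_simp; ring
    rw [h3]
    linarith
  have h2t : (1 : ℝ) ≤ 2 ^ t := one_le_pow₀ (by norm_num)
  obtain ⟨ε', hε'0, hεη, hε2⟩ : ∃ ε' : ℝ, 0 < ε' ∧ ε' ≤ η ∧ 2 * 2 ^ t * ε' = η / 2 := by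
    refine ⟨η / (4 * 2 ^ t), by positivity, ?_, by field_simp; ring⟩
    apply div_le_self hη0.le
    linarith
  refine ⟨ε', hε'0, fun M => ?_⟩
  obtain ⟨X₁, hX₁⟩ := QT_large (2 * ((3 + ((t : ℝ) + M)) * C) / ε)
  refine ⟨max X₁ (Real.exp 10), fun x hx f hf c hc0 hcC hS => ?_⟩
  obtain ⟨hZ, hl1, hlK⟩ := hX₁ x ((le_max_left _ _).trans hx)
  have hxe : Real.exp 10 ≤ x := le_trans (le_max_right _ _) hx
  have hx0 : 0 < x := lt_of_lt_of_le (Real.exp_pos _) hxe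
  have hΛ : 10 ≤ Real.log x := by
    rw [Real.le_log_iff_exp_le hx0]; exact hxe
  set Λ : ℝ := Real.log x with hΛdef
  have hZ0 : 0 ≤ x / Λ ^ 3 := by positivity
  obtain ⟨p, hp⟩ : ∃ p : ℕ, p = ⌊Λ⌋₊ := ⟨_, rfl⟩
  obtain ⟨g, hg⟩ : ∃ g : ℕ, g = ⌊Λ⌋₊ + 1 := ⟨_, rfl⟩
  obtain ⟨Q, hQ⟩ : ∃ Q : ℕ, Q = ⌊Λ ^ 2⌋₊ := ⟨_, rfl⟩
  have hpΛ : (p : ℝ) ≤ Λ := by rw [hp]; exact Nat.floor_le (by linarith)
  have hΛp : Λ < (p : ℝ) + 1 := by rw [hp]; exact Nat.lt_floor_add_one _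
  have hgp : g = p + 1 := by rw [hg, hp]
  have hgpR : (g : ℝ) = (p : ℝ) + 1 := by rw [hgp]; push_cast; ring
  have hΛg : Λ ≤ (g : ℝ) := by rw [hgpR]; exact hΛp.le
  have hgΛ : (g : ℝ) ≤ Λ + 1 := by rw [hgpR]; linarith
  have hQΛ : (Q : ℝ) ≤ Λ ^ 2 := by rw [hQ]; exact Nat.floor_le (by positivity)
  have hΛQ : Λ ^ 2 < (Q : ℝ) + 1 := by rw [hQ]; exact Nat.lt_floor_add_one _
  have hg0 : 0 < g := by omega
  have hp1 : 1 ≤ p := by
    have : (1 : ℝ) < (p : ℝ) + 1 := by linarith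
    have h' : (0 : ℝ) < (p : ℝ) := by linarith
    exact_mod_cast h'
  have hgQ : g ≤ Q := by
    have : (g : ℝ) < (Q : ℝ) + 1 := by nlinarith
    have h' : g < Q + 1 := by exact_mod_cast this
    omega
  obtain ⟨I, hI⟩ : ∃ I : ℕ, I = Nat.log 2 (Q / g) := ⟨_, rfl⟩
  have hQg : Q / g ≠ 0 := by
    have := Nat.div_pos hgQ hg0
    omega
  have hIQ : 2 ^ I * g ≤ Q := by
    have h1 : 2 ^ I ≤ Q / g := by rw [hI]; exact Nat.pow_log_le_self 2 hQg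
    exact (Nat.le_div_iff_mul_le hg0).1 h1
  have hQI : Q < 2 ^ (I + 1) * g := by
    have h1 : Q / g < 2 ^ (I + 1) := by rw [hI]; exact Nat.lt_pow_succ_log_self (by norm_num) _
    exact (Nat.div_lt_iff_lt_mul hg0).1 h1
  have hIQR : (2 : ℝ) ^ I * g ≤ Λ ^ 2 := by
    have : ((2 ^ I * g : ℕ) : ℝ) ≤ (Q : ℝ) := by exact_mod_cast hIQ
    push_cast at this
    linarith
  have hlog2 : 0 < Real.log 2 := Real.log_pos (by norm_num)
  have hle : ∀ j ≤ I, ((2 ^ j * g : ℕ) : ℝ) ≤ Λ ^ 2 := by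
    intro j hj
    have h1 : 2 ^ j * g ≤ 2 ^ I * g := Nat.mul_le_mul_right _ (Nat.pow_le_pow_right (by norm_num) hj)
    have h2 : ((2 ^ j * g : ℕ) : ℝ) ≤ ((2 ^ I * g : ℕ) : ℝ) := by exact_mod_cast h1
    have h3 : ((2 ^ I * g : ℕ) : ℝ) = (2 : ℝ) ^ I * g := by push_cast; ring
    linarith
  have hI1 : (I : ℝ) ≤ Real.log Λ / Real.log 2 := by
    rw [le_div_iff₀ hlog2, ← Real.log_pow]
    apply Real.log_le_log (by positivity)
    have h1 : (2 : ℝ) ^ I * Λ ≤ Λ ^ 2 := by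
      refine le_trans ?_ hIQR
      exact mul_le_mul_of_nonneg_left hΛg (by positivity)
    nlinarith
  have hI2 : Real.log Λ / Real.log 2 - 3 ≤ (I : ℝ) := by
    have h1 : Λ ^ 2 < (2 : ℝ) ^ (I + 1) * g := by
      have h2 : Q + 1 ≤ 2 ^ (I + 1) * g := hQI
      have h3 : ((Q + 1 : ℕ) : ℝ) ≤ ((2 ^ (I + 1) * g : ℕ) : ℝ) := by exact_mod_cast h2
      push_cast at h3
      linarith
    have h2 : Λ ≤ (2 : ℝ) ^ (I + 3) := by
      have h3 : (2 : ℝ) ^ (I + 1) * g ≤ (2 : ℝ) ^ (I + 1) * (4 * Λ) :=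
        mul_le_mul_of_nonneg_left (by linarith) (by positivity)
      have h4 : Λ ^ 2 < (2 : ℝ) ^ (I + 3) * Λ := by
        have : (2 : ℝ) ^ (I + 3) = (2 : ℝ) ^ (I + 1) * 4 := by rw [pow_add, pow_add]; norm_num; ring
        rw [this]
        linarith
      nlinarith
    have h3 : Real.log Λ ≤ ((I + 3 : ℕ) : ℝ) * Real.log 2 := by
      rw [← Real.log_pow]
      exact Real.log_le_log (by linarith) h2
    rw [sub_le_iff_le_add, div_le_iff₀ hlog2]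
    push_cast at h3
    exact h3
  obtain ⟨bad, hbad⟩ : ∃ bad : Finset ℕ, bad = (range I).filter (fun i => i + 1 < t ∨
      ¬ ∃ κ : ℝ, c ≤ κ ∧ κ ≤ C ∧ BoxF f x ε' κ (2 ^ (i + 1) * g)) := ⟨_, rfl⟩
  have hcard : bad.card ≤ t + M := by
    rw [hbad, filter_or]
    refine le_trans (card_union_le _ _) (add_le_add ?_ ?_)
    · calc ((range I).filter (fun i => i + 1 < t)).card ≤ (range t).card := by
            apply card_le_card
            intro i hi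
            rw [mem_filter] at hi
            rw [mem_range]
            omega
        _ = t := card_range t
    · have h1 := hS g hΛg (((range I).filter (fun i =>
        ¬ ∃ κ : ℝ, c ≤ κ ∧ κ ≤ C ∧ BoxF f x ε' κ (2 ^ (i + 1) * g))).image (fun i => i + 1)) (by
          intro j hj
          rw [mem_image] at hj
          obtain ⟨i, hi, rfl⟩ := hj
          rw [mem_filter, mem_range] at hi
          exact ⟨hle (i + 1) (by omega), hi.2⟩)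
      rwa [card_image_of_injective _ (fun a b hab => by simpa using hab)] at h1
  have hterm : ∀ i ∈ range I \ bad, (c * Real.log 2 - η) * (x / Λ ^ 3) ≤
      ∑ d ∈ Ioc (2 ^ i * g) (2 ^ (i + 1) * g), sec f 0 1 d := by
    intro i hi
    rw [mem_sdiff] at hi
    have hnb : t ≤ i + 1 ∧ ∃ κ : ℝ, c ≤ κ ∧ κ ≤ C ∧ BoxF f x ε' κ (2 ^ (i + 1) * g) := by
      by_contra hcon
      apply hi.2
      rw [hbad, mem_filter]
      refine ⟨hi.1, ?_⟩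
      by_contra hc2
      rw [not_or, not_not, not_lt] at hc2
      exact hcon hc2
    obtain ⟨hti, k, hk1, hk2, hbox⟩ := hnb
    have hk0 : 0 ≤ k := by linarith
    obtain ⟨h, hh⟩ : ∃ h : ℕ, h = 2 ^ (i + 1 - t) * g := ⟨_, rfl⟩
    have hD : 2 ^ (i + 1) * g = 2 ^ t * h := by
      rw [hh, ← mul_assoc, ← pow_add]
      congr 2
      omega
    have hD' : 2 ^ i * g = 2 ^ (t - 1) * h := by
      rw [hh, ← mul_assoc, ← pow_add]
      congr 2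
      omega
    have hh1 : 1 ≤ h := by
      rw [hh]
      exact Nat.mul_pos (by positivity) hg0
    unfold BoxF at hbox
    rw [hD] at hbox
    have hL := BLL f hf h t hh1 ht1 k ε' (x / Λ ^ 3) hk0 hε'0.le hZ0 hbox 0 1 le_rfl zero_le_one
      le_rfl
    rw [hD, hD']
    refine le_trans ?_ hL
    have hHs := Hs_ge t ht1
    obtain ⟨hL1, hL2⟩ := QT_log2
    have h3 : c * Real.log 2 ≤ k * (1 - 0) * Hs t := by
      rw [sub_zero, mul_one]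
      exact mul_le_mul hk1 hHs (by linarith) hk0
    have h6 : 6 * k / 2 ^ t ≤ 6 * C / 2 ^ t := by
      apply div_le_div_of_nonneg_right _ (by positivity)
      linarith
    have h7 : c * Real.log 2 - η ≤ k * (1 - 0) * Hs t - (6 * k / 2 ^ t + 2 * 2 ^ t * ε') := by
      rw [hε2]
      linarith
    have h8 := mul_le_mul_of_nonneg_right h7 hZ0
    linarith
  have hdec : Tf f x 0 1 = ∑ d ∈ Ioc p g, sec f 0 1 d
      + ∑ i ∈ range I, ∑ d ∈ Ioc (2 ^ i * g) (2 ^ (i + 1) * g), sec f 0 1 d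
      + ∑ d ∈ Ioc (2 ^ I * g) Q, sec f 0 1 d := by
    unfold Tf
    rw [← hΛdef, ← hp, ← hQ]
    exact dya_dec (fun d => sec f 0 1 d) p g Q I (by omega) hIQ
  have hA0 : 0 ≤ ∑ d ∈ Ioc p g, sec f 0 1 d := sum_nonneg (fun d _ => QT_sec_nonneg hf 0 1 d)
  have hB0 : 0 ≤ ∑ d ∈ Ioc (2 ^ I * g) Q, sec f 0 1 d :=
    sum_nonneg (fun d _ => QT_sec_nonneg hf 0 1 d)
  have hsub : ∑ i ∈ range I \ bad, ∑ d ∈ Ioc (2 ^ i * g) (2 ^ (i + 1) * g), sec f 0 1 d ≤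
      ∑ i ∈ range I, ∑ d ∈ Ioc (2 ^ i * g) (2 ^ (i + 1) * g), sec f 0 1 d :=
    Finset.sum_le_sum_of_subset_of_nonneg Finset.sdiff_subset
      (fun i _ _ => sum_nonneg (fun d _ => QT_sec_nonneg hf 0 1 d))
  have hM0 : 0 ≤ ∑ i ∈ range I \ bad, ∑ d ∈ Ioc (2 ^ i * g) (2 ^ (i + 1) * g), sec f 0 1 d :=
    sum_nonneg (fun i _ => sum_nonneg (fun d _ => QT_sec_nonneg hf 0 1 d))
  have hcs : ((range I \ bad).card : ℝ) * ((c * Real.log 2 - η) * (x / Λ ^ 3)) ≤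
      ∑ i ∈ range I \ bad, ∑ d ∈ Ioc (2 ^ i * g) (2 ^ (i + 1) * g), sec f 0 1 d := by
    rw [← nsmul_eq_mul]
    exact Finset.card_nsmul_le_sum _ _ _ hterm
  have hcard2 : (I : ℝ) - ((t : ℝ) + M) ≤ ((range I \ bad).card : ℝ) := by
    have h1 := Finset.le_card_sdiff bad (range I)
    rw [card_range] at h1
    have h2 : I ≤ (range I \ bad).card + (t + M) := by omega
    have h3 : (I : ℝ) ≤ ((range I \ bad).card : ℝ) + ((t : ℝ) + M) := by exact_mod_cast h2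
    linarith
  have hKl : 2 * ((3 + ((t : ℝ) + M)) * C) ≤ ε * Real.log Λ := by
    rw [div_le_iff₀ hε] at hlK
    linarith
  have hTf : ∑ i ∈ range I \ bad, ∑ d ∈ Ioc (2 ^ i * g) (2 ^ (i + 1) * g), sec f 0 1 d ≤
      Tf f x 0 1 := by
    rw [hdec]
    linarith
  refine le_trans ?_ hTf
  obtain ⟨S, hSd⟩ : ∃ S, S = ∑ i ∈ range I \ bad,
    ∑ d ∈ Ioc (2 ^ i * g) (2 ^ (i + 1) * g), sec f 0 1 d := ⟨_, rfl⟩
  rw [← hSd] at hM0 hcs ⊢
  have hZpos : 0 < x / Λ ^ 3 := by positivity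
  have hfin := QT_final c C ε η (Real.log Λ) ((range I \ bad).card : ℝ) ((t : ℝ) + M)
    (S / (x / Λ ^ 3)) hc0 hcC hε hη0 hηε hl1 (by positivity) hKl (by linarith)
    (div_nonneg hM0 hZpos.le) (by rw [le_div_iff₀ hZpos]; linarith)
  rw [le_div_iff₀ hZpos] at hfin
  linarith

end Pool.Agent.H96.EQ
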