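import Pool.Agent.H96.EQ.QB
import Pool.Agent.H96.EQ.SHF
import Pool.Agent.H96.EQ.VAR

/-!
# QV: variance decomposition and closeness of windows for a set of primes

This is `VAR`, `En_anti`, `En_nonneg` (file VAR.lean) and `CLO` (file CLO.lean) with `wq Q`, `Yq x Q`, `Eq2 x Q` in place of `win`, `Y x`, `En x`:
copy both proofs and replace `win_mono`, `win_add`, `win_blocks`, `Y_shift`, `Y_neg` by `wq_mono`, `wq_add`, `wq_blocks`, `Yq_shift`, `Yq_neg`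
(which needs `hQ : PQ Q`).
`Eq2_le`: `0 ≤ Yq ≤ Y` (`Yq_le`, `Yq_nonneg`, `x ≥ 1`), so `Eq2 x Q s ≤ En x s`.
-/

set_option autoImplicit false

namespace Pool.Agent.H96.EQ

open Finset Pool.Agent.H6.MF

lemma QV_sum (x : ℝ) (Q : Set ℤ) (s m : ℕ) (hs : 1 ≤ s) (hm : 1 ≤ m) (n : ℤ) :
    ∑ j ∈ range m, Yq x Q ((j * s : ℕ) : ℤ) (((j + 1) * s : ℕ) : ℤ) n
      = m * Yq x Q 0 ((m * s : ℕ) : ℤ) n := by
  have hs' : (s : ℝ) ≠ 0 := by positivity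
  have hm' : (m : ℝ) ≠ 0 := by positivity
  unfold Yq
  rw [wq_blocks]
  push_cast
  have h1 : ∀ j ∈ range m, (wq Q ((j : ℤ) * s) (((j : ℤ) + 1) * s) n : ℝ) * Real.log x
      / (((j : ℝ) + 1) * s - (j : ℝ) * s)
      = (wq Q ((j : ℤ) * s) (((j : ℤ) + 1) * s) n : ℝ) * (Real.log x / s) := by
    intro j _
    have : ((j : ℝ) + 1) * s - (j : ℝ) * s = s := by ring
    rw [this, mul_div_assoc]
  rw [Finset.sum_congr rfl h1, ← Finset.sum_mul, sub_zero]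
  field_simp

theorem QVAR (x : ℝ) {Q : Set ℤ} (hQ : PQ Q) (s m : ℕ) (hs : 1 ≤ s) (hm : 1 ≤ m) :
    ∑ j ∈ range m, ∑ n ∈ range (⌊x⌋₊ + 1),
        (Yq x Q ((j * s : ℕ) : ℤ) (((j + 1) * s : ℕ) : ℤ) (n : ℤ) - Yq x Q 0 ((m * s : ℕ) : ℤ) (n : ℤ)) ^ 2
      ≤ m * (Eq2 x Q s - Eq2 x Q (m * s)) := by
  have h1 : ∀ n : ℕ, ∑ j ∈ range m,
      (Yq x Q ((j * s : ℕ) : ℤ) (((j + 1) * s : ℕ) : ℤ) (n : ℤ) - Yq x Q 0 ((m * s : ℕ) : ℤ) (n : ℤ)) ^ 2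
      = ∑ j ∈ range m, (Yq x Q ((j * s : ℕ) : ℤ) (((j + 1) * s : ℕ) : ℤ) (n : ℤ)) ^ 2
        - m * (Yq x Q 0 ((m * s : ℕ) : ℤ) (n : ℤ)) ^ 2 := by
    intro n
    have h2 := QV_sum x Q s m hs hm (n : ℤ)
    have h3 : ∀ j ∈ range m,
        (Yq x Q ((j * s : ℕ) : ℤ) (((j + 1) * s : ℕ) : ℤ) (n : ℤ) - Yq x Q 0 ((m * s : ℕ) : ℤ) (n : ℤ)) ^ 2
        = (Yq x Q ((j * s : ℕ) : ℤ) (((j + 1) * s : ℕ) : ℤ) (n : ℤ)) ^ 2
          - Yq x Q ((j * s : ℕ) : ℤ) (((j + 1) * s : ℕ) : ℤ) (n : ℤ)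
            * (2 * Yq x Q 0 ((m * s : ℕ) : ℤ) (n : ℤ)) + (Yq x Q 0 ((m * s : ℕ) : ℤ) (n : ℤ)) ^ 2 := by
      intro j _; ring
    rw [Finset.sum_congr rfl h3, Finset.sum_add_distrib, Finset.sum_sub_distrib, ← Finset.sum_mul,
      h2, Finset.sum_const, card_range, nsmul_eq_mul]
    ring
  rw [Finset.sum_comm, Finset.sum_congr rfl (fun n _ => h1 n), Finset.sum_sub_distrib,
    ← Finset.mul_sum, Finset.sum_comm]
  have h4 : ∀ j ∈ range m, ∑ n ∈ range (⌊x⌋₊ + 1),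
      (Yq x Q ((j * s : ℕ) : ℤ) (((j + 1) * s : ℕ) : ℤ) (n : ℤ)) ^ 2 ≤ Eq2 x Q s := by
    intro j _
    have h5 : ∀ n ∈ range (⌊x⌋₊ + 1), (Yq x Q ((j * s : ℕ) : ℤ) (((j + 1) * s : ℕ) : ℤ) (n : ℤ)) ^ 2
        = (fun z : ℤ => (Yq x Q 0 (s : ℤ) z) ^ 2) ((n : ℤ) - ((j * s : ℕ) : ℤ)) := by
      intro n _
      have h6 := Yq_shift x Q 0 (s : ℤ) (n : ℤ) ((j * s : ℕ) : ℤ)
      have h7 : (s : ℤ) + ((j * s : ℕ) : ℤ) = (((j + 1) * s : ℕ) : ℤ) := by push_cast; ring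
      rw [zero_add, h7] at h6
      rw [h6]
    rw [Finset.sum_congr rfl h5]
    refine shift_le _ (fun z : ℤ => (Yq x Q 0 (s : ℤ) z) ^ 2) ?_ ?_ _ ?_
    · intro z hz
      show (Yq x Q 0 (s : ℤ) z) ^ 2 = 0
      rw [Yq_neg x hQ 0 s z le_rfl hz.le]
      ring
    · intro z
      exact sq_nonneg _
    · exact_mod_cast Nat.zero_le _
  have h8 := Finset.sum_le_card_nsmul (range m) _ _ h4
  rw [card_range, nsmul_eq_mul] at h8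
  have h9 : Eq2 x Q (m * s) = ∑ n ∈ range (⌊x⌋₊ + 1), Yq x Q 0 ((m * s : ℕ) : ℤ) (n : ℤ) ^ 2 := rfl
  rw [h9]
  linarith

theorem Eq2_anti (x : ℝ) {Q : Set ℤ} (hQ : PQ Q) (s m : ℕ) (hs : 1 ≤ s) (hm : 1 ≤ m) :
    Eq2 x Q (m * s) ≤ Eq2 x Q s := by
  have h1 := QVAR x hQ s m hs hm
  have h2 : (0 : ℝ) ≤ ∑ j ∈ range m, ∑ n ∈ range (⌊x⌋₊ + 1),
        (Yq x Q ((j * s : ℕ) : ℤ) (((j + 1) * s : ℕ) : ℤ) (n : ℤ)
          - Yq x Q 0 ((m * s : ℕ) : ℤ) (n : ℤ)) ^ 2 :=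
    Finset.sum_nonneg fun j _ => Finset.sum_nonneg fun n _ => sq_nonneg _
  have h3 : (0 : ℝ) < m := by exact_mod_cast hm
  by_contra hcon
  push Not at hcon
  have h4 : (m : ℝ) * (Eq2 x Q s - Eq2 x Q (m * s)) < 0 :=
    mul_neg_of_pos_of_neg h3 (by linarith)
  linarith

theorem Eq2_nonneg (x : ℝ) (Q : Set ℤ) (s : ℕ) : 0 ≤ Eq2 x Q s := by
  exact Finset.sum_nonneg fun n _ => sq_nonneg _

theorem Eq2_le (x : ℝ) (hx : 1 ≤ x) {Q : Set ℤ} (hQ : PQ Q) (s : ℕ) : Eq2 x Q s ≤ En x s := by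
  refine Finset.sum_le_sum fun n _ => ?_
  have h0 : (0 : ℤ) ≤ (s : ℤ) := Int.natCast_nonneg s
  exact pow_le_pow_left₀ (Yq_nonneg x hx Q _ _ _ h0) (Yq_le x hx hQ _ _ _ h0) 2

/-- the energy of a shifted block -/
lemma QV_block (x : ℝ) {Q : Set ℤ} (hQ : PQ Q) (s j : ℕ) :
    ∑ n ∈ range (⌊x⌋₊ + 1), (Yq x Q ((j * s : ℕ) : ℤ) (((j + 1) * s : ℕ) : ℤ) (n : ℤ)) ^ 2 ≤ Eq2 x Q s := by
  have h5 : ∀ n ∈ range (⌊x⌋₊ + 1), (Yq x Q ((j * s : ℕ) : ℤ) (((j + 1) * s : ℕ) : ℤ) (n : ℤ)) ^ 2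
      = (fun z : ℤ => (Yq x Q 0 (s : ℤ) z) ^ 2) ((n : ℤ) - ((j * s : ℕ) : ℤ)) := by
    intro n _
    have h6 := Yq_shift x Q 0 (s : ℤ) (n : ℤ) ((j * s : ℕ) : ℤ)
    have h7 : (s : ℤ) + ((j * s : ℕ) : ℤ) = (((j + 1) * s : ℕ) : ℤ) := by push_cast; ring
    rw [zero_add, h7] at h6
    rw [h6]
  rw [Finset.sum_congr rfl h5]
  refine shift_le _ (fun z : ℤ => (Yq x Q 0 (s : ℤ) z) ^ 2) ?_ ?_ _ ?_
  · intro z hz
    show (Yq x Q 0 (s : ℤ) z) ^ 2 = 0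
    rw [Yq_neg x hQ 0 s z le_rfl hz.le]
    ring
  · intro z
    exact sq_nonneg _
  · exact_mod_cast Nat.zero_le _

/-- a window inside a block -/
lemma QV_sub (x : ℝ) (Q : Set ℤ) (s j : ℕ) (hs : 1 ≤ s) (p q : ℤ) (w : ℝ) (hw : 0 < w)
    (hp : ((j * s : ℕ) : ℤ) ≤ p) (hq : q ≤ (((j + 1) * s : ℕ) : ℤ)) (n : ℤ) :
    ((wq Q p q n : ℝ) * Real.log x / w) ^ 2
      ≤ ((s : ℝ) / w) ^ 2 * (Yq x Q ((j * s : ℕ) : ℤ) (((j + 1) * s : ℕ) : ℤ) n) ^ 2 := by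
  have h1 : (wq Q p q n : ℝ) ≤ wq Q ((j * s : ℕ) : ℤ) (((j + 1) * s : ℕ) : ℤ) n := by
    exact_mod_cast wq_mono Q hp hq
  have h0 : (0 : ℝ) ≤ wq Q p q n := Nat.cast_nonneg _
  have hs' : (0 : ℝ) < s := by exact_mod_cast hs
  have h2 : ((s : ℝ) / w) ^ 2 * (Yq x Q ((j * s : ℕ) : ℤ) (((j + 1) * s : ℕ) : ℤ) n) ^ 2
      = ((wq Q ((j * s : ℕ) : ℤ) (((j + 1) * s : ℕ) : ℤ) n : ℝ)) ^ 2 * (Real.log x / w) ^ 2 := by
    unfold Yq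
    have h3 : (((((j + 1) * s : ℕ) : ℤ) : ℝ) - (((j * s : ℕ) : ℤ) : ℝ)) = s := by push_cast; ring
    rw [h3]
    field_simp
  rw [h2]
  have h3 : ((wq Q p q n : ℝ) * Real.log x / w) ^ 2 = (wq Q p q n : ℝ) ^ 2 * (Real.log x / w) ^ 2 := by
    ring
  rw [h3]
  exact mul_le_mul_of_nonneg_right (pow_le_pow_left₀ h0 h1 2) (sq_nonneg _)

/-- the blocks between `a` and `b` -/
lemma QV_mid (Q : Set ℤ) (s a b : ℕ) (hab : a ≤ b) (n : ℤ) :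
    wq Q ((a * s : ℕ) : ℤ) ((b * s : ℕ) : ℤ) n
      = ∑ j ∈ Ico a b, wq Q ((j * s : ℕ) : ℤ) (((j + 1) * s : ℕ) : ℤ) n := by
  have h1 := wq_blocks Q s a n
  have h2 := wq_blocks Q s b n
  have h3 : wq Q 0 ((b * s : ℕ) : ℤ) n = wq Q 0 ((a * s : ℕ) : ℤ) n
      + wq Q ((a * s : ℕ) : ℤ) ((b * s : ℕ) : ℤ) n := by
    refine wq_add Q ?_ ?_ n
    · exact_mod_cast Nat.zero_le _
    · exact_mod_cast Nat.mul_le_mul_right s hab
  have h4 := Finset.sum_Ico_consecutive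
    (fun j : ℕ => wq Q ((j * s : ℕ) : ℤ) (((j + 1) * s : ℕ) : ℤ) n) (Nat.zero_le a) hab
  rw [← Finset.range_eq_Ico, ← Finset.range_eq_Ico, ← h1, ← h2, h3] at h4
  exact (Nat.add_left_cancel h4).symm

/-- the pointwise bound -/
lemma QV_pt (x : ℝ) (Q : Set ℤ) (s m u v a b : ℕ) (hs : 1 ≤ s) (hsw : u + s ≤ v) (ha : u ≤ a * s)
    (ha' : a * s ≤ u + s) (hb : b * s ≤ v) (hb' : v ≤ (b + 1) * s) (hab : a ≤ b) (hbm : b ≤ m)
    (n : ℤ) :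
    (Yq x Q (u : ℤ) (v : ℤ) n - Yq x Q 0 ((m * s : ℕ) : ℤ) n) ^ 2
      ≤ 4 * (((wq Q (u : ℤ) ((a * s : ℕ) : ℤ) n : ℝ) * Real.log x / ((v : ℝ) - u)) ^ 2
        + ((wq Q ((b * s : ℕ) : ℤ) (v : ℤ) n : ℝ) * Real.log x / ((v : ℝ) - u)) ^ 2
        + ∑ j ∈ range m, (Yq x Q ((j * s : ℕ) : ℤ) (((j + 1) * s : ℕ) : ℤ) n
            - Yq x Q 0 ((m * s : ℕ) : ℤ) n) ^ 2
        + 4 * ((s : ℝ) / ((v : ℝ) - u)) ^ 2 * (Yq x Q 0 ((m * s : ℕ) : ℤ) n) ^ 2) := by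
  have hs' : (0 : ℝ) < s := by exact_mod_cast hs
  have hsw' : (u : ℝ) + s ≤ v := by exact_mod_cast hsw
  have ha1 : (u : ℝ) ≤ a * s := by exact_mod_cast ha
  have ha2 : (a : ℝ) * s ≤ u + s := by exact_mod_cast ha'
  have hb1 : (b : ℝ) * s ≤ v := by exact_mod_cast hb
  have hb2 : (v : ℝ) ≤ (b + 1) * s := by exact_mod_cast hb'
  have hab' : (a : ℝ) ≤ b := by exact_mod_cast hab
  set w : ℝ := (v : ℝ) - u with hw
  have hw0 : 0 < w := by rw [hw]; linarith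
  have hw1 : (s : ℝ) ≤ w := by rw [hw]; linarith
  set V : ℝ := Yq x Q 0 ((m * s : ℕ) : ℤ) n with hV
  set f : ℕ → ℝ := fun j => Yq x Q ((j * s : ℕ) : ℤ) (((j + 1) * s : ℕ) : ℤ) n with hf
  set A : ℝ := (wq Q (u : ℤ) ((a * s : ℕ) : ℤ) n : ℝ) * Real.log x / w with hA
  set B : ℝ := (wq Q ((b * s : ℕ) : ℤ) (v : ℤ) n : ℝ) * Real.log x / w with hB
  set σ : ℝ := (s : ℝ) / w with hσ
  have hσ0 : 0 ≤ σ := by positivity
  have hσ1 : σ ≤ 1 := by rw [hσ, div_le_one hw0]; exact hw1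
  -- splitting of the window
  have hsplit : wq Q (u : ℤ) (v : ℤ) n = wq Q (u : ℤ) ((a * s : ℕ) : ℤ) n
      + ∑ j ∈ Ico a b, wq Q ((j * s : ℕ) : ℤ) (((j + 1) * s : ℕ) : ℤ) n
      + wq Q ((b * s : ℕ) : ℤ) (v : ℤ) n := by
    rw [← QV_mid Q s a b hab n]
    have h1 : (u : ℤ) ≤ ((a * s : ℕ) : ℤ) := by exact_mod_cast ha
    have h2 : ((a * s : ℕ) : ℤ) ≤ ((b * s : ℕ) : ℤ) := by
      exact_mod_cast Nat.mul_le_mul_right s hab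
    have h3 : ((b * s : ℕ) : ℤ) ≤ (v : ℤ) := by exact_mod_cast hb
    rw [wq_add Q h1 (h2.trans h3) n, wq_add Q h2 h3 n]
    ring
  have hYf : ∀ j : ℕ, (wq Q ((j * s : ℕ) : ℤ) (((j + 1) * s : ℕ) : ℤ) n : ℝ) * Real.log x / w
      = σ * f j := by
    intro j
    rw [hf, hσ]
    simp only
    unfold Yq
    have h3 : (((((j + 1) * s : ℕ) : ℤ) : ℝ) - (((j * s : ℕ) : ℤ) : ℝ)) = s := by push_cast; ring
    rw [h3]
    field_simp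
  have hY : Yq x Q (u : ℤ) (v : ℤ) n = A + ∑ j ∈ Ico a b, σ * f j + B := by
    have h1 : Yq x Q (u : ℤ) (v : ℤ) n = (wq Q (u : ℤ) (v : ℤ) n : ℝ) * Real.log x / w := by
      unfold Yq
      rw [hw]
      push_cast
      rfl
    rw [h1, hsplit]
    push_cast
    rw [add_mul, add_mul, add_div, add_div, Finset.sum_mul, Finset.sum_div]
    congr 1
    congr 1
    refine Finset.sum_congr rfl fun j _ => ?_
    have := hYf j
    push_cast at this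
    exact this
  set M : ℝ := σ * ∑ j ∈ Ico a b, (f j - V) with hM
  set E : ℝ := V * (((b : ℝ) - a) * σ - 1) with hE
  have hcard : ((Ico a b).card : ℝ) = (b : ℝ) - a := by
    rw [Nat.card_Ico, Nat.cast_sub hab]
  have hsum : Yq x Q (u : ℤ) (v : ℤ) n - V = A + B + M + E := by
    rw [hY, hM, hE, Finset.sum_sub_distrib, Finset.sum_const, nsmul_eq_mul, hcard, ← Finset.mul_sum]
    ring
  rw [hsum]
  have h4 : (A + B + M + E) ^ 2 ≤ 4 * (A ^ 2 + B ^ 2 + M ^ 2 + E ^ 2) := by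
    nlinarith [sq_nonneg (A - B), sq_nonneg (A - M), sq_nonneg (A - E), sq_nonneg (B - M),
      sq_nonneg (B - E), sq_nonneg (M - E)]
  -- the middle term
  have hba : ((b : ℝ) - a) * σ ≤ 1 := by
    rw [hσ, ← mul_div_assoc, div_le_one hw0, hw]
    nlinarith
  have hM2 : M ^ 2 ≤ ∑ j ∈ range m, (f j - V) ^ 2 := by
    have h5 : (∑ j ∈ Ico a b, (f j - V)) ^ 2 ≤ ((b : ℝ) - a) * ∑ j ∈ Ico a b, (f j - V) ^ 2 := by
      have := sq_sum_le_card_mul_sum_sq (s := Ico a b) (f := fun j => f j - V)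
      rw [hcard] at this
      exact this
    have h6 : ∑ j ∈ Ico a b, (f j - V) ^ 2 ≤ ∑ j ∈ range m, (f j - V) ^ 2 := by
      refine Finset.sum_le_sum_of_subset_of_nonneg ?_ fun i _ _ => sq_nonneg _
      intro j hj
      rw [Finset.mem_Ico] at hj
      rw [Finset.mem_range]
      omega
    have h7 : (0 : ℝ) ≤ ∑ j ∈ Ico a b, (f j - V) ^ 2 := Finset.sum_nonneg fun i _ => sq_nonneg _
    have h8 : M ^ 2 = σ ^ 2 * (∑ j ∈ Ico a b, (f j - V)) ^ 2 := by rw [hM]; ring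
    rw [h8]
    calc σ ^ 2 * (∑ j ∈ Ico a b, (f j - V)) ^ 2
        ≤ σ ^ 2 * (((b : ℝ) - a) * ∑ j ∈ Ico a b, (f j - V) ^ 2) :=
          mul_le_mul_of_nonneg_left h5 (sq_nonneg _)
      _ = σ * ((((b : ℝ) - a) * σ) * ∑ j ∈ Ico a b, (f j - V) ^ 2) := by ring
      _ ≤ σ * (1 * ∑ j ∈ Ico a b, (f j - V) ^ 2) :=
          mul_le_mul_of_nonneg_left (mul_le_mul_of_nonneg_right hba h7) hσ0
      _ ≤ 1 * (1 * ∑ j ∈ Ico a b, (f j - V) ^ 2) :=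
          mul_le_mul_of_nonneg_right hσ1 (by rw [one_mul]; exact h7)
      _ = ∑ j ∈ Ico a b, (f j - V) ^ 2 := by ring
      _ ≤ _ := h6
  have hE2 : E ^ 2 ≤ 4 * σ ^ 2 * V ^ 2 := by
    have h5 : 1 - ((b : ℝ) - a) * σ ≤ 2 * σ := by
      have h6 : w - ((b : ℝ) - a) * s ≤ 2 * s := by rw [hw]; nlinarith
      have h7 : 1 - ((b : ℝ) - a) * σ = (w - ((b : ℝ) - a) * s) / w := by
        rw [hσ]; field_simp
      have h8 : 2 * σ = (2 * s) / w := by rw [hσ]; ring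
      rw [h7, h8]
      exact div_le_div_of_nonneg_right h6 hw0.le
    have h6 : (((b : ℝ) - a) * σ - 1) ^ 2 ≤ (2 * σ) ^ 2 := by
      rw [← sq_abs (((b : ℝ) - a) * σ - 1)]
      refine pow_le_pow_left₀ (abs_nonneg _) ?_ 2
      rw [abs_le]
      constructor <;> linarith
    have h7 : E ^ 2 = V ^ 2 * (((b : ℝ) - a) * σ - 1) ^ 2 := by rw [hE]; ring
    rw [h7]
    calc V ^ 2 * (((b : ℝ) - a) * σ - 1) ^ 2 ≤ V ^ 2 * (2 * σ) ^ 2 :=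
          mul_le_mul_of_nonneg_left h6 (sq_nonneg _)
      _ = 4 * σ ^ 2 * V ^ 2 := by ring
  linarith

theorem QCLO (x C δ : ℝ) {Q : Set ℤ} (hQ : PQ Q) (s m u v : ℕ) (hx : 0 ≤ x) (hs : 1 ≤ s) (hm : 1 ≤ m) (hC0 : 0 ≤ C)
    (hC : Eq2 x Q s ≤ C * x) (hδ : Eq2 x Q s - Eq2 x Q (m * s) ≤ δ * x) (huv : u + s ≤ v) (hv : v ≤ m * s) :
    ∑ n ∈ range (⌊x⌋₊ + 1), (Yq x Q (u : ℤ) (v : ℤ) (n : ℤ) - Yq x Q 0 ((m * s : ℕ) : ℤ) (n : ℤ)) ^ 2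
      ≤ (4 * m * δ + 24 * C * ((s : ℝ) / ((v : ℝ) - u)) ^ 2) * x := by
  have hspos : 0 < s := hs
  -- the two indices
  set a : ℕ := (u + s - 1) / s with ha
  set b : ℕ := v / s with hb
  have ha0 : s * a + (u + s - 1) % s = u + s - 1 := Nat.div_add_mod _ _
  have ha1 : (u + s - 1) % s < s := Nat.mod_lt _ hspos
  have hb0 : s * b + v % s = v := Nat.div_add_mod _ _
  have hb1 : v % s < s := Nat.mod_lt _ hspos
  have hau : u ≤ a * s := by rw [mul_comm a s]; omega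
  have hau' : a * s ≤ u + s - 1 := by rw [mul_comm a s]; omega
  have hbv : b * s ≤ v := by rw [mul_comm b s]; omega
  have hbv' : v ≤ (b + 1) * s := by rw [add_mul, mul_comm b s]; omega
  have hab : a ≤ b := by
    rw [hb, Nat.le_div_iff_mul_le hspos]
    omega
  have hbm : b ≤ m := by
    rw [hb]
    exact Nat.div_le_of_le_mul (by rw [mul_comm s m]; exact hv)
  have hsw' : (u : ℝ) + s ≤ v := by exact_mod_cast huv
  have hs' : (0 : ℝ) < s := by exact_mod_cast hs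
  have hw0 : (0 : ℝ) < (v : ℝ) - u := by linarith
  have hpt := fun n : ℕ => QV_pt x Q s m u v a b hs huv hau (by omega) hbv hbv' hab hbm (n : ℤ)
  have hsumle := Finset.sum_le_sum (s := range (⌊x⌋₊ + 1)) fun n _ => hpt n
  refine hsumle.trans ?_
  rw [← Finset.mul_sum, Finset.sum_add_distrib, Finset.sum_add_distrib, Finset.sum_add_distrib,
    ← Finset.mul_sum]
  set σ : ℝ := (s : ℝ) / ((v : ℝ) - u) with hσ
  have hσ2 : 0 ≤ σ ^ 2 := sq_nonneg _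
  -- the first term
  have hA : ∑ n ∈ range (⌊x⌋₊ + 1),
      ((wq Q (u : ℤ) ((a * s : ℕ) : ℤ) (n : ℤ) : ℝ) * Real.log x / ((v : ℝ) - u)) ^ 2
      ≤ σ ^ 2 * (C * x) := by
    rcases Nat.eq_zero_or_pos a with h0 | h0
    · have h1 : ∀ n ∈ range (⌊x⌋₊ + 1),
          ((wq Q (u : ℤ) ((a * s : ℕ) : ℤ) ((n : ℕ) : ℤ) : ℝ) * Real.log x / ((v : ℝ) - u)) ^ 2
            = 0 := by
        intro n _
        have h2 : wq Q (u : ℤ) ((a * s : ℕ) : ℤ) (n : ℤ) = 0 := by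
          have h3 := (wq_le_win hQ (u : ℤ) ((a * s : ℕ) : ℤ) (n : ℤ)).trans
            (win_le (u : ℤ) ((a * s : ℕ) : ℤ) (n : ℤ))
          rw [h0] at h3 ⊢
          have h4 : ((((0 * s : ℕ) : ℤ) - (u : ℤ)).toNat) = 0 := by
            rw [Int.toNat_eq_zero]
            push_cast
            omega
          omega
        rw [h2]
        simp
      rw [Finset.sum_eq_zero h1]
      positivity
    · obtain ⟨c, hc⟩ : ∃ c, a = c + 1 := ⟨a - 1, by omega⟩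
      rw [hc]
      have hcu : c * s ≤ u := by
        have h1 : (c + 1) * s = c * s + s := by ring
        have h2 : (c + 1) * s ≤ u + s - 1 := by rw [← hc]; exact hau'
        omega
      have h1 := Finset.sum_le_sum (s := range (⌊x⌋₊ + 1)) fun n _ =>
        QV_sub x Q s c hs (u : ℤ) (((c + 1) * s : ℕ) : ℤ) ((v : ℝ) - u) hw0
          (by exact_mod_cast hcu) le_rfl ((n : ℕ) : ℤ)
      refine h1.trans ?_
      rw [← Finset.mul_sum]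
      exact mul_le_mul_of_nonneg_left ((QV_block x hQ s c).trans hC) hσ2
  have hB : ∑ n ∈ range (⌊x⌋₊ + 1),
      ((wq Q ((b * s : ℕ) : ℤ) (v : ℤ) (n : ℤ) : ℝ) * Real.log x / ((v : ℝ) - u)) ^ 2
      ≤ σ ^ 2 * (C * x) := by
    have h1 := Finset.sum_le_sum (s := range (⌊x⌋₊ + 1)) fun n _ =>
      QV_sub x Q s b hs ((b * s : ℕ) : ℤ) (v : ℤ) ((v : ℝ) - u) hw0
        le_rfl (by exact_mod_cast hbv') ((n : ℕ) : ℤ)
    refine h1.trans ?_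
    rw [← Finset.mul_sum]
    exact mul_le_mul_of_nonneg_left ((QV_block x hQ s b).trans hC) hσ2
  have hM : ∑ n ∈ range (⌊x⌋₊ + 1), ∑ j ∈ range m,
      (Yq x Q ((j * s : ℕ) : ℤ) (((j + 1) * s : ℕ) : ℤ) (n : ℤ)
        - Yq x Q 0 ((m * s : ℕ) : ℤ) (n : ℤ)) ^ 2 ≤ m * (δ * x) := by
    rw [Finset.sum_comm]
    refine (QVAR x hQ s m hs hm).trans ?_
    exact mul_le_mul_of_nonneg_left hδ (Nat.cast_nonneg _)
  have hE : ∑ n ∈ range (⌊x⌋₊ + 1), (Yq x Q 0 ((m * s : ℕ) : ℤ) (n : ℤ)) ^ 2 ≤ C * x :=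
    (Eq2_anti x hQ s m hs hm).trans hC
  have hE' := mul_le_mul_of_nonneg_left hE (by positivity : (0 : ℝ) ≤ 4 * σ ^ 2)
  nlinarith

end Pool.Agent.H96.EQ
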