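import Pool.Agent.H96.EQ.QF
import Pool.Agent.H96.EQ.QJ
import Pool.Agent.H96.EQ.QT

/-!
# QZ: dense sets of primes have many triples in every sector

`U = log Λ · (x/Λ^3)`, `Λ = log x`. `C` from `kap_le`. `QLOW C (ε/2)` gives `ε'`, `QMX ε'` gives `M`, `X₁`; `QLOW` with this `M` gives `X₂`; `kq_ge (ε/2)` gives `X₃`. Let
`c = max 0 ((dq x Q)^3 - ε/2)`. For `i ∈ S` as in the hypothesis of `QLOW` (with `f = q3 x Q Q Q`): `2^i g ≤ Λ^2 ≤ Λ^3`, `1 ≤ g`, so `κ = kq x Q Q Q (2^i g)` satisfies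
`c ≤ κ` (`kq_ge`, `kq_nonneg`) and `κ ≤ C` (`kq_le_kap`, `kap_le`, `Λ ≤ g ≤ 2^i g`); hence `BoxF` fails for this `κ` and the hypothesis of `QMX ε'` holds. (`c ≤ C` holds if
some such `κ` exists; to have it in general: `c ≤ kq x Q Q Q D ≤ kap x D ≤ C` for `D = ⌊Λ⌋₊ + 1`.) So `(c - ε/2) U ≤ Tf (q3 x Q Q Q) x 0 1`, and
`c - ε/2 ≥ (dq x Q)^3 - ε`, `U ≥ 0` for large `x`.
-/

set_option autoImplicit false

namespace Pool.Agent.H96.EQ

open Finset Pool.Agent.H6.MF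

theorem QDEN (ε : ℝ) (hε : 0 < ε) : ∃ X : ℝ, ∀ x : ℝ, X ≤ x → ∀ Q : Set ℤ, PQ Q →
    ((dq x Q) ^ 3 - ε) * (Real.log (Real.log x) * (x / (Real.log x) ^ 3)) ≤ Tf (q3 x Q Q Q) x 0 1 := by
  obtain ⟨C, X₀, hC, hkap⟩ := kap_le
  obtain ⟨ε', hε', hlow⟩ := QLOW C (ε / 2) hC (by positivity)
  obtain ⟨M, X₁, hM⟩ := QMX ε' hε'
  obtain ⟨X₂, hX₂⟩ := hlow M
  obtain ⟨X₃, hX₃⟩ := kq_ge (ε / 2) (by positivity)
  refine ⟨max (max (max X₀ X₁) (max X₂ X₃)) (Real.exp 10), fun x hx Q hQ => ?_⟩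
  have hx03 : max (max X₀ X₁) (max X₂ X₃) ≤ x := (le_max_left _ _).trans hx
  have hx0 : X₀ ≤ x := ((le_max_left _ _).trans (le_max_left _ _)).trans hx03
  have hxM : X₁ ≤ x := ((le_max_right _ _).trans (le_max_left _ _)).trans hx03
  have hx2 : X₂ ≤ x := ((le_max_left _ _).trans (le_max_right _ _)).trans hx03
  have hx3 : X₃ ≤ x := ((le_max_right _ _).trans (le_max_right _ _)).trans hx03
  have hxe : Real.exp 10 ≤ x := (le_max_right _ _).trans hx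
  have hxpos : 0 < x := lt_of_lt_of_le (Real.exp_pos _) hxe
  have hx1 : 1 ≤ x := by
    have := Real.add_one_le_exp (10 : ℝ)
    linarith
  have hL : 10 ≤ Real.log x := by
    rw [Real.le_log_iff_exp_le hxpos]
    exact hxe
  have hL1 : 1 ≤ Real.log x := by linarith
  have h23 : (Real.log x) ^ 2 ≤ (Real.log x) ^ 3 := pow_le_pow_right₀ hL1 (by norm_num)
  obtain ⟨c, hc⟩ : ∃ c : ℝ, c = max 0 ((dq x Q) ^ 3 - ε / 2) := ⟨_, rfl⟩
  have hc0 : 0 ≤ c := by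
    rw [hc]
    exact le_max_left _ _
  -- the bounds for a scale
  have hsc : ∀ D : ℕ, 1 ≤ D → Real.log x ≤ D → (D : ℝ) ≤ (Real.log x) ^ 3 →
      c ≤ kq x Q Q Q D ∧ kq x Q Q Q D ≤ C := by
    intro D hD1 hD2 hD3
    refine ⟨?_, (kq_le_kap x hx1 hQ hQ hQ D).trans (hkap x hx0 D hD2 hD3)⟩
    rw [hc]
    exact max_le (kq_nonneg x hx1 Q Q Q D) (hX₃ x hx3 Q hQ D hD1 hD3)
  have hcC : c ≤ C := by
    have h1 := hsc (⌊Real.log x⌋₊ + 1) (by omega)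
      (by push_cast; exact (Nat.lt_floor_add_one _).le) (by
        push_cast
        have h2 : (⌊Real.log x⌋₊ : ℝ) ≤ Real.log x := Nat.floor_le (by linarith)
        have h3 : Real.log x + 1 ≤ (Real.log x) ^ 2 := by nlinarith
        linarith)
    exact h1.1.trans h1.2
  have key := hX₂ x hx2 (q3 x Q Q Q) (q3_nonneg x Q Q Q) c hc0 hcC (by
    intro g hg S hS
    refine hM x hxM Q Q Q hQ hQ hQ g hg S (fun i hi => ?_)
    obtain ⟨ha, hb⟩ := hS i hi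
    refine ⟨ha, fun hcc => hb ?_⟩
    have hg0 : (0 : ℝ) < g := by linarith
    have hg1 : 1 ≤ g := by exact_mod_cast hg0
    have hD1 : 1 ≤ 2 ^ i * g := Nat.one_le_iff_ne_zero.2
      (Nat.mul_ne_zero (pow_ne_zero _ (by norm_num)) (by omega))
    have hD2 : Real.log x ≤ ((2 ^ i * g : ℕ) : ℝ) := by
      push_cast
      have h3 : (1 : ℝ) ≤ 2 ^ i := one_le_pow₀ (by norm_num)
      nlinarith
    have h4 := hsc (2 ^ i * g) hD1 hD2 (ha.trans h23)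
    exact ⟨kq x Q Q Q (2 ^ i * g), h4.1, h4.2, hcc.1⟩)
  refine le_trans (mul_le_mul_of_nonneg_right ?_ ?_) key
  · have h5 : (dq x Q) ^ 3 - ε / 2 ≤ c := by
      rw [hc]
      exact le_max_right _ _
    linarith
  · exact mul_nonneg (Real.log_nonneg hL1) (by positivity)

end Pool.Agent.H96.EQ
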