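import Pool.Agent.H96.EQ.RES
import Pool.Agent.H96.EQ.MX2
import Pool.Agent.H96.EQ.K16

/-!
# RE2: final form of the bounds for the third moment
-/

set_option autoImplicit false

namespace Pool.Agent.H96.EQ

open Finset Pool.Agent.H6.MF

theorem kap_bounds (ε : ℝ) (hε : 0 < ε) : ∃ K X : ℝ, ∀ x : ℝ, X ≤ x → ∀ D : ℕ, K * Real.log x ≤ (D : ℝ) →
    (D : ℝ) ≤ (Real.log x) ^ 2 → 1 - ε ≤ kap x D ∧ kap x D ≤ 16 + ε := by
  obtain ⟨X1, h1⟩ := kap_ge ε hε
  obtain ⟨K2, X2, h2⟩ := kap_16 ε hε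
  refine ⟨max 1 K2, max (max X1 X2) (Real.exp 1), fun x hx D hD1 hD2 => ?_⟩
  have hx1 : X1 ≤ x := (le_max_left _ _).trans ((le_max_left _ _).trans hx)
  have hx2 : X2 ≤ x := (le_max_right _ _).trans ((le_max_left _ _).trans hx)
  have hxe : Real.exp 1 ≤ x := (le_max_right _ _).trans hx
  have hL : 1 ≤ Real.log x := by
    have h1 := Real.log_le_log (Real.exp_pos 1) hxe
    rwa [Real.log_exp] at h1
  have hL0 : 0 ≤ Real.log x := by linarith
  have hD0 : (1 : ℝ) ≤ D := by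
    have h3 : 1 * Real.log x ≤ max 1 K2 * Real.log x := mul_le_mul_of_nonneg_right (le_max_left _ _) hL0
    linarith
  refine ⟨h1 x hx1 D (by exact_mod_cast hD0) (hD2.trans ?_),
    h2 x hx2 D ((mul_le_mul_of_nonneg_right (le_max_right _ _) hL0).trans hD1) hD2⟩
  exact pow_le_pow_right₀ hL (by norm_num)

end Pool.Agent.H96.EQ
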