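import Pool.Agent.H96.EQ.FIN

/-!
# RES: the two final forms

* `RES1`: `FIN1` with `ε/4` and `FIN2` with `1/2`: for large `x` (also `log (log x) > 0`, `x > 0`) with
  `U = log (log x) * (x/(log x)^3) ≥ 0`: `|T x α β - (β - α) T x 0 1| ≤ (ε/4) U ≤ (ε/4) · 2 T x 0 1 ≤ ε T x 0 1`.
* `RES2` (first part): the set `S` is contained in `range I` for `I = (S.sup id) + 1`; but `MAS` needs `2^i g ≤ (log x)^2` for ALL `i < I`: this holds
  as `i ≤ S.sup id ∈ S` if `S` is nonempty (`2^i g` is monotone in `i`). All `i ∈ S` are bad, so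
  `S ⊆ (range I).filter (bad)` and `card S ≤ M`. (`S = ∅`: trivial.)
* `RES2` (second part): `MAS ε` gives `M, X`; put `η = 1/2^(M+1)`, `g = ⌊(log x)^2/2^M⌋₊`, `I = M + 1`. For large `x`:
  `g ≥ (log x)^2/2^M - 1 ≥ (log x)^2/2^(M+1) ≥ log x`. For `i < M + 1`: `2^i g ≤ 2^M g ≤ (log x)^2`. The filter has at most
  `M < M + 1 = card (range I)` elements, so some `i < M + 1` is good (`Finset.exists_mem_notMem_of_card_lt_card` or: if all
  `i` were bad the filter would be the whole range). `D = 2^i g ≥ g ≥ η (log x)^2`.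
-/

set_option autoImplicit false

namespace Pool.Agent.H96.EQ

open Finset Pool.Agent.H6.MF

theorem RES1 (ε : ℝ) (hε : 0 < ε) : ∃ X : ℝ, ∀ x : ℝ, X ≤ x → ∀ α β : ℝ, 0 ≤ α → α ≤ β → β ≤ 1 →
    |T x α β - (β - α) * T x 0 1| ≤ ε * T x 0 1 := by
  obtain ⟨X1, h1⟩ := FIN1 (ε / 4) (by positivity)
  obtain ⟨X2, h2⟩ := FIN2 (1 / 2) (by norm_num)
  refine ⟨max X1 X2, fun x hx α β hα hαβ hβ => ?_⟩
  have k1 := h1 x ((le_max_left _ _).trans hx) α β hα hαβ hβ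
  have k2 := h2 x ((le_max_right _ _).trans hx)
  obtain ⟨U, hU⟩ : ∃ U, U = Real.log (Real.log x) * (x / (Real.log x) ^ 3) := ⟨_, rfl⟩
  rw [← hU] at k1 k2
  have hU0 : 0 ≤ U := by
    by_contra hneg
    have h3 := (abs_nonneg _).trans k1
    nlinarith
  have h5 : ε * ((1 - 1 / 2) * U) ≤ ε * T x 0 1 := mul_le_mul_of_nonneg_left k2 hε.le
  have h6 : 0 ≤ ε * U := mul_nonneg hε.le hU0
  linarith

theorem RES2 : ∃ C : ℝ, 0 < C ∧ ∀ ε : ℝ, 0 < ε → (∃ (M : ℕ) (X : ℝ), ∀ x : ℝ, X ≤ x → ∀ g : ℕ, Real.log x ≤ g →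
    ∀ S : Finset ℕ, (∀ i ∈ S, ((2 ^ i * g : ℕ) : ℝ) ≤ (Real.log x) ^ 2 ∧ ¬ Good x ε C (2 ^ i * g)) → S.card ≤ M) ∧
    (∃ η X : ℝ, 0 < η ∧ ∀ x : ℝ, X ≤ x → ∃ D : ℕ, η * (Real.log x) ^ 2 ≤ D ∧ (D : ℝ) ≤ (Real.log x) ^ 2 ∧
      Good x ε C D) := by
  classical
  obtain ⟨C, hC, hM⟩ := MAS
  refine ⟨C, hC, fun ε hε => ?_⟩
  obtain ⟨M, X, h⟩ := hM ε hε
  refine ⟨⟨M, X, fun x hx g hg S hS => ?_⟩, ⟨1 / 2 ^ (M + 1), max X (Real.exp (2 ^ (M + 1))),
    by positivity, fun x hx => ?_⟩⟩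
  · by_cases hne : S.Nonempty
    · have h1 := h x hx g hg (S.max' hne + 1) (fun i hi => by
        have h2 := (hS _ (S.max'_mem hne)).1
        refine le_trans ?_ h2
        exact_mod_cast Nat.mul_le_mul_right g (Nat.pow_le_pow_right (by norm_num) (by omega)))
      refine (Finset.card_le_card (fun i hi => ?_)).trans h1
      rw [Finset.mem_filter, Finset.mem_range]
      exact ⟨Nat.lt_succ_of_le (S.le_max' i hi), (hS i hi).2⟩
    · rw [Finset.not_nonempty_iff_eq_empty] at hne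
      rw [hne, Finset.card_empty]
      exact Nat.zero_le _
  · have hx1 : X ≤ x := (le_max_left _ _).trans hx
    have hx2 : Real.exp (2 ^ (M + 1)) ≤ x := (le_max_right _ _).trans hx
    have hx0 : 0 < x := (Real.exp_pos _).trans_le hx2
    have hL : (2 : ℝ) ^ (M + 1) ≤ Real.log x := (Real.le_log_iff_exp_le hx0).2 hx2
    obtain ⟨L, hLd⟩ : ∃ L, L = Real.log x := ⟨_, rfl⟩
    rw [← hLd] at hL ⊢
    have hP : (1 : ℝ) ≤ 2 ^ M := one_le_pow₀ (by norm_num)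
    have hP0 : (0 : ℝ) < 2 ^ M := by positivity
    have hL0 : 0 < L := lt_of_lt_of_le (by positivity) hL
    have e1 : (2 : ℝ) ^ (M + 1) = 2 * 2 ^ M := by ring
    have q1 : L ≤ L ^ 2 / 2 ^ (M + 1) := by
      rw [le_div_iff₀ (by positivity), sq]
      exact mul_le_mul_of_nonneg_left hL hL0.le
    have q2 : L ^ 2 / 2 ^ M = L ^ 2 / 2 ^ (M + 1) + L ^ 2 / 2 ^ (M + 1) := by
      rw [e1]
      field_simp
      ring
    have hg1 : (⌊L ^ 2 / 2 ^ M⌋₊ : ℝ) ≤ L ^ 2 / 2 ^ M := Nat.floor_le (by positivity)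
    have hg2 : L ^ 2 / 2 ^ M < (⌊L ^ 2 / 2 ^ M⌋₊ : ℝ) + 1 := Nat.lt_floor_add_one _
    obtain ⟨g, hg⟩ : ∃ g, g = ⌊L ^ 2 / 2 ^ M⌋₊ := ⟨_, rfl⟩
    rw [← hg] at hg1 hg2
    have hge : L ^ 2 / 2 ^ (M + 1) ≤ g := by
      have : (1 : ℝ) ≤ L := by linarith
      linarith
    have hall : ∀ i < M + 1, ((2 ^ i * g : ℕ) : ℝ) ≤ L ^ 2 := by
      intro i hi
      push_cast
      have h3 : (2 : ℝ) ^ i ≤ 2 ^ M := pow_le_pow_right₀ (by norm_num) (by omega)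
      calc (2 : ℝ) ^ i * g ≤ 2 ^ M * (L ^ 2 / 2 ^ M) :=
            mul_le_mul h3 hg1 (Nat.cast_nonneg _) hP0.le
        _ = L ^ 2 := by field_simp
    have hc := h x hx1 g (by rw [← hLd]; exact q1.trans hge) (M + 1) (by
      rw [← hLd]
      exact hall)
    obtain ⟨i, hi, hG⟩ : ∃ i < M + 1, Good x ε C (2 ^ i * g) := by
      by_contra hcon
      push Not at hcon
      rw [Finset.filter_true_of_mem (fun i hi => hcon i (Finset.mem_range.1 hi)),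
        Finset.card_range] at hc
      omega
    refine ⟨2 ^ i * g, ?_, hall i hi, hG⟩
    have h4 : (g : ℝ) ≤ ((2 ^ i * g : ℕ) : ℝ) := by
      exact_mod_cast Nat.le_mul_of_pos_left g (by positivity)
    have h5 : 1 / 2 ^ (M + 1) * L ^ 2 = L ^ 2 / 2 ^ (M + 1) := by ring
    rw [h5]
    exact hge.trans h4

end Pool.Agent.H96.EQ
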