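import Pool.Agent.H96.EQ.RLO
import Pool.Agent.H96.EQ.QM
import Pool.Agent.H96.EQ.QF
import Pool.Agent.H96.EQ.RE2

/-!
# RFI: at all but boundedly many scales the lower half of the conjecture holds for a positive proportion of the pairs in every rectangle
-/

set_option autoImplicit false

namespace Pool.Agent.H96.EQ

open Finset Pool.Agent.H6.MF

theorem RFI (ε : ℝ) (hε : 0 < ε) : ∃ (M : ℕ) (X : ℝ), ∀ x : ℝ, X ≤ x → ∀ g : ℕ, Real.log x ≤ g → ∀ S : Finset ℕ,
    (∀ i ∈ S, ((2 ^ i * g : ℕ) : ℝ) ≤ (Real.log x) ^ 2 ∧ ¬ (∀ η : ℝ, 0 ≤ η → η ≤ 1 → LowF x η ε (2 ^ i * g))) →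
    S.card ≤ M := by
  classical
  obtain ⟨e, K1, X1, he, hK1, h1⟩ := RLO ε hε
  obtain ⟨M2, X2, h2⟩ := QMX e he
  obtain ⟨K3, X3, h3⟩ := kap_bounds e he
  set K : ℝ := max K1 K3 with hK
  refine ⟨M2 + ⌈K⌉₊, max (max X1 X2) (max X3 (Real.exp 1)), fun x hx g hg S hS => ?_⟩
  have hx1 : X1 ≤ x := ((le_max_left _ _).trans (le_max_left _ _)).trans hx
  have hx2 : X2 ≤ x := ((le_max_right _ _).trans (le_max_left _ _)).trans hx
  have hx3 : X3 ≤ x := ((le_max_left _ _).trans (le_max_right _ _)).trans hx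
  have hxe : Real.exp 1 ≤ x := ((le_max_right _ _).trans (le_max_right _ _)).trans hx
  have hL : 1 ≤ Real.log x := by
    have h := Real.log_le_log (Real.exp_pos 1) hxe
    rwa [Real.log_exp] at h
  have hL0 : 0 < Real.log x := by linarith
  have hP : PQ {n : ℤ | isP n} := fun n hn => hn
  set S1 : Finset ℕ := S.filter (fun i => K * Real.log x ≤ ((2 ^ i * g : ℕ) : ℝ)) with hS1
  set S2 : Finset ℕ := S.filter (fun i => ¬ K * Real.log x ≤ ((2 ^ i * g : ℕ) : ℝ)) with hS2
  have hcard : S.card = S1.card + S2.card := (Finset.card_filter_add_card_filter_not (s := S) _).symm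
  have hc1 : S1.card ≤ M2 := by
    refine h2 x hx2 _ _ _ hP hP hP g hg S1 (fun i hi => ?_)
    rw [hS1, mem_filter] at hi
    obtain ⟨hiS, hiK⟩ := hi
    obtain ⟨hi1, hi2⟩ := hS i hiS
    refine ⟨hi1, fun hcon => hi2 ?_⟩
    have hb := hcon.1
    have hq : q3 x {n : ℤ | isP n} {n : ℤ | isP n} {n : ℤ | isP n} = p3 x := by
      funext a b
      exact q3_P x a b
    rw [hq, kq_P] at hb
    have hk := h3 x hx3 (2 ^ i * g) ((mul_le_mul_of_nonneg_right (le_max_right _ _) hL0.le).trans hiK) hi1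
    exact fun η hη0 hη1 => h1 x hx1 (2 ^ i * g) ((mul_le_mul_of_nonneg_right (le_max_left _ _) hL0.le).trans hiK) hi1 _ hk.1 hb η hη0 hη1
  have hc2 : S2.card ≤ ⌈K⌉₊ := by
    have hsub : S2 ⊆ range ⌈K⌉₊ := by
      intro i hi
      rw [hS2, mem_filter, not_le] at hi
      rw [mem_range]
      have h4 := hi.2
      push_cast at h4
      have h5 : (2 : ℝ) ^ i * Real.log x ≤ (2 : ℝ) ^ i * g := mul_le_mul_of_nonneg_left hg (by positivity)
      have h6 : (2 : ℝ) ^ i < K := by
        by_contra hcon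
        rw [not_lt] at hcon
        have := mul_le_mul_of_nonneg_right hcon hL0.le
        linarith
      have h7 : (i : ℝ) < K := by
        refine lt_of_lt_of_le ?_ h6.le
        exact_mod_cast Nat.lt_two_pow_self
      exact Nat.lt_ceil.2 h7
    exact (card_le_card hsub).trans (card_range _).le
  omega

end Pool.Agent.H96.EQ
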