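import Pool.Agent.H96.EQ.Defs
import Pool.Agent.H17.PosProp

/-!
# RSU: the singular series in the mean over rectangles (upper bound)
-/

set_option autoImplicit false

namespace Pool.Agent.H96.EQ

open Finset Pool.Agent.H6.MF Pool.Agent.H17 Pool.Agent.H17.Triple

theorem singularSeries_comm (a b : ℕ) : singularSeries a b = singularSeries b a := by
  unfold singularSeries
  rw [Finset.pair_comm a b]

theorem RSU_cnt (W t u v : ℕ) (hW : 0 < W) (h : u ≤ v) :
    (((Ioc u v).filter (fun a => (t + a).Coprime W)).card : ℝ)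
      ≤ W.totient * (((v : ℝ) - u) / W + 1) := by
  have h1 : ((Ioc u v).filter (fun a => (t + a).Coprime W)).card
      ≤ ((Ico (t + u + 1) (t + u + 1 + (v - u))).filter (fun a => W.Coprime a)).card := by
    refine Finset.card_le_card_of_injOn (fun a => t + a) ?_ ?_
    · intro a ha
      have ha' := Finset.mem_filter.1 (Finset.mem_coe.1 ha)
      have hb := Finset.mem_Ioc.1 ha'.1
      refine Finset.mem_coe.2 (Finset.mem_filter.2 ⟨Finset.mem_Ico.2 ⟨?_, ?_⟩, ha'.2.symm⟩)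
      · show t + u + 1 ≤ t + a
        omega
      · show t + a < t + u + 1 + (v - u)
        omega
    · intro a _ b _ hab
      have hab' : t + a = t + b := hab
      omega
  have h2 := h1.trans (Nat.Ico_filter_coprime_le (a := W) (t + u + 1) (v - u) hW.ne')
  have h3 : (((Ioc u v).filter (fun a => (t + a).Coprime W)).card : ℝ)
      ≤ ((W.totient * ((v - u) / W + 1) : ℕ) : ℝ) := by exact_mod_cast h2
  refine h3.trans ?_
  have h4 : (((v - u) / W : ℕ) : ℝ) ≤ ((v : ℝ) - u) / W := by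
    have h5 : (((v - u) / W : ℕ) : ℝ) ≤ ((v - u : ℕ) : ℝ) / (W : ℝ) := Nat.cast_div_le
    rwa [Nat.cast_sub h] at h5
  rw [Nat.cast_mul, Nat.cast_add, Nat.cast_one]
  exact mul_le_mul_of_nonneg_left (by linarith) (Nat.cast_nonneg _)

theorem RSU_one (y a b : ℕ) :
    ((WW y).totient : ℝ) ^ 3 / (WW y : ℝ) ^ 2 * singW y 0 a b =
      ∑ t ∈ (range (WW y)).filter (fun t => (WW y).Coprime t),
        (if (t + a).Coprime (WW y) then (1 : ℝ) else 0) *
          (if (t + b).Coprime (WW y) then (1 : ℝ) else 0) := by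
  rw [← count_triple, Finset.sum_filter, Finset.card_filter, Nat.cast_sum]
  refine Finset.sum_congr rfl fun t _ => ?_
  rw [add_zero]
  by_cases c1 : t.Coprime (WW y)
  · rw [if_pos c1.symm]
    by_cases c2 : (t + a).Coprime (WW y)
    · by_cases c3 : (t + b).Coprime (WW y)
      · rw [if_pos ⟨c1, c2, c3⟩, if_pos c2, if_pos c3, Nat.cast_one, mul_one]
      · rw [if_neg (fun h => c3 h.2.2), if_neg c3, mul_zero, Nat.cast_zero]
    · rw [if_neg (fun h => c2 h.2.1), if_neg c2, zero_mul, Nat.cast_zero]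
  · rw [if_neg (fun h => c1 h.1), if_neg (fun h => c1 h.symm), Nat.cast_zero]

theorem RSU_sum (y u1 v1 u2 v2 : ℕ) (h1 : u1 ≤ v1) (h2 : u2 ≤ v2) :
    ∑ a ∈ Ioc u1 v1, ∑ b ∈ Ioc u2 v2, singW y 0 a b
      ≤ ((v1 : ℝ) - u1 + WW y) * ((v2 : ℝ) - u2 + WW y) := by
  obtain ⟨W, hWd⟩ : ∃ W : ℕ, W = WW y := ⟨_, rfl⟩
  have hW : 0 < W := by rw [hWd]; exact WW_pos y
  have hWR : (0 : ℝ) < W := by exact_mod_cast hW
  have hφ : (0 : ℝ) < W.totient := by exact_mod_cast Nat.totient_pos.2 hW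
  have key : (W.totient : ℝ) ^ 3 / (W : ℝ) ^ 2 *
      ∑ a ∈ Ioc u1 v1, ∑ b ∈ Ioc u2 v2, singW y 0 a b =
      ∑ t ∈ (range W).filter (fun t => W.Coprime t),
        (((Ioc u1 v1).filter (fun a => (t + a).Coprime W)).card : ℝ) *
        (((Ioc u2 v2).filter (fun b => (t + b).Coprime W)).card : ℝ) := by
    have e1 : ∀ a ∈ Ioc u1 v1, (W.totient : ℝ) ^ 3 / (W : ℝ) ^ 2 * ∑ b ∈ Ioc u2 v2, singW y 0 a b =
        ∑ t ∈ (range W).filter (fun t => W.Coprime t), ∑ b ∈ Ioc u2 v2,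
          (if (t + a).Coprime W then (1 : ℝ) else 0) *
          (if (t + b).Coprime W then (1 : ℝ) else 0) := by
      intro a _
      rw [Finset.mul_sum, Finset.sum_comm]
      refine Finset.sum_congr rfl fun b _ => ?_
      rw [hWd]
      exact RSU_one y a b
    rw [Finset.mul_sum, Finset.sum_congr rfl e1, Finset.sum_comm]
    refine Finset.sum_congr rfl fun t _ => ?_
    rw [← Finset.sum_mul_sum, Finset.sum_boole, Finset.sum_boole]
  have hcard : (((range W).filter (fun t => W.Coprime t)).card : ℝ) = W.totient := by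
    rw [Nat.totient_eq_card_coprime]
  have hw1 : (0 : ℝ) ≤ ((v1 : ℝ) - u1) / W + 1 := by
    have : (u1 : ℝ) ≤ v1 := by exact_mod_cast h1
    have : (0 : ℝ) ≤ ((v1 : ℝ) - u1) / W := div_nonneg (by linarith) hWR.le
    linarith
  have hle : (W.totient : ℝ) ^ 3 / (W : ℝ) ^ 2 *
      ∑ a ∈ Ioc u1 v1, ∑ b ∈ Ioc u2 v2, singW y 0 a b ≤
      W.totient ^ 3 * ((((v1 : ℝ) - u1) / W + 1) * (((v2 : ℝ) - u2) / W + 1)) := by
    rw [key]
    calc ∑ t ∈ (range W).filter (fun t => W.Coprime t),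
        (((Ioc u1 v1).filter (fun a => (t + a).Coprime W)).card : ℝ) *
        (((Ioc u2 v2).filter (fun b => (t + b).Coprime W)).card : ℝ)
        ≤ ∑ t ∈ (range W).filter (fun t => W.Coprime t),
          (W.totient * (((v1 : ℝ) - u1) / W + 1)) * (W.totient * (((v2 : ℝ) - u2) / W + 1)) := by
          refine Finset.sum_le_sum fun t _ => ?_
          exact mul_le_mul (RSU_cnt W t u1 v1 hW h1) (RSU_cnt W t u2 v2 hW h2)
            (Nat.cast_nonneg _) (mul_nonneg hφ.le hw1)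
      _ = _ := by
          rw [Finset.sum_const, nsmul_eq_mul, hcard]
          ring
  have h3 : (∑ a ∈ Ioc u1 v1, ∑ b ∈ Ioc u2 v2, singW y 0 a b) =
      (W : ℝ) ^ 2 / W.totient ^ 3 * ((W.totient : ℝ) ^ 3 / (W : ℝ) ^ 2 *
      ∑ a ∈ Ioc u1 v1, ∑ b ∈ Ioc u2 v2, singW y 0 a b) := by
    field_simp
  rw [h3, ← hWd]
  calc (W : ℝ) ^ 2 / W.totient ^ 3 * ((W.totient : ℝ) ^ 3 / (W : ℝ) ^ 2 *
      ∑ a ∈ Ioc u1 v1, ∑ b ∈ Ioc u2 v2, singW y 0 a b)
      ≤ (W : ℝ) ^ 2 / W.totient ^ 3 *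
        (W.totient ^ 3 * ((((v1 : ℝ) - u1) / W + 1) * (((v2 : ℝ) - u2) / W + 1))) :=
        mul_le_mul_of_nonneg_left hle (by positivity)
    _ = _ := by field_simp

theorem RSU_pt {δ : ℝ} (hδ : 0 < δ) : ∀ᶠ x : ℝ in Filter.atTop, ∀ a b : ℕ, 0 < a → 0 < b → a ≠ b →
    (a : ℝ) ≤ (Real.log x) ^ 2 → (b : ℝ) ≤ (Real.log x) ^ 2 →
    singularSeries a b ≤ (1 + δ) * singW (yy x) 0 a b := by
  filter_upwards [sing3_le_singW hδ] with x hx
  have key : ∀ a b : ℕ, 0 < a → a < b → (b : ℝ) ≤ (Real.log x) ^ 2 →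
      singularSeries a b ≤ (1 + δ) * singW (yy x) 0 a b := by
    intro a b ha hab hb
    have h1 := singularSeries_eq (a := 0) (b := b - a) (c := b) (by omega) (by omega)
    rw [show b - (b - a) = a by omega, Nat.sub_zero] at h1
    rw [h1, sing3_reflect hab.le]
    exact hx 0 a b ha hab hb
  intro a b ha hb hab hA hB
  rcases lt_or_gt_of_ne hab with h | h
  · exact key a b ha h hB
  · rw [singularSeries_comm, singW_symm2]
    exact key b a hb h hA

theorem RSU (ε : ℝ) (hε : 0 < ε) : ∃ X : ℝ, ∀ x : ℝ, X ≤ x → ∀ D : ℕ, Real.log x ≤ D → (D : ℝ) ≤ (Real.log x) ^ 2 →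
    ∀ u1 v1 u2 v2 : ℕ, u1 ≤ v1 → v1 ≤ D → u2 ≤ v2 → v2 ≤ D →
      ∑ a ∈ Ioc u1 v1, ∑ b ∈ (Ioc u2 v2).erase a, singularSeries a b
        ≤ ((v1 : ℝ) - u1) * ((v2 : ℝ) - u2) + ε * (D : ℝ) ^ 2 := by
  obtain ⟨e, he⟩ : ∃ e : ℝ, e = min ε 1 := ⟨_, rfl⟩
  have he0 : 0 < e := by rw [he]; exact lt_min hε one_pos
  have he1 : e ≤ 1 := by rw [he]; exact min_le_right _ _
  have heε : e ≤ ε := by rw [he]; exact min_le_left _ _
  obtain ⟨X, hX⟩ := Filter.eventually_atTop.1 ((RSU_pt (δ := e / 4) (by positivity)).and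
    (Real.tendsto_log_atTop.eventually_ge_atTop (max 1 (256 / e ^ 2))))
  refine ⟨X, fun x hx D hD1 hD2 u1 v1 u2 v2 h1 hv1 h2 hv2 => ?_⟩
  obtain ⟨hpt, hlog⟩ := hX x hx
  have hL1 : 1 ≤ Real.log x := (le_max_left _ _).trans hlog
  have hL2 : 256 / e ^ 2 ≤ Real.log x := (le_max_right _ _).trans hlog
  obtain ⟨W, hWd⟩ : ∃ W : ℝ, W = ((WW (yy x) : ℕ) : ℝ) := ⟨_, rfl⟩
  have hW1 : 1 ≤ W := by rw [hWd]; exact_mod_cast WW_pos (yy x)
  have hWs : W ≤ Real.sqrt (Real.log x) := by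
    have h3 := WW_yy_pow_le hL1
    rw [← hWd] at h3
    refine le_trans ?_ h3
    calc W = W ^ 1 := (pow_one _).symm
      _ ≤ _ := pow_le_pow_right₀ hW1 (by norm_num)
  have hs : Real.sqrt (Real.log x) * (16 / e) ≤ Real.log x := by
    have h5 : 16 / e ≤ Real.sqrt (Real.log x) := by
      rw [Real.le_sqrt' (by positivity), div_pow]
      refine le_trans (le_of_eq ?_) hL2
      norm_num
    calc Real.sqrt (Real.log x) * (16 / e) ≤ Real.sqrt (Real.log x) * Real.sqrt (Real.log x) :=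
          mul_le_mul_of_nonneg_left h5 (Real.sqrt_nonneg _)
      _ = Real.log x := Real.mul_self_sqrt (by linarith)
  have hWD : W ≤ e / 16 * D := by
    have h6 : W * (16 / e) ≤ D :=
      ((mul_le_mul_of_nonneg_right hWs (by positivity)).trans hs).trans hD1
    have h7 : W = e / 16 * (W * (16 / e)) := by field_simp
    rw [h7]
    exact mul_le_mul_of_nonneg_left h6 (by positivity)
  have hD0 : (0 : ℝ) ≤ D := Nat.cast_nonneg _
  have hDle : ∀ m : ℕ, m ≤ D → (m : ℝ) ≤ (Real.log x) ^ 2 := fun m hm =>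
    le_trans (by exact_mod_cast hm) hD2
  have hsum : ∑ a ∈ Ioc u1 v1, ∑ b ∈ (Ioc u2 v2).erase a, singularSeries a b ≤
      (1 + e / 4) * ∑ a ∈ Ioc u1 v1, ∑ b ∈ Ioc u2 v2, singW (yy x) 0 a b := by
    rw [Finset.mul_sum]
    refine Finset.sum_le_sum fun a ha => ?_
    rw [Finset.mul_sum]
    have h3 : ∑ b ∈ (Ioc u2 v2).erase a, singularSeries a b ≤
        ∑ b ∈ (Ioc u2 v2).erase a, (1 + e / 4) * singW (yy x) 0 a b := by
      refine Finset.sum_le_sum fun b hb => ?_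
      have ha' := Finset.mem_Ioc.1 ha
      have hb' := Finset.mem_erase.1 hb
      have hb'' := Finset.mem_Ioc.1 hb'.2
      exact hpt a b (by omega) (by omega) (fun h => hb'.1 h.symm) (hDle a (by omega))
        (hDle b (by omega))
    refine h3.trans (Finset.sum_le_sum_of_subset_of_nonneg (Finset.erase_subset _ _)
      (fun b _ _ => mul_nonneg (by positivity) (singW_nonneg _ _ _ _)))
  have hS := RSU_sum (yy x) u1 v1 u2 v2 h1 h2
  rw [← hWd] at hS
  refine hsum.trans ((mul_le_mul_of_nonneg_left hS (by positivity)).trans ?_)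
  obtain ⟨p, hp⟩ : ∃ p : ℝ, p = (v1 : ℝ) - u1 := ⟨_, rfl⟩
  obtain ⟨q, hq⟩ : ∃ q : ℝ, q = (v2 : ℝ) - u2 := ⟨_, rfl⟩
  have hp0 : 0 ≤ p := by
    have : (u1 : ℝ) ≤ v1 := by exact_mod_cast h1
    rw [hp]
    linarith
  have hq0 : 0 ≤ q := by
    have : (u2 : ℝ) ≤ v2 := by exact_mod_cast h2
    rw [hq]
    linarith
  have hpD : p ≤ D := by
    have h3 : (v1 : ℝ) ≤ D := by exact_mod_cast hv1
    have h4 : (0 : ℝ) ≤ u1 := Nat.cast_nonneg _
    rw [hp]
    linarith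
  have hqD : q ≤ D := by
    have h3 : (v2 : ℝ) ≤ D := by exact_mod_cast hv2
    have h4 : (0 : ℝ) ≤ u2 := Nat.cast_nonneg _
    rw [hq]
    linarith
  rw [← hp, ← hq]
  have hW0 : 0 ≤ W := by linarith
  have a1 : p * q ≤ D * D := mul_le_mul hpD hqD hq0 hD0
  have a2 : (p + q) * W ≤ (2 * D) * (e / 16 * D) :=
    mul_le_mul (by linarith) hWD hW0 (by linarith)
  have a3 : W * W ≤ (e / 16 * D) * (e / 16 * D) := mul_le_mul hWD hWD hW0 (by positivity)
  have hDD : 0 ≤ (D : ℝ) * D := mul_nonneg hD0 hD0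
  have a4 : e * e * (D * D) ≤ e * (D * D) := by
    have := mul_le_mul_of_nonneg_right he1 (mul_nonneg he0.le hDD)
    linarith
  have a5 : e * (D * D) ≤ ε * (D * D) := mul_le_mul_of_nonneg_right heε hDD
  have a6 : e * (p * q) ≤ e * (D * D) := mul_le_mul_of_nonneg_left a1 he0.le
  have a7 : e * ((p + q) * W + W * W) ≤ 1 * ((p + q) * W + W * W) :=
    mul_le_mul_of_nonneg_right he1
      (add_nonneg (mul_nonneg (by linarith) hW0) (mul_nonneg hW0 hW0))
  have a8 : 0 ≤ e * (D * D) := mul_nonneg he0.le hDD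
  have e1 : (1 + e / 4) * ((p + W) * (q + W)) =
      p * q + e * (p * q) / 4 + ((p + q) * W + W * W) + e * ((p + q) * W + W * W) / 4 := by ring
  have e2 : (2 * (D : ℝ)) * (e / 16 * D) = e * (D * D) / 8 := by ring
  have e3 : (e / 16 * (D : ℝ)) * (e / 16 * D) = e * e * (D * D) / 256 := by ring
  have e4 : ε * (D : ℝ) ^ 2 = ε * (D * D) := by ring
  rw [e1, e4]
  linarith

end Pool.Agent.H96.EQ
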