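import Pool.Agent.H96.EQ.Def5
import Pool.Agent.H96.EQ.RSU
import Pool.Agent.H96.EQ.CRU
import Pool.Agent.H96.EQ.BRS

/-!
# RLO: the lower half of the conjecture for a positive proportion of the pairs in every rectangle

`Λ = Real.log x`, `Z = x/Λ^3`, `S(a,b) = singularSeries a b`. Given `ε` (w.l.o.g. `ε ≤ 1`), let `e = ε/10`; `RSU e`; `primeTriples_upper e` (H17/PosProp); `C` from `CRU2`, `K = 1 + C/e`.
Fix a rectangle, `w₁ = v1 - u1`, `w₂ = v2 - u2`, `A = w₁ w₂`, and split the pairs `(a, b)` of the rectangle into the diagonal `a = b`, the good ones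
(`a ≠ b`, `(1 - η) S Z ≤ p3 x a b`), and the bad ones. Let `G` be the sum on the right-hand side of `LowF` (the good pairs).
* `S ≥ 0` for `a ≠ b` in `(0, D]`: `singularSeries_nonneg` (H17/PosProp) with `(c - b, c - a)`, `c = max`, and `singularSeries_comm` (RSU).
* Diagonal: `p3 x a a` is the number of `n ≤ x` with `n`, `n - a` prime; `∑_{a ∈ Ioc 0 D} p3 x a a = ∑_{n ≤ x} [isP n] win 0 D n ≤ C D x/Λ^2` (`CRU2`) `= C (Λ/D) D^2 Z ≤ e D^2 Z`, as
  `D ≥ K Λ`.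
* Bad pairs: `p3 x a b < (1 - η) S Z`, so their sum is `≤ (1 - η) Z (∑_{a ≠ b} S - G) ≤ (1 - η) Z (A + e D^2 - G)` (`RSU`).
* Good pairs: if `S ≠ 0` then `p3 x a b ≤ (48 + e) S Z`: `primeTriples_upper` with `(c - b, c - a) = (min, max)` of the pair (take `c = max`, `b = max - min`, `a = 0`), and
  `p3 x a b = p3 x b a` (definition of `primeTriples`, `and_comm`). If `S = 0` then by `singularSeries_eq`, `sing3_reflect`, `sing3_ne_zero_iff` (H17) a prime `p` has `nu = p`, and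
  `p3 x a b ≤ 3` (`H17`: `count_le_three` in `Avg.lean`, or `cnt_inadm` in H6/MF/BAS with `BRS_p3`, or directly: one of `n, n - a, n - b` is divisible by `p`, hence equal to `p`). Total
  of these: `≤ 3 D^2 ≤ e D^2 Z` for `x` large. So the good pairs contribute `≤ (48 + e) Z G + e D^2 Z`.
* `BoxF`: the total is `≥ κ A Z - e D^2 Z ≥ (1 - e) A Z - e D^2 Z ≥ A Z - 2 e D^2 Z`, as `0 ≤ A ≤ D^2`.
* Together, divided by `Z > 0`: `A - 2 e D^2 ≤ e D^2 + (1 - η)(A + e D^2 - G) + (48 + e) G + e D^2`, i.e. `η A - 5 e D^2 ≤ (47 + η + e) G ≤ (48 + e) G`, and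
  `G ≤ A + e D^2 ≤ 2 D^2` (`RSU`, `S ≥ 0`), so `η A - 7 e D^2 ≤ 48 G` and `G ≥ (η/48) A - e D^2`.
-/

set_option autoImplicit false

namespace Pool.Agent.H96.EQ

open Finset Pool.Agent.H6.MF Pool.Agent.H17 Pool.Agent.H17.Triple

/-- a pair without singular series carries at most three triples -/
private lemma RLO_small {a b : ℕ} (x : ℝ) (h0 : 0 < a) (hab : a < b) (hS : singularSeries a b = 0) :
    p3 x a b ≤ 3 := by
  have e1 : b - (b - a) = a := by omega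
  have hS' : sing3 0 (b - a) b = 0 := by
    rw [← singularSeries_eq (a := 0) (b := b - a) (c := b) (by omega) (by omega), e1, Nat.sub_zero]
    exact hS
  have h1 : ¬ ∀ p : ℕ, p.Prime → nu 0 (b - a) b p < p := by
    intro h
    exact (sing3_ne_zero_iff (a := 0) (b := b - a) (c := b) (by omega) (by omega)).2 h hS'
  push Not at h1
  obtain ⟨p, hp, hle⟩ := h1
  have h2 : nu 0 (b - a) b p = p := by
    apply le_antisymm _ hle
    unfold nu
    refine le_trans (Finset.card_le_card (t := Finset.range p) ?_) (le_of_eq (Finset.card_range p))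
    intro r hr
    rw [Finset.mem_image] at hr
    obtain ⟨n, -, rfl⟩ := hr
    rw [Finset.mem_range]
    exact Nat.mod_lt _ hp.pos
  have h3 := count_le_three (M := ⌊x⌋₊) hp h2
  have h4 : primeTriples x a b ≤ 3 := by
    refine le_trans ?_ h3
    unfold primeTriples
    apply Finset.card_le_card_of_injOn (fun q => q - b)
    · intro q hq
      rw [Finset.mem_coe, Finset.mem_filter, Finset.mem_range] at hq
      obtain ⟨hq1, hq2, hq3, hq4⟩ := hq
      have h5 := hq3.two_le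
      rw [Finset.mem_coe, Finset.mem_filter, Finset.mem_Icc]
      have e2 : q - b + 0 = q - b := rfl
      have e3 : q - b + (b - a) = q - a := by omega
      have e4 : q - b + b = q := by omega
      beta_reduce
      rw [e2, e3, e4]
      exact ⟨⟨by omega, by omega⟩, hq3, hq4, hq2⟩
    · intro q hq q' hq' h
      rw [Finset.mem_coe, Finset.mem_filter] at hq hq'
      have h5 := hq.2.2.1.two_le
      have h6 := hq'.2.2.1.two_le
      have h7 : q - b = q' - b := h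
      omega
  unfold p3
  exact_mod_cast h4

/-- the number of triples of one pair, increasing order -/
private lemma RLO_lt {e X : ℝ} (hX : ∀ x : ℝ, X ≤ x → ∀ a b c : ℕ, a < b → b < c →
    (c : ℝ) ≤ a + (Real.log x) ^ 2 → singularSeries (c - b) (c - a) ≠ 0 →
    (primeTriples x (c - b) (c - a) : ℝ) ≤ (48 + e) * (singularSeries (c - b) (c - a) * x / (Real.log x) ^ 3))
    {x : ℝ} (hx : X ≤ x) {a b : ℕ} (h0 : 0 < a) (hab : a < b) (hb : (b : ℝ) ≤ (Real.log x) ^ 2) :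
    0 ≤ singularSeries a b ∧
    p3 x a b ≤ (48 + e) * (singularSeries a b * (x / (Real.log x) ^ 3)) + 3 := by
  have e1 : b - (b - a) = a := by omega
  have h1 := singularSeries_nonneg (a := 0) (b := b - a) (c := b) (by omega) (by omega)
  rw [e1, Nat.sub_zero] at h1
  refine ⟨h1, ?_⟩
  by_cases hS : singularSeries a b = 0
  · have h2 := RLO_small x h0 hab hS
    rw [hS, zero_mul, mul_zero, zero_add]
    exact h2
  · have h2 := hX x hx 0 (b - a) b (by omega) (by omega) (by rw [Nat.cast_zero, zero_add]; exact hb)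
      (by rw [e1, Nat.sub_zero]; exact hS)
    rw [e1, Nat.sub_zero] at h2
    have h3 : p3 x a b = (primeTriples x a b : ℝ) := rfl
    rw [h3, ← mul_div_assoc]
    linarith

/-- the number of triples of one pair -/
private lemma RLO_ne {e X : ℝ} (hX : ∀ x : ℝ, X ≤ x → ∀ a b c : ℕ, a < b → b < c →
    (c : ℝ) ≤ a + (Real.log x) ^ 2 → singularSeries (c - b) (c - a) ≠ 0 →
    (primeTriples x (c - b) (c - a) : ℝ) ≤ (48 + e) * (singularSeries (c - b) (c - a) * x / (Real.log x) ^ 3))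
    {x : ℝ} (hx : X ≤ x) {a b : ℕ} (h0 : 0 < a) (h0' : 0 < b) (hab : a ≠ b)
    (ha : (a : ℝ) ≤ (Real.log x) ^ 2) (hb : (b : ℝ) ≤ (Real.log x) ^ 2) :
    0 ≤ singularSeries a b ∧
    p3 x a b ≤ (48 + e) * (singularSeries a b * (x / (Real.log x) ^ 3)) + 3 := by
  rcases lt_or_gt_of_ne hab with h | h
  · exact RLO_lt hX hx h0 h hb
  · have h1 := RLO_lt hX hx h0' h ha
    rw [p3_comm, singularSeries_comm]
    exact h1

/-- the diagonal -/
private lemma RLO_diag (x : ℝ) (D : ℕ) : ∑ a ∈ Ioc 0 D, p3 x a a =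
    ∑ n ∈ range (⌊x⌋₊ + 1), (if isP (n : ℤ) then (win 0 (D : ℤ) (n : ℤ) : ℝ) else 0) := by
  have h1 : ∑ a ∈ Ioc 0 D, p3 x a a = ∑ a ∈ Ioc 0 D, ∑ n ∈ range (⌊x⌋₊ + 1),
      (if isP (n : ℤ) then (if isP ((n : ℤ) - (a : ℤ)) then (1 : ℝ) else 0) else 0) := by
    refine Finset.sum_congr rfl fun a _ => ?_
    rw [BRS_p3]
    refine Finset.sum_congr rfl fun n _ => ?_
    by_cases h : isP (n : ℤ)
    · rw [if_pos h, if_pos h]
      by_cases h' : isP ((n : ℤ) - (a : ℤ))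
      · rw [if_pos h', one_mul]
      · rw [if_neg h', zero_mul]
    · rw [if_neg h, if_neg h]
  rw [h1, Finset.sum_comm]
  refine Finset.sum_congr rfl fun n _ => ?_
  by_cases h : isP (n : ℤ)
  · rw [if_pos h]
    have hw := BRS_win 0 D (n : ℤ)
    rw [Nat.cast_zero] at hw
    rw [hw]
    refine Finset.sum_congr rfl fun a _ => ?_
    rw [if_pos h]
  · rw [if_neg h]
    apply Finset.sum_eq_zero
    intro a _
    rw [if_neg h]

/-- the final computation -/
private lemma RLO_num {e ε η κ A Dd Z T TD TG TB s G B : ℝ} (he : 0 < e) (he1 : e ≤ 1)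
    (heε : e ≤ ε) (hη0 : 0 ≤ η) (hη1 : η ≤ 1) (hZ : 0 < Z) (hA0 : 0 ≤ A) (hAD : A ≤ Dd)
    (hκ : 1 - e ≤ κ) (hT : κ * A * Z - e * Dd * Z ≤ T) (hsplit : T = TD + (TG + TB))
    (hTD : TD ≤ e * Dd * Z) (hTG : TG ≤ (48 + e) * (G * Z) + e * Dd * Z)
    (hTB : TB ≤ (1 - η) * (B * Z)) (hs : s = G + B) (hsA : s ≤ A + e * Dd) (hG : 0 ≤ G)
    (hB : 0 ≤ B) : η / 48 * A - ε * Dd ≤ G := by
  have hD0 : 0 ≤ Dd := hA0.trans hAD
  have h1 : (κ * A - e * Dd) * Z ≤ (2 * (e * Dd) + (1 - η) * B + (48 + e) * G) * Z := by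
    have : TD + (TG + TB) ≤ e * Dd * Z + (((48 + e) * (G * Z) + e * Dd * Z) + (1 - η) * (B * Z)) :=
      add_le_add hTD (add_le_add hTG hTB)
    have h2 := hT.trans (hsplit.le.trans this)
    have e1 : (κ * A - e * Dd) * Z = κ * A * Z - e * Dd * Z := by ring
    have e2 : (2 * (e * Dd) + (1 - η) * B + (48 + e) * G) * Z =
        e * Dd * Z + (((48 + e) * (G * Z) + e * Dd * Z) + (1 - η) * (B * Z)) := by ring
    rw [e1, e2]
    exact h2
  have h2 := le_of_mul_le_mul_right h1 hZ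
  have h3 : (1 - e) * A ≤ κ * A := mul_le_mul_of_nonneg_right hκ hA0
  have h4 : e * A ≤ e * Dd := mul_le_mul_of_nonneg_left hAD he.le
  have h5 : B ≤ A + e * Dd - G := by linarith
  have h6 : (1 - η) * B ≤ (1 - η) * (A + e * Dd - G) := mul_le_mul_of_nonneg_left h5 (by linarith)
  have h7 : 0 ≤ η * (e * Dd) := by positivity
  have h8 : η * G ≤ 1 * G := mul_le_mul_of_nonneg_right hη1 hG
  have h9 : G ≤ 2 * Dd := by
    have : e * Dd ≤ 1 * Dd := mul_le_mul_of_nonneg_right he1 hD0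
    linarith
  have h10 : e * G ≤ e * (2 * Dd) := mul_le_mul_of_nonneg_left h9 he.le
  have h11 : e * Dd ≤ ε * Dd := mul_le_mul_of_nonneg_right heε hD0
  have h12 : 0 ≤ e * Dd := by positivity
  nlinarith

theorem RLO (ε : ℝ) (hε : 0 < ε) : ∃ ε' K X : ℝ, 0 < ε' ∧ 1 ≤ K ∧ ∀ x : ℝ, X ≤ x → ∀ D : ℕ, K * Real.log x ≤ D → (D : ℝ) ≤ (Real.log x) ^ 2 →
    ∀ κ : ℝ, 1 - ε' ≤ κ → BoxF (p3 x) x ε' κ D → ∀ η : ℝ, 0 ≤ η → η ≤ 1 → LowF x η ε D := by
  obtain ⟨e, he⟩ : ∃ e : ℝ, e = min ε 1 := ⟨_, rfl⟩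
  have he0 : 0 < e := by rw [he]; exact lt_min hε one_pos
  have he1 : e ≤ 1 := by rw [he]; exact min_le_right _ _
  have heε : e ≤ ε := by rw [he]; exact min_le_left _ _
  obtain ⟨X₁, h1⟩ := RSU e he0
  obtain ⟨X₂, h2⟩ := primeTriples_upper he0
  obtain ⟨C, X₃, hC, h3⟩ := CRU2
  have t1 := (Real.isLittleO_pow_log_id_atTop (n := 3)).def (show (0 : ℝ) < e / 3 by positivity)
  have t2 := Real.tendsto_log_atTop.eventually_ge_atTop 2
  have t3 := Filter.eventually_ge_atTop (1 : ℝ)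
  obtain ⟨X₄, h4⟩ := Filter.eventually_atTop.mp (t1.and (t2.and t3))
  refine ⟨e, 1 + C / e, max (max X₁ X₂) (max X₃ X₄), he0, ?_, ?_⟩
  · have : 0 < C / e := by positivity
    linarith
  intro x hx D hD1 hD2 κ hκ hbox η hη0 hη1
  have hx1 : X₁ ≤ x := ((le_max_left _ _).trans (le_max_left _ _)).trans hx
  have hx2 : X₂ ≤ x := ((le_max_right _ _).trans (le_max_left _ _)).trans hx
  have hx3 : X₃ ≤ x := ((le_max_left _ _).trans (le_max_right _ _)).trans hx
  have hx4 : X₄ ≤ x := ((le_max_right _ _).trans (le_max_right _ _)).trans hx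
  obtain ⟨g1, hL, hx0⟩ := h4 x hx4
  obtain ⟨L, hLd⟩ : ∃ L, L = Real.log x := ⟨_, rfl⟩
  rw [← hLd] at g1 hL hD1 hD2
  have hL0 : 0 < L := by linarith
  have hxp : 0 < x := by linarith
  have g1' : L ^ 3 ≤ e / 3 * x := by
    have := g1
    rw [Real.norm_eq_abs, Real.norm_eq_abs, abs_of_nonneg (by positivity)] at this
    simpa [abs_of_pos hxp] using this
  have hLD : L ≤ (D : ℝ) := by
    have : 0 ≤ C / e * L := by positivity
    linarith
  have hCD : C * L ≤ e * (D : ℝ) := by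
    have h5 : C / e * L ≤ (D : ℝ) := by linarith
    calc C * L = e * (C / e * L) := by field_simp
      _ ≤ e * (D : ℝ) := mul_le_mul_of_nonneg_left h5 he0.le
  have hD0 : (0 : ℝ) < D := by linarith
  obtain ⟨Z, hZd⟩ : ∃ Z, Z = x / L ^ 3 := ⟨_, rfl⟩
  have hZ0 : 0 < Z := by rw [hZd]; positivity
  have hZ3 : 3 ≤ e * Z := by
    rw [hZd, ← mul_div_assoc, le_div_iff₀ (by positivity)]
    linarith
  -- the diagonal
  have hdiag : ∑ a ∈ Ioc 0 D, p3 x a a ≤ e * (D : ℝ) ^ 2 * Z := by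
    rw [RLO_diag]
    refine (h3 x hx3 D (by rw [← hLd]; exact hLD) (by
      rw [← hLd]
      have : 2 * (D : ℝ) ≤ L * L ^ 2 := mul_le_mul hL hD2 hD0.le hL0.le
      calc 2 * (D : ℝ) ≤ L * L ^ 2 := this
        _ = L ^ 3 := by ring)).trans ?_
    rw [← hLd]
    have h5 : x / L ^ 2 = L * Z := by
      rw [hZd]
      field_simp
    rw [h5]
    calc C * (D : ℝ) * (L * Z) = (C * L) * ((D : ℝ) * Z) := by ring
      _ ≤ (e * (D : ℝ)) * ((D : ℝ) * Z) := mul_le_mul_of_nonneg_right hCD (by positivity)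
      _ = e * (D : ℝ) ^ 2 * Z := by ring
  -- the pairs
  have hpair : ∀ a b : ℕ, 0 < a → 0 < b → a ≤ D → b ≤ D → a ≠ b → 0 ≤ singularSeries a b ∧
      p3 x a b ≤ (48 + e) * (singularSeries a b * Z) + 3 := by
    intro a b ha hb haD hbD hab
    have h5 : (a : ℝ) ≤ (Real.log x) ^ 2 := by
      rw [← hLd]
      exact le_trans (by exact_mod_cast haD) hD2
    have h6 : (b : ℝ) ≤ (Real.log x) ^ 2 := by
      rw [← hLd]
      exact le_trans (by exact_mod_cast hbD) hD2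
    have h7 := RLO_ne h2 hx2 ha hb hab h5 h6
    rw [← hLd, ← hZd] at h7
    exact h7
  intro u1 v1 u2 v2 hu1 hv1 hu2 hv2
  have hb1 := hbox u1 v1 u2 v2 hu1 hv1 hu2 hv2
  have hr1 := h1 x hx1 D (by rw [← hLd]; exact hLD) (by rw [← hLd]; exact hD2) u1 v1 u2 v2 hu1 hv1 hu2 hv2
  rw [← hLd, ← hZd] at hb1 ⊢
  obtain ⟨R, hR⟩ : ∃ R : Finset (ℕ × ℕ), R = Ioc u1 v1 ×ˢ Ioc u2 v2 := ⟨_, rfl⟩
  obtain ⟨Nn, hN⟩ : ∃ N : Finset (ℕ × ℕ), N = R.filter (fun q => q.1 ≠ q.2) := ⟨_, rfl⟩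
  classical
  obtain ⟨Gs, hGs⟩ : ∃ G : Finset (ℕ × ℕ), G = Nn.filter (fun q =>
    (1 - η) * (singularSeries q.1 q.2 * Z) ≤ p3 x q.1 q.2) := ⟨_, rfl⟩
  obtain ⟨Bs, hBs⟩ : ∃ G : Finset (ℕ × ℕ), G = Nn.filter (fun q =>
    ¬ (1 - η) * (singularSeries q.1 q.2 * Z) ≤ p3 x q.1 q.2) := ⟨_, rfl⟩
  have hRmem : ∀ q ∈ R, 0 < q.1 ∧ 0 < q.2 ∧ q.1 ≤ D ∧ q.2 ≤ D := by
    intro q hq
    rw [hR, Finset.mem_product, Finset.mem_Ioc, Finset.mem_Ioc] at hq
    omega
  have hNmem : ∀ q ∈ Nn, 0 ≤ singularSeries q.1 q.2 ∧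
      p3 x q.1 q.2 ≤ (48 + e) * (singularSeries q.1 q.2 * Z) + 3 := by
    intro q hq
    rw [hN, Finset.mem_filter] at hq
    obtain ⟨a1, a2, a3, a4⟩ := hRmem q hq.1
    exact hpair q.1 q.2 a1 a2 a3 a4 hq.2
  have hRcard : (R.card : ℝ) ≤ (D : ℝ) ^ 2 := by
    rw [hR, Finset.card_product, Nat.card_Ioc, Nat.card_Ioc, sq]
    have h5 : (v1 - u1) * (v2 - u2) ≤ D * D := Nat.mul_le_mul (by omega) (by omega)
    exact_mod_cast h5
  -- the total
  have hT : ∑ a ∈ Ioc u1 v1, ∑ b ∈ Ioc u2 v2, p3 x a b = ∑ q ∈ R, p3 x q.1 q.2 := by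
    rw [hR, Finset.sum_product]
  have hTs : ∑ q ∈ R, p3 x q.1 q.2 = ∑ q ∈ R.filter (fun q => ¬ q.1 ≠ q.2), p3 x q.1 q.2 +
      (∑ q ∈ Gs, p3 x q.1 q.2 + ∑ q ∈ Bs, p3 x q.1 q.2) := by
    rw [hGs, hBs, Finset.sum_filter_add_sum_filter_not, hN, add_comm,
      Finset.sum_filter_add_sum_filter_not]
  have hDg : ∑ q ∈ R.filter (fun q => ¬ q.1 ≠ q.2), p3 x q.1 q.2 ≤ e * (D : ℝ) ^ 2 * Z := by
    refine le_trans ?_ hdiag
    have h5 : ∑ q ∈ R.filter (fun q => ¬ q.1 ≠ q.2), p3 x q.1 q.2 =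
        ∑ a ∈ (R.filter (fun q => ¬ q.1 ≠ q.2)).image Prod.fst, p3 x a a := by
      rw [Finset.sum_image]
      · refine Finset.sum_congr rfl fun q hq => ?_
        have h6 := (Finset.mem_filter.1 hq).2
        rw [not_not] at h6
        rw [← h6]
      · intro q hq q' hq' h
        have h6 := (Finset.mem_filter.1 hq).2
        have h7 := (Finset.mem_filter.1 hq').2
        rw [not_not] at h6 h7
        refine Prod.ext h ?_
        rw [← h6, ← h7]
        exact h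
    rw [h5]
    apply Finset.sum_le_sum_of_subset_of_nonneg
    · intro a ha
      rw [Finset.mem_image] at ha
      obtain ⟨q, hq, rfl⟩ := ha
      obtain ⟨a1, a2, a3, a4⟩ := hRmem q (Finset.mem_filter.1 hq).1
      rw [Finset.mem_Ioc]
      exact ⟨a1, a3⟩
    · intro a _ _
      exact p3_nonneg x a a
  have hGsum : ∑ q ∈ Gs, p3 x q.1 q.2 ≤
      (48 + e) * ((∑ q ∈ Gs, singularSeries q.1 q.2) * Z) + e * (D : ℝ) ^ 2 * Z := by
    have h5 : ∑ q ∈ Gs, p3 x q.1 q.2 ≤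
        ∑ q ∈ Gs, ((48 + e) * (singularSeries q.1 q.2 * Z) + 3) := by
      apply Finset.sum_le_sum
      intro q hq
      rw [hGs, Finset.mem_filter] at hq
      exact (hNmem q hq.1).2
    refine h5.trans ?_
    rw [Finset.sum_add_distrib, ← Finset.mul_sum, ← Finset.sum_mul, Finset.sum_const, nsmul_eq_mul]
    have h6 : (Gs.card : ℝ) ≤ (D : ℝ) ^ 2 := by
      refine le_trans ?_ hRcard
      have : Gs.card ≤ R.card := by
        rw [hGs, hN]
        exact (Finset.card_filter_le _ _).trans (Finset.card_filter_le _ _)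
      exact_mod_cast this
    have h7 : (Gs.card : ℝ) * 3 ≤ (D : ℝ) ^ 2 * (e * Z) :=
      mul_le_mul h6 hZ3 (by norm_num) (by positivity)
    have h8 : (D : ℝ) ^ 2 * (e * Z) = e * (D : ℝ) ^ 2 * Z := by ring
    linarith
  have hBsum : ∑ q ∈ Bs, p3 x q.1 q.2 ≤
      (1 - η) * ((∑ q ∈ Bs, singularSeries q.1 q.2) * Z) := by
    rw [Finset.sum_mul, Finset.mul_sum]
    apply Finset.sum_le_sum
    intro q hq
    rw [hBs, Finset.mem_filter, not_le] at hq
    exact hq.2.le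
  have hs : ∑ a ∈ Ioc u1 v1, ∑ b ∈ (Ioc u2 v2).erase a, singularSeries a b =
      ∑ q ∈ Gs, singularSeries q.1 q.2 + ∑ q ∈ Bs, singularSeries q.1 q.2 := by
    rw [hGs, hBs, Finset.sum_filter_add_sum_filter_not, hN, Finset.sum_filter, hR,
      Finset.sum_product]
    refine Finset.sum_congr rfl fun a _ => ?_
    rw [← Finset.sum_filter]
    refine Finset.sum_congr ?_ fun b _ => rfl
    ext b
    rw [Finset.mem_erase, Finset.mem_filter]
    constructor
    · rintro ⟨h5, h6⟩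
      exact ⟨h6, fun h => h5 h.symm⟩
    · rintro ⟨h5, h6⟩
      exact ⟨fun h => h6 h.symm, h5⟩
  have hGnn : 0 ≤ ∑ q ∈ Gs, singularSeries q.1 q.2 := by
    apply Finset.sum_nonneg
    intro q hq
    rw [hGs, Finset.mem_filter] at hq
    exact (hNmem q hq.1).1
  have hBnn : 0 ≤ ∑ q ∈ Bs, singularSeries q.1 q.2 := by
    apply Finset.sum_nonneg
    intro q hq
    rw [hBs, Finset.mem_filter] at hq
    exact (hNmem q hq.1).1
  have hGoal : ∑ a ∈ Ioc u1 v1, ∑ b ∈ Ioc u2 v2,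
        (if a ≠ b ∧ (1 - η) * (singularSeries a b * Z) ≤ p3 x a b then singularSeries a b else 0) =
      ∑ q ∈ Gs, singularSeries q.1 q.2 := by
    rw [hGs, hN, Finset.filter_filter, Finset.sum_filter, hR, Finset.sum_product]
  have hu1' : (u1 : ℝ) ≤ v1 := by exact_mod_cast hu1
  have hu2' : (u2 : ℝ) ≤ v2 := by exact_mod_cast hu2
  have hv1' : (v1 : ℝ) ≤ D := by exact_mod_cast hv1
  have hv2' : (v2 : ℝ) ≤ D := by exact_mod_cast hv2
  have hu10 : (0 : ℝ) ≤ u1 := Nat.cast_nonneg _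
  have hu20 : (0 : ℝ) ≤ u2 := Nat.cast_nonneg _
  have hfin := RLO_num (T := ∑ q ∈ R, p3 x q.1 q.2)
    (A := ((v1 : ℝ) - u1) * ((v2 : ℝ) - u2)) (Dd := (D : ℝ) ^ 2) he0 he1 heε hη0 hη1 hZ0
    (mul_nonneg (by linarith) (by linarith)) (by
      rw [sq]
      exact mul_le_mul (by linarith) (by linarith) (by linarith) (by linarith)) hκ (by
      rw [hT] at hb1
      have h5 := (abs_le.1 hb1).1
      linarith) hTs hDg hGsum hBsum hs hr1 hGnn hBnn
  refine hfin.trans (le_of_eq ?_)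
  rw [← hGoal]

end Pool.Agent.H96.EQ
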